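import Pool.Agent.Lib.MP_0d9445_pr.BM.Wiener

/-!
The drifted Brownian motion after its last zero is locally absolutely continuous with respect to
Brownian motion.
-/

open MeasureTheory ProbabilityTheory Set Filter Topology Metric
open scoped NNReal ENNReal

noncomputable section

namespace Pool.Agent.Lib.MP_0d9445_pr.BM

/-- the values along a dense sequence -/
def dens (w : ℝ≥0 → ℝ) (n : ℕ) : ℝ := w (TopologicalSpace.denseSeq ℝ≥0 n)

/-- the continuous path with the same values along a dense sequence, if there is one -/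
def toCts (w : ℝ≥0 → ℝ) : C(ℝ≥0, ℝ) :=
  Function.extend (fun y : C(ℝ≥0, ℝ) => dens y) id (fun _ => 0) (dens w)

theorem dens_injective : Function.Injective fun y : C(ℝ≥0, ℝ) => dens y := fun y y' h =>
  ContinuousMap.ext fun t => congrFun ((TopologicalSpace.denseRange_denseSeq ℝ≥0).equalizer
    y.continuous y'.continuous h) t

theorem toCts_coe (y : C(ℝ≥0, ℝ)) : toCts y = y := dens_injective.extend_apply id _ y

theorem toCts_apply {w : ℝ≥0 → ℝ} (hw : Continuous w) (t : ℝ≥0) : toCts w t = w t :=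
  congrArg (fun y : C(ℝ≥0, ℝ) => y t) (toCts_coe ⟨w, hw⟩)

theorem measurable_toCts [MeasurableSpace C(ℝ≥0, ℝ)] [BorelSpace C(ℝ≥0, ℝ)] : Measurable toCts := by
  have he : MeasurableEmbedding fun y : C(ℝ≥0, ℝ) => dens y :=
    Continuous.measurableEmbedding (by unfold dens; fun_prop) dens_injective
  exact (he.measurable_extend measurable_id measurable_const).comp (by unfold dens; fun_prop)

/-- the last zero of `w u + k u` -/
def lastZ (k : ℝ) (w : ℝ≥0 → ℝ) : ℝ≥0 := sSup {u | w u + k * u = 0}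

/-- the path after its last zero and a delay `t` -/
def afterZ (k : ℝ) (t : ℝ≥0) (w : ℝ≥0 → ℝ) (u : ℝ≥0) : ℝ :=
  toCts w (lastZ k (toCts w) + (t + u)) + k * lastZ k (toCts w)

theorem afterZ_apply (k : ℝ) (t : ℝ≥0) {w : ℝ≥0 → ℝ} (hw : Continuous w) (u : ℝ≥0) :
    afterZ k t w u = w (lastZ k w + (t + u)) + k * lastZ k w := by
  have : (toCts w : ℝ≥0 → ℝ) = w := funext (toCts_apply hw)
  rw [afterZ, this]

namespace RadAux

local instance : MeasurableSpace C(ℝ≥0, ℝ) := borel _
local instance : BorelSpace C(ℝ≥0, ℝ) := ⟨rfl⟩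

theorem isClosed_zero (k : ℝ) (s q : ℝ≥0) :
    IsClosed {y : C(ℝ≥0, ℝ) | ∃ u ∈ Icc s q, y u + k * u = 0} := by
  have h1 := ContinuousMap.isOpen_setOfPred_mapsTo (isCompact_Icc (a := s) (b := q))
    (isOpen_compl_singleton (x := (0 : ℝ)))
  have h2 : Continuous fun y : C(ℝ≥0, ℝ) => y + (⟨fun u => k * u, by fun_prop⟩ : C(ℝ≥0, ℝ)) := by
    fun_prop
  refine isOpen_compl_iff.1 ?_
  convert h1.preimage h2 using 1
  ext y
  simp [MapsTo]

theorem le_sSup_iff {S : Set ℝ≥0} (hS : IsClosed S) {s : ℝ≥0} (hs : s ≠ 0) :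
    s ≤ sSup S ↔ BddAbove S ∧ ∃ u ∈ S, s ≤ u := by
  constructor
  · intro h
    by_cases hb : BddAbove S
    · rcases S.eq_empty_or_nonempty with rfl | hn
      · simp [hs] at h
      · exact ⟨hb, _, hS.csSup_mem hn hb, h⟩
    · rw [csSup_of_not_bddAbove hb] at h
      simp [hs] at h
  · rintro ⟨hb, u, hu, hsu⟩
    exact hsu.trans (le_csSup hb hu)

theorem measurable_lastZ (k : ℝ) : Measurable fun y : C(ℝ≥0, ℝ) => lastZ k y := by
  refine measurable_of_Ici fun s => ?_
  by_cases hs : s = 0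
  · simp [hs]
  have : (fun y : C(ℝ≥0, ℝ) => lastZ k y) ⁻¹' Ici s =
      (⋃ n : ℕ, ⋂ m : ℕ, {y : C(ℝ≥0, ℝ) | ∃ u ∈ Icc (n : ℝ≥0) m, y u + k * u = 0}ᶜ) ∩
        ⋃ m : ℕ, {y : C(ℝ≥0, ℝ) | ∃ u ∈ Icc s m, y u + k * u = 0} := by
    ext y
    have hc : IsClosed {u : ℝ≥0 | y u + k * u = 0} := isClosed_eq (by fun_prop) continuous_const
    simp only [mem_preimage, mem_Ici, lastZ, le_sSup_iff hc hs, mem_inter_iff, mem_iUnion,
      mem_iInter, mem_compl_iff, mem_ofPred_eq]
    refine and_congr ⟨?_, ?_⟩ ⟨?_, ?_⟩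
    · rintro ⟨b, hb⟩
      obtain ⟨n, hn⟩ := exists_nat_gt b
      exact ⟨n, fun m ⟨u, hu, h0⟩ => absurd (hu.1.trans (hb h0)) (not_le.2 hn)⟩
    · rintro ⟨n, hn⟩
      refine ⟨n, fun u hu => le_of_not_gt fun h => ?_⟩
      obtain ⟨m, hm⟩ := exists_nat_ge u
      exact hn m ⟨u, ⟨h.le, hm⟩, hu⟩
    · rintro ⟨u, hu, hsu⟩
      obtain ⟨m, hm⟩ := exists_nat_ge u
      exact ⟨m, u, ⟨hsu, hm⟩, hu⟩
    · rintro ⟨m, u, hu, h0⟩
      exact ⟨u, h0, hu.1⟩
  rw [this]
  exact (MeasurableSet.iUnion fun n => MeasurableSet.iInter fun m =>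
    (isClosed_zero k _ _).measurableSet.compl).inter
    (MeasurableSet.iUnion fun m => (isClosed_zero k _ _).measurableSet)

/-- the last zero before `q` -/
def lastB (k : ℝ) (q : ℝ≥0) (w : ℝ≥0 → ℝ) : ℝ≥0 := sSup {u | u ≤ q ∧ w u + k * u = 0}

theorem measurable_lastB (k : ℝ) (q : ℝ≥0) : Measurable fun y : C(ℝ≥0, ℝ) => lastB k q y := by
  refine measurable_of_Ici fun s => ?_
  by_cases hs : s = 0
  · simp [hs]
  have : (fun y : C(ℝ≥0, ℝ) => lastB k q y) ⁻¹' Ici s =
      {y : C(ℝ≥0, ℝ) | ∃ u ∈ Icc s q, y u + k * u = 0} := by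
    ext y
    have hc : IsClosed {u : ℝ≥0 | u ≤ q ∧ y u + k * u = 0} :=
      isClosed_Iic.inter (isClosed_eq (by fun_prop) continuous_const)
    simp only [mem_preimage, mem_Ici, lastB, le_sSup_iff hc hs, mem_ofPred_eq]
    exact ⟨fun ⟨_, u, hu, hsu⟩ => ⟨u, ⟨hsu, hu.1⟩, hu.2⟩,
      fun ⟨u, hu, h0⟩ => ⟨⟨q, fun _ h => h.1⟩, u, ⟨hu.2, h0⟩, hu.1⟩⟩
  rw [this]
  exact (isClosed_zero k _ _).measurableSet

theorem measurable_ev {α : Type*} [MeasurableSpace α] {y : α → C(ℝ≥0, ℝ)} {τ : α → ℝ≥0}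
    (hy : Measurable y) (hτ : Measurable τ) : Measurable fun a => y a (τ a) :=
  (continuous_eval (F := C(ℝ≥0, ℝ))).measurable.comp (hy.prodMk hτ)

variable {Ω Ω' : Type*} [MeasurableSpace Ω] [MeasurableSpace Ω'] {P : Measure Ω} {P' : Measure Ω'}
  {c : ℝ≥0 → Ω → ℝ} {β : ℝ≥0 → Ω' → ℝ}

theorem map_shift (hc : IsPreBrownianReal c P) (hm : ∀ t, Measurable (c t)) (a : ℝ) (σ : ℝ≥0) :
    P.map (fun ω u => a + c (σ + u) ω) = ((gaussianReal a σ).prod (P.map fun ω u => c u ω)).map
      fun p u => p.1 + p.2 u := by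
  have := hc.isGaussianProcess.isProbabilityMeasure
  have m1 : Measurable fun ω => a + c σ ω := (hm σ).const_add a
  have m2 : Measurable fun ω u => c (σ + u) ω - c σ ω :=
    measurable_pi_lambda _ fun u => (hm _).sub (hm _)
  have m3 : Measurable fun f : Iic σ → ℝ => a + f ⟨σ, self_mem_Iic⟩ := by fun_prop
  have h1 : IndepFun (fun ω => a + c σ ω) (fun ω u => c (σ + u) ω - c σ ω) P :=
    ((hc.indepFun_shift σ).comp measurable_id m3).symm
  have h2 := h1.map_prod_eq_prod_map_map m1.aemeasurable m2.aemeasurable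
  have h3 : P.map (fun ω => a + c σ ω) = gaussianReal a σ := by
    have := gaussianReal_map_const_add (μ := 0) (v := σ) a
    rw [zero_add, ← (hc.hasLaw_eval σ).map_eq, Measure.map_map (measurable_const_add a) (hm σ)]
      at this
    exact this
  rw [h3, WienerAux.law_unique (hc.shift σ) hc m2 (measurable_pi_lambda _ hm)] at h2
  rw [← h2, Measure.map_map (by fun_prop) (m1.prodMk m2)]
  congr 1
  funext ω u
  simp

theorem shift_ac (hc : IsPreBrownianReal c P) (hm : ∀ t, Measurable (c t))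
    (hβ : IsPreBrownianReal β P') (hm' : ∀ t, Measurable (β t)) (a : ℝ) {σ t : ℝ≥0} (hσ : σ ≠ 0)
    (ht : t ≠ 0) : P.map (fun ω u => a + c (σ + u) ω) ≪ P'.map fun ω u => β (t + u) ω := by
  have := hc.isGaussianProcess.isProbabilityMeasure
  have := hβ.isGaussianProcess.isProbabilityMeasure
  have h1 := map_shift hβ hm' 0 t
  simp only [zero_add] at h1
  rw [h1, map_shift hc hm, WienerAux.law_unique hc hβ (measurable_pi_lambda _ hm)
    (measurable_pi_lambda _ hm')]
  exact (((gaussianReal_absolutelyContinuous a hσ).trans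
    (gaussianReal_absolutelyContinuous' 0 ht)).prod Measure.AbsolutelyContinuous.rfl).map
    (by fun_prop)

end RadAux

open RadAux

theorem measurable_afterZ (k : ℝ) (t : ℝ≥0) : Measurable (afterZ k t) := by
  let _ : MeasurableSpace C(ℝ≥0, ℝ) := borel _
  have : BorelSpace C(ℝ≥0, ℝ) := ⟨rfl⟩
  have h1 : Measurable fun w => lastZ k (toCts w) := (measurable_lastZ k).comp measurable_toCts
  exact measurable_pi_lambda _ fun u => (measurable_ev measurable_toCts (h1.add_const _)).add
    (h1.coe_nnreal_real.const_mul k)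

theorem measurable_lastZ_toCts (k : ℝ) : Measurable fun w => lastZ k (toCts w) := by
  let _ : MeasurableSpace C(ℝ≥0, ℝ) := borel _
  have : BorelSpace C(ℝ≥0, ℝ) := ⟨rfl⟩
  exact (measurable_lastZ k).comp measurable_toCts

variable {Ω Ω' : Type*} [MeasurableSpace Ω] [MeasurableSpace Ω'] {P : Measure Ω} {P' : Measure Ω'}
  {c : ℝ≥0 → Ω → ℝ} {β : ℝ≥0 → Ω' → ℝ}

/-- the law of `u ↦ c (T + t + u) + k T`, where `T` is the last zero of `c u + k u`, is absolutely
continuous with respect to the law of `u ↦ β (t + u)` -/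
theorem afterZ_ac (hc : IsBrownianReal c P) (hm : ∀ t, Measurable (c t))
    (hβ : IsPreBrownianReal β P') (hm' : ∀ t, Measurable (β t)) (k : ℝ) {t : ℝ≥0} (ht : t ≠ 0) :
    P.map (fun ω => afterZ k t fun u => c u ω) ≪ P'.map fun ω u => β (t + u) ω := by
  let _ : MeasurableSpace C(ℝ≥0, ℝ) := borel _
  have : BorelSpace C(ℝ≥0, ℝ) := ⟨rfl⟩
  have := hc.isGaussianProcess.isProbabilityMeasure
  have hcm : Measurable fun ω u => c u ω := measurable_pi_lambda _ hm
  refine Measure.AbsolutelyContinuous.mk fun E hE h0 => ?_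
  refine (Measure.map_apply ((measurable_afterZ k t).comp hcm) hE).trans ?_
  have hsh : ∀ (a : ℝ) (σ : ℝ≥0), σ ≠ 0 → ∀ᵐ ω ∂P, (fun u => a + c (σ + u) ω) ∉ E := fun a σ hσ => by
    have := shift_ac hc.toIsPreBrownianReal hm hβ hm' a hσ ht h0
    rw [Measure.map_apply (measurable_pi_lambda _ fun u => (hm _).const_add a) hE] at this
    exact measure_eq_zero_iff_ae_notMem.1 this
  let S : Set ((ℝ × ℝ≥0) × (ℝ≥0 → ℝ)) :=
    {p | p.1.2 ≠ 0} ∩ (fun p u => p.1.1 + toCts p.2 (p.1.2 + u)) ⁻¹' E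
  have hS : MeasurableSet S :=
    (measurable_fst.snd (measurableSet_singleton 0).compl).inter
      ((measurable_pi_lambda _ fun u => measurable_fst.fst.add (measurable_ev
        (measurable_toCts.comp measurable_snd) (measurable_fst.snd.add_const u))) hE)
  let Y : ℝ≥0 → (ℝ≥0 → ℝ) → ℝ × ℝ≥0 := fun q w =>
    (w q + k * lastB k q (toCts fun s => w (min s q)), lastB k q (toCts fun s => w (min s q)) + t - q)
  have key : ∀ q : ℝ≥0, ∀ᵐ ω ∂P,
      (Y q (fun u => c u ω), fun u => c (q + u) ω - c q ω) ∉ S := fun q => by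
    have m2 : Measurable fun ω u => c (q + u) ω - c q ω :=
      measurable_pi_lambda _ fun u => (hm _).sub (hm _)
    have m3 : Measurable fun f : Iic q → ℝ =>
        lastB k q (toCts fun s => f ⟨min s q, min_le_right s q⟩) :=
      (measurable_lastB k q).comp (measurable_toCts.comp (by fun_prop))
    have m4 : Measurable fun f : Iic q → ℝ => ((f ⟨q, self_mem_Iic⟩ +
        k * lastB k q (toCts fun s => f ⟨min s q, min_le_right s q⟩),
        lastB k q (toCts fun s => f ⟨min s q, min_le_right s q⟩) + t - q) : ℝ × ℝ≥0) :=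
      ((measurable_pi_apply _).add (m3.coe_nnreal_real.const_mul k)).prodMk
        ((m3.add_const t).sub_const q)
    have m1 : Measurable fun ω => Y q fun u => c u ω :=
      m4.comp (measurable_pi_lambda (fun ω (s : Iic q) => c s ω) fun s => hm s)
    have h1 : IndepFun (fun ω => Y q fun u => c u ω) (fun ω u => c (q + u) ω - c q ω) P :=
      ((hc.indepFun_shift q).comp measurable_id m4).symm
    have h2 := h1.map_prod_eq_prod_map_map m1.aemeasurable m2.aemeasurable
    rw [WienerAux.law_unique (hc.toIsPreBrownianReal.shift q) hc.toIsPreBrownianReal m2 hcm] at h2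
    refine measure_eq_zero_iff_ae_notMem.1 ?_
    refine (Measure.map_apply (m1.prodMk m2) hS).symm.trans ?_
    rw [h2, Measure.measure_prod_null hS]
    refine Eventually.of_forall fun y => ?_
    simp only [Pi.zero_apply]
    rw [Measure.map_apply hcm (measurable_prodMk_left hS)]
    by_cases hy : y.2 = 0
    · exact measure_mono_null (fun ω hω => absurd hy hω.1) measure_empty
    refine measure_eq_zero_iff_ae_notMem.2 ?_
    filter_upwards [hsh y.1 y.2 hy, hc.cont] with ω h3 h4 h5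
    refine h3 ?_
    have := h5.2
    simp only [mem_preimage, toCts_apply h4] at this
    exact this
  refine measure_eq_zero_iff_ae_notMem.2 ?_
  filter_upwards [hsh 0 t ht, hc.cont,
    ae_all_iff.2 fun q : ℚ => key (Real.toNNReal q)] with ω h1 h2 h3 h4
  have h5 : (fun u => c (lastZ k (fun u => c u ω) + (t + u)) ω + k * lastZ k fun u => c u ω) ∈ E := by
    have : (afterZ k t fun u => c u ω) ∈ E := h4
    rwa [funext (afterZ_apply k t h2)] at this
  set T := lastZ k fun u => c u ω with hT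
  by_cases hT0 : T = 0
  · refine h1 ?_
    simpa [hT0] using h5
  have hcl : IsClosed {u : ℝ≥0 | c u ω + k * u = 0} :=
    isClosed_eq (h2.add (by fun_prop)) continuous_const
  have hb := ((le_sSup_iff hcl hT0).1 le_rfl).1
  obtain ⟨q, hq1, hq2⟩ := (NNReal.lt_iff_exists_rat_btwn T (T + t)).1
    (lt_add_of_pos_right T (pos_iff_ne_zero.2 ht))
  set q' := Real.toNNReal q
  have hB : lastB k q' (toCts fun s => c (min s q') ω) = T := by
    have h6 : Continuous fun s => c (min s q') ω := h2.comp (continuous_id.min continuous_const)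
    rw [lastB, hT, lastZ]
    congr 1
    ext u
    simp only [mem_ofPred_eq, toCts_apply h6]
    exact ⟨fun h => by simpa [min_eq_left h.1] using h.2, fun h =>
      have hu : u ≤ q' := (le_csSup hb h).trans hq2.1.le
      ⟨hu, by rwa [min_eq_left hu]⟩⟩
  refine h3 q ⟨?_, ?_⟩
  · change lastB k q' (toCts fun s => c (min s q') ω) + t - q' ≠ 0
    rw [hB]
    exact (tsub_pos_of_lt hq2.2).ne'
  · have h7 : Continuous fun u => c (q' + u) ω - c q' ω :=
      (h2.comp (continuous_const.add continuous_id)).sub continuous_const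
    simp only [mem_preimage, Y]
    rw [hB]
    convert h5 using 2 with u
    change c q' ω + k * T + toCts (fun u => c (q' + u) ω - c q' ω) (T + t - q' + u) = _
    rw [toCts_apply h7, ← add_assoc q', add_tsub_cancel_of_le hq2.2.le, add_assoc T]
    ring

end Pool.Agent.Lib.MP_0d9445_pr.BM
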