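import Pool.Agent.Lib.MP_0d9445_pr.BM.Dynkin

open MeasureTheory ProbabilityTheory Set Filter Topology Metric
open scoped NNReal ENNReal Laplacian

noncomputable section

namespace Pool.Agent.Lib.MP_0d9445_pr.BM

variable {W : Measure Path}

namespace WeakAux

/-- directional derivative -/
def D (v : ℂ) (u : ℂ → ℝ) : ℂ → ℝ := fun z => fderiv ℝ u z v

/-- smoothing of `g` by the kernel `ρ` -/
def M (g ρ : ℂ → ℝ) : ℂ → ℝ := convolution g ρ (ContinuousLinearMap.lsmul ℝ ℝ) volume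

theorem M_apply (g ρ : ℂ → ℝ) (z : ℂ) : M g ρ z = ∫ y, g y * ρ (z - y) := rfl

theorem D_smooth {u : ℂ → ℝ} (hu : ContDiff ℝ (⊤ : ℕ∞) u) (v : ℂ) :
    ContDiff ℝ (⊤ : ℕ∞) (D v u) :=
  (hu.fderiv_right (m := (⊤ : ℕ∞)) (by simp)).clm_apply contDiff_const

theorem D_supp {u : ℂ → ℝ} (hu : HasCompactSupport u) (v : ℂ) : HasCompactSupport (D v u) :=
  hu.fderiv_apply (𝕜 := ℝ) v

theorem lap_eq {u : ℂ → ℝ} (hu : ContDiff ℝ (⊤ : ℕ∞) u) (z : ℂ) :
    Δ u z = D 1 (D 1 u) z + D Complex.I (D Complex.I u) z := by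
  have h1 : DifferentiableAt ℝ (fderiv ℝ u) z :=
    ((hu.fderiv_right (m := (⊤ : ℕ∞)) (by simp)).differentiable (by simp)) z
  have h2 : ∀ v : ℂ, D v (D v u) z = fderiv ℝ (fderiv ℝ u) z v v := by
    intro v
    show fderiv ℝ (fun y => fderiv ℝ u y v) z v = _
    rw [fderiv_clm_apply h1 (differentiableAt_const v)]
    simp
  rw [InnerProductSpace.laplacian_eq_iteratedFDeriv_complexPlane, h2, h2]
  simp [iteratedFDeriv_two_apply]

theorem D_M {g ρ : ℂ → ℝ} (hg : Continuous g) (hρ : ContDiff ℝ (⊤ : ℕ∞) ρ)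
    (hs : HasCompactSupport ρ) (v : ℂ) : D v (M g ρ) = M g (D v ρ) := by
  funext z
  have h1 : ContDiff ℝ 1 ρ := hρ.of_le (by exact_mod_cast le_top)
  have h2 := hs.hasFDerivAt_convolution_right (ContinuousLinearMap.lsmul ℝ ℝ)
    (hg.locallyIntegrable (μ := volume)) h1 z
  show fderiv ℝ (convolution g ρ (ContinuousLinearMap.lsmul ℝ ℝ) volume) z v = _
  rw [h2.fderiv, convolution_precompR_apply _ hg.locallyIntegrable (hs.fderiv ℝ)
    (h1.continuous_fderiv one_ne_zero)]
  rfl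

theorem M_smooth {g ρ : ℂ → ℝ} (hg : Continuous g) (hρ : ContDiff ℝ (⊤ : ℕ∞) ρ)
    (hs : HasCompactSupport ρ) : ContDiff ℝ (⊤ : ℕ∞) (M g ρ) :=
  hs.contDiff_convolution_right _ hg.locallyIntegrable hρ

theorem refl_smooth {ρ : ℂ → ℝ} (hρ : ContDiff ℝ (⊤ : ℕ∞) ρ) (z : ℂ) :
    ContDiff ℝ (⊤ : ℕ∞) fun y => ρ (z - y) :=
  hρ.comp (contDiff_const.sub contDiff_id)

theorem D_refl {ρ : ℂ → ℝ} (hρ : ContDiff ℝ (⊤ : ℕ∞) ρ) (z v : ℂ) (c : ℝ) :
    D v (fun y => c * ρ (z - y)) = fun y => (-c) * D v ρ (z - y) := by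
  funext y
  have h1 : HasFDerivAt ρ (fderiv ℝ ρ (z - y)) (z - y) :=
    (hρ.differentiable (by simp) (z - y)).hasFDerivAt
  have h2 : HasFDerivAt (fun y : ℂ => z - y) (-ContinuousLinearMap.id ℝ ℂ) y :=
    (hasFDerivAt_id y).const_sub z
  have h3 := (h1.comp y h2).const_mul c
  show fderiv ℝ (fun y => c * ρ (z - y)) y v = _
  have h4 : fderiv ℝ (fun y => c * ρ (z - y)) y = _ := h3.fderiv
  rw [h4]
  simp [D]

theorem lap_refl {ρ : ℂ → ℝ} (hρ : ContDiff ℝ (⊤ : ℕ∞) ρ) (z y : ℂ) :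
    Δ (fun y => ρ (z - y)) y =
      D 1 (D 1 ρ) (z - y) + D Complex.I (D Complex.I ρ) (z - y) := by
  have h : ∀ v : ℂ, D v (D v fun y => ρ (z - y)) y = D v (D v ρ) (z - y) := by
    intro v
    have e1 := D_refl hρ z v 1
    simp only [one_mul] at e1
    rw [e1, D_refl (D_smooth hρ v) z v (-1)]
    simp
  rw [lap_eq (refl_smooth hρ z), h, h]

theorem lap_M {g ρ : ℂ → ℝ} (hg : Continuous g) (hρ : ContDiff ℝ (⊤ : ℕ∞) ρ)
    (hs : HasCompactSupport ρ) (z : ℂ) :
    (1 / 2 : ℝ) * Δ (M g ρ) z = ∫ y, g y * ((1 / 2 : ℝ) * Δ (fun y => ρ (z - y)) y) := by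
  have hi : ∀ v : ℂ, Integrable fun y => g y * D v (D v ρ) (z - y) := fun v =>
    (D_supp (D_supp hs v) v).convolutionExists_right (ContinuousLinearMap.lsmul ℝ ℝ)
      hg.locallyIntegrable (D_smooth (D_smooth hρ v) v).continuous z
  rw [lap_eq (M_smooth hg hρ hs), D_M hg hρ hs, D_M hg hρ hs,
    D_M hg (D_smooth hρ _) (D_supp hs _), D_M hg (D_smooth hρ _) (D_supp hs _), M_apply, M_apply,
    ← integral_add (hi _) (hi _), ← integral_const_mul]
  refine integral_congr_ae (Eventually.of_forall fun y => ?_)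
  simp only [lap_refl hρ]
  ring

theorem lap_zero {η : ℂ → ℝ} {z : ℂ} (hz : z ∉ tsupport η) : Δ η z = 0 := by
  have h : η =ᶠ[𝓝 z] fun _ => (0 : ℝ) := notMem_tsupport_iff_eventuallyEq.1 hz
  rw [InnerProductSpace.laplacian_eq_iteratedFDeriv_complexPlane]
  have h2 : iteratedFDeriv ℝ 2 η z = iteratedFDeriv ℝ 2 (fun _ : ℂ => (0 : ℝ)) z :=
    (h.iteratedFDeriv ℝ 2).eq_of_nhds
  simp [h2]

theorem exists_ext {K : Set ℂ} (hK : IsCompact K) {g : ℂ → ℝ} (hg : ContinuousOn g K) :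
    ∃ g₁ : ℂ → ℝ, Continuous g₁ ∧ HasCompactSupport g₁ ∧ EqOn g₁ g K := by
  obtain ⟨G, hG⟩ := ContinuousMap.exists_restrict_eq hK.isClosed
    (⟨K.domRestrict g, hg.domRestrict⟩ : C(K, ℝ))
  obtain ⟨χ, h1, -, h2, -⟩ := exists_continuous_one_zero_of_isCompact hK isClosed_empty
    (disjoint_empty K)
  refine ⟨fun z => χ z * G z, by fun_prop, h2.mul_right, fun z hz => ?_⟩
  have e : G z = g z := congrArg (fun F : C(K, ℝ) => F ⟨z, hz⟩) hG
  have e1 : χ z = 1 := h1 hz
  simp [e, e1]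

/-- the kernels -/
def bump (n : ℕ) : ContDiffBump (0 : ℂ) :=
  ⟨1 / ((n : ℝ) + 1) / 2, 1 / ((n : ℝ) + 1), by positivity, half_lt_self (by positivity)⟩

def ker (n : ℕ) : ℂ → ℝ := (bump n).normed volume

theorem ker_smooth (n : ℕ) : ContDiff ℝ (⊤ : ℕ∞) (ker n) := (bump n).contDiff_normed

theorem ker_supp (n : ℕ) : HasCompactSupport (ker n) := (bump n).hasCompactSupport_normed

theorem approx {g : ℂ → ℝ} (hg : Continuous g) (hs : HasCompactSupport g) :
    ∃ e : ℕ → ℝ, Tendsto e atTop (𝓝 0) ∧ ∀ n z, |M g (ker n) z - g z| ≤ e n := by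
  obtain ⟨C, hC⟩ := hg.bounded_above_of_compact_support hs
  have huc : UniformContinuous g := hg.uniformContinuous_of_tendsto_cocompact
    hs.is_zero_at_infty
  have key : ∀ (n : ℕ) (ε : ℝ), (∀ x y : ℂ, dist x y < 1 / ((n : ℝ) + 1) → dist (g x) (g y) ≤ ε) →
      ∀ z, |M g (ker n) z - g z| ≤ ε := by
    intro n ε h z
    have h1 := (bump n).dist_normed_convolution_le (μ := volume) (x₀ := z) (ε := ε)
      hg.aestronglyMeasurable fun x hx => h x z hx
    rw [convolution_lsmul_swap, Real.dist_eq] at h1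
    rw [M_apply]
    simpa only [smul_eq_mul, mul_comm, ker] using h1
  have hb : ∀ n, BddAbove (range fun z => |M g (ker n) z - g z|) := by
    intro n
    refine ⟨C + C, ?_⟩
    rintro _ ⟨z, rfl⟩
    refine key n _ (fun x y _ => ?_) z
    rw [dist_eq_norm]
    exact (norm_sub_le _ _).trans (add_le_add (hC x) (hC y))
  refine ⟨fun n => ⨆ z, |M g (ker n) z - g z|, ?_, fun n z => le_ciSup (hb n) z⟩
  rw [Metric.tendsto_atTop]
  intro ε hε
  obtain ⟨δ, hδ, h⟩ := Metric.uniformContinuous_iff.1 huc (ε / 2) (half_pos hε)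
  obtain ⟨N, hN⟩ := exists_nat_one_div_lt hδ
  refine ⟨N, fun n hn => ?_⟩
  have h1 : 1 / ((n : ℝ) + 1) < δ := by
    refine lt_of_le_of_lt ?_ hN
    have : (N : ℝ) ≤ n := by exact_mod_cast hn
    gcongr
  have h2 : ⨆ z, |M g (ker n) z - g z| ≤ ε / 2 :=
    ciSup_le (key n _ fun x y hxy => (h (hxy.trans h1)).le)
  have h3 : 0 ≤ ⨆ z, |M g (ker n) z - g z| := (abs_nonneg _).trans (le_ciSup (hb n) 0)
  rw [Real.dist_eq, sub_zero, abs_of_nonneg h3]
  linarith

theorem prim_tendsto {g : ℝ → ℝ} {gn : ℕ → ℝ → ℝ} (hg : Continuous g)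
    (hgn : ∀ n, Continuous (gn n)) {e : ℕ → ℝ} (he : Tendsto e atTop (𝓝 0))
    (hu : ∀ n s, 0 ≤ s → |gn n s - g s| ≤ e n) {t : ℕ → ℝ} {T : ℝ} (ht0 : ∀ n, 0 ≤ t n)
    (ht : Tendsto t atTop (𝓝 T)) :
    Tendsto (fun n => ∫ s in (0 : ℝ)..t n, gn n s) atTop (𝓝 (∫ s in (0 : ℝ)..T, g s)) := by
  have h1 : Tendsto (fun n => ∫ s in (0 : ℝ)..t n, g s) atTop (𝓝 (∫ s in (0 : ℝ)..T, g s)) :=
    ((intervalIntegral.continuous_primitive (fun a b => hg.intervalIntegrable a b) 0).tendsto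
      T).comp ht
  have h2 : Tendsto (fun n => ∫ s in (0 : ℝ)..t n, (gn n s - g s)) atTop (𝓝 0) := by
    have h3 : Tendsto (fun n => e n * |t n - 0|) atTop (𝓝 (0 * |T - 0|)) :=
      he.mul (ht.sub_const 0).abs
    rw [zero_mul] at h3
    refine squeeze_zero_norm (fun n => ?_) h3
    refine intervalIntegral.norm_integral_le_of_norm_le_const fun s hs => hu n s ?_
    rw [uIoc_of_le (ht0 n)] at hs
    exact hs.1.le
  have h4 := h1.add h2
  rw [add_zero] at h4
  refine h4.congr fun n => ?_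
  rw [intervalIntegral.integral_sub ((hgn n).intervalIntegrable _ _) (hg.intervalIntegrable _ _)]
  ring

theorem meas_end {τ : Path → ℝ≥0∞} (hτ : Measurable τ) {u : ℂ → ℝ} (hu : Continuous u) (a : ℝ) :
    Measurable fun ω : Path => Real.exp (-a * (τ ω).toReal) * u (ω (τ ω).toNNReal) := by
  have h1 : Measurable fun ω : Path => ω (τ ω).toNNReal :=
    continuous_evalPath.measurable.comp (measurable_id.prodMk hτ.ennreal_toNNReal)
  exact (Real.measurable_exp.comp (hτ.ennreal_toReal.const_mul _)).mul (hu.measurable.comp h1)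

theorem cont_run {u : ℂ → ℝ} (hu : Continuous u) (a : ℝ) :
    Continuous fun p : Path × ℝ => Real.exp (-a * p.2) * u (p.1 p.2.toNNReal) := by
  have h1 : Continuous fun p : Path × ℝ => p.1 p.2.toNNReal :=
    continuous_evalPath.comp (continuous_fst.prodMk (continuous_real_toNNReal.comp continuous_snd))
  exact (Real.continuous_exp.comp (continuous_const.mul continuous_snd)).mul (hu.comp h1)

theorem meas_run {τ : Path → ℝ≥0∞} (hτ : Measurable τ) {u : ℂ → ℝ} (hu : Continuous u) (a : ℝ) :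
    Measurable fun ω : Path =>
      ∫ s in (0 : ℝ)..(τ ω).toReal, Real.exp (-a * s) * u (ω s.toNNReal) := by
  have h1 : Continuous fun p : Path × ℝ =>
      ∫ s in (0 : ℝ)..p.2, Real.exp (-a * s) * u (p.1 s.toNNReal) :=
    intervalIntegral.continuous_parametric_primitive_of_continuous
      (f := fun (ω : Path) (s : ℝ) => Real.exp (-a * s) * u (ω s.toNNReal)) (cont_run hu a)
  exact h1.measurable.comp (measurable_id.prodMk hτ.ennreal_toReal)

theorem exp_le {a s : ℝ} (ha : 0 ≤ a) (hs : 0 ≤ s) : |Real.exp (-a * s)| ≤ 1 := by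
  rw [abs_of_pos (Real.exp_pos _), Real.exp_le_one_iff]
  nlinarith

/-- the statement for continuous functions with compact support -/
theorem core (h : IsWiener W) {U : Set ℂ} (hU : IsOpen U) (hb : Bornology.IsBounded U)
    {w f : ℂ → ℝ} (hw : Continuous w) (hws : HasCompactSupport w) (hf : Continuous f)
    (hfs : HasCompactSupport f)
    (hweak : ∀ η : ℂ → ℝ, ContDiff ℝ (⊤ : ℕ∞) η → HasCompactSupport η → tsupport η ⊆ U →
      ∫ z, w z * ((1 / 2 : ℝ) * Δ η z) = ∫ z, f z * η z)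
    {a : ℝ} (ha : 0 ≤ a) (x : ℂ) :
    ∫ ω, Real.exp (-a * (exitT U ω).toReal) * w (ω (exitT U ω).toNNReal) ∂(Px W x) = w x +
      ∫ ω, (∫ s in (0 : ℝ)..(exitT U ω).toReal, Real.exp (-a * s) *
        (f (ω s.toNNReal) - a * w (ω s.toNNReal))) ∂(Px W x) := by
  have := h.prob_Px x
  obtain ⟨R, hR⟩ := hb.subset_ball (0 : ℂ)
  have hne : (Uᶜ).Nonempty := by
    refine ⟨((|R| : ℝ) : ℂ), fun hm => ?_⟩
    have := hR hm
    rw [mem_ball_zero_iff, Complex.norm_real, Real.norm_eq_abs, abs_abs] at this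
    exact absurd this (not_lt.2 (le_abs_self R))
  set Un : ℕ → Set ℂ := fun n => {z | 1 / ((n : ℝ) + 1) < infDist z Uᶜ} with hUn
  have hUo : ∀ n, IsOpen (Un n) := fun n => isOpen_lt continuous_const (continuous_infDist_pt _)
  have hball : ∀ n, ∀ z ∈ Un n, closedBall z (1 / ((n : ℝ) + 1)) ⊆ U := by
    intro n z hz y hy
    by_contra hyU
    have h1 : infDist z Uᶜ ≤ dist z y := infDist_le_dist_of_mem hyU
    have h2 : 1 / ((n : ℝ) + 1) < infDist z Uᶜ := hz
    rw [mem_closedBall, dist_comm] at hy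
    linarith
  have hsub : ∀ n, Un n ⊆ U := fun n z hz => hball n z hz (mem_closedBall_self (by positivity))
  have hmono : Monotone Un := by
    intro n m hnm z hz
    have h2 : 1 / ((n : ℝ) + 1) < infDist z Uᶜ := hz
    have : (n : ℝ) ≤ m := by exact_mod_cast hnm
    exact lt_of_le_of_lt (by gcongr) h2
  have hun : ⋃ n, Un n = U := by
    refine Subset.antisymm (iUnion_subset hsub) fun z hz => ?_
    have h1 : 0 < infDist z Uᶜ :=
      (hU.isClosed_compl.notMem_iff_infDist_pos hne).1 (notMem_compl_iff.2 hz)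
    obtain ⟨n, hn⟩ := exists_nat_one_div_lt h1
    exact mem_iUnion.2 ⟨n, hn⟩
  have hfin : ∫⁻ ω, exitT U ω ∂(Px W x) ≠ ∞ :=
    ne_top_of_le_ne_top ENNReal.ofReal_ne_top
      ((lintegral_mono fun ω => exitT_mono hR ω).trans (h.lintegral_exitT_le 0 x R))
  have hle : ∀ n ω, exitT (Un n) ω ≤ exitT U ω := fun n ω => exitT_mono (hsub n) ω
  have hlt := h.ae_exitT_lt_top hb x
  have hlim : ∀ ω, Tendsto (fun n => exitT (Un n) ω) atTop (𝓝 (exitT U ω)) := by
    intro ω
    have := tendsto_atTop_iSup (f := fun n => exitT (Un n) ω)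
      fun n m hnm => exitT_mono (hmono hnm) ω
    rwa [iSup_exitT hmono hUo, hun] at this
  -- the smoothed functions
  have hwn : ∀ n, ContDiff ℝ (⊤ : ℕ∞) (M w (ker n)) := fun n =>
    M_smooth hw (ker_smooth n) (ker_supp n)
  have hfn : ∀ n, Continuous (M f (ker n)) := fun n =>
    (M_smooth hf (ker_smooth n) (ker_supp n)).continuous
  have hlap : ∀ n, ∀ z ∈ Un n, (1 / 2 : ℝ) * Δ (M w (ker n)) z = M f (ker n) z := by
    intro n z hz
    rw [lap_M hw (ker_smooth n) (ker_supp n), M_apply]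
    refine hweak _ (refl_smooth (ker_smooth n) z)
      ((ker_supp n).comp_homeomorph (Homeomorph.subLeft z)) (Subset.trans ?_ (hball n z hz))
    refine closure_minimal (fun y hy => ?_) isClosed_closedBall
    have h1 : z - y ∈ Function.support ((bump n).normed volume) := hy
    rw [(bump n).support_normed_eq, mem_ball_zero_iff] at h1
    rw [mem_closedBall, dist_comm, dist_eq_norm]
    exact h1.le
  have step : ∀ n, ∫ ω, Real.exp (-a * (exitT (Un n) ω).toReal) *
      M w (ker n) (ω (exitT (Un n) ω).toNNReal) ∂(Px W x) = M w (ker n) x +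
      ∫ ω, (∫ s in (0 : ℝ)..(exitT (Un n) ω).toReal, Real.exp (-a * s) *
        (M f (ker n) (ω s.toNNReal) - a * M w (ker n) (ω s.toNNReal))) ∂(Px W x) := by
    intro n
    have hd := (h.isFBM_Px x).dynkin (opt_exitT (h.isFBM_Px x).adapted (hUo n))
      (ne_top_of_le_ne_top hfin (lintegral_mono fun ω => hle n ω))
      ((hwn n).of_le (WithTop.coe_le_coe.2 (le_top : (2 : ℕ∞) ≤ ⊤))) (hws.convolution _ (ker_supp n)) ha
    simp only [id] at hd
    refine hd.trans ?_
    congr 1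
    · rw [integral_congr_ae (g := fun _ => M w (ker n) x)
        ((h.ae_Px_zero x).mono fun ω hω => by simp only [hω])]
      simp
    · refine integral_congr_ae (Eventually.of_forall fun ω => ?_)
      refine intervalIntegral.integral_congr_ae ?_
      have hae : ∀ᵐ s : ℝ, s ≠ (exitT (Un n) ω).toReal := by
        simp [ae_iff]
      filter_upwards [hae] with s hs hmem
      rw [uIoc_of_le ENNReal.toReal_nonneg] at hmem
      have h1 : s < (exitT (Un n) ω).toReal := lt_of_le_of_ne hmem.2 hs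
      have h2 : ((s.toNNReal : ℝ≥0) : ℝ≥0∞) < exitT (Un n) ω := by
        by_cases ht : exitT (Un n) ω = ∞
        · rw [ht]; exact ENNReal.coe_lt_top
        · exact (ENNReal.ofReal_lt_iff_lt_toReal hmem.1.le ht).2 h1
      have h3 := hlap n _ (mem_of_lt_exitT h2)
      exact congrArg (fun y => Real.exp (-a * s) * (y - a * M w (ker n) (ω s.toNNReal))) h3
  obtain ⟨ew, hew, hew'⟩ := approx hw hws
  obtain ⟨ef, hef, hef'⟩ := approx hf hfs
  obtain ⟨Cw, hCw⟩ := hw.bounded_above_of_compact_support hws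
  obtain ⟨Cf, hCf⟩ := hf.bounded_above_of_compact_support hfs
  obtain ⟨Ew, hEw⟩ := hew.bddAbove_range
  obtain ⟨Ef, hEf⟩ := hef.bddAbove_range
  have bw : ∀ n z, |M w (ker n) z| ≤ Cw + Ew := by
    intro n z
    have h1 := hew' n z
    have h2 : |w z| ≤ Cw := hCw z
    have h3 : ew n ≤ Ew := hEw ⟨n, rfl⟩
    have h4 := abs_sub_abs_le_abs_sub (M w (ker n) z) (w z)
    linarith
  have bf : ∀ n z, |M f (ker n) z| ≤ Cf + Ef := by
    intro n z
    have h1 := hef' n z
    have h2 : |f z| ≤ Cf := hCf z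
    have h3 : ef n ≤ Ef := hEf ⟨n, rfl⟩
    have h4 := abs_sub_abs_le_abs_sub (M f (ker n) z) (f z)
    linarith
  have mv : ∀ {z : ℕ → ℂ} {z₀ : ℂ}, Tendsto z atTop (𝓝 z₀) →
      Tendsto (fun n => M w (ker n) (z n)) atTop (𝓝 (w z₀)) := by
    intro z z₀ hz
    have h1 : Tendsto (fun n => M w (ker n) (z n) - w (z n)) atTop (𝓝 0) :=
      squeeze_zero_norm (fun n => hew' n (z n)) hew
    have h2 := h1.add ((hw.tendsto z₀).comp hz)
    rw [zero_add] at h2
    exact h2.congr fun n => by simp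
  have hR1 : ∀ ω, exitT U ω < ∞ →
      Tendsto (fun n => (exitT (Un n) ω).toReal) atTop (𝓝 (exitT U ω).toReal) := fun ω hω =>
    (ENNReal.tendsto_toReal hω.ne).comp (hlim ω)
  have L1 : Tendsto (fun n => ∫ ω, Real.exp (-a * (exitT (Un n) ω).toReal) *
      M w (ker n) (ω (exitT (Un n) ω).toNNReal) ∂(Px W x)) atTop
      (𝓝 (∫ ω, Real.exp (-a * (exitT U ω).toReal) * w (ω (exitT U ω).toNNReal) ∂(Px W x))) := by
    refine tendsto_integral_of_dominated_convergence (fun _ => Cw + Ew)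
      (fun n => (meas_end (measurable_exitT (hUo n)) (hwn n).continuous a).aestronglyMeasurable)
      (integrable_const _) (fun n => Eventually.of_forall fun ω => ?_) ?_
    · rw [Real.norm_eq_abs, abs_mul]
      calc _ ≤ 1 * (Cw + Ew) := mul_le_mul (exp_le ha ENNReal.toReal_nonneg) (bw _ _)
            (abs_nonneg _) zero_le_one
        _ = _ := one_mul _
    · filter_upwards [hlt] with ω hω
      refine ((Real.continuous_exp.tendsto _).comp ((hR1 ω hω).const_mul (-a))).mul (mv ?_)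
      exact (ω.continuous.tendsto _).comp ((ENNReal.tendsto_toNNReal hω.ne).comp (hlim ω))
  have L2 : Tendsto (fun n => ∫ ω, (∫ s in (0 : ℝ)..(exitT (Un n) ω).toReal, Real.exp (-a * s) *
        (M f (ker n) (ω s.toNNReal) - a * M w (ker n) (ω s.toNNReal))) ∂(Px W x)) atTop
      (𝓝 (∫ ω, (∫ s in (0 : ℝ)..(exitT U ω).toReal, Real.exp (-a * s) *
        (f (ω s.toNNReal) - a * w (ω s.toNNReal))) ∂(Px W x))) := by
    have hc : ∀ n, Continuous fun z => M f (ker n) z - a * M w (ker n) z := fun n =>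
      (hfn n).sub (continuous_const.mul (hwn n).continuous)
    have hc0 : Continuous fun z => f z - a * w z := hf.sub (continuous_const.mul hw)
    refine tendsto_integral_of_dominated_convergence
      (fun ω => (Cf + Ef + a * (Cw + Ew)) * (exitT U ω).toReal)
      (fun n => (meas_run (measurable_exitT (hUo n)) (hc n) a).aestronglyMeasurable)
      ((integrable_toReal_of_lintegral_ne_top (measurable_exitT hU).aemeasurable hfin).const_mul _)
      (fun n => ?_) ?_
    · filter_upwards [hlt] with ω hω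
      have hK : ∀ z, |M f (ker n) z - a * M w (ker n) z| ≤ Cf + Ef + a * (Cw + Ew) := by
        intro z
        refine (abs_sub _ _).trans (add_le_add (bf n z) ?_)
        rw [abs_mul, abs_of_nonneg ha]
        exact mul_le_mul_of_nonneg_left (bw n z) ha
      refine (intervalIntegral.norm_integral_le_of_norm_le_const
        (C := Cf + Ef + a * (Cw + Ew)) fun s hs => ?_).trans ?_
      · rw [uIoc_of_le ENNReal.toReal_nonneg] at hs
        rw [Real.norm_eq_abs, abs_mul]
        calc _ ≤ 1 * (Cf + Ef + a * (Cw + Ew)) := mul_le_mul (exp_le ha hs.1.le) (hK _)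
              (abs_nonneg _) zero_le_one
          _ = _ := one_mul _
      · rw [sub_zero, abs_of_nonneg ENNReal.toReal_nonneg]
        exact mul_le_mul_of_nonneg_left (ENNReal.toReal_mono hω.ne (hle n ω))
          ((abs_nonneg _).trans (hK 0))
    · filter_upwards [hlt] with ω hω
      have he : Tendsto (fun n => ef n + a * ew n) atTop (𝓝 0) := by
        simpa using hef.add (hew.const_mul a)
      refine prim_tendsto ((cont_run hc0 a).comp (Continuous.prodMk_right ω))
        (fun n => (cont_run (hc n) a).comp (Continuous.prodMk_right ω)) he (fun n s hs => ?_)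
        (fun n => ENNReal.toReal_nonneg) (hR1 ω hω)
      show |Real.exp (-a * s) * (M f (ker n) (ω s.toNNReal) - a * M w (ker n) (ω s.toNNReal)) -
        Real.exp (-a * s) * (f (ω s.toNNReal) - a * w (ω s.toNNReal))| ≤ _
      rw [← mul_sub, abs_mul]
      have h1 : |M f (ker n) (ω s.toNNReal) - a * M w (ker n) (ω s.toNNReal) -
          (f (ω s.toNNReal) - a * w (ω s.toNNReal))| ≤ ef n + a * ew n := by
        rw [show ∀ p q r t : ℝ, p - a * q - (r - a * t) = (p - r) - a * (q - t) from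
          fun p q r t => by ring]
        refine (abs_sub _ _).trans (add_le_add (hef' n _) ?_)
        rw [abs_mul, abs_of_nonneg ha]
        exact mul_le_mul_of_nonneg_left (hew' n _) ha
      calc _ ≤ 1 * (ef n + a * ew n) := mul_le_mul (exp_le ha hs) h1 (abs_nonneg _) zero_le_one
        _ = _ := one_mul _
  exact tendsto_nhds_unique (L1.congr step) ((mv tendsto_const_nhds).add L2)

end WeakAux

/-- Dynkin formula for weak solutions of `Δ w / 2 = f` on a bounded open set, with discount -/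
theorem IsWiener.dynkin_weak (h : IsWiener W) {U : Set ℂ} (hU : IsOpen U)
    (hb : Bornology.IsBounded U) {w f : ℂ → ℝ} (hw : ContinuousOn w (closure U))
    (hf : ContinuousOn f (closure U))
    (hweak : ∀ η : ℂ → ℝ, ContDiff ℝ (⊤ : ℕ∞) η → HasCompactSupport η → tsupport η ⊆ U →
      ∫ z, w z * ((1 / 2 : ℝ) * Δ η z) = ∫ z, f z * η z)
    {a : ℝ} (ha : 0 ≤ a) {x : ℂ} (hx : x ∈ closure U) :
    ∫ ω, Real.exp (-a * (exitT U ω).toReal) * w (ω (exitT U ω).toNNReal) ∂(Px W x) = w x +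
      ∫ ω, (∫ s in (0 : ℝ)..(exitT U ω).toReal, Real.exp (-a * s) *
        (f (ω s.toNNReal) - a * w (ω s.toNNReal))) ∂(Px W x) := by
  have hK : IsCompact (closure U) := hb.isCompact_closure
  obtain ⟨w₁, hw1, hw2, hw3⟩ := WeakAux.exists_ext hK hw
  obtain ⟨f₁, hf1, hf2, hf3⟩ := WeakAux.exists_ext hK hf
  have key := WeakAux.core h hU hb hw1 hw2 hf1 hf2 (fun η h1 h2 h3 => by
    have e1 : ∫ z, w₁ z * ((1 / 2 : ℝ) * Δ η z) = ∫ z, w z * ((1 / 2 : ℝ) * Δ η z) := by
      refine integral_congr_ae (Eventually.of_forall fun z => ?_)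
      by_cases hz : z ∈ tsupport η
      · simp only [hw3 (subset_closure (h3 hz))]
      · simp only [WeakAux.lap_zero hz, mul_zero]
    have e2 : ∫ z, f₁ z * η z = ∫ z, f z * η z := by
      refine integral_congr_ae (Eventually.of_forall fun z => ?_)
      by_cases hz : z ∈ tsupport η
      · simp only [hf3 (subset_closure (h3 hz))]
      · simp only [image_eq_zero_of_notMem_tsupport hz, mul_zero]
    rw [e1, e2, hweak η h1 h2 h3]) ha x
  have hin : ∀ᵐ ω ∂(Px W x), ∀ t : ℝ≥0, (t : ℝ≥0∞) ≤ exitT U ω → ω t ∈ closure U :=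
    (h.ae_Px_zero x).mono fun ω hω t ht => mem_closure_of_le_exitT (hω ▸ hx) ht
  rw [← hw3 hx]
  refine Eq.trans (integral_congr_ae ?_) (key.trans ?_)
  · filter_upwards [hin] with ω hω
    rw [hw3 (hω _ ENNReal.coe_toNNReal_le_self)]
  · congr 1
    refine integral_congr_ae ?_
    filter_upwards [hin] with ω hω
    refine intervalIntegral.integral_congr fun s hs => ?_
    rw [uIcc_of_le ENNReal.toReal_nonneg] at hs
    have h1 : ω s.toNNReal ∈ closure U := hω _ (ENNReal.ofReal_le_of_le_toReal hs.2)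
    simp only [hw3 h1, hf3 h1]

end Pool.Agent.Lib.MP_0d9445_pr.BM
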