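import Pool.Agent.Lib.MP_0d9445_pr.BM.Rep
import Pool.Agent.Lib.MP_0d9445_pr.BM.Weak

/-!
Probabilistic representation of continuous weak solutions with a source carried by the Revuz
measure.
-/

open MeasureTheory ProbabilityTheory Set Filter Topology Metric
open scoped NNReal ENNReal Laplacian

noncomputable section

namespace Pool.Agent.Lib.MP_0d9445_pr.BM

variable {W : Measure Path} {μ : Measure ℂ} {A : Path → StieltjesFunction ℝ≥0} {U K : Set ℂ}

/-- a function along the path before the exit time -/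
def cut {E : Type} [Zero E] (U : Set ℂ) (φ : ℂ → E) (ω : Path) (t : ℝ≥0) : E :=
  if (t : ℝ≥0∞) < exitT U ω then φ (ω t) else 0

theorem measurable_cut {E : Type} [Zero E] [MeasurableSpace E] (hU : IsOpen U) {φ : ℂ → E}
    (hφ : Measurable φ) : Measurable fun p : Path × ℝ≥0 => cut U φ p.1 p.2 :=
  Measurable.ite (measurableSet_lt (by fun_prop) ((measurable_exitT hU).comp measurable_fst))
    (hφ.comp continuous_evalPath.measurable) measurable_const

theorem measurable_cut_right {E : Type} [Zero E] [MeasurableSpace E] (hU : IsOpen U) {φ : ℂ → E}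
    (hφ : Measurable φ) (ω : Path) : Measurable (cut U φ ω) :=
  Measurable.of_uncurry_left (f := cut U φ) (measurable_cut hU hφ)

/-- the integral against the clock up to the exit time -/
def run (A : Path → StieltjesFunction ℝ≥0) (U : Set ℂ) (φ : ℂ → ℝ) (ω : Path) : ℝ :=
  ∫ t, cut U φ ω t ∂(A ω).measure

theorem IsPCAF.measurable_run (hA : IsPCAF W μ A) (hU : IsOpen U) {φ : ℂ → ℝ}
    (hφ : Measurable φ) : Measurable (run A U φ) :=
  meas_integral_stj hA.meas (F := fun p => cut U φ p.1 p.2) (measurable_cut hU hφ)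

theorem IsWiener.lintegral_exitT_ne_top (hW : IsWiener W) (hb : Bornology.IsBounded U) (y : ℂ) :
    ∫⁻ ω, exitT U ω ∂Px W y ≠ ∞ := by
  obtain ⟨r, hr⟩ := hb.subset_ball 0
  exact ne_top_of_le_ne_top ENNReal.ofReal_ne_top
    ((lintegral_mono fun ω => exitT_mono hr ω).trans (hW.lintegral_exitT_le 0 y r))

theorem IsPCAF.rep_pos (hA : IsPCAF W μ A) (hW : IsWiener W) (hU : IsOpen U)
    (hb : Bornology.IsBounded U) {f : ℂ → ℝ≥0∞} (hf : Measurable f) (h0 : ∀ z ∉ U, f z = 0)
    {C α : ℝ} (hP : Pow (μ.withDensity f) C α) (y : ℂ) :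
    ∫⁻ ω, ∫⁻ t, cut U f ω t ∂(A ω).measure ∂Px W y ≠ ∞ ∧
    Integrable (fun ω : Path => pot (μ.withDensity f) (ω (exitT U ω).toNNReal)) (Px W y) ∧
    Integrable (fun ω : Path => ∫ s in (0 : ℝ)..(exitT U ω).toReal,
      pot (μ.withDensity f) (ω s.toNNReal)) (Px W y) ∧
    (∫⁻ ω, ∫⁻ t, cut U f ω t ∂(A ω).measure ∂Px W y).toReal +
      ∫ ω, pot (μ.withDensity f) (ω (exitT U ω).toNNReal) ∂Px W y =
      pot (μ.withDensity f) y + ∫ ω, (∫ s in (0 : ℝ)..(exitT U ω).toReal,
        pot (μ.withDensity f) (ω s.toNNReal)) ∂Px W y := by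
  have := hW.prob_Px y
  have := hP.fin
  set ν := μ.withDensity f with hν
  have hτ : Opt filt (exitT U) := opt_exitT (B := id) (hW.isFBM_Px y).adapted hU
  have hfin := hW.ae_exitT_lt_top hb y
  have h1 := hA.lintegral_rep hW y hτ hfin hf
  rw [← hν] at h1
  obtain ⟨M, hM⟩ := hP.potE_le
  have e1 : ∫⁻ ω, (∫⁻ t in Iic (exitT U ω).toNNReal, f (ω t) ∂(A ω).measure) ∂Px W y =
      ∫⁻ ω, ∫⁻ t, cut U f ω t ∂(A ω).measure ∂Px W y := by
    refine lintegral_congr_ae (hfin.mono fun ω hω => ?_)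
    simp only
    rw [← lintegral_indicator measurableSet_Iic]
    refine lintegral_congr fun t => ?_
    have h2 := notMem_exitT hU hω
    unfold cut
    lift exitT U ω to ℝ≥0 using hω.ne with c
    simp only [ENNReal.toNNReal_coe, ENNReal.coe_lt_coe] at h2 ⊢
    rcases lt_trichotomy t c with h | h | h
    · simp [h, h.le]
    · simp [h, h0 _ h2]
    · simp [h.not_gt, h]
  have m1 : Measurable fun ω : Path => potE ν (ω (exitT U ω).toNNReal) :=
    measurable_potE.comp (measurable_id.path_ev hτ.measurable.ennreal_toNNReal)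
  have b1 : ∫⁻ ω, potE ν (ω (exitT U ω).toNNReal) ∂Px W y ≠ ∞ :=
    ne_top_of_le_ne_top (by simp) (lintegral_mono (g := fun _ => (M : ℝ≥0∞)) fun ω => hM _)
  have b2 : ∀ ω : Path, ∫⁻ r in Ioc (0 : ℝ) (exitT U ω).toReal, potE ν (ω r.toNNReal) ≤
      M * exitT U ω := fun ω => by
    refine (lintegral_mono (g := fun _ => (M : ℝ≥0∞)) fun r => hM _).trans ?_
    rw [setLIntegral_const, Real.volume_Ioc, sub_zero]
    gcongr
    exact ENNReal.ofReal_toReal_le
  have b3 : ∫⁻ ω, (∫⁻ r in Ioc (0 : ℝ) (exitT U ω).toReal, potE ν (ω r.toNNReal)) ∂Px W y ≠ ∞ := by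
    refine ne_top_of_le_ne_top ?_ (lintegral_mono b2)
    rw [lintegral_const_mul _ hτ.measurable]
    exact ENNReal.mul_ne_top ENNReal.coe_ne_top (hW.lintegral_exitT_ne_top hb y)
  have e2 : ∀ ω : Path, ∫ s in (0 : ℝ)..(exitT U ω).toReal, pot ν (ω s.toNNReal) =
      (∫⁻ r in Ioc (0 : ℝ) (exitT U ω).toReal, potE ν (ω r.toNNReal)).toReal := fun ω => by
    rw [intervalIntegral.integral_of_le ENNReal.toReal_nonneg]
    exact integral_toReal (measurable_potE.comp (by fun_prop)).aemeasurable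
      (Eventually.of_forall fun r => hP.potE_lt_top _)
  have m2 : Measurable fun ω : Path =>
      ∫⁻ r in Ioc (0 : ℝ) (exitT U ω).toReal, potE ν (ω r.toNNReal) := by
    have hS : MeasurableSet {p : Path × ℝ | 0 < p.2 ∧ p.2 ≤ (exitT U p.1).toReal} :=
      (measurableSet_lt measurable_const measurable_snd).inter (measurableSet_le measurable_snd
        (hτ.measurable.ennreal_toReal.comp measurable_fst))
    have h3 : Measurable ({p : Path × ℝ | 0 < p.2 ∧ p.2 ≤ (exitT U p.1).toReal}.indicator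
        fun p => potE ν (p.1 p.2.toNNReal)) :=
      (measurable_potE.comp (measurable_fst.path_ev (by fun_prop))).indicator hS
    have h4 := h3.lintegral_prod_right' (ν := volume)
    convert h4 using 2 with ω
    rw [← lintegral_indicator measurableSet_Ioc]
    rfl
  rw [e1] at h1
  have b4 : ∫⁻ ω, ∫⁻ t, cut U f ω t ∂(A ω).measure ∂Px W y ≠ ∞ := by
    refine ne_top_of_le_ne_top ?_ (le_self_add.trans h1.le)
    exact ENNReal.add_ne_top.mpr ⟨(hP.potE_lt_top y).ne, b3⟩
  refine ⟨b4, integrable_toReal_of_lintegral_ne_top m1.aemeasurable b1, ?_, ?_⟩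
  · simp only [e2]
    exact integrable_toReal_of_lintegral_ne_top m2.aemeasurable b3
  · simp only [e2]
    rw [integral_toReal m2.aemeasurable (ae_lt_top m2 b3), pot,
      ← ENNReal.toReal_add (hP.potE_lt_top y).ne b3, ← h1, ENNReal.toReal_add b4 b1,
      ← integral_toReal m1.aemeasurable (ae_lt_top m1 b1)]
    rfl

/-- power bound of `μ` on `K` -/
def Fro (μ : Measure ℂ) (K : Set ℂ) : Prop :=
  μ K ≠ ∞ ∧ ∃ C α r₀ : ℝ, 0 < α ∧ 0 < r₀ ∧
    ∀ x ∈ K, ∀ r, 0 < r → r ≤ r₀ → μ (ball x r ∩ K) ≤ ENNReal.ofReal (C * r ^ α)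

theorem Fro.pow (hF : Fro μ K) (hK : IsCompact K) (hUK : U ⊆ K) {φ : ℂ → ℝ} (hφ : Continuous φ) :
    ∃ C α, Pow (μ.withDensity (U.indicator fun z => ENNReal.ofReal (φ z))) C α := by
  obtain ⟨h1, C, α, r₀, h2, h3, h4⟩ := hF
  obtain ⟨M, hM⟩ := hK.exists_bound_of_continuousOn hφ.continuousOn
  obtain ⟨C', h⟩ := exists_pow hK.measurableSet h1 h2 h3 h4
    (f := U.indicator fun z => ENNReal.ofReal (φ z)) (M := M.toNNReal) (fun z => by
      by_cases hz : z ∈ U
      · rw [indicator_of_mem hz]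
        exact ENNReal.ofReal_le_ofReal ((le_abs_self _).trans (hM z (hUK hz)))
      · simp [hz]) fun z hz => indicator_of_notMem (fun h => hz (hUK h)) _
  exact ⟨C', α, h⟩

theorem cut_ind (φ : ℂ → ℝ) (ω : Path) (t : ℝ≥0) :
    cut U (U.indicator fun z => ENNReal.ofReal (φ z)) ω t = ENNReal.ofReal (cut U φ ω t) := by
  unfold cut
  split_ifs with h
  · rw [indicator_of_mem (mem_of_lt_exitT h)]
  · simp

theorem IsPCAF.mass (hA : IsPCAF W μ A) (hW : IsWiener W) (hF : Fro μ K) (hK : IsCompact K)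
    (hU : IsOpen U) (hUK : U ⊆ K) {φ : ℂ → ℝ} (hφ : Continuous φ) (y : ℂ) :
    ∫⁻ ω, ∫⁻ t, ‖cut U φ ω t‖ₑ ∂(A ω).measure ∂Px W y ≠ ∞ := by
  obtain ⟨C, α, hP⟩ := hF.pow hK hUK hφ.abs
  have h := (hA.rep_pos hW hU (hK.isBounded.subset hUK) (Measurable.indicator (by fun_prop)
    hU.measurableSet) (fun z hz => indicator_of_notMem hz _) hP y).1
  simp only [cut_ind] at h
  convert h using 4 with ω
  funext t
  rw [Real.enorm_eq_ofReal_abs]
  unfold cut
  split_ifs <;> simp

theorem integrable_end (hW : IsWiener W) (hU : IsOpen U) (hb : Bornology.IsBounded U)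
    {u : ℂ → ℝ} (hu : Continuous u) {y : ℂ} (hy : y ∈ closure U) :
    Integrable (fun ω : Path => u (ω (exitT U ω).toNNReal)) (Px W y) := by
  have := hW.prob_Px y
  obtain ⟨M, hM⟩ := hb.isCompact_closure.exists_bound_of_continuousOn hu.continuousOn
  refine Integrable.of_bound (hu.measurable.comp (measurable_id.path_ev
    (measurable_exitT hU).ennreal_toNNReal)).aestronglyMeasurable M ?_
  filter_upwards [hW.ae_Px_zero y] with ω hω
  exact hM _ (mem_closure_of_le_exitT (hω ▸ hy) ENNReal.coe_toNNReal_le_self)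

/-- the representation formula -/
theorem IsPCAF.rep (hA : IsPCAF W μ A) (hW : IsWiener W) (hF : Fro μ K) (hK : IsCompact K)
    (hU : IsOpen U) (hUK : U ⊆ K) {u φ : ℂ → ℝ} (hu : Continuous u) (hφ : Continuous φ)
    (hweak : ∀ η : ℂ → ℝ, ContDiff ℝ (⊤ : ℕ∞) η → HasCompactSupport η → tsupport η ⊆ U →
      ∫ z, u z * Δ η z = -2 * ∫ z, η z * φ z ∂μ) {y : ℂ} (hy : y ∈ closure U) :
    ∫ ω, (u (ω (exitT U ω).toNNReal) + run A U φ ω) ∂Px W y = u y := by
  have hb := hK.isBounded.subset hUK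
  have hn : Continuous fun z => -φ z := hφ.neg
  obtain ⟨C₁, α₁, hP₁⟩ := hF.pow hK hUK hφ
  obtain ⟨C₂, α₂, hP₂⟩ := hF.pow hK hUK hn
  have mf : ∀ {ψ : ℂ → ℝ}, Continuous ψ →
      Measurable (U.indicator fun z => ENNReal.ofReal (ψ z)) := fun h =>
    Measurable.indicator (by fun_prop) hU.measurableSet
  obtain ⟨a1, a2, a3, a4⟩ := hA.rep_pos hW hU hb (mf hφ) (fun z hz => indicator_of_notMem hz _) hP₁ y
  obtain ⟨b1, b2, b3, b4⟩ := hA.rep_pos hW hU hb (mf hn)
    (fun z hz => indicator_of_notMem hz _) hP₂ y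
  have c₁ := hP₁.continuous_pot
  have c₂ := hP₂.continuous_pot
  have key : ∀ {ψ : ℂ → ℝ} {C α : ℝ}, Continuous ψ →
      Pow (μ.withDensity (U.indicator fun z => ENNReal.ofReal (ψ z))) C α →
      ∀ η : ℂ → ℝ, ContDiff ℝ (⊤ : ℕ∞) η → HasCompactSupport η → tsupport η ⊆ U →
      Integrable (fun z => η z * max (ψ z) 0) μ ∧
      ∫ z, pot (μ.withDensity (U.indicator fun z => ENNReal.ofReal (ψ z))) z *
        (η z - (1 / 2 : ℝ) * Δ η z) = ∫ z, η z * max (ψ z) 0 ∂μ := by
    intro ψ C α hψ hP η h1 h2 h3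
    have := hP.fin
    have lt : ∀ᵐ z ∂μ, (U.indicator fun z => ENNReal.ofReal (ψ z)) z < ∞ :=
      Eventually.of_forall fun z => by
        by_cases hz : z ∈ U <;> simp [hz]
    have e : ∀ z, η z * ((U.indicator fun z => ENNReal.ofReal (ψ z)) z).toReal =
        η z * max (ψ z) 0 := fun z => by
      by_cases hz : z ∈ U
      · rw [indicator_of_mem hz, ENNReal.toReal_ofReal']
      · simp [image_eq_zero_of_notMem_tsupport fun h => hz (h3 h)]
    have i1 := (integrable_withDensity_iff (mf hψ) lt).mp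
      (h1.continuous.integrable_of_hasCompactSupport h2)
    simp only [e] at i1
    refine ⟨i1, ?_⟩
    rw [hP.pot_weak hW (h1.of_le (by norm_cast)) h2,
      integral_withDensity_eq_integral_toReal_smul (mf hψ) lt]
    simp only [smul_eq_mul, mul_comm (ENNReal.toReal _), e]
  set p₁ := pot (μ.withDensity (U.indicator fun z => ENNReal.ofReal (φ z))) with hp₁
  set p₂ := pot (μ.withDensity (U.indicator fun z => ENNReal.ofReal (-φ z))) with hp₂
  have hD := hW.dynkin_weak hU hb (w := fun z => u z - p₁ z + p₂ z) (f := fun z => p₂ z - p₁ z)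
    (by fun_prop) (by fun_prop) (fun η h1 h2 h3 => by
      obtain ⟨i1, e1⟩ := key hφ hP₁ η h1 h2 h3
      obtain ⟨i2, e2⟩ := key hn hP₂ η h1 h2 h3
      have e3 := hweak η h1 h2 h3
      have cL := continuous_lap (h1.of_le (by norm_cast))
      have sL : HasCompactSupport (Δ η) :=
        h2.mono' fun z hz => by_contra fun h => hz (WeakAux.lap_zero h)
      have I : ∀ {v : ℂ → ℝ}, Continuous v → Integrable (fun z => v z * η z) ∧
          Integrable (fun z => v z * Δ η z) := fun hv =>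
        ⟨(hv.mul h1.continuous).integrable_of_hasCompactSupport h2.mul_left,
          (hv.mul cL).integrable_of_hasCompactSupport sL.mul_left⟩
      have e4 : ∫ z, η z * φ z ∂μ = ∫ z, η z * max (φ z) 0 ∂μ - ∫ z, η z * max (-φ z) 0 ∂μ := by
        rw [← integral_sub i1 i2]
        simp only [← mul_sub, max_zero_sub_max_neg_zero_eq_self]
      have e5 : ∀ {v : ℂ → ℝ}, Continuous v → ∫ z, v z * (η z - (1 / 2 : ℝ) * Δ η z) =
          (∫ z, v z * η z) - 1 / 2 * ∫ z, v z * Δ η z := fun {v} hv => by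
        rw [← integral_const_mul, ← integral_sub (I hv).1 ((I hv).2.const_mul _)]
        exact integral_congr_ae (Eventually.of_forall fun z => by ring)
      have e6 : ∫ z, (u z - p₁ z + p₂ z) * ((1 / 2 : ℝ) * Δ η z) = 1 / 2 * ((∫ z, u z * Δ η z) -
          (∫ z, p₁ z * Δ η z) + ∫ z, p₂ z * Δ η z) := by
        rw [← integral_sub (I hu).2 (I c₁).2,
          ← integral_add (f := fun z => u z * Δ η z - p₁ z * Δ η z) ((I hu).2.sub (I c₁).2) (I c₂).2,
          ← integral_const_mul]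
        exact integral_congr_ae (Eventually.of_forall fun z => by ring)
      have e7 : ∫ z, (p₂ z - p₁ z) * η z = (∫ z, p₂ z * η z) - ∫ z, p₁ z * η z := by
        rw [← integral_sub (I c₂).1 (I c₁).1]
        simp only [sub_mul]
      rw [← hp₁, e5 c₁] at e1
      rw [← hp₂, e5 c₂] at e2
      rw [e6, e7]
      linarith) le_rfl hy
  simp only [neg_zero, zero_mul, Real.exp_zero, one_mul, sub_zero] at hD
  have iu := integrable_end hW hU hb hu hy
  have e8 : ∀ ω : Path, ∫ s in (0 : ℝ)..(exitT U ω).toReal, (p₂ (ω s.toNNReal) - p₁ (ω s.toNNReal))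
      = (∫ s in (0 : ℝ)..(exitT U ω).toReal, p₂ (ω s.toNNReal)) -
        ∫ s in (0 : ℝ)..(exitT U ω).toReal, p₁ (ω s.toNNReal) := fun ω =>
    intervalIntegral.integral_sub (Continuous.intervalIntegrable (by fun_prop) _ _)
      (Continuous.intervalIntegrable (by fun_prop) _ _)
  simp only [e8] at hD
  rw [integral_sub b3 a3, integral_add (f := fun ω : Path => u (ω (exitT U ω).toNNReal) -
    p₁ (ω (exitT U ω).toNNReal)) (iu.sub a2) b2, integral_sub iu a2] at hD
  simp only [cut_ind] at a1 a4 b1 b4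
  have mR : ∀ {ψ : ℂ → ℝ}, Continuous ψ → Measurable fun ω =>
      ∫⁻ t, ENNReal.ofReal (cut U ψ ω t) ∂(A ω).measure := fun {ψ} h =>
    meas_lintegral_stj hA.meas (F := fun p => ENNReal.ofReal (cut U ψ p.1 p.2))
      (measurable_cut hU h.measurable).ennreal_ofReal
  have mN : Measurable fun ω => ∫⁻ t, ‖cut U φ ω t‖ₑ ∂(A ω).measure :=
    meas_lintegral_stj hA.meas (F := fun p => ‖cut U φ p.1 p.2‖ₑ)
      (measurable_cut hU hφ.measurable).enorm
  have e9 : run A U φ =ᵐ[Px W y] fun ω =>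
      (∫⁻ t, ENNReal.ofReal (cut U φ ω t) ∂(A ω).measure).toReal -
        (∫⁻ t, ENNReal.ofReal (cut U (fun z => -φ z) ω t) ∂(A ω).measure).toReal := by
    filter_upwards [ae_lt_top mN (hA.mass hW hF hK hU hUK hφ y)] with ω hω
    rw [run, integral_eq_lintegral_pos_part_sub_lintegral_neg_part
      ⟨(measurable_cut_right hU hφ.measurable ω).aestronglyMeasurable, hω⟩]
    congr 3 with t
    unfold cut
    split_ifs <;> simp
  have j1 := integrable_toReal_of_lintegral_ne_top (mR hφ).aemeasurable a1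
  have j2 := integrable_toReal_of_lintegral_ne_top (mR hn).aemeasurable b1
  rw [integral_add iu ((j1.sub j2).congr e9.symm), integral_congr_ae e9, integral_sub j1 j2,
    integral_toReal (mR hφ).aemeasurable (ae_lt_top (mR hφ) a1),
    integral_toReal (mR hn).aemeasurable (ae_lt_top (mR hn) b1)]
  linarith

end Pool.Agent.Lib.MP_0d9445_pr.BM
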