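import Pool.Agent.Lib.MP_0d9445_pr.BM.Wiener

open MeasureTheory ProbabilityTheory Set Filter Topology Metric
open scoped NNReal ENNReal Laplacian

noncomputable section

namespace Pool.Agent.Lib.MP_0d9445_pr.BM

variable {W : Measure Path}

theorem heat_pos {t : ℝ} (ht : 0 < t) (y : ℂ) : 0 < heat t y := by
  unfold heat
  have := Real.pi_pos
  positivity

theorem measurable_heat : Measurable fun p : ℝ × ℂ => heat p.1 p.2 := by
  unfold heat
  fun_prop

namespace HeatAux

theorem measurable_heat_right (t : ℝ) : Measurable fun y : ℂ => heat t y :=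
  measurable_heat.comp (measurable_const.prodMk measurable_id)

theorem pdf_mul (t : ℝ≥0) (y : ℂ) :
    gaussianPDFReal 0 t y.re * gaussianPDFReal 0 t y.im = heat t y := by
  have h0 : (0 : ℝ) ≤ 2 * Real.pi * t := by
    have := Real.pi_pos
    positivity
  have hs : (√(2 * Real.pi * t))⁻¹ * (√(2 * Real.pi * t))⁻¹ = (2 * Real.pi * t)⁻¹ := by
    rw [← mul_inv, Real.mul_self_sqrt h0]
  have hn : ‖y‖ ^ 2 = y.re ^ 2 + y.im ^ 2 := by
    rw [Complex.sq_norm, Complex.normSq_apply]; ring
  unfold gaussianPDFReal heat
  rw [mul_mul_mul_comm, hs, ← Real.exp_add, hn]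
  congr 2
  ring

theorem pdf_mul' (t : ℝ≥0) (y : ℂ) :
    gaussianPDF 0 t y.re * gaussianPDF 0 t y.im = ENNReal.ofReal (heat t y) := by
  unfold gaussianPDF
  rw [← ENNReal.ofReal_mul (gaussianPDFReal_nonneg _ _ _), pdf_mul]

theorem measurable_start (x : ℂ) : Measurable (start x) :=
  (continuous_start.comp (continuous_const.prodMk continuous_id)).measurable

end HeatAux

theorem IsWiener.map_eval_heat (h : IsWiener W) {t : ℝ≥0} (ht : t ≠ 0) :
    W.map (fun ω : Path => ω t) = volume.withDensity fun y => ENNReal.ofReal (heat t y) := by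
  rw [h.map_eval, gaussianReal_of_var_ne_zero _ ht,
    prod_withDensity (measurable_gaussianPDF _ _) (measurable_gaussianPDF _ _)]
  ext s hs
  rw [Measure.map_apply Complex.measurableEquivRealProd.symm.measurable hs,
    withDensity_apply _ hs,
    withDensity_apply _ (Complex.measurableEquivRealProd.symm.measurable hs),
    ← Measure.volume_eq_prod,
    ← (Complex.volume_preserving_equiv_real_prod.symm).setLIntegral_comp_preimage_emb
      Complex.measurableEquivRealProd.symm.measurableEmbedding
      (fun y => ENNReal.ofReal (heat t y)) s]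
  refine lintegral_congr fun p => ?_
  rw [← HeatAux.pdf_mul']
  rfl

namespace HeatAux

theorem map_Px_eval (h : IsWiener W) {t : ℝ≥0} (ht : t ≠ 0) (x : ℂ) :
    (Px W x).map (fun ω : Path => ω t) =
      volume.withDensity fun y => ENNReal.ofReal (heat t (y - x)) := by
  have h1 : (Px W x).map (fun ω : Path => ω t) =
      (W.map (fun ω : Path => ω t)).map (fun y => x + y) := by
    unfold Px
    rw [Measure.map_map (measurable_evalAt t) (measurable_start x),
      Measure.map_map (measurable_const_add x) (measurable_evalAt t)]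
    rfl
  rw [h1, h.map_eval_heat ht]
  ext s hs
  rw [Measure.map_apply (measurable_const_add x) hs, withDensity_apply _ hs,
    withDensity_apply _ (measurable_const_add x hs),
    ← (measurePreserving_add_left (volume : Measure ℂ) x).setLIntegral_comp_preimage_emb
      (MeasurableEquiv.addLeft x).measurableEmbedding
      (fun y => ENNReal.ofReal (heat t (y - x))) s]
  refine lintegral_congr fun p => ?_
  rw [add_sub_cancel_left]

theorem measurable_dens (t : ℝ) (x : ℂ) :
    Measurable fun y : ℂ => ENNReal.ofReal (heat t (y - x)) :=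
  ((measurable_heat_right t).comp (measurable_sub_const x)).ennreal_ofReal

end HeatAux

theorem IsWiener.lintegral_Px_eval (h : IsWiener W) {t : ℝ≥0} (ht : t ≠ 0) (x : ℂ) {f : ℂ → ℝ≥0∞}
    (hf : Measurable f) :
    ∫⁻ ω, f (ω t) ∂(Px W x) = ∫⁻ y, ENNReal.ofReal (heat t (y - x)) * f y := by
  rw [← lintegral_map hf (measurable_evalAt t), HeatAux.map_Px_eval h ht,
    lintegral_withDensity_eq_lintegral_mul _ (HeatAux.measurable_dens t x) hf]
  rfl

theorem IsWiener.integral_Px_eval (h : IsWiener W) {t : ℝ≥0} (ht : t ≠ 0) (x : ℂ) {f : ℂ → ℝ}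
    (hf : AEStronglyMeasurable f volume) :
    ∫ ω, f (ω t) ∂(Px W x) = ∫ y, heat t (y - x) * f y := by
  have ht' : (0 : ℝ) < t := by positivity
  have hf' : AEStronglyMeasurable f ((Px W x).map (fun ω : Path => ω t)) := by
    rw [HeatAux.map_Px_eval h ht]
    exact hf.mono_ac (withDensity_absolutelyContinuous _ _)
  rw [← integral_map (measurable_evalAt t).aemeasurable hf', HeatAux.map_Px_eval h ht,
    integral_withDensity_eq_integral_toReal_smul (HeatAux.measurable_dens t x)
      (Eventually.of_forall fun _ => ENNReal.ofReal_lt_top)]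
  refine integral_congr_ae (Eventually.of_forall fun y => ?_)
  simp only [smul_eq_mul]
  rw [ENNReal.toReal_ofReal (heat_pos ht' _).le]

end Pool.Agent.Lib.MP_0d9445_pr.BM
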