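import Pool.Agent.Lib.MP_0d9445_pr.BM.Dynkin
import Pool.Agent.Lib.MP_0d9445_pr.BM.Heat

open MeasureTheory ProbabilityTheory Set Filter Topology Metric
open scoped NNReal ENNReal Laplacian

noncomputable section

namespace Pool.Agent.Lib.MP_0d9445_pr.BM

variable {W : Measure Path}

namespace PolarAux

open DynAux

theorem lap_log_nonneg (z : ℂ) {e : ℝ} (he : 0 < e) (w : ℂ) :
    0 ≤ Δ (fun w : ℂ => Real.log (‖w - z‖ ^ 2 + e)) w := by
  have hg : ∀ w : ℂ, HasFDerivAt (fun w : ℂ => ‖w - z‖ ^ 2 + e) ((2 : ℕ) • innerSL ℝ (w - z)) w :=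
    fun w => by
      have := ((hasFDerivAt_id (𝕜 := ℝ) w).sub_const z).norm_sq.add_const e
      simpa using this
  have hp : ∀ w : ℂ, 0 < ‖w - z‖ ^ 2 + e := fun w => by positivity
  have h1 : fderiv ℝ (fun w : ℂ => Real.log (‖w - z‖ ^ 2 + e)) =
      fun w => (‖w - z‖ ^ 2 + e)⁻¹ • ((2 : ℕ) • innerSL ℝ (w - z)) :=
    funext fun w => ((hg w).log (hp w).ne').fderiv
  have h2 : HasFDerivAt (fun w : ℂ => (2 : ℕ) • innerSL ℝ (w - z))
      ((2 : ℕ) • (innerSL ℝ : ℂ →L[ℝ] ℂ →L[ℝ] ℝ)) w := by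
    have := ((innerSL ℝ : ℂ →L[ℝ] ℂ →L[ℝ] ℝ).hasFDerivAt.comp w
      ((hasFDerivAt_id (𝕜 := ℝ) w).sub_const z)).const_smul (2 : ℕ)
    rw [ContinuousLinearMap.comp_id] at this
    exact this
  have h3 : HasFDerivAt (fun w : ℂ => (‖w - z‖ ^ 2 + e)⁻¹)
      ((-((‖w - z‖ ^ 2 + e) ^ 2)⁻¹) • ((2 : ℕ) • innerSL ℝ (w - z))) w :=
    (hasDerivAt_inv (hp w).ne').comp_hasFDerivAt w (hg w)
  have h4 := (h3.smul h2).fderiv
  have e1 : ∀ v : ℂ, ‖v‖ = 1 → fderiv ℝ
      (fun w => (‖w - z‖ ^ 2 + e)⁻¹ • ((2 : ℕ) • innerSL ℝ (w - z))) w v v =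
      (‖w - z‖ ^ 2 + e)⁻¹ * 2 - ((‖w - z‖ ^ 2 + e) ^ 2)⁻¹ * 4 * (inner ℝ (w - z) v) ^ 2 :=
    fun v hv => by
      have : innerSL ℝ v v = (1 : ℝ) := by
        rw [innerSL_apply_apply, real_inner_self_eq_norm_sq, hv, one_pow]
      refine (congrArg (fun L : ℂ →L[ℝ] ℂ →L[ℝ] ℝ => L v v) h4).trans ?_
      change (‖w - z‖ ^ 2 + e)⁻¹ • ((2 : ℕ) • innerSL ℝ v v) +
        ((-((‖w - z‖ ^ 2 + e) ^ 2)⁻¹) • ((2 : ℕ) • innerSL ℝ (w - z) v)) •
          ((2 : ℕ) • innerSL ℝ (w - z) v) = _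
      rw [this, innerSL_apply_apply]
      simp only [smul_eq_mul, nsmul_eq_mul, Nat.cast_ofNat]
      ring
  have e2 : (inner ℝ (w - z) (1 : ℂ)) ^ 2 + (inner ℝ (w - z) Complex.I) ^ 2 = ‖w - z‖ ^ 2 := by
    rw [Complex.sq_norm, Complex.normSq_apply]
    simp only [Complex.inner, one_mul, Complex.conj_re, Complex.mul_re, Complex.I_re, Complex.I_im,
      Complex.conj_im]
    ring
  rw [lap_eq, h1, e1 1 norm_one, e1 _ Complex.norm_I]
  have : (‖w - z‖ ^ 2 + e)⁻¹ * 2 - ((‖w - z‖ ^ 2 + e) ^ 2)⁻¹ * 4 * (inner ℝ (w - z) (1 : ℂ)) ^ 2 +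
      ((‖w - z‖ ^ 2 + e)⁻¹ * 2 - ((‖w - z‖ ^ 2 + e) ^ 2)⁻¹ * 4 * (inner ℝ (w - z) Complex.I) ^ 2) =
      4 * e / (‖w - z‖ ^ 2 + e) ^ 2 := by
    have := (hp w).ne'
    field_simp
    linear_combination (-4) * e2
  rw [this]
  positivity

theorem hit_bound (h : IsWiener W) {x z : ℂ} {R : ℝ} (hx : x ∈ ball z R) {U : Set ℂ}
    (hU : IsOpen U) (hUR : U ⊆ ball z R) {e : ℝ} (he : 0 < e) :
    Real.log (‖x - z‖ ^ 2 + e) ≤
      ∫ ω, Real.log (‖ω (exitT U ω).toNNReal - z‖ ^ 2 + e) ∂(Px W x) := by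
  have := h.prob_Px x
  have hr : 0 < R := pos_of_mem_ball hx
  let χ : ContDiffBump z := ⟨R + 1, R + 2, by linarith, by linarith⟩
  have hu : ContDiff ℝ 2 fun w => χ w * Real.log (‖w - z‖ ^ 2 + e) :=
    χ.contDiff.mul ((((contDiff_id.sub contDiff_const).norm_sq ℝ).add contDiff_const).log
      fun w => by positivity)
  have hs : HasCompactSupport fun w => χ w * Real.log (‖w - z‖ ^ 2 + e) :=
    χ.hasCompactSupport.mul_right
  have hone : ∀ w ∈ closedBall z R, ∀ᶠ y in 𝓝 w,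
      χ y * Real.log (‖y - z‖ ^ 2 + e) = Real.log (‖y - z‖ ^ 2 + e) := fun w hw => by
    have : ball z (R + 1) ∈ 𝓝 w := isOpen_ball.mem_nhds (closedBall_subset_ball (by linarith) hw)
    filter_upwards [this] with y hy
    rw [χ.one_of_mem_closedBall (ball_subset_closedBall hy), one_mul]
  have hopt : Opt filt (exitT U) := opt_exitT (h.isFBM_Px x).adapted hU
  have hfin : ∫⁻ ω, exitT U ω ∂(Px W x) ≠ ∞ := ne_top_of_le_ne_top ENNReal.ofReal_ne_top
    ((lintegral_mono fun ω => exitT_mono hUR ω).trans (h.lintegral_exitT_le z x R))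
  have h1 := (h.isFBM_Px x).dynkin hopt hfin hu hs le_rfl
  have hin : ∀ᵐ ω ∂(Px W x), ∀ s : ℝ≥0, s ≤ (exitT U ω).toNNReal → ω s ∈ closedBall z R := by
    filter_upwards [h.ae_Px_zero x] with ω hω s hs
    refine closure_ball_subset_closedBall (mem_closure_of_le_exitT (hω ▸ subset_closure hx) ?_)
    exact ((ENNReal.coe_le_coe.2 hs).trans ENNReal.coe_toNNReal_le_self).trans (exitT_mono hUR ω)
  have e0 : ∫ ω, χ (id ω 0) * Real.log (‖id ω 0 - z‖ ^ 2 + e) ∂(Px W x) =
      ∫ _, Real.log (‖x - z‖ ^ 2 + e) ∂(Px W x) :=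
    integral_congr_ae ((h.ae_Px_zero x).mono fun ω hω => by
      simp only [id, hω]
      exact (hone x (ball_subset_closedBall hx)).self_of_nhds)
  have e1 : ∫ ω, Real.exp (-0 * (exitT U ω).toReal) * (χ (id ω (exitT U ω).toNNReal) *
      Real.log (‖id ω (exitT U ω).toNNReal - z‖ ^ 2 + e)) ∂(Px W x) =
      ∫ ω, Real.log (‖ω (exitT U ω).toNNReal - z‖ ^ 2 + e) ∂(Px W x) :=
    integral_congr_ae (hin.mono fun ω hω => by
      simp only [id, neg_zero, zero_mul, Real.exp_zero, one_mul]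
      exact (hone _ (hω _ le_rfl)).self_of_nhds)
  rw [e0, e1] at h1
  rw [h1]
  simp only [integral_const, probReal_univ, one_smul, le_add_iff_nonneg_right]
  refine integral_nonneg_of_ae (hin.mono fun ω hω => ?_)
  refine intervalIntegral.integral_nonneg ENNReal.toReal_nonneg fun s hs => ?_
  simp only [id, neg_zero, zero_mul, Real.exp_zero, one_mul, sub_zero]
  rw [(InnerProductSpace.laplacian_congr_nhds
    (hone _ (hω _ (Real.toNNReal_le_iff_le_coe.2 hs.2)))).eq_of_nhds]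
  exact mul_nonneg (by norm_num) (lap_log_nonneg z he _)

end PolarAux

open PolarAux

/-- the logarithmic bound for the probability to come `r`-close to `z` before leaving the disc of
radius `R` about `z` -/
theorem IsWiener.hit_le (h : IsWiener W) {x z : ℂ} {R r e : ℝ} (hx : x ∈ ball z R)
    (he : 0 < e) {U : Set ℂ} (hU : IsOpen U) (hUR : U ⊆ ball z R) :
    (Px W x).real {ω | ‖ω (exitT U ω).toNNReal - z‖ ≤ r} *
      (Real.log (R ^ 2 + e) - Real.log (r ^ 2 + e)) ≤
      Real.log (R ^ 2 + e) - Real.log (‖x - z‖ ^ 2 + e) := by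
  have := h.prob_Px x
  have h1 := hit_bound h hx hU hUR he
  have hm : Measurable fun ω : Path => ‖ω (exitT U ω).toNNReal - z‖ :=
    ((measurable_id.path_ev (measurable_exitT hU).ennreal_toNNReal).sub_const z).norm
  have hA : MeasurableSet {ω : Path | ‖ω (exitT U ω).toNNReal - z‖ ≤ r} :=
    measurableSet_le hm measurable_const
  have hin : ∀ᵐ ω ∂(Px W x), ‖ω (exitT U ω).toNNReal - z‖ ≤ R := by
    filter_upwards [h.ae_Px_zero x] with ω hω
    refine mem_closedBall_iff_norm.1 (closure_ball_subset_closedBall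
      (mem_closure_of_le_exitT (hω ▸ subset_closure hx) ?_))
    exact ENNReal.coe_toNNReal_le_self.trans (exitT_mono hUR ω)
  have hmono : ∀ {a b : ℝ}, 0 ≤ a → a ≤ b → Real.log (a ^ 2 + e) ≤ Real.log (b ^ 2 + e) :=
    fun ha hab => Real.log_le_log (by positivity) (by gcongr)
  have i1 : Integrable (fun ω : Path => Real.log (‖ω (exitT U ω).toNNReal - z‖ ^ 2 + e))
      (Px W x) := by
    refine Integrable.of_bound ((hm.pow_const 2).add_const e).log.aestronglyMeasurable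
      (|Real.log (0 ^ 2 + e)| + |Real.log (R ^ 2 + e)|) (hin.mono fun ω hω => ?_)
    have a := hmono le_rfl (norm_nonneg (ω (exitT U ω).toNNReal - z))
    have b := hmono (norm_nonneg _) hω
    rw [Real.norm_eq_abs, abs_le]
    constructor
    · linarith [neg_abs_le (Real.log (0 ^ 2 + e)), abs_nonneg (Real.log (R ^ 2 + e))]
    · linarith [le_abs_self (Real.log (R ^ 2 + e)), abs_nonneg (Real.log (0 ^ 2 + e))]
  have i2 : Integrable (indicator {ω : Path | ‖ω (exitT U ω).toNNReal - z‖ ≤ r}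
      fun _ => Real.log (R ^ 2 + e) - Real.log (r ^ 2 + e)) (Px W x) :=
    (integrable_const _).indicator hA
  have h2 := integral_mono_ae i1 ((integrable_const (Real.log (R ^ 2 + e))).sub i2)
    (hin.mono fun ω hω => by
      by_cases hA' : ω ∈ {ω : Path | ‖ω (exitT U ω).toNNReal - z‖ ≤ r}
      · simp only [Pi.sub_apply, indicator_of_mem hA', sub_sub_cancel]
        exact hmono (norm_nonneg _) hA'
      · simp only [Pi.sub_apply, indicator_of_notMem hA', sub_zero]
        exact hmono (norm_nonneg _) hω)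
  simp only [Pi.sub_apply] at h2
  rw [integral_sub (integrable_const _) i2, integral_indicator_const _ hA] at h2
  simp only [integral_const, probReal_univ, smul_eq_mul] at h2
  linarith

theorem IsWiener.polar_ne (h : IsWiener W) {x z : ℂ} (hxz : x ≠ z) :
    ∀ᵐ ω ∂(Px W x), ∀ t, ω t ≠ z := by
  have := h.prob_Px x
  have key : ∀ n : ℕ, ∀ᵐ ω ∂(Px W x), x ∈ ball z n →
      ω (exitT (ball z n \ {z}) ω).toNNReal ≠ z := fun n => by
    by_cases hx : x ∈ ball z n
    swap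
    · exact Eventually.of_forall fun _ h => absurd h hx
    have hp : (Px W x).real {ω | ‖ω (exitT (ball z n \ {z}) ω).toNNReal - z‖ ≤ 0} = 0 := by
      by_contra hne
      have hpos : 0 < (Px W x).real {ω | ‖ω (exitT (ball z n \ {z}) ω).toNNReal - z‖ ≤ 0} :=
        lt_of_le_of_ne measureReal_nonneg (Ne.symm hne)
      set p := (Px W x).real {ω | ‖ω (exitT (ball z n \ {z}) ω).toNNReal - z‖ ≤ 0} with hp
      have hd : 0 < ‖x - z‖ := norm_pos_iff.2 (sub_ne_zero.2 hxz)
      have hn : (0 : ℝ) < n := pos_of_mem_ball hx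
      set M := (Real.log ((n : ℝ) ^ 2 + 1) - Real.log (‖x - z‖ ^ 2)) / p - Real.log ((n : ℝ) ^ 2)
        with hM
      have he : 0 < Real.exp (-(|M| + 1)) := Real.exp_pos _
      have he1 : Real.exp (-(|M| + 1)) ≤ 1 := Real.exp_le_one_iff.2 (by linarith [abs_nonneg M])
      have h1 := h.hit_le (r := 0) hx he (U := ball z n \ {z})
        (isOpen_ball.sdiff isClosed_singleton) sdiff_subset
      rw [← hp, zero_pow two_ne_zero, zero_add, Real.log_exp] at h1
      have a : Real.log ((n : ℝ) ^ 2) ≤ Real.log ((n : ℝ) ^ 2 + Real.exp (-(|M| + 1))) :=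
        Real.log_le_log (by positivity) (by linarith)
      have b : Real.log ((n : ℝ) ^ 2 + Real.exp (-(|M| + 1))) ≤ Real.log ((n : ℝ) ^ 2 + 1) :=
        Real.log_le_log (by positivity) (by linarith)
      have c : Real.log (‖x - z‖ ^ 2) ≤ Real.log (‖x - z‖ ^ 2 + Real.exp (-(|M| + 1))) :=
        Real.log_le_log (by positivity) (by linarith)
      have d : p * (M + Real.log ((n : ℝ) ^ 2)) =
          Real.log ((n : ℝ) ^ 2 + 1) - Real.log (‖x - z‖ ^ 2) := by
        rw [hM, sub_add_cancel, mul_div_cancel₀ _ hpos.ne']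
      nlinarith [le_abs_self M]
    rw [measureReal_eq_zero_iff] at hp
    filter_upwards [measure_eq_zero_iff_ae_notMem.1 hp] with ω hω _ he
    exact hω (by simp [he])
  filter_upwards [ae_all_iff.2 key, h.ae_Px_zero x] with ω hω h0 t ht
  obtain ⟨r, hr⟩ := ((isCompact_Icc (a := 0) (b := t)).image ω.continuous).isBounded.subset_ball z
  obtain ⟨n, hn⟩ := exists_nat_ge r
  have hb : ∀ s ≤ t, ω s ∈ ball z n := fun s hs =>
    ball_subset_ball hn (hr ⟨s, ⟨zero_le, hs⟩, rfl⟩)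
  have h1 : exitT (ball z n \ {z}) ω ≤ t := exitT_le_of_notMem fun h => h.2 ht
  have h2 := notMem_exitT (isOpen_ball.sdiff isClosed_singleton) (h1.trans_lt ENNReal.coe_lt_top)
  refine h2 ⟨hb _ ?_, hω n (h0 ▸ hb 0 zero_le)⟩
  simpa using ENNReal.toNNReal_mono ENNReal.coe_ne_top h1

/-- what holds almost surely from almost every point holds after any positive time from every
point -/
theorem IsWiener.ae_shift (h : IsWiener W) {A : Set Path} (hA : MeasurableSet A)
    (hy : ∀ᵐ y : ℂ, ∀ᵐ η ∂(Px W y), η ∈ A) (x : ℂ) {q : ℝ≥0} (hq : q ≠ 0) :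
    ∀ᵐ ω ∂(Px W x), shift q ω ∈ A := by
  have h1 := (h.isFBM_Px x).strong_lintegral (Opt.const (q : ℝ≥0∞)) (Y := fun _ => ())
    measurable_const (Ψ := fun p => indicator Aᶜ 1 p.2)
    ((measurable_one.indicator hA.compl).comp measurable_snd)
  simp only [ENNReal.coe_lt_top, ofPred_true, Measure.restrict_univ, ENNReal.toNNReal_coe, id,
    lintegral_indicator_one hA.compl] at h1
  have hm : Measurable fun y => Px W y Aᶜ := (Measure.measurable_coe hA.compl).comp h.measurable_Px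
  rw [h.lintegral_Px_eval hq x hm, lintegral_congr_ae (μ := volume) (g := fun _ => 0)
    (hy.mono fun y hy => by rw [show Px W y Aᶜ = 0 from hy, mul_zero]), lintegral_zero] at h1
  filter_upwards [(lintegral_eq_zero_iff
    ((measurable_one.indicator hA.compl).comp (measurable_shift q))).1 h1] with ω hω
  by_contra hc
  simp [indicator_of_mem (show shift q ω ∈ Aᶜ from hc)] at hω

/-- points are polar -/
theorem IsWiener.polar (h : IsWiener W) (x z : ℂ) : ∀ᵐ ω ∂(Px W x), ∀ t, t ≠ 0 → ω t ≠ z := by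
  have hA : MeasurableSet {η : Path | ∀ t, η t ≠ z} := by
    have : {η : Path | ∀ t, η t ≠ z} = exitT {z}ᶜ ⁻¹' {∞} := by
      ext η
      simp [exitT]
    rw [this]
    exact measurable_exitT isOpen_compl_singleton (measurableSet_singleton _)
  have key : ∀ n : ℕ, ∀ᵐ ω ∂(Px W x), shift (1 / ((n : ℝ≥0) + 1)) ω ∈ {η : Path | ∀ t, η t ≠ z} :=
    fun n => h.ae_shift hA ((Measure.ae_ne volume z).mono fun y hy => h.polar_ne hy) x
      (by positivity)
  filter_upwards [ae_all_iff.2 key] with ω hω t ht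
  obtain ⟨n, hn⟩ := exists_nat_one_div_lt (pos_iff_ne_zero.2 ht)
  have := hω n (t - 1 / ((n : ℝ≥0) + 1))
  rwa [shift_apply, add_tsub_cancel_of_le hn.le] at this

/-- the path never meets a countable set that does not contain the starting point -/
theorem IsWiener.exitT_compl_countable (h : IsWiener W) {Z : Set ℂ} (hZ : Z.Countable) {x : ℂ}
    (hx : x ∉ Z) : ∀ᵐ ω ∂(Px W x), exitT Zᶜ ω = ∞ := by
  have := (ae_ball_iff hZ).2 fun z hz => h.polar_ne (x := x) (z := z) fun e => hx (e ▸ hz)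
  filter_upwards [this] with ω hω
  simp only [exitT, mem_compl_iff, not_not, iInf_eq_top]
  exact fun t ht => absurd rfl (hω _ ht t)

end Pool.Agent.Lib.MP_0d9445_pr.BM
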