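import Pool.Agent.Lib.MP_0d9445_pr.BM.Clock
import Pool.Agent.Lib.MP_0d9445_pr.BM.Heat

/-! Bounds for the resolvent kernel. -/

open MeasureTheory ProbabilityTheory Set Filter Topology Metric
open scoped NNReal ENNReal

noncomputable section

namespace Pool.Agent.Lib.MP_0d9445_pr.BM

namespace ResAux

theorem heat_le_inv {t : ℝ} (ht : 0 < t) (v : ℂ) : heat t v ≤ t⁻¹ := by
  have h1 : Real.exp (-‖v‖ ^ 2 / (2 * t)) ≤ 1 :=
    Real.exp_le_one_iff.2 (div_nonpos_of_nonpos_of_nonneg (by nlinarith [sq_nonneg ‖v‖])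
      (by positivity))
  have h2 : (2 * Real.pi * t)⁻¹ ≤ t⁻¹ := by
    apply inv_anti₀ ht
    nlinarith [Real.pi_gt_three]
  unfold heat
  calc (2 * Real.pi * t)⁻¹ * Real.exp (-‖v‖ ^ 2 / (2 * t)) ≤ t⁻¹ * 1 := by gcongr
    _ = t⁻¹ := mul_one _

theorem heat_le_inv_sq {t ρ : ℝ} (ht : 0 < t) (hρ : 0 < ρ) {v : ℂ} (h : ρ ≤ ‖v‖) :
    heat t v ≤ (ρ ^ 2)⁻¹ := by
  have h0 : ρ ^ 2 / (2 * t) ≤ ‖v‖ ^ 2 / (2 * t) := by gcongr
  have h1 : Real.exp (-‖v‖ ^ 2 / (2 * t)) ≤ (ρ ^ 2 / (2 * t))⁻¹ := by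
    rw [neg_div, Real.exp_neg]
    apply inv_anti₀ (by positivity)
    linarith [Real.add_one_le_exp (‖v‖ ^ 2 / (2 * t))]
  have hp := Real.pi_pos
  unfold heat
  calc (2 * Real.pi * t)⁻¹ * Real.exp (-‖v‖ ^ 2 / (2 * t))
      ≤ (2 * Real.pi * t)⁻¹ * (ρ ^ 2 / (2 * t))⁻¹ := by gcongr
    _ = (Real.pi * ρ ^ 2)⁻¹ := by field_simp
    _ ≤ (ρ ^ 2)⁻¹ := by
      apply inv_anti₀ (by positivity)
      nlinarith [Real.pi_gt_three, sq_pos_of_pos hρ]

theorem heat_ge {t : ℝ} (ht : 0 < t) {v : ℂ} (h : ‖v‖ ^ 2 ≤ t) :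
    (2 * Real.pi * t)⁻¹ * Real.exp (-(1 / 2)) ≤ heat t v := by
  have hp := Real.pi_pos
  unfold heat
  gcongr
  rw [le_div_iff₀ (by positivity)]
  linarith

theorem measurable_int : Measurable fun p : (ℂ × ℂ) × ℝ =>
    ENNReal.ofReal (Real.exp (-p.2) * heat p.2 (p.1.2 - p.1.1)) := by
  unfold heat
  fun_prop

theorem lintegral_ofReal_Ioc {a b : ℝ} (hab : a ≤ b) {g : ℝ → ℝ}
    (hg : IntervalIntegrable g volume a b) (h0 : ∀ t ∈ Ioc a b, 0 ≤ g t) :
    ∫⁻ t in Ioc a b, ENNReal.ofReal (g t) = ENNReal.ofReal (∫ t in a..b, g t) := by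
  rw [intervalIntegral.integral_of_le hab, ofReal_integral_eq_lintegral_ofReal hg.1
    ((ae_restrict_mem measurableSet_Ioc).mono h0)]

theorem lintegral_exp_neg (a : ℝ) :
    ∫⁻ t in Ioi a, ENNReal.ofReal (Real.exp (-t)) = ENNReal.ofReal (Real.exp (-a)) := by
  rw [← integral_exp_neg_Ioi, ofReal_integral_eq_lintegral_ofReal (integrableOn_exp_neg_Ioi a)
    (Eventually.of_forall fun _ => (Real.exp_pos _).le)]

end ResAux

open ResAux

theorem measurable_res : Measurable fun p : ℂ × ℂ => res p.1 p.2 :=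
  measurable_int.lintegral_prod_right'

theorem IsWiener.lintegral_res {W : Measure Path} (h : IsWiener W) (w : ℂ) :
    ∫⁻ v, res v w = 1 := by
  have := h.prob_Px w
  unfold res
  rw [lintegral_lintegral_swap
    (f := fun (v : ℂ) (t : ℝ) => ENNReal.ofReal (Real.exp (-t) * heat t (w - v)))
    (measurable_int.comp (f := fun p : ℂ × ℝ => ((p.1, w), p.2)) (by fun_prop)).aemeasurable]
  have : ∀ t ∈ Ioi (0 : ℝ), ∫⁻ v, ENNReal.ofReal (Real.exp (-t) * heat t (w - v)) =
      ENNReal.ofReal (Real.exp (-t)) := fun t ht => by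
    have h1 := h.lintegral_Px_eval (t := t.toNNReal) (by simpa using ht) w
      (f := fun _ => 1) measurable_const
    simp only [lintegral_const, measure_univ, mul_one, Real.coe_toNNReal _ (le_of_lt ht)] at h1
    simp only [ENNReal.ofReal_mul (Real.exp_pos _).le]
    rw [lintegral_const_mul' _ _ ENNReal.ofReal_ne_top]
    have h2 : ∀ v, heat t (w - v) = heat t (v - w) := fun v => by unfold heat; rw [norm_sub_rev]
    simp only [h2, ← h1, mul_one]
  rw [setLIntegral_congr_fun measurableSet_Ioi this, lintegral_exp_neg]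
  simp

theorem res_ge {r : ℝ} (hr : 0 < r) (hr1 : r ≤ 1) {y w : ℂ} (h : ‖w - y‖ ≤ r) :
    ENNReal.ofReal (Real.exp (-(3 / 2)) / Real.pi * -Real.log r) ≤ res y w := by
  have hp := Real.pi_pos
  have h2 : 0 < r ^ 2 := by positivity
  have h3 : r ^ 2 ≤ 1 := pow_le_one₀ hr.le hr1
  have h4 := lintegral_ofReal_Ioc h3 (g := fun t => Real.exp (-(3 / 2)) / (2 * Real.pi) * t⁻¹)
    ((intervalIntegral.intervalIntegrable_inv (fun t ht => by
      rw [uIcc_of_le h3] at ht
      exact (h2.trans_le ht.1).ne') continuousOn_id).const_mul _)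
    (fun t ht => by have := h2.trans ht.1; positivity)
  rw [intervalIntegral.integral_const_mul, integral_inv_of_pos h2 one_pos, one_div, Real.log_inv,
    Real.log_pow] at h4
  have e : Real.exp (-(3 / 2)) / Real.pi * -Real.log r =
      Real.exp (-(3 / 2)) / (2 * Real.pi) * -(((2 : ℕ) : ℝ) * Real.log r) := by
    push_cast
    field_simp
  rw [e, ← h4]
  refine le_trans (setLIntegral_mono' measurableSet_Ioc fun t ht => ?_)
    (lintegral_mono_set fun t ht => h2.trans ht.1)
  have ht0 := h2.trans ht.1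
  refine ENNReal.ofReal_le_ofReal ?_
  have h5 := heat_ge ht0 (v := w - y) ((pow_le_pow_left₀ (norm_nonneg _) h 2).trans ht.1.le)
  calc Real.exp (-(3 / 2)) / (2 * Real.pi) * t⁻¹
      = Real.exp (-1) * ((2 * Real.pi * t)⁻¹ * Real.exp (-(1 / 2))) := by
        rw [show (-(3 / 2) : ℝ) = -1 + -(1 / 2) by norm_num, Real.exp_add]
        field_simp
    _ ≤ Real.exp (-t) * heat t (w - y) := by gcongr; exact ht.2

/-- upper bound for the potential of a measure with a power bound for the mass of discs -/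
theorem pot_le {ν : Measure ℂ} {m C a t₀ : ℝ} (hm : 0 ≤ m) (hν : ν univ ≤ ENNReal.ofReal m)
    (hC : 0 ≤ C) (ha : 0 < a) (h0 : 0 < t₀) (h1 : t₀ ≤ 1) (x : ℂ)
    (hF : ∀ t, 0 < t → t ≤ t₀ → ν (ball x (t ^ (1 / 4 : ℝ))) ≤ ENNReal.ofReal (C * t ^ a)) :
    ∫⁻ w, res x w ∂ν ≤ ENNReal.ofReal (C / a * t₀ ^ a + m * (3 - Real.log t₀)) := by
  have : IsFiniteMeasure ν := ⟨hν.trans_lt ENNReal.ofReal_lt_top⟩
  unfold res
  rw [lintegral_lintegral_swap
    (f := fun (w : ℂ) (t : ℝ) => ENNReal.ofReal (Real.exp (-t) * heat t (w - x)))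
    (measurable_int.comp (f := fun p : ℂ × ℝ => ((x, p.1), p.2)) (by fun_prop)).aemeasurable]
  have hb : ∀ t, 0 < t → ∀ c, 0 ≤ c → (∀ w, Real.exp (-t) * heat t (w - x) ≤ c) →
      ∫⁻ w, ENNReal.ofReal (Real.exp (-t) * heat t (w - x)) ∂ν ≤ ENNReal.ofReal (m * c) :=
    fun t ht c hc hw => by
      refine (lintegral_mono fun w => ENNReal.ofReal_le_ofReal (hw w)).trans ?_
      rw [lintegral_const, mul_comm m, ENNReal.ofReal_mul hc]
      gcongr
  have he : ∀ t, 0 < t → ∀ w, Real.exp (-t) * heat t (w - x) ≤ heat t (w - x) := fun t ht w =>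
    mul_le_of_le_one_left (heat_pos ht _).le (Real.exp_le_one_iff.2 (by linarith))
  have e1 : ∫⁻ t in Ioc 0 t₀, ∫⁻ w, ENNReal.ofReal (Real.exp (-t) * heat t (w - x)) ∂ν ≤
      ENNReal.ofReal (C / a * t₀ ^ a + m * 2) := by
    have i1 : IntervalIntegrable (fun t : ℝ => C * t ^ (a - 1)) volume 0 t₀ :=
      (intervalIntegral.intervalIntegrable_rpow' (by linarith)).const_mul C
    have i2 : IntervalIntegrable (fun t : ℝ => m * t ^ (-(1 / 2) : ℝ)) volume 0 t₀ :=
      (intervalIntegral.intervalIntegrable_rpow' (by norm_num)).const_mul m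
    have h4 := lintegral_ofReal_Ioc h0.le (i1.add i2) fun t ht => by have := ht.1; positivity
    rw [intervalIntegral.integral_add i1 i2, intervalIntegral.integral_const_mul,
      intervalIntegral.integral_const_mul, integral_rpow (Or.inl (by linarith)),
      integral_rpow (Or.inl (by norm_num)), sub_add_cancel, Real.zero_rpow ha.ne',
      Real.zero_rpow (by norm_num), sub_zero, sub_zero] at h4
    refine le_trans (setLIntegral_mono' measurableSet_Ioc fun t ht => ?_) (h4.le.trans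
      (ENNReal.ofReal_le_ofReal ?_))
    · have ht0 := ht.1
      have hρ : 0 < t ^ (1 / 4 : ℝ) := by positivity
      rw [← lintegral_add_compl _ (measurableSet_ball (x := x) (ε := t ^ (1 / 4 : ℝ))),
        ENNReal.ofReal_add (by positivity) (by positivity)]
      refine add_le_add ?_ ?_
      · refine (lintegral_mono fun w => ENNReal.ofReal_le_ofReal
          ((he t ht0 w).trans (heat_le_inv ht0 _))).trans ?_
        rw [lintegral_const, Measure.restrict_apply_univ]
        refine (mul_le_mul_right (hF t ht0 ht.2) _).trans (le_of_eq ?_)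
        rw [← ENNReal.ofReal_mul (by positivity), Real.rpow_sub_one ht0.ne']
        congr 1
        field_simp
      · refine (setLIntegral_mono' measurableSet_ball.compl fun w hw => ENNReal.ofReal_le_ofReal
          ((he t ht0 w).trans (heat_le_inv_sq ht0 hρ
            (by simpa [dist_eq_norm] using hw)))).trans ?_
        rw [lintegral_const, Measure.restrict_apply_univ]
        refine (mul_le_mul_right ((measure_mono (subset_univ _)).trans hν) _).trans (le_of_eq ?_)
        rw [← ENNReal.ofReal_mul (by positivity), mul_comm, Real.rpow_neg ht0.le,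
          ← Real.rpow_natCast, ← Real.rpow_mul ht0.le]
        norm_num
    · have : t₀ ^ (-(1 / 2) + 1 : ℝ) ≤ 1 := Real.rpow_le_one h0.le h1 (by norm_num)
      have h5 : t₀ ^ (-(1 / 2) + 1 : ℝ) / (-(1 / 2) + 1) ≤ 2 := by
        rw [div_le_iff₀ (by norm_num)]
        linarith
      have h6 : C * (t₀ ^ a / a) = C / a * t₀ ^ a := by ring
      rw [h6]
      gcongr
  have e2 : ∫⁻ t in Ioc t₀ 1, ∫⁻ w, ENNReal.ofReal (Real.exp (-t) * heat t (w - x)) ∂ν ≤
      ENNReal.ofReal (m * -Real.log t₀) := by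
    have h4 := lintegral_ofReal_Ioc h1 (g := fun t => m * t⁻¹)
      ((intervalIntegral.intervalIntegrable_inv (fun t ht => by
        rw [uIcc_of_le h1] at ht
        exact (h0.trans_le ht.1).ne') continuousOn_id).const_mul _)
      (fun t ht => by have := h0.trans ht.1; positivity)
    rw [intervalIntegral.integral_const_mul, integral_inv_of_pos h0 one_pos, one_div,
      Real.log_inv] at h4
    rw [← h4]
    refine setLIntegral_mono' measurableSet_Ioc fun t ht => ?_
    have ht0 := h0.trans ht.1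
    exact hb t ht0 _ (by positivity) fun w => (he t ht0 w).trans (heat_le_inv ht0 _)
  have e3 : ∫⁻ t in Ioi 1, ∫⁻ w, ENNReal.ofReal (Real.exp (-t) * heat t (w - x)) ∂ν ≤
      ENNReal.ofReal (m * 1) := by
    have : ∫⁻ t in Ioi (1 : ℝ), ENNReal.ofReal (m * Real.exp (-t)) ≤ ENNReal.ofReal (m * 1) := by
      simp only [ENNReal.ofReal_mul hm]
      rw [lintegral_const_mul' _ _ ENNReal.ofReal_ne_top, lintegral_exp_neg]
      gcongr
      exact Real.exp_le_one_iff.2 (by norm_num)
    refine le_trans (setLIntegral_mono' measurableSet_Ioi fun t ht => ?_) this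
    have ht1 : 1 < t := ht
    refine hb t (by linarith) _ (Real.exp_pos _).le fun w => ?_
    exact mul_le_of_le_one_right (Real.exp_pos _).le
      ((heat_le_inv (by linarith) _).trans (inv_le_one_of_one_le₀ ht1.le))
  have hs : Ioi (0 : ℝ) ⊆ (Ioc 0 t₀ ∪ Ioc t₀ 1) ∪ Ioi 1 := by
    rw [Ioc_union_Ioc_eq_Ioc h0.le h1, Ioc_union_Ioi_eq_Ioi zero_le_one]
  have hl : 0 ≤ -Real.log t₀ := neg_nonneg.2 (Real.log_nonpos h0.le h1)
  refine (lintegral_mono_set hs).trans ((lintegral_union_le _ _ _).trans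
    ((add_le_add ((lintegral_union_le _ _ _).trans (add_le_add e1 e2)) e3).trans (le_of_eq ?_)))
  rw [← ENNReal.ofReal_add (by positivity) (by positivity),
    ← ENNReal.ofReal_add (by positivity) (by positivity)]
  congr 1
  ring

end Pool.Agent.Lib.MP_0d9445_pr.BM
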