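import Pool.Agent.Lib.MP_0d9445_pr.BM.ClockAux
import Pool.Agent.Lib.MP_0d9445_pr.BM.Res
import Pool.Agent.Lib.MP_0d9445_pr.BM.Polar

/-! The additive functional is strictly increasing and unbounded. -/

open MeasureTheory ProbabilityTheory Set Filter Topology Metric
open scoped NNReal ENNReal

noncomputable section

namespace Pool.Agent.Lib.MP_0d9445_pr.BM

variable {W : Measure Path} {μ : Measure ℂ} {A : Path → StieltjesFunction ℝ≥0}

/-- Blumenthal zero-one law -/
theorem IsWiener.blumenthal (h : IsWiener W) (y : ℂ) {s : Set Path}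
    (hs : ∀ t, t ≠ 0 → MeasurableSet[past t] s) (h0 : Px W y s ≠ 0) : ∀ᵐ ω ∂Px W y, ω ∈ s := by
  have := h.prob_Px y
  have hm : MeasurableSet s := past_le 1 s (hs 1 one_ne_zero)
  have h1 := (h.isFBM_Px y).strong_rect (Opt.const 0) (s := s) ⟨hm, fun t => by
    rcases eq_or_ne t 0 with rfl | ht
    · simp
    · exact (hs t ht).inter (MeasurableSet.const _)⟩ (fun _ _ => ENNReal.zero_lt_top)
    (measurable_start y hm)
  rw [← Measure.map_apply (measurable_start y) hm] at h1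
  have h2 : Px W y (s ∩ {ω | incr (0 : ℝ≥0∞).toNNReal (id ω) ∈ start y ⁻¹' s}) = Px W y s := by
    refine measure_congr ((h.ae_Px_zero y).mono fun ω hω => propext ⟨fun h => h.1, fun h => ⟨h, ?_⟩⟩)
    change start y (incr 0 ω) ∈ s
    rwa [← hω, start_incr, shift_zero]
  rw [h2] at h1
  have h3 : Px W y s = 1 :=
    (ENNReal.mul_right_inj h0 (measure_ne_top _ _)).1 (h1.symm.trans (mul_one _).symm)
  exact (prob_compl_eq_zero_iff hm).2 h3

namespace StrictAux

/-- the first time at which the functional is positive -/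
def R (A : Path → StieltjesFunction ℝ≥0) (ω : Path) : ℝ≥0∞ :=
  ⨅ (t : ℝ≥0) (_ : 0 < A ω t), (t : ℝ≥0∞)

theorem R_lt_iff {ω : Path} {t : ℝ≥0} : R A ω < t ↔ ∃ s < t, 0 < A ω s := by
  simp only [R, iInf_lt_iff, ENNReal.coe_lt_coe, exists_prop]
  exact exists_congr fun _ => and_comm

theorem exG (hA : IsPCAF W μ A) (x : ℂ) (t : ℝ≥0) :
    ∃ G : Path → ℝ, Measurable[past t] G ∧ ∀ᵐ ω ∂Px W x, A ω t = G ω := by
  first
    | exact ⟨_, (hA.adapted x t).stronglyMeasurable_mk.measurable, (hA.adapted x t).ae_eq_mk⟩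
    | exact (hA.adapted t).imp fun _ h => ⟨h.1, h.2 x⟩

theorem R_eq (ω : Path) :
    R A ω = ⨅ (q : ℚ) (_ : 0 < A ω (Real.toNNReal q)), ((Real.toNNReal q : ℝ≥0) : ℝ≥0∞) := by
  refine le_antisymm (le_iInf₂ fun q hq => iInf₂_le (Real.toNNReal q) hq) (le_iInf₂ fun s hs => ?_)
  refine ENNReal.le_of_forall_pos_le_add fun ε hε _ => ?_
  obtain ⟨q, -, h1, h2⟩ := (NNReal.lt_iff_exists_rat_btwn s (s + ε)).1 (lt_add_of_pos_right s hε)
  exact (iInf₂_le q (hs.trans_le ((A ω).mono h1.le))).trans (by exact_mod_cast h2.le)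

theorem measurable_R (hA : IsPCAF W μ A) : Measurable (R A) := by
  rw [funext R_eq]
  classical
  simp only [iInf_eq_if]
  exact Measurable.iInf fun q => Measurable.ite (measurableSet_lt measurable_const (hA.meas _))
    measurable_const measurable_const

theorem exists_opt (hA : IsPCAF W μ A) (x : ℂ) :
    ∃ R' : Path → ℝ≥0∞, Opt filt R' ∧ ∀ᵐ ω ∂Px W x, R' ω = R A ω := by
  choose G hG hGa using exG hA x
  refine ⟨fun ω => ⨅ (q : ℚ) (_ : 0 < G (Real.toNNReal q) ω), ((Real.toNNReal q : ℝ≥0) : ℝ≥0∞),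
    fun t => ?_, ?_⟩
  · have : {ω | ⨅ (q : ℚ) (_ : 0 < G (Real.toNNReal q) ω), ((Real.toNNReal q : ℝ≥0) : ℝ≥0∞) < t} =
        ⋃ (q : ℚ) (_ : Real.toNNReal q < t), {ω | 0 < G (Real.toNNReal q) ω} := by
      ext ω
      simp only [mem_ofPred_eq, iInf_lt_iff, ENNReal.coe_lt_coe, mem_iUnion, exists_prop]
      exact exists_congr fun _ => and_comm
    rw [this]
    exact MeasurableSet.iUnion fun q => MeasurableSet.iUnion fun hq =>
      past_mono hq.le _ (measurableSet_lt measurable_const (hG _))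
  · filter_upwards [ae_all_iff.2 fun q : ℚ => hGa (Real.toNNReal q)] with ω hω
    simp only [R_eq, hω]

theorem R_eq_zero_iff {ω : Path} : R A ω = 0 ↔ ∀ t, t ≠ 0 → 0 < A ω t := by
  constructor
  · intro h t ht
    obtain ⟨s, hs, h0⟩ := R_lt_iff.1 (show R A ω < t by simpa [h] using pos_iff_ne_zero.2 ht)
    exact h0.trans_le ((A ω).mono hs.le)
  · intro h
    refine le_antisymm (ENNReal.le_of_forall_pos_le_add fun ε hε _ => ?_) zero_le
    rw [zero_add]
    exact iInf₂_le ε (h ε hε.ne')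

theorem eq_zero_of_le_R {ω : Path} (h0 : A ω 0 = 0) (hc : Continuous (A ω)) {s : ℝ≥0}
    (hs : (s : ℝ≥0∞) ≤ R A ω) : A ω s = 0 := by
  rcases eq_or_ne s 0 with rfl | hs0
  · exact h0
  refine le_antisymm ?_ (h0 ▸ (A ω).mono zero_le)
  have h1 : Iio s ⊆ {u | A ω u ≤ 0} := fun u hu => show A ω u ≤ 0 from le_of_not_gt fun h =>
    absurd (hs.trans (iInf₂_le u h)) (not_le.2 (ENNReal.coe_lt_coe.2 hu))
  have h2 : s ∈ closure (Iio s) := by
    rw [closure_Iio' ⟨0, pos_iff_ne_zero.2 hs0⟩]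
    exact self_mem_Iic
  exact (isClosed_le hc continuous_const).closure_subset_iff.2 h1 h2

/-- the discounted occupation functional -/
def N (A : Path → StieltjesFunction ℝ≥0) (f : ℂ → ℝ≥0∞) (ω : Path) : ℝ≥0∞ :=
  ∫⁻ t, ENNReal.ofReal (Real.exp (-(t : ℝ))) * f (ω t) ∂(A ω).measure

theorem measurable_A (hA : IsPCAF W μ A) (t : ℝ≥0) : Measurable fun ω => A ω t := hA.meas t

theorem measurable_N (hA : IsPCAF W μ A) {f : ℂ → ℝ≥0∞} (hf : Measurable f) : Measurable (N A f) :=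
  measurable_lintegral_stieltjes (measurable_A hA)
    (F := fun p => ENNReal.ofReal (Real.exp (-(p.2 : ℝ))) * f (p.1 p.2))
    ((by fun_prop : Measurable fun p : Path × ℝ≥0 => ENNReal.ofReal (Real.exp (-(p.2 : ℝ)))).mul
      (hf.comp continuous_evalPath.measurable))

theorem N_le_shift {ω : Path} (h0 : A ω 0 = 0) (hc : Continuous (A ω)) {s : ℝ≥0}
    (ha : ∀ t, A ω (s + t) = A ω s + A (shift s ω) t) (hs : A ω s = 0) (f : ℂ → ℝ≥0∞) :
    N A f ω ≤ N A f (shift s ω) := by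
  have h1 : ∀ᵐ t ∂(A ω).measure, t ∈ Ici s := by
    refine measure_mono_null (t := Iic s) (fun t ht => le_of_lt (not_le.1 (show ¬ s ≤ t from ht))) ?_
    rw [ClockAux.measure_Iic, hs, h0, sub_self, ENNReal.ofReal_zero]
  unfold N
  rw [← Measure.restrict_eq_self_of_ae_mem h1, lintegral_stieltjes_shift hc ha]
  refine lintegral_mono fun t => mul_le_mul_left (ENNReal.ofReal_le_ofReal ?_) _
  exact Real.exp_le_exp.2 (neg_le_neg (NNReal.coe_le_coe.2 le_add_self))

theorem key (hW : IsWiener W) (hA : IsPCAF W μ A) (y : ℂ) {δ : ℝ≥0} (hδ : δ ≠ 0) {S : Set ℂ}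
    (hS : MeasurableSet S) (hfin : μ S ≠ ∞) {M : ℝ≥0∞} (hM : ∀ x, ∫⁻ w in S, res x w ∂μ ≤ M)
    {R' : Path → ℝ≥0∞} (hR : Opt filt R') (hRa : ∀ᵐ ω ∂Px W y, R' ω = R A ω) :
    ∫⁻ w in S, res y w ∂μ ≤ M * Px W y {ω | R' ω < δ} + ENNReal.ofReal (δ : ℝ)⁻¹ * μ S := by
  have : IsFiniteMeasure (μ.restrict S) := ⟨by simpa using hfin.lt_top⟩
  have hf : Measurable (S.indicator (1 : ℂ → ℝ≥0∞)) := measurable_one.indicator hS
  have hN := measurable_N hA hf
  have hU : ∀ x, ∫⁻ ω, N A (S.indicator 1) ω ∂Px W x = ∫⁻ w in S, res x w ∂μ := fun x => by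
    refine (hA.revuz x _ hf).trans ?_
    rw [← lintegral_indicator hS]
    refine lintegral_congr fun w => ?_
    by_cases hw : w ∈ S <;> simp [hw]
  have hRδ : MeasurableSet {ω | R' ω < δ} := hR.measurable measurableSet_Iio
  have hΨ : Measurable fun p : ℝ≥0∞ × Path =>
      (Iio (δ : ℝ≥0∞)).indicator (1 : ℝ≥0∞ → ℝ≥0∞) p.1 * N A (S.indicator 1) p.2 :=
    ((measurable_one.indicator measurableSet_Iio).comp measurable_fst).mul (hN.comp measurable_snd)
  have h1 := (hW.isFBM_Px y).strong_lintegral hR hR.measurable_ms hΨ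
  have h2 := (hW.isFBM_Px y).strong_lintegral (Opt.const (δ : ℝ≥0∞)) (Y := fun _ => ())
    measurable_const (Ψ := fun p => N A (S.indicator 1) p.2) (hN.comp measurable_snd)
  simp only [ENNReal.coe_lt_top, ofPred_true, Measure.restrict_univ, ENNReal.toNNReal_coe, id,
    hU] at h2
  have hUm : Measurable fun x => ∫⁻ w in S, res x w ∂μ := measurable_res.lintegral_prod_right'
  have h3 : ∫⁻ ω, N A (S.indicator 1) (shift δ ω) ∂Px W y ≤ ENNReal.ofReal (δ : ℝ)⁻¹ * μ S := by
    rw [h2, hW.lintegral_Px_eval hδ y hUm]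
    refine (lintegral_mono fun v => mul_le_mul_left (ENNReal.ofReal_le_ofReal
      (ResAux.heat_le_inv (by positivity) _)) _).trans (le_of_eq ?_)
    rw [lintegral_const_mul _ hUm, lintegral_lintegral_swap measurable_res.aemeasurable]
    simp [hW.lintegral_res]
  have h4 : ∫⁻ ω in {ω | R' ω < ∞}, (Iio (δ : ℝ≥0∞)).indicator (1 : ℝ≥0∞ → ℝ≥0∞) (R' ω) *
      N A (S.indicator 1) (shift (R' ω).toNNReal ω) ∂Px W y ≤ M * Px W y {ω | R' ω < δ} := by
    refine h1.le.trans ((setLIntegral_le_lintegral _ _).trans ?_)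
    rw [← lintegral_indicator_const hRδ]
    refine lintegral_mono fun ω => ?_
    simp only [lintegral_const_mul _ hN, hU]
    by_cases hω : R' ω < δ
    · simpa [hω] using hM _
    · simp [hω]
  obtain ⟨L, -, hL, hLa⟩ := hA.additive
  rw [← hU y]
  refine le_trans ?_ (add_le_add h4 h3)
  have hRt : MeasurableSet {ω | R' ω < ∞} := hR.measurable measurableSet_Iio
  have hNδ : Measurable fun ω => N A (S.indicator 1) (shift δ ω) := hN.comp (measurable_shift δ)
  rw [← lintegral_indicator hRt, ← lintegral_add_right _ hNδ]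
  refine lintegral_mono_ae (((hL y).and hRa).mono fun ω ⟨hω, he⟩ => ?_)
  obtain ⟨h0, hc, ha⟩ := hLa ω hω
  by_cases hω : R' ω < δ
  · have hlt : R' ω < ∞ := hω.trans ENNReal.coe_lt_top
    refine le_trans ?_ le_self_add
    rw [indicator_of_mem (show ω ∈ {ω | R' ω < ∞} from hlt), indicator_of_mem (mem_Iio.2 hω),
      Pi.one_apply, one_mul]
    exact N_le_shift h0 hc (ha _) (eq_zero_of_le_R h0 hc (ENNReal.coe_toNNReal_le_self.trans_eq he)) _
  · exact (N_le_shift h0 hc (ha δ) (eq_zero_of_le_R h0 hc ((not_lt.1 hω).trans_eq he)) _).trans le_add_self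

end StrictAux

open StrictAux

/-- the functional is positive at once from a point `y` near which the measure has a power upper
bound and at which it has a power lower bound along a sequence of radii -/
theorem IsPCAF.pos_of_mass (hA : IsPCAF W μ A) (hW : IsWiener W) {y : ℂ} {K : Set ℂ}
    (hK : K ∈ 𝓝 y) (hfin : μ K < ∞) {C α r₀ : ℝ} (hα : 0 < α) (hr₀ : 0 < r₀)
    (hF : ∀ x ∈ K, ∀ r, 0 < r → r ≤ r₀ → μ (ball x r ∩ K) ≤ ENNReal.ofReal (C * r ^ α))
    {c β : ℝ} (hc : 0 < c)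
    (hlow : ∀ ε > 0, ∃ r, 0 < r ∧ r < ε ∧ ENNReal.ofReal (c * r ^ β) ≤ μ (ball y r)) :
    ∀ᵐ ω ∂Px W y, ∀ t, t ≠ 0 → 0 < A ω t := by
  have := hW.prob_Px y
  obtain ⟨R', hR, hRa⟩ := exists_opt hA y
  obtain ⟨ρ, hρ, hρK⟩ := Metric.mem_nhds_iff.1 hK
  set c0 := Real.exp (-(3 / 2)) / Real.pi with hc0
  have c0p : 0 < c0 := div_pos (Real.exp_pos _) Real.pi_pos
  set k := 4 * (|β| / α + 1) with hk
  have kp : 4 ≤ k := by
    have : 0 ≤ |β| / α := by positivity
    linarith
  set C1 := |C| * 2 ^ α / (α / 4) / c + 3 with hC1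
  have C1p : 0 < C1 := by positivity
  have hp : ∀ δ : ℝ≥0, δ ≠ 0 →
      ENNReal.ofReal (c0 / (2 * k)) ≤ Px W y {ω | R' ω < δ} := fun δ hδ => by
    have hδ' : (0 : ℝ) < δ := by positivity
    obtain ⟨r, hr0, hr, hm⟩ := hlow
      (min (min ρ (r₀ / 2)) (Real.exp (-(2 * (C1 + (δ : ℝ)⁻¹) / c0)))) (by positivity)
    have hrρ : r < ρ := hr.trans_le ((min_le_left _ _).trans (min_le_left _ _))
    have hrr : r < r₀ / 2 := hr.trans_le ((min_le_left _ _).trans (min_le_right _ _))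
    have hre : Real.log r < -(2 * (C1 + (δ : ℝ)⁻¹) / c0) :=
      (Real.log_lt_iff_lt_exp hr0).2 (hr.trans_le (min_le_right _ _))
    have hL : 0 < 2 * (C1 + (δ : ℝ)⁻¹) / c0 := by positivity
    have hr1 : r ≤ 1 := (Real.log_nonpos_iff hr0.le).1 (by linarith)
    have hSK : ball y r ⊆ K := (ball_subset_ball hrρ.le).trans hρK
    have hSf : μ (ball y r) ≠ ∞ := ((measure_mono hSK).trans_lt hfin).ne
    set m := (μ (ball y r)).toReal with hm'
    have hmS : μ (ball y r) = ENNReal.ofReal m := (ENNReal.ofReal_toReal hSf).symm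
    have hmc : c * r ^ β ≤ m := (ENNReal.ofReal_le_iff_le_toReal hSf).1 hm
    have hm0 : 0 < m := lt_of_lt_of_le (by positivity) hmc
    have ht0 : 0 < r ^ k := by positivity
    have hM : ∀ x, ∫⁻ w in ball y r, res x w ∂μ ≤
        ENNReal.ofReal (m * (C1 + k * -Real.log r)) := fun x => by
      refine (pot_le (C := |C| * 2 ^ α) (a := α / 4) hm0.le (by simp [hmS]) (by positivity)
        (by positivity) ht0 (Real.rpow_le_one hr0.le hr1 (by linarith)) x fun t ht htr => ?_).trans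
        (ENNReal.ofReal_le_ofReal ?_)
      · rw [Measure.restrict_apply measurableSet_ball]
        rcases (ball x (t ^ (1 / 4 : ℝ)) ∩ ball y r).eq_empty_or_nonempty with he | ⟨x', hx'⟩
        · rw [he, measure_empty]
          exact zero_le
        have h1 : t ^ (1 / 4 : ℝ) ≤ r := by
          refine (Real.rpow_le_rpow ht.le htr (by norm_num)).trans ?_
          rw [← Real.rpow_mul hr0.le]
          exact Real.rpow_le_self_of_le_one hr0.le hr1 (by linarith)
        have h2 : 0 < t ^ (1 / 4 : ℝ) := by positivity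
        refine le_trans (measure_mono ?_) ((hF x' (hSK hx'.2) (2 * t ^ (1 / 4 : ℝ)) (by positivity)
          (by linarith)).trans (ENNReal.ofReal_le_ofReal ?_))
        · refine inter_subset_inter (ball_subset_ball' ?_) hSK
          have := mem_ball'.1 hx'.1
          linarith
        · rw [Real.mul_rpow (by norm_num) h2.le, ← Real.rpow_mul ht.le, ← mul_assoc,
            show 1 / 4 * α = α / 4 by ring]
          gcongr
          exact le_abs_self C
      · have h1 : (r ^ k) ^ (α / 4) ≤ m / c := by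
          rw [← Real.rpow_mul hr0.le, le_div_iff₀' hc]
          refine le_trans (mul_le_mul_of_nonneg_left
            (Real.rpow_le_rpow_of_exponent_ge hr0 hr1 ?_) hc.le) hmc
          have : k * (α / 4) = |β| + α := by rw [hk]; field_simp
          linarith [le_abs_self β]
        rw [Real.log_rpow hr0, hC1]
        have h2 : |C| * 2 ^ α / (α / 4) * (r ^ k) ^ (α / 4) ≤ |C| * 2 ^ α / (α / 4) * (m / c) := by
          gcongr
        have h3 : |C| * 2 ^ α / (α / 4) * (m / c) = m * (|C| * 2 ^ α / (α / 4) / c) := by ring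
        nlinarith
    have h1 := key hW hA y hδ measurableSet_ball hSf hM hR hRa
    have h2 : ENNReal.ofReal (c0 * -Real.log r) * μ (ball y r) ≤ ∫⁻ w in ball y r, res y w ∂μ := by
      rw [← setLIntegral_const]
      exact setLIntegral_mono' measurableSet_ball fun w hw =>
        res_ge hr0 hr1 (mem_ball_iff_norm.1 hw).le
    set p := (Px W y {ω | R' ω < δ}).toReal with hp'
    have hpp : Px W y {ω | R' ω < δ} = ENNReal.ofReal p :=
      (ENNReal.ofReal_toReal (measure_ne_top _ _)).symm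
    have hp0 : 0 ≤ p := ENNReal.toReal_nonneg
    have hp1 : p ≤ 1 := ENNReal.toReal_le_of_le_ofReal zero_le_one (by simpa using prob_le_one)
    have hl : 0 < -Real.log r := by linarith
    have h3 := h2.trans h1
    rw [hpp, hmS, ← ENNReal.ofReal_mul (by positivity), ← ENNReal.ofReal_mul (by positivity),
      ← ENNReal.ofReal_mul (by positivity), ← ENNReal.ofReal_add (by positivity) (by positivity),
      ENNReal.ofReal_le_ofReal_iff (by positivity)] at h3
    rw [hpp]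
    refine ENNReal.ofReal_le_ofReal ?_
    have h4 : c0 * -Real.log r ≤ (C1 + k * -Real.log r) * p + (δ : ℝ)⁻¹ :=
      le_of_mul_le_mul_right (by linarith) hm0
    have h5 : 2 * (C1 + (δ : ℝ)⁻¹) ≤ c0 * -Real.log r := by
      rw [← div_le_iff₀' c0p]
      linarith
    rw [div_le_iff₀ (by positivity)]
    refine le_of_mul_le_mul_right ?_ hl
    nlinarith
  have hz : {ω | R' ω = 0} = ⋂ n : ℕ, {ω | R' ω < ((1 / ((n : ℝ≥0) + 1) : ℝ≥0) : ℝ≥0∞)} := by
    ext ω
    simp only [mem_ofPred_eq, mem_iInter]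
    refine ⟨fun h n => by rw [h]; exact ENNReal.coe_pos.2 (by positivity), fun h => ?_⟩
    refine le_antisymm (ENNReal.le_of_forall_pos_le_add fun ε hε _ => ?_) zero_le
    obtain ⟨n, hn⟩ := exists_nat_one_div_lt hε
    rw [zero_add]
    exact ((h n).trans (ENNReal.coe_lt_coe.2 hn)).le
  have h0 : Px W y {ω | R' ω = 0} ≠ 0 := by
    refine ne_of_gt (lt_of_lt_of_le (ENNReal.ofReal_pos.2 (show 0 < c0 / (2 * k) by positivity)) ?_)
    rw [hz, Antitone.measure_iInter]
    · exact le_iInf fun n => hp _ (by positivity)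
    · intro i j hij ω hω
      refine lt_of_lt_of_le hω (ENNReal.coe_le_coe.2 ?_)
      gcongr
    · exact fun n => (hR.measurable measurableSet_Iio).nullMeasurableSet
    · exact ⟨0, measure_ne_top _ _⟩
  refine ((hW.blumenthal y (fun t ht => ?_) h0).and hRa).mono fun ω hω =>
    R_eq_zero_iff.1 (hω.2.symm.trans hω.1)
  have : {ω | R' ω = 0} = ⋂ n : ℕ, {ω | R' ω < ((min t (1 / ((n : ℝ≥0) + 1)) : ℝ≥0) : ℝ≥0∞)} := by
    refine Subset.antisymm (subset_iInter fun n ω hω => ?_) ?_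
    · rw [mem_ofPred_eq, show R' ω = 0 from hω]
      exact ENNReal.coe_pos.2 (lt_min (pos_iff_ne_zero.2 ht) (by positivity))
    · rw [hz]
      exact iInter_mono fun n ω hω => lt_of_lt_of_le hω (ENNReal.coe_le_coe.2 (min_le_right _ _))
  rw [this]
  exact MeasurableSet.iInter fun n => past_mono (min_le_left _ _) _ (hR _)

/-- strict increase from every point -/
theorem IsPCAF.strict (hA : IsPCAF W μ A) (hW : IsWiener W) {O : Set ℂ} (hO : IsOpen O)
    (hy : ∀ᵐ y : ℂ, y ∈ O → ∀ᵐ ω ∂Px W y, ∀ t, t ≠ 0 → 0 < A ω t) (x : ℂ) :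
    ∀ᵐ ω ∂Px W x, ∀ s t : ℝ≥0, s < t → ω s ∈ O → A ω s < A ω t := by
  have hG : MeasurableSet {η : Path | η 0 ∈ O → R A η = 0} :=
    (measurable_evalAt 0 hO.measurableSet).imp
      (measurable_R hA (measurableSet_singleton 0))
  have h1 : ∀ q : ℚ, ∀ᵐ ω ∂Px W x, Real.toNNReal q ≠ 0 →
      shift (Real.toNNReal q) ω ∈ {η : Path | η 0 ∈ O → R A η = 0} := fun q => by
    by_cases hq : Real.toNNReal q = 0
    · exact Eventually.of_forall fun _ h => absurd hq h
    refine (hW.ae_shift hG (hy.mono fun y hy => ?_) x hq).mono fun _ h _ => h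
    by_cases hyO : y ∈ O
    · exact (hy hyO).mono fun η hη _ => R_eq_zero_iff.2 hη
    · exact (hW.ae_Px_zero y).mono fun η hη h => absurd (hη ▸ h) hyO
  obtain ⟨L, -, hL, hLa⟩ := hA.additive
  filter_upwards [ae_all_iff.2 h1, hL x] with ω hω hωL s t hst hs
  obtain ⟨u, hsu, hu⟩ := exists_Ico_subset_of_mem_nhds
    (ω.continuous.continuousAt.preimage_mem_nhds (hO.mem_nhds hs)) ⟨t, hst⟩
  obtain ⟨q, -, hq1, hq2⟩ := (NNReal.lt_iff_exists_rat_btwn s (min u t)).1 (lt_min hsu hst)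
  have hqt := hq2.trans_le (min_le_right _ _)
  have h2 := R_eq_zero_iff.1 (hω q (zero_le.trans_lt hq1).ne'
    (by simpa using hu ⟨hq1.le, hq2.trans_le (min_le_left _ _)⟩)) _ (tsub_pos_of_lt hqt).ne'
  have h3 := (hLa ω hωL).2.2 (Real.toNNReal q) (t - Real.toNNReal q)
  rw [add_tsub_cancel_of_le hqt.le] at h3
  linarith [(A ω).mono hq1.le]

namespace StrictAux

/-- the limit of `exp (-A)` -/
def H (A : Path → StieltjesFunction ℝ≥0) (ω : Path) : ℝ≥0∞ :=
  ⨅ n : ℕ, min 1 (ENNReal.ofReal (Real.exp (-A ω n)))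

theorem H_le_one (ω : Path) : H A ω ≤ 1 := (iInf_le _ 0).trans (min_le_left _ _)

theorem measurable_H (hA : IsPCAF W μ A) : Measurable (H A) :=
  Measurable.iInf fun n => measurable_const.min (measurable_A hA n).neg.exp.ennreal_ofReal

theorem H_shift {ω : Path} (h0 : A ω 0 = 0) (ha : ∀ s t, A ω (s + t) = A ω s + A (shift s ω) t) :
    H A ω = ENNReal.ofReal (Real.exp (-A ω 1)) * H A (shift 1 ω) := by
  have h1 : ∀ t, min 1 (ENNReal.ofReal (Real.exp (-A ω t))) = ENNReal.ofReal (Real.exp (-A ω t)) :=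
    fun t => min_eq_right (ENNReal.ofReal_le_one.2 (Real.exp_le_one_iff.2
      (neg_nonpos.2 (h0 ▸ (A ω).mono zero_le))))
  have h2 : ∀ t, min 1 (ENNReal.ofReal (Real.exp (-A (shift 1 ω) t))) =
      ENNReal.ofReal (Real.exp (-A (shift 1 ω) t)) := fun t =>
    min_eq_right (ENNReal.ofReal_le_one.2 (Real.exp_le_one_iff.2 (by
      linarith [ha 1 t, (A ω).mono (le_self_add : (1 : ℝ≥0) ≤ 1 + t)])))
  unfold H
  simp only [h1, h2]
  rw [ENNReal.mul_iInf_of_ne (by simpa using Real.exp_pos _) ENNReal.ofReal_ne_top]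
  simp only [← ENNReal.ofReal_mul (Real.exp_pos _).le, ← Real.exp_add, ← neg_add, ← ha]
  refine le_antisymm (le_iInf fun n => (iInf_le _ (n + 1)).trans (le_of_eq ?_))
    (le_iInf fun n => (iInf_le _ n).trans ?_)
  · rw [Nat.cast_add_one, add_comm]
  · exact ENNReal.ofReal_le_ofReal (Real.exp_le_exp.2 (neg_le_neg ((A ω).mono le_add_self)))

theorem tsum_heat (v : ℂ) : ∑' k : ℕ, ENNReal.ofReal (heat (((k : ℝ≥0) + 1 : ℝ≥0) : ℝ) v) = ∞ := by
  by_contra h
  have hp := Real.pi_pos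
  have h1 := ENNReal.summable_toReal h
  have h2 : Summable fun k : ℕ => (2 * Real.pi)⁻¹ * Real.exp (-‖v‖ ^ 2 / 2) * (1 / ((k + 1 : ℕ) : ℝ)) := by
    refine Summable.of_nonneg_of_le (fun k => by positivity) (fun k => ?_) h1
    rw [ENNReal.toReal_ofReal (heat_pos (by positivity) _).le]
    unfold heat
    push_cast
    have h3 : -‖v‖ ^ 2 / 2 ≤ -‖v‖ ^ 2 / (2 * ((k : ℝ) + 1)) := by
      rw [neg_div, neg_div, neg_le_neg_iff]
      gcongr
      linarith [(Nat.cast_nonneg k : (0 : ℝ) ≤ k)]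
    calc (2 * Real.pi)⁻¹ * Real.exp (-‖v‖ ^ 2 / 2) * (1 / ((k : ℝ) + 1))
        = (2 * Real.pi * ((k : ℝ) + 1))⁻¹ * Real.exp (-‖v‖ ^ 2 / 2) := by field_simp
      _ ≤ _ := by gcongr
  rw [summable_mul_left_iff (by positivity),
    summable_nat_add_iff (f := fun k : ℕ => 1 / (k : ℝ)) 1] at h2
  exact Real.not_summable_one_div_natCast h2

end StrictAux

/-- the functional is unbounded from every point -/
theorem IsPCAF.unbounded (hA : IsPCAF W μ A) (hW : IsWiener W)
    (hy : ∀ᵐ y : ℂ, ∀ᵐ ω ∂Px W y, 0 < A ω 1) (x : ℂ) :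
    ∀ᵐ ω ∂Px W x, ∀ t : ℝ, ∃ s : ℝ≥0, t < A ω s := by
  obtain ⟨L, -, hL, hLa⟩ := hA.additive
  have hH := measurable_H hA
  have hPx : ∀ {F : Path → ℝ≥0∞}, Measurable F → Measurable fun x => ∫⁻ ω, F ω ∂Px W x :=
    fun hF => (Measure.measurable_lintegral hF).comp hW.measurable_Px
  set h : ℂ → ℝ≥0∞ := fun x => ∫⁻ ω, H A ω ∂Px W x with hh
  have hm : Measurable h := hPx hH
  have h1 : ∀ x, h x ≤ 1 := fun x => by
    have := hW.prob_Px x
    exact (lintegral_mono H_le_one).trans (by simp)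
  have hE : Measurable fun ω => ENNReal.ofReal (Real.exp (-A ω 1)) :=
    (measurable_A hA 1).neg.exp.ennreal_ofReal
  have hv : Measurable fun ω : Path => h (ω 1) := hm.comp (measurable_evalAt 1)
  have h2 : ∀ x, h x = ∫⁻ ω, ENNReal.ofReal (Real.exp (-A ω 1)) * h (ω 1) ∂Px W x := fun x => by
    obtain ⟨G, hG, hGa⟩ := exG hA x 1
    have hY : Measurable[(Opt.const (𝓕 := filt) ((1 : ℝ≥0) : ℝ≥0∞)).ms] G := fun s hs =>
      ⟨past_le 1 _ (hG hs), fun t => by
        by_cases ht : (1 : ℝ≥0) < t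
        · exact (past_mono ht.le _ (hG hs)).inter (MeasurableSet.const _)
        · have : ¬ ((1 : ℝ≥0) : ℝ≥0∞) < t := fun h => ht (ENNReal.coe_lt_coe.1 h)
          simp only [this, ofPred_false, inter_empty]
          exact @MeasurableSet.empty _ (filt t)⟩
    have := (hW.isFBM_Px x).strong_lintegral _ hY
      (Ψ := fun p => ENNReal.ofReal (Real.exp (-p.1)) * H A p.2)
      (measurable_fst.neg.exp.ennreal_ofReal.mul (hH.comp measurable_snd))
    simp only [ENNReal.coe_lt_top, ofPred_true, Measure.restrict_univ, ENNReal.toNNReal_coe, id,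
      lintegral_const_mul _ hH] at this
    refine (lintegral_congr_ae ?_).trans (this.trans (lintegral_congr_ae ?_))
    · filter_upwards [hL x, hGa] with ω hω he
      rw [H_shift (hLa ω hω).1 (hLa ω hω).2.2, he]
    · filter_upwards [hGa] with ω he
      rw [he]
  set d : ℂ → ℝ≥0∞ := fun x => ∫⁻ ω, (1 - ENNReal.ofReal (Real.exp (-A ω 1))) * h (ω 1) ∂Px W x
    with hd
  have hdm : Measurable d := hPx ((measurable_const.sub hE).mul hv)
  have h3 : ∀ x, ∫⁻ ω, h (ω 1) ∂Px W x = h x + d x := fun x => by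
    rw [h2 x, ← lintegral_add_left (hE.fun_mul hv)]
    refine lintegral_congr_ae ((hL x).mono fun ω hω => ?_)
    have : ENNReal.ofReal (Real.exp (-A ω 1)) ≤ 1 := ENNReal.ofReal_le_one.2
      (Real.exp_le_one_iff.2 (neg_nonpos.2 ((hLa ω hω).1 ▸ (A ω).mono zero_le)))
    simp only
    rw [← add_mul, add_tsub_cancel_of_le this, one_mul]
  have h4 : ∀ s : ℝ≥0, ∫⁻ ω, h (ω (s + 1)) ∂Px W 0 =
      ∫⁻ ω, h (ω s) ∂Px W 0 + ∫⁻ ω, d (ω s) ∂Px W 0 := fun s => by
    have := (hW.isFBM_Px 0).strong_lintegral (Opt.const (s : ℝ≥0∞)) (Y := fun _ => ())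
      measurable_const (Ψ := fun p => h (p.2 1)) (hv.comp measurable_snd)
    simp only [ENNReal.coe_lt_top, ofPred_true, Measure.restrict_univ, ENNReal.toNNReal_coe, id,
      shift_apply, h3] at this
    rw [this]
    exact lintegral_add_left (hm.comp (measurable_evalAt s)) _
  have h5 : ∀ n : ℕ, ∑ k ∈ Finset.range n, ∫⁻ ω, d (ω ((k : ℝ≥0) + 1)) ∂Px W 0 ≤
      ∫⁻ ω, h (ω ((n : ℝ≥0) + 1)) ∂Px W 0 := fun n => by
    induction n with
    | zero => simp
    | succ n ih =>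
      rw [Finset.sum_range_succ, Nat.cast_add_one, h4 ((n : ℝ≥0) + 1)]
      gcongr
  have h6 : ∫⁻ v, (∑' k : ℕ, ENNReal.ofReal (heat (((k : ℝ≥0) + 1 : ℝ≥0) : ℝ) (v - 0))) * d v ≤ 1 := by
    have := hW.prob_Px 0
    simp only [← ENNReal.tsum_mul_right]
    rw [lintegral_tsum fun k => ((HeatAux.measurable_dens _ 0).fun_mul hdm).aemeasurable]
    refine ENNReal.tsum_le_of_sum_range_le fun n => ?_
    refine le_trans (le_of_eq (Finset.sum_congr rfl fun k _ =>
      (hW.lintegral_Px_eval (by positivity) 0 hdm).symm)) ((h5 n).trans ?_)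
    exact (lintegral_mono fun ω => h1 _).trans (by simp)
  simp only [tsum_heat] at h6
  have h7 : ∀ᵐ v : ℂ, d v = 0 := by
    filter_upwards [ae_lt_top (measurable_const.mul hdm) (ne_top_of_le_ne_top ENNReal.one_ne_top h6)]
      with v hv
    by_contra hne
    simp [ENNReal.top_mul hne] at hv
  obtain ⟨y, hy1, hy2⟩ := (hy.and h7).exists
  have h8 : ∫⁻ ω, h (ω 1) ∂Px W y = 0 := by
    rw [lintegral_eq_zero_iff hv]
    filter_upwards [hy1, (lintegral_eq_zero_iff ((measurable_const.sub hE).mul hv)).1 hy2]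
      with ω h9 h10
    refine (mul_eq_zero.1 h10).resolve_left fun h11 => ?_
    exact absurd (tsub_eq_zero_iff_le.1 h11) (not_le.2 (ENNReal.ofReal_lt_one.2
      (Real.exp_lt_one_iff.2 (neg_neg_of_pos h9))))
  rw [hW.lintegral_Px_eval one_ne_zero y hm,
    lintegral_eq_zero_iff ((HeatAux.measurable_dens _ y).fun_mul hm)] at h8
  have h9 : ∀ᵐ v : ℂ, ∀ᵐ η ∂Px W v, η ∈ H A ⁻¹' {0} := h8.mono fun v hv => by
    have : h v = 0 := (mul_eq_zero.1 hv).resolve_left
      (ENNReal.ofReal_pos.2 (heat_pos (by positivity) _)).ne'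
    exact (lintegral_eq_zero_iff hH).1 this
  filter_upwards [hW.ae_shift (hH (measurableSet_singleton 0)) h9 x one_ne_zero, hL x]
    with ω h10 hω t
  have h11 : H A ω = 0 := by
    rw [H_shift (hLa ω hω).1 (hLa ω hω).2.2, show H A (shift 1 ω) = 0 from h10, mul_zero]
  by_contra hc
  push Not at hc
  have h12 : min 1 (ENNReal.ofReal (Real.exp (-t))) ≤ H A ω := le_iInf fun n =>
    min_le_min le_rfl (ENNReal.ofReal_le_ofReal (Real.exp_le_exp.2 (neg_le_neg (hc n))))
  rw [h11] at h12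
  exact absurd h12 (not_le.2 (lt_min one_pos (ENNReal.ofReal_pos.2 (Real.exp_pos _))))

end Pool.Agent.Lib.MP_0d9445_pr.BM
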