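import Pool.Agent.Lib.MP_0d9445_pr.BM.Defs

/-!
Positive continuous additive functionals of planar Brownian motion and time change: definitions.
-/

open MeasureTheory ProbabilityTheory Set Filter Topology Metric
open scoped NNReal ENNReal

noncomputable section

namespace Pool.Agent.Lib.MP_0d9445_pr.BM

/-- the kernel of the resolvent of half the Laplacian at rate one -/
def res (x y : ℂ) : ℝ≥0∞ := ∫⁻ t in Ioi (0 : ℝ), ENNReal.ofReal (Real.exp (-t) * heat t (y - x))

/-- `A` is a positive continuous additive functional (in the strict sense) of planar Brownian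
motion with Revuz measure `μ` -/
structure IsPCAF (W : Measure Path) (μ : Measure ℂ) (A : Path → StieltjesFunction ℝ≥0) : Prop where
  meas : ∀ t, Measurable fun ω => A ω t
  adapted : ∀ x t, AEStronglyMeasurable[past t] (fun ω => A ω t) (Px W x)
  additive : ∃ L : Set Path, MeasurableSet L ∧ (∀ x, ∀ᵐ ω ∂Px W x, ω ∈ L) ∧ ∀ ω ∈ L,
    A ω 0 = 0 ∧ Continuous (A ω) ∧ ∀ s t, A ω (s + t) = A ω s + A (shift s ω) t
  revuz : ∀ (x : ℂ) (f : ℂ → ℝ≥0∞), Measurable f →
    ∫⁻ ω, ∫⁻ t, ENNReal.ofReal (Real.exp (-(t : ℝ))) * f (ω t) ∂(A ω).measure ∂Px W x =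
      ∫⁻ y, res x y * f y ∂μ

/-- the Brownian time at which the clock `a` passes `t`, or the path leaves `O` -/
def inv (a : ℝ≥0 → ℝ) (O : Set ℂ) (ω : Path) (t : ℝ≥0) : ℝ≥0 :=
  sInf {s | (t : ℝ) < a s ∨ ω s ∉ O}

/-- the time-changed path, stopped when it leaves `O` -/
def lbm (a : ℝ≥0 → ℝ) (O : Set ℂ) (ω : Path) (t : ℝ≥0) : ℂ := ω (inv a O ω t)

end Pool.Agent.Lib.MP_0d9445_pr.BM
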