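import Pool.Agent.Lib.MP_0d9445_pr.BM.Defs

open MeasureTheory ProbabilityTheory Set Filter Topology Metric
open scoped NNReal ENNReal Laplacian

noncomputable section

namespace Pool.Agent.Lib.MP_0d9445_pr.BM

@[simp] theorem shift_apply (t s : ℝ≥0) (ω : Path) : shift t ω s = ω (t + s) := rfl
@[simp] theorem incr_apply (t s : ℝ≥0) (ω : Path) : incr t ω s = ω (t + s) - ω t := rfl
@[simp] theorem start_apply (x : ℂ) (s : ℝ≥0) (ω : Path) : start x ω s = x + ω s := rfl
@[simp] theorem stop_apply (t s : ℝ≥0) (ω : Path) : stop t ω s = ω (min s t) := rfl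

theorem start_incr (t : ℝ≥0) (ω : Path) : start (ω t) (incr t ω) = shift t ω := by
  ext s; simp

theorem incr_start (t : ℝ≥0) (x : ℂ) (ω : Path) : incr t (start x ω) = incr t ω := by
  ext s; simp

theorem shift_shift (s t : ℝ≥0) (ω : Path) : shift s (shift t ω) = shift (t + s) ω := by
  ext u; simp [add_assoc]

theorem shift_zero (ω : Path) : shift 0 ω = ω := by
  ext u; simp

theorem continuous_evalPath : Continuous fun p : Path × ℝ≥0 => p.1 p.2 := continuous_eval

theorem continuous_shift : Continuous fun p : ℝ≥0 × Path => shift p.1 p.2 := by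
  refine ContinuousMap.continuous_of_continuous_uncurry _ ?_
  change Continuous fun q : (ℝ≥0 × Path) × ℝ≥0 => q.1.2 (q.1.1 + q.2)
  fun_prop

theorem continuous_incr : Continuous fun p : ℝ≥0 × Path => incr p.1 p.2 := by
  refine ContinuousMap.continuous_of_continuous_uncurry _ ?_
  change Continuous fun q : (ℝ≥0 × Path) × ℝ≥0 => q.1.2 (q.1.1 + q.2) - q.1.2 q.1.1
  fun_prop

theorem continuous_start : Continuous fun p : ℂ × Path => start p.1 p.2 := by
  refine ContinuousMap.continuous_of_continuous_uncurry _ ?_
  change Continuous fun q : (ℂ × Path) × ℝ≥0 => q.1.1 + q.1.2 q.2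
  fun_prop

theorem continuous_stop : Continuous fun p : ℝ≥0 × Path => stop p.1 p.2 := by
  refine ContinuousMap.continuous_of_continuous_uncurry _ ?_
  change Continuous fun q : (ℝ≥0 × Path) × ℝ≥0 => q.1.2 (min q.2 q.1.1)
  fun_prop

theorem measurable_evalAt (t : ℝ≥0) : Measurable fun ω : Path => ω t := by
  exact (continuous_eval_const t).measurable

namespace PathAux

theorem measurableEmbedding_dense :
    MeasurableEmbedding fun (w : Path) (n : ℕ) => w (TopologicalSpace.denseSeq ℝ≥0 n) := by
  refine Continuous.measurableEmbedding (by fun_prop) ?_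
  intro w w' h
  refine ContinuousMap.ext fun t => ?_
  have := (TopologicalSpace.denseRange_denseSeq ℝ≥0).equalizer w.continuous w'.continuous
    (funext fun n => congrFun h n)
  exact congrFun this t

end PathAux

/-- the Borel sigma-algebra of path space is generated by the coordinates -/
theorem measurable_path_iff {α : Type*} {mα : MeasurableSpace α} {F : α → Path} :
    Measurable F ↔ ∀ t, Measurable fun a => F a t := by
  refine ⟨fun h t => (measurable_evalAt t).comp h, fun h => ?_⟩
  rw [← PathAux.measurableEmbedding_dense.measurable_comp_iff]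
  exact measurable_pi_lambda _ fun n => h _

theorem past_le (t : ℝ≥0) : past t ≤ pathMeasurableSpace := by
  exact iSup_le fun r => (measurable_evalAt r).comap_le

theorem past_mono {s t : ℝ≥0} (h : s ≤ t) : past s ≤ past t := by
  exact iSup_le fun r => le_iSup_of_le (⟨r, r.2.trans h⟩ : Iic t) le_rfl

/-- the raw filtration of path space -/
def filt : Filtration ℝ≥0 pathMeasurableSpace := ⟨past, fun _ _ h => past_mono h, past_le⟩

theorem measurable_past_eval {s t : ℝ≥0} (h : s ≤ t) : Measurable[past t] fun ω : Path => ω s := by
  exact Measurable.of_comap_le (le_iSup_of_le (⟨s, h⟩ : Iic t) le_rfl)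

theorem measurable_past_stop (t : ℝ≥0) : Measurable[past t] (stop t) := by
  exact measurable_path_iff.mpr fun s => measurable_past_eval (min_le_right s t)

/-- a function of the past is a function of the stopped path -/
theorem past_eq_comap (t : ℝ≥0) : past t = MeasurableSpace.comap (stop t) pathMeasurableSpace := by
  refine le_antisymm (iSup_le fun s => ?_) (measurable_past_stop t).comap_le
  have h : (fun w : Path => w s) = (fun w : Path => w s) ∘ stop t := by
    funext w
    simp [min_eq_left (show (s : ℝ≥0) ≤ t from s.2)]
  rw [h, ← MeasurableSpace.comap_comp]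
  exact MeasurableSpace.comap_mono (measurable_evalAt s).comap_le

/-- two finite measures on path space with the same law of the coordinate process agree -/
theorem path_measure_ext {μ ν : Measure Path}
    (h : μ.map (fun (ω : Path) (t : ℝ≥0) => ω t) = ν.map (fun (ω : Path) (t : ℝ≥0) => ω t)) :
    μ = ν := by
  have hm : Measurable fun (ω : Path) (t : ℝ≥0) => ω t :=
    measurable_pi_lambda _ measurable_evalAt
  have hle : pathMeasurableSpace ≤
      MeasurableSpace.comap (fun (ω : Path) (t : ℝ≥0) => ω t) inferInstance := by
    have : @Measurable Path Path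
        (MeasurableSpace.comap (fun (ω : Path) (t : ℝ≥0) => ω t) inferInstance) _ id :=
      measurable_path_iff.mpr fun t => (measurable_pi_apply t).comp (comap_measurable _)
    simpa using this.comap_le
  ext S hS
  obtain ⟨T, hT, rfl⟩ := hle S hS
  rw [← Measure.map_apply hm hT, h, Measure.map_apply hm hT]

variable {α : Type*} {mα : MeasurableSpace α}

theorem _root_.Measurable.path_ev {B : α → Path} {τ : α → ℝ≥0} (hB : Measurable B)
    (hτ : Measurable τ) : Measurable fun a => B a (τ a) :=
  continuous_evalPath.measurable.comp (hB.prodMk hτ)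

theorem _root_.Measurable.path_start {x : α → ℂ} {B : α → Path} (hx : Measurable x)
    (hB : Measurable B) : Measurable fun a => start (x a) (B a) :=
  continuous_start.measurable.comp (hx.prodMk hB)

theorem _root_.Measurable.path_shift {τ : α → ℝ≥0} {B : α → Path} (hτ : Measurable τ)
    (hB : Measurable B) : Measurable fun a => shift (τ a) (B a) :=
  continuous_shift.measurable.comp (hτ.prodMk hB)

theorem _root_.Measurable.path_incr {τ : α → ℝ≥0} {B : α → Path} (hτ : Measurable τ)
    (hB : Measurable B) : Measurable fun a => incr (τ a) (B a) :=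
  continuous_incr.measurable.comp (hτ.prodMk hB)

theorem _root_.Measurable.path_stop {τ : α → ℝ≥0} {B : α → Path} (hτ : Measurable τ)
    (hB : Measurable B) : Measurable fun a => stop (τ a) (B a) :=
  continuous_stop.measurable.comp (hτ.prodMk hB)

theorem measurable_start (x : ℂ) : Measurable (start x) := measurable_const.path_start measurable_id
theorem measurable_shift (t : ℝ≥0) : Measurable (shift t) :=
  measurable_const.path_shift measurable_id
theorem measurable_incr (t : ℝ≥0) : Measurable (incr t) := measurable_const.path_incr measurable_id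
theorem measurable_stop (t : ℝ≥0) : Measurable (stop t) := measurable_const.path_stop measurable_id

theorem measurable_past_iff {t : ℝ≥0} {B : α → Path} :
    @Measurable α Path mα (past t) B ↔ ∀ s ≤ t, Measurable fun a => B a s := by
  refine ⟨fun h s hs => (measurable_past_eval hs).comp h, fun h => ?_⟩
  rw [measurable_iff_comap_le, past, MeasurableSpace.comap_iSup]
  refine iSup_le fun s => ?_
  rw [MeasurableSpace.comap_comp]
  exact (h s s.2).comap_le

theorem measurable_start_past (x : ℂ) (t : ℝ≥0) :
    @Measurable Path Path (past t) (past t) (start x) :=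
  measurable_past_iff.mpr fun _ hs => (measurable_past_eval hs).const_add x

theorem measurable_shift_past (s t : ℝ≥0) :
    @Measurable Path Path (past (s + t)) (past t) (shift s) :=
  measurable_past_iff.mpr fun _ hr => measurable_past_eval (add_le_add_right hr s)

end Pool.Agent.Lib.MP_0d9445_pr.BM
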