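import Pool.Agent.Lib.MP_0d9445_pr.BM.Clock
import Pool.Agent.Lib.MP_0d9445_pr.BM.Path

open MeasureTheory ProbabilityTheory Set Filter Topology Metric
open scoped NNReal ENNReal

noncomputable section

namespace Pool.Agent.Lib.MP_0d9445_pr.BM

namespace ClockAux

variable {α : Type*} [MeasurableSpace α] {A : α → StieltjesFunction ℝ≥0}

theorem measure_zero (a : StieltjesFunction ℝ≥0) : a.measure {0} = 0 := by
  have := a.measure_botSet
  rwa [botSet_eq_singleton_of_isBot (x := (0 : ℝ≥0)) fun _ => zero_le] at this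

theorem measure_Iic (a : StieltjesFunction ℝ≥0) (t : ℝ≥0) :
    a.measure (Iic t) = ENNReal.ofReal (a t - a 0) := by
  rw [← a.measure_Ioc]
  refine le_antisymm ?_ (measure_mono Ioc_subset_Iic_self)
  have : Iic t ⊆ {0} ∪ Ioc 0 t := fun u hu => by
    rcases eq_or_ne u 0 with h | h
    · exact Or.inl h
    · exact Or.inr ⟨pos_iff_ne_zero.2 h, hu⟩
  refine (measure_mono this).trans ((measure_union_le _ _).trans ?_)
  rw [measure_zero, zero_add]

theorem measurable_inter (hA : ∀ t, Measurable fun a => A a t) (n : ℝ≥0) {s : Set ℝ≥0}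
    (hs : MeasurableSet s) : Measurable fun a => (A a).measure (s ∩ Iic n) := by
  have h0 : Measurable fun a => (A a).measure (Iic n) := by
    simp only [measure_Iic]
    exact ((hA n).sub (hA 0)).ennreal_ofReal
  induction s, hs using MeasurableSpace.induction_on_inter
    (BorelSpace.measurable_eq.trans (borel_eq_generateFrom_Ioc ℝ≥0)) (isPiSystem_Ioc id id) with
  | empty => simp
  | basic s hs =>
    obtain ⟨l, u, -, rfl⟩ := hs
    simp only [Ioc_inter_Iic, StieltjesFunction.measure_Ioc]
    exact ((hA _).sub (hA _)).ennreal_ofReal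
  | compl s hs ih =>
    have : ∀ a, (A a).measure (sᶜ ∩ Iic n) = (A a).measure (Iic n) - (A a).measure (s ∩ Iic n) :=
      fun a => by
        rw [inter_comm sᶜ, ← sdiff_eq, ← sdiff_inter_self_eq_sdiff, measure_sdiff inter_subset_right
          (hs.inter measurableSet_Iic).nullMeasurableSet]
        exact ne_top_of_le_ne_top (by rw [measure_Iic]; exact ENNReal.ofReal_ne_top)
          (measure_mono inter_subset_right)
    simp only [this]
    exact h0.sub ih
  | iUnion f hd hm ih =>
    have : ∀ a, (A a).measure ((⋃ i, f i) ∩ Iic n) = ∑' i, (A a).measure (f i ∩ Iic n) := fun a => by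
      rw [iUnion_inter, measure_iUnion (fun i j hij => (hd hij).mono inter_subset_left
        inter_subset_left) fun i => (hm i).inter measurableSet_Iic]
    simp only [this]
    exact Measurable.tsum ih

theorem measurable_lintegral_finite {β : Type*} [MeasurableSpace β] (κ : Kernel α β)
    (hκ : ∀ a, IsFiniteMeasure (κ a)) {F : α × β → ℝ≥0∞} (hF : Measurable F) :
    Measurable fun a => ∫⁻ t, F (a, t) ∂κ a := by
  refine Measurable.ennreal_induction
    (motive := fun F => Measurable fun a => ∫⁻ t, F (a, t) ∂κ a) ?_ ?_ ?_ hF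
  · intro c s hs
    have : ∀ a, ∫⁻ t, s.indicator (fun _ => c) (a, t) ∂κ a = c * κ a (Prod.mk a ⁻¹' s) := fun a => by
      rw [← lintegral_indicator_const (measurable_prodMk_left hs)]
      rfl
    simp only [this]
    exact (Kernel.measurable_kernel_prodMk_left_of_finite hs hκ).const_mul c
  · intro f g _ hf _ ihf ihg
    have : ∀ a, ∫⁻ t, (f + g) (a, t) ∂κ a = ∫⁻ t, f (a, t) ∂κ a + ∫⁻ t, g (a, t) ∂κ a := fun a =>
      lintegral_add_left (hf.comp measurable_prodMk_left) _
    simp only [this]
    exact ihf.add ihg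
  · intro f hf hm ih
    have : ∀ a, ∫⁻ t, ⨆ n, f n (a, t) ∂κ a = ⨆ n, ∫⁻ t, f n (a, t) ∂κ a := fun a =>
      lintegral_iSup (fun n => (hf n).comp measurable_prodMk_left) fun i j hij t => hm hij _
    simp only [this]
    exact Measurable.iSup ih

end ClockAux

open ClockAux

/-- integrals against a random Stieltjes measure are measurable -/
theorem measurable_lintegral_stieltjes {α : Type*} [MeasurableSpace α]
    {A : α → StieltjesFunction ℝ≥0} (hA : ∀ t, Measurable fun a => A a t) {F : α × ℝ≥0 → ℝ≥0∞}
    (hF : Measurable F) : Measurable fun a => ∫⁻ t, F (a, t) ∂(A a).measure := by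
  have h1 : ∀ a, ∫⁻ t, F (a, t) ∂(A a).measure =
      ⨆ n : ℕ, ∫⁻ t in Iic (n : ℝ≥0), F (a, t) ∂(A a).measure := fun a => by
    have hu : ⋃ n : ℕ, Iic (n : ℝ≥0) = univ := iUnion_eq_univ_iff.2 fun t => exists_nat_ge t
    rw [← setLIntegral_iUnion_of_directed _ (Monotone.directed_le fun i j hij =>
      Iic_subset_Iic.2 (Nat.cast_le.2 hij)), hu, Measure.restrict_univ]
  simp only [h1]
  refine Measurable.iSup fun n => measurable_lintegral_finite
    ⟨fun a => (A a).measure.restrict (Iic n), Measure.measurable_of_measurable_coe _ fun s hs => ?_⟩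
    (fun a => ⟨?_⟩) hF
  · simp only [Measure.restrict_apply hs]
    exact measurable_inter hA n hs
  · change (A a).measure.restrict (Iic n) univ < ∞
    rw [Measure.restrict_apply_univ, measure_Iic]
    exact ENNReal.ofReal_lt_top

/-- the Stieltjes measure after time `s` -/
theorem lintegral_stieltjes_shift {a a' : StieltjesFunction ℝ≥0} (ha : Continuous a) {s : ℝ≥0}
    (h : ∀ t, a (s + t) = a s + a' t) (F : ℝ≥0 → ℝ≥0∞) :
    ∫⁻ t in Ici s, F t ∂a.measure = ∫⁻ t, F (s + t) ∂a'.measure := by
  have he : MeasurableEmbedding fun t : ℝ≥0 => s + t :=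
    Continuous.measurableEmbedding (by fun_prop) (add_right_injective s)
  have ha' : Continuous a' := by
    have : (a' : ℝ≥0 → ℝ) = fun t => a (s + t) - a s := funext fun t => by rw [h]; ring
    rw [this]
    fun_prop
  have h1 : a'.measure = a.measure.comap fun t => s + t := by
    refine Measure.ext_of_Ico _ _ fun l u _ => ?_
    rw [he.comap_apply, image_const_add_Ico, StieltjesFunction.measure_Ico,
      StieltjesFunction.measure_Ico, ha.continuousWithinAt.leftLim_eq,
      ha.continuousWithinAt.leftLim_eq, ha'.continuousWithinAt.leftLim_eq,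
      ha'.continuousWithinAt.leftLim_eq, h, h]
    congr 1
    ring
  have h2 : range (fun t : ℝ≥0 => s + t) = Ici s := by
    ext u
    exact ⟨fun ⟨t, ht⟩ => ht ▸ mem_Ici.2 le_self_add, fun hu => ⟨u - s, add_tsub_cancel_of_le hu⟩⟩
  rw [h1, ← he.lintegral_map, he.map_comap, h2]

end Pool.Agent.Lib.MP_0d9445_pr.BM
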