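import Mathlib

/-!
Planar Brownian motion on path space: definitions.
-/

open MeasureTheory ProbabilityTheory Set
open scoped NNReal ENNReal

noncomputable section

namespace Pool.Agent.Lib.MP_0d9445_pr.BM

/-- continuous planar paths, with the topology of locally uniform convergence -/
abbrev Path : Type := C(ℝ≥0, ℂ)

/-- the Borel sigma-algebra of path space -/
instance pathMeasurableSpace : MeasurableSpace Path := borel Path

instance pathBorelSpace : BorelSpace Path := ⟨rfl⟩

/-- `W` is the law of standard planar Brownian motion from the origin: the real and the imaginary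
part are independent real Brownian motions -/
structure IsWiener (W : Measure Path) : Prop where
  re : IsBrownianReal (fun t (ω : Path) => (ω t).re) W
  im : IsBrownianReal (fun t (ω : Path) => (ω t).im) W
  indep : IndepFun (fun (ω : Path) (t : ℝ≥0) => (ω t).re) (fun (ω : Path) (t : ℝ≥0) => (ω t).im) W

/-- the path after time `t` -/
def shift (t : ℝ≥0) (ω : Path) : Path := ⟨fun s => ω (t + s), by fun_prop⟩

/-- the path after time `t`, moved back to the origin -/
def incr (t : ℝ≥0) (ω : Path) : Path := ⟨fun s => ω (t + s) - ω t, by fun_prop⟩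

/-- the path translated by `x` -/
def start (x : ℂ) (ω : Path) : Path := ⟨fun s => x + ω s, by fun_prop⟩

/-- the path stopped at time `t` -/
def stop (t : ℝ≥0) (ω : Path) : Path := ⟨fun s => ω (min s t), by fun_prop⟩

/-- the law of Brownian motion from `x` -/
def Px (W : Measure Path) (x : ℂ) : Measure Path := W.map (start x)

/-- the sigma-algebra of the path up to time `t` -/
@[reducible] def past (t : ℝ≥0) : MeasurableSpace Path :=
  ⨆ s : Iic t, MeasurableSpace.comap (fun ω : Path => ω s) inferInstance

/-- the first time at which the path is outside `U` -/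
def exitT (U : Set ℂ) (ω : Path) : ℝ≥0∞ := ⨅ (t : ℝ≥0) (_ : ω t ∉ U), (t : ℝ≥0∞)

/-- the transition density -/
def heat (t : ℝ) (y : ℂ) : ℝ := (2 * Real.pi * t)⁻¹ * Real.exp (-‖y‖ ^ 2 / (2 * t))

variable {Ω : Type*} {m : MeasurableSpace Ω}

/-- `B` is a Brownian motion (from any adapted starting point) for the filtration `𝓕` -/
structure IsFBM (W : Measure Path) (𝓕 : Filtration ℝ≥0 m) (B : Ω → Path) (P : Measure Ω) :
    Prop where
  wiener : IsWiener W
  prob : IsProbabilityMeasure P
  adapted : ∀ t, Measurable[𝓕 t] fun ω => B ω t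
  markov : ∀ (t : ℝ≥0) (s : Set Ω) (E : Set Path), MeasurableSet[𝓕 t] s → MeasurableSet E →
    P (s ∩ {ω | incr t (B ω) ∈ E}) = P s * W E

/-- optional time -/
def Opt (𝓕 : Filtration ℝ≥0 m) (τ : Ω → ℝ≥0∞) : Prop :=
  ∀ t : ℝ≥0, MeasurableSet[𝓕 t] {ω | τ ω < t}

/-- the sigma-algebra of the events known immediately after the optional time -/
@[reducible] def Opt.ms {𝓕 : Filtration ℝ≥0 m} {τ : Ω → ℝ≥0∞} (h : Opt 𝓕 τ) : MeasurableSpace Ω where
  MeasurableSet' s := MeasurableSet[m] s ∧ ∀ t : ℝ≥0, MeasurableSet[𝓕 t] (s ∩ {ω | τ ω < t})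
  measurableSet_empty := ⟨MeasurableSet.empty, fun t => by simp⟩
  measurableSet_compl s hs := ⟨hs.1.compl, fun t => by
    have : sᶜ ∩ {ω | τ ω < t} = {ω | τ ω < t} \ (s ∩ {ω | τ ω < t}) := by
      ext ω; simp only [mem_inter_iff, mem_compl_iff, mem_ofPred_eq, mem_sdiff]; tauto
    rw [this]
    exact (h t).diff (hs.2 t)⟩
  measurableSet_iUnion f hf := ⟨MeasurableSet.iUnion fun i => (hf i).1, fun t => by
    rw [iUnion_inter]
    exact MeasurableSet.iUnion fun i => (hf i).2 t⟩

end Pool.Agent.Lib.MP_0d9445_pr.BM
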