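import Pool.Agent.Lib.MP_0d9445_pr.BM.Exit

open MeasureTheory ProbabilityTheory Set Filter Topology Metric
open scoped NNReal ENNReal Laplacian

noncomputable section

namespace Pool.Agent.Lib.MP_0d9445_pr.BM

variable {Ω : Type*} {m : MeasurableSpace Ω} {W : Measure Path} {𝓕 : Filtration ℝ≥0 m}
  {B : Ω → Path} {P : Measure Ω} {τ : Ω → ℝ≥0∞}

namespace DynAux

theorem lap_eq (u : ℂ → ℝ) (x : ℂ) : Δ u x =
    fderiv ℝ (fderiv ℝ u) x 1 1 + fderiv ℝ (fderiv ℝ u) x Complex.I Complex.I := by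
  rw [InnerProductSpace.laplacian_eq_iteratedFDeriv_complexPlane]
  simp [iteratedFDeriv_two_apply]

theorem continuous_lap {u : ℂ → ℝ} (hu : ContDiff ℝ 2 u) : Continuous (Δ u) := by
  have h1 : ContDiff ℝ 1 (fderiv ℝ u) := hu.fderiv_right (m := 1) le_rfl
  have h2 : Continuous (fderiv ℝ (fderiv ℝ u)) := h1.continuous_fderiv one_ne_zero
  have : Δ u = fun x => fderiv ℝ (fderiv ℝ u) x 1 1 +
      fderiv ℝ (fderiv ℝ u) x Complex.I Complex.I := funext (lap_eq u)
  rw [this]
  fun_prop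

theorem fderiv_bound {E F : Type*} [NormedAddCommGroup E] [NormedSpace ℝ E] [NormedAddCommGroup F]
    [NormedSpace ℝ F] {v : E → F} (hu : ContDiff ℝ 1 v) (hs : HasCompactSupport v) :
    ∃ K : ℝ, ∀ x, ‖fderiv ℝ v x‖ ≤ K :=
  (hu.continuous_fderiv one_ne_zero).bounded_above_of_compact_support (hs.fderiv ℝ)

theorem taylor_bound {E : Type*} [NormedAddCommGroup E] [NormedSpace ℝ E] {u : E → ℝ}
    (hu : ContDiff ℝ 2 u) (hs : HasCompactSupport u) :
    ∃ K : ℝ, 0 ≤ K ∧ (∀ x v w, |fderiv ℝ (fderiv ℝ u) x v w| ≤ K * ‖v‖ * ‖w‖) ∧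
      ∀ x y, |u (x + y) - u x - fderiv ℝ u x y| ≤ K * ‖y‖ ^ 2 := by
  have h1 : ContDiff ℝ 1 (fderiv ℝ u) := hu.fderiv_right (m := 1) le_rfl
  obtain ⟨K2, hK2⟩ := fderiv_bound h1 (hs.fderiv ℝ)
  have p2 : 0 ≤ K2 := (norm_nonneg _).trans (hK2 0)
  refine ⟨K2, p2, fun x v w => ?_, fun x y => ?_⟩
  · rw [← Real.norm_eq_abs]
    refine ((fderiv ℝ (fderiv ℝ u) x).le_opNorm₂ v w).trans ?_
    gcongr
    exact hK2 x
  · have hd : Differentiable ℝ u := hu.differentiable two_ne_zero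
    have hd1 : Differentiable ℝ (fderiv ℝ u) := h1.differentiable one_ne_zero
    have h4 : ∀ z ∈ closedBall x ‖y‖, ‖fderiv ℝ u z - fderiv ℝ u x‖ ≤ K2 * ‖y‖ := fun z hz => by
      have h3 : ‖fderiv ℝ u z - fderiv ℝ u x‖ ≤ K2 * ‖z - x‖ :=
        convex_univ.norm_image_sub_le_of_norm_fderiv_le (𝕜 := ℝ) (fun z _ => hd1 z)
          (fun z _ => hK2 z) (mem_univ _) (mem_univ _)
      exact h3.trans (mul_le_mul_of_nonneg_left (mem_closedBall_iff_norm.1 hz) p2)
    have h5 : ‖u (x + y) - u x - fderiv ℝ u x (x + y - x)‖ ≤ K2 * ‖y‖ * ‖x + y - x‖ :=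
      (convex_closedBall x ‖y‖).norm_image_sub_le_of_norm_fderiv_le' (𝕜 := ℝ) (fun z _ => hd z) h4
        (mem_closedBall_self (norm_nonneg _)) (by simp)
    rw [add_sub_cancel_left, Real.norm_eq_abs] at h5
    exact h5.trans (le_of_eq (by ring))

theorem exists_bound {u : ℂ → ℝ} (hu : ContDiff ℝ 2 u) (hs : HasCompactSupport u) :
    ∃ K : ℝ, 0 ≤ K ∧ (∀ x, |u x| ≤ K) ∧ (∀ x, |Δ u x| ≤ K) ∧
      ∀ x y, |u (x + y) - u x - fderiv ℝ u x y| ≤ K * ‖y‖ ^ 2 := by
  obtain ⟨K0, hK0⟩ := hu.continuous.bounded_above_of_compact_support hs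
  obtain ⟨K2, p2, hq, ht⟩ := taylor_bound hu hs
  have p0 : 0 ≤ K0 := (norm_nonneg _).trans (hK0 0)
  refine ⟨K0 + 2 * K2, by positivity, fun x => ?_, fun x => ?_, fun x y => ?_⟩
  · have := hK0 x
    rw [Real.norm_eq_abs] at this
    linarith
  · rw [lap_eq]
    refine (abs_add_le _ _).trans ?_
    have a := hq x 1 1
    have b := hq x Complex.I Complex.I
    rw [norm_one, mul_one, mul_one] at a
    rw [Complex.norm_I, mul_one, mul_one] at b
    linarith
  · refine (ht x y).trans ?_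
    gcongr
    linarith

theorem tendsto_taylor {u : ℂ → ℝ} (hu : ContDiff ℝ 2 u) (x z : ℂ) :
    Tendsto (fun s : ℝ => (u (x + s • z) - u x - fderiv ℝ u x (s • z)) / s ^ 2) (𝓝[>] 0)
      (𝓝 ((1 / 2 : ℝ) * fderiv ℝ (fderiv ℝ u) x z z)) := by
  have h1 : ContDiff ℝ 1 (fderiv ℝ u) := hu.fderiv_right (m := 1) le_rfl
  have hd : Differentiable ℝ u := hu.differentiable two_ne_zero
  have hd1 : Differentiable ℝ (fderiv ℝ u) := h1.differentiable one_ne_zero
  have hl : ∀ s : ℝ, HasDerivAt (fun s : ℝ => x + s • z) z s := fun s => by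
    simpa using ((hasDerivAt_id s).smul_const z).const_add x
  refine HasDerivAt.lhopital_zero_nhdsGT
    (f' := fun s => fderiv ℝ u (x + s • z) z - fderiv ℝ u x z) (g' := fun s => 2 * s)
    (Eventually.of_forall fun s => ?_) (Eventually.of_forall fun s => ?_) ?_ ?_ ?_ ?_
  · have a1 := ((hd (x + s • z)).hasFDerivAt.comp_hasDerivAt s (hl s)).sub_const (u x)
    have a2 : HasDerivAt (fun s : ℝ => fderiv ℝ u x (s • z)) (fderiv ℝ u x z) s := by
      simp only [map_smul, smul_eq_mul]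
      simpa using (hasDerivAt_id s).mul_const (fderiv ℝ u x z)
    exact a1.sub a2
  · simpa using hasDerivAt_pow 2 s
  · filter_upwards [self_mem_nhdsWithin] with s hs
    have : (0 : ℝ) < s := hs
    positivity
  · have hc := hu.continuous
    have : Continuous fun s : ℝ => u (x + s • z) - u x - fderiv ℝ u x (s • z) := by fun_prop
    have := this.tendsto 0
    simp only [zero_smul, add_zero, sub_self, map_zero] at this
    exact this.mono_left nhdsWithin_le_nhds
  · have : Continuous fun s : ℝ => s ^ 2 := by fun_prop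
    have := this.tendsto 0
    simp only [ne_eq, OfNat.ofNat_ne_zero, not_false_eq_true, zero_pow] at this
    exact this.mono_left nhdsWithin_le_nhds
  · have a1 : HasDerivAt (fun s : ℝ => fderiv ℝ u (x + s • z)) (fderiv ℝ (fderiv ℝ u) x z) 0 := by
      have : HasFDerivAt (fderiv ℝ u) (fderiv ℝ (fderiv ℝ u) x) (x + (0 : ℝ) • z) := by
        simpa using (hd1 x).hasFDerivAt
      exact this.comp_hasDerivAt 0 (hl 0)
    have a2 : HasDerivAt (fun s : ℝ => fderiv ℝ u (x + s • z) z) (fderiv ℝ (fderiv ℝ u) x z z) 0 := by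
      simpa using a1.clm_apply (hasDerivAt_const (0 : ℝ) z)
    have a3 := a2.tendsto_slope_zero_right.const_mul (1 / 2 : ℝ)
    refine a3.congr fun s => ?_
    simp only [zero_add, zero_smul, add_zero, smul_eq_mul]
    rw [div_eq_mul_inv, div_eq_mul_inv, mul_inv]
    ring

theorem integral_gauss (h : IsWiener W) {F : ℂ → ℝ} (hF : Measurable F) :
    ∫ ω, F (ω 1) ∂W = ∫ p : ℝ × ℝ, F (p.1 + p.2 * Complex.I)
      ∂((gaussianReal 0 1).prod (gaussianReal 0 1)) := by
  rw [← integral_map (measurable_evalAt 1).aemeasurable hF.aestronglyMeasurable, h.map_eval,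
    integral_map Complex.measurableEquivRealProd.symm.measurable.aemeasurable
      hF.aestronglyMeasurable]
  refine integral_congr_ae (Eventually.of_forall fun p => ?_)
  simp only [Complex.measurableEquivRealProd_symm_apply]
  rw [Complex.mk_eq_add_mul_I]

theorem memLp_one (h : IsWiener W) : MemLp (fun ω : Path => ω 1) 2 W := by
  have := h.prob
  have a : MemLp (fun ω : Path => (ω 1).re) 2 W :=
    (h.re.isGaussianProcess.hasGaussianLaw_eval 1).memLp_two
  have b : MemLp (fun ω : Path => (ω 1).im) 2 W :=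
    (h.im.isGaussianProcess.hasGaussianLaw_eval 1).memLp_two
  refine MemLp.mono' (a.norm.add b.norm) (measurable_evalAt 1).aestronglyMeasurable
    (Eventually.of_forall fun ω => ?_)
  exact Complex.norm_le_abs_re_add_abs_im _

theorem integral_lin (h : IsWiener W) (L : ℂ →L[ℝ] ℝ) : ∫ ω, L (ω 1) ∂W = 0 := by
  have h1 := h.map_isometry (LinearIsometryEquiv.neg ℝ)
  have hm : Measurable fun ω : Path =>
      (⟨fun t => (LinearIsometryEquiv.neg ℝ : ℂ ≃ₗᵢ[ℝ] ℂ) (ω t), by fun_prop⟩ : Path) :=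
    measurable_path_iff.2 fun t => (measurable_evalAt t).neg
  have h2 : ∫ ω, L (ω 1) ∂W = -∫ ω, L (ω 1) ∂W := by
    conv_lhs => rw [← h1]
    have hm2 : Measurable fun ω : Path => L (ω 1) :=
      L.continuous.measurable.comp (measurable_evalAt 1)
    rw [integral_map hm.aemeasurable hm2.aestronglyMeasurable, ← integral_neg]
    simp
  linarith

theorem integral_quad (h : IsWiener W) (Q : ℂ →L[ℝ] ℂ →L[ℝ] ℝ) :
    ∫ ω, Q (ω 1) (ω 1) ∂W = Q 1 1 + Q Complex.I Complex.I := by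
  rw [integral_gauss h (F := fun z => Q z z) (by fun_prop)]
  have e : ∀ p : ℝ × ℝ, Q (p.1 + p.2 * Complex.I) (p.1 + p.2 * Complex.I) =
      Q 1 1 * (p.1 ^ 2 * 1) + (Q 1 Complex.I + Q Complex.I 1) * (p.1 * p.2) +
        Q Complex.I Complex.I * (1 * p.2 ^ 2) := fun p => by
    have : (p.1 + p.2 * Complex.I : ℂ) = p.1 • (1 : ℂ) + p.2 • Complex.I := by simp
    rw [this]
    simp only [map_add, map_smul, add_apply, smul_apply,
      smul_eq_mul]
    ring
  simp_rw [e]
  have i1 : Integrable (fun x : ℝ => x) (gaussianReal 0 1) :=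
    (memLp_id_gaussianReal (μ := 0) (v := 1) 1).integrable le_rfl
  have i2 : Integrable (fun x : ℝ => x ^ 2) (gaussianReal 0 1) :=
    (memLp_id_gaussianReal (μ := 0) (v := 1) 2).integrable_sq
  have i0 : Integrable (fun _ : ℝ => (1 : ℝ)) (gaussianReal 0 1) := integrable_const _
  have v2 : ∫ x, x ^ 2 ∂(gaussianReal 0 1) = 1 := by
    have := variance_id_gaussianReal (μ := 0) (v := 1)
    rw [variance_eq_integral aemeasurable_id] at this
    simpa using this
  have i3 : Integrable (fun p : ℝ × ℝ => Q 1 1 * (p.1 ^ 2 * 1) +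
      (Q 1 Complex.I + Q Complex.I 1) * (p.1 * p.2)) ((gaussianReal 0 1).prod (gaussianReal 0 1)) :=
    ((i2.mul_prod i0).const_mul _).add ((i1.mul_prod i1).const_mul _)
  rw [integral_add i3
    ((i0.mul_prod i2).const_mul _), integral_add ((i2.mul_prod i0).const_mul _)
    ((i1.mul_prod i1).const_mul _), integral_const_mul, integral_const_mul, integral_const_mul,
    integral_prod_mul (fun x : ℝ => x ^ 2) (fun _ : ℝ => (1 : ℝ)),
    integral_prod_mul (fun x : ℝ => x) (fun x : ℝ => x),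
    integral_prod_mul (fun _ : ℝ => (1 : ℝ)) (fun x : ℝ => x ^ 2), v2]
  simp

theorem integral_scale (h : IsWiener W) {F : ℂ → ℝ} (hF : Measurable F) (x : ℂ) {c : ℝ≥0}
    (hc : c ≠ 0) : ∫ ω, F (ω c) ∂(Px W x) = ∫ ω, F (x + (√c : ℝ) • ω 1) ∂W := by
  have h1 := h.map_scale hc
  have hm : Measurable fun ω : Path =>
      (⟨fun t => ((√c)⁻¹ : ℝ) • ω (c * t), by fun_prop⟩ : Path) :=
    measurable_path_iff.2 fun t => (measurable_evalAt _).const_smul ((√c)⁻¹ : ℝ)
  have hm2 : Measurable fun ω : Path => F (x + (√c : ℝ) • ω 1) :=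
    hF.comp (((measurable_evalAt 1).const_smul (√c : ℝ)).const_add x)
  have hm3 : Measurable fun ω : Path => F (ω c) := hF.comp (measurable_evalAt c)
  conv_rhs => rw [← h1]
  rw [integral_map hm.aemeasurable hm2.aestronglyMeasurable, Px,
    integral_map (measurable_start x).aemeasurable hm3.aestronglyMeasurable]
  have : (√c : ℝ) ≠ 0 := by positivity
  refine integral_congr_ae (Eventually.of_forall fun ω => ?_)
  simp only [start_apply, ContinuousMap.coe_mk, mul_one, smul_inv_smul₀ this]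

theorem integrable_bdd {α : Type*} {mα : MeasurableSpace α} {μ : Measure α} [IsFiniteMeasure μ]
    {f : α → ℝ} (hf : Measurable f) {K : ℝ} (hK : ∀ a, |f a| ≤ K) : Integrable f μ :=
  Integrable.of_bound hf.aestronglyMeasurable K (Eventually.of_forall hK)

/-- the generator: pointwise limit and uniform bound -/
theorem generator (h : IsWiener W) {u : ℂ → ℝ} (hu : ContDiff ℝ 2 u) (hs : HasCompactSupport u) :
    (∃ C : ℝ, ∀ (x : ℂ) (c : ℝ), 0 < c →
      |c⁻¹ * (∫ ω, u (ω c.toNNReal) ∂(Px W x) - u x)| ≤ C) ∧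
    ∀ x, Tendsto (fun c : ℝ => c⁻¹ * (∫ ω, u (ω c.toNNReal) ∂(Px W x) - u x)) (𝓝[>] 0)
      (𝓝 ((1 / 2 : ℝ) * Δ u x)) := by
  have := h.prob
  obtain ⟨K, hK0, hK1, -, hK3⟩ := exists_bound hu hs
  have hc := hu.continuous
  have i2 : Integrable (fun ω : Path => K * ‖ω 1‖ ^ 2) W :=
    ((memLp_one h).norm.integrable_sq).const_mul K
  have i1 : Integrable (fun ω : Path => ω 1) W := (memLp_one h).integrable one_le_two
  have key : ∀ (x : ℂ) (c : ℝ), 0 < c → c⁻¹ * (∫ ω, u (ω c.toNNReal) ∂(Px W x) - u x) =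
      ∫ ω, (u (x + √c • ω 1) - u x - fderiv ℝ u x (√c • ω 1)) / √c ^ 2 ∂W := fun x c hc0 => by
    rw [integral_scale h hc.measurable x (by simpa using hc0), Real.coe_toNNReal _ hc0.le,
      Real.sq_sqrt hc0.le, integral_div, div_eq_inv_mul]
    have j1 : Integrable (fun ω : Path => u (x + √c • ω 1)) W :=
      integrable_bdd (hc.measurable.comp (((measurable_evalAt 1).const_smul √c).const_add x))
        fun _ => hK1 _
    have j2 : Integrable (fun ω : Path => u (x + √c • ω 1) - u x) W := j1.sub (integrable_const _)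
    have j3 : Integrable (fun ω : Path => fderiv ℝ u x (√c • ω 1)) W :=
      (fderiv ℝ u x).integrable_comp (i1.smul √c)
    rw [integral_sub j2 j3, integral_sub j1 (integrable_const _)]
    simp only [map_smul, smul_eq_mul]
    rw [integral_const_mul, integral_lin h]
    simp
  have bd : ∀ (x : ℂ) (c : ℝ), 0 < c → ∀ ω : Path,
      ‖(u (x + √c • ω 1) - u x - fderiv ℝ u x (√c • ω 1)) / √c ^ 2‖ ≤ K * ‖ω 1‖ ^ 2 :=
    fun x c hc0 ω => by
      have : 0 < √c ^ 2 := by positivity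
      rw [Real.norm_eq_abs, abs_div, abs_of_pos this, div_le_iff₀ this]
      refine (hK3 x _).trans (le_of_eq ?_)
      rw [norm_smul, Real.norm_eq_abs, mul_pow, sq_abs]
      ring
  refine ⟨⟨∫ ω : Path, K * ‖ω 1‖ ^ 2 ∂W, fun x c hc0 => ?_⟩, fun x => ?_⟩
  · rw [key x c hc0, ← Real.norm_eq_abs]
    exact norm_integral_le_of_norm_le i2 (Eventually.of_forall (bd x c hc0))
  · have hsq : Tendsto (fun c : ℝ => √c) (𝓝[>] 0) (𝓝[>] 0) := by
      refine tendsto_nhdsWithin_iff.2 ⟨?_, ?_⟩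
      · have := Real.continuous_sqrt.tendsto 0
        rw [Real.sqrt_zero] at this
        exact this.mono_left nhdsWithin_le_nhds
      · filter_upwards [self_mem_nhdsWithin] with c hc0
        exact Real.sqrt_pos.2 hc0
    have := tendsto_integral_filter_of_dominated_convergence (μ := W) (l := 𝓝[>] (0 : ℝ))
      (F := fun c ω => (u (x + √c • ω 1) - u x - fderiv ℝ u x (√c • ω 1)) / √c ^ 2)
      (f := fun ω => (1 / 2 : ℝ) * fderiv ℝ (fderiv ℝ u) x (ω 1) (ω 1))
      (fun ω => K * ‖ω 1‖ ^ 2) (Eventually.of_forall fun c => ?_) ?_ i2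
      (Eventually.of_forall fun ω => (tendsto_taylor hu x (ω 1)).comp hsq)
    · rw [integral_const_mul, integral_quad h, ← lap_eq] at this
      refine this.congr' ?_
      filter_upwards [self_mem_nhdsWithin] with c hc0
      exact (key x c hc0).symm
    · have : Continuous fun ω : Path =>
          (u (x + √c • ω 1) - u x - fderiv ℝ u x (√c • ω 1)) / √c ^ 2 := by fun_prop
      exact this.aestronglyMeasurable
    · filter_upwards [self_mem_nhdsWithin] with c hc0
      exact Eventually.of_forall (bd x c hc0)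

theorem measurable_Pt (h : IsWiener W) {F : Path → ℝ} (hF : Measurable F) :
    Measurable fun x => ∫ η, F η ∂(Px W x) := by
  have := h.prob
  have : (fun x => ∫ η, F η ∂(Px W x)) = fun x => ∫ η, F (start x η) ∂W := by
    funext x
    rw [Px, integral_map (measurable_start x).aemeasurable hF.aestronglyMeasurable]
  rw [this]
  exact ((hF.comp continuous_start.measurable).stronglyMeasurable.integral_prod_right').measurable

theorem hasDeriv_right (h : IsWiener W) {u : ℂ → ℝ} (hu : ContDiff ℝ 2 u)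
    (hs : HasCompactSupport u) (x : ℂ) {t : ℝ} (ht : 0 ≤ t) :
    HasDerivWithinAt (fun s : ℝ => ∫ ω, u (ω s.toNNReal) ∂(Px W x))
      (∫ ω, (1 / 2 : ℝ) * Δ u (ω t.toNNReal) ∂(Px W x)) (Ioi t) t := by
  have := h.prob_Px x
  obtain ⟨K, hK0, hK1, -, -⟩ := exists_bound hu hs
  obtain ⟨⟨C, hC⟩, hlim⟩ := generator h hu hs
  have hc := hu.continuous
  have hmu : ∀ s : ℝ≥0, Measurable fun η : Path => u (η s) := fun s =>
    hc.measurable.comp (measurable_evalAt s)
  have hP : ∀ s : ℝ≥0, Measurable fun ω : Path => ∫ η, u (η s) ∂(Px W (ω t.toNNReal)) := fun s =>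
    (measurable_Pt h (hmu s)).comp (measurable_evalAt _)
  have hmk : ∀ c : ℝ, 0 < c → ∫ ω, u (ω (t + c).toNNReal) ∂(Px W x) =
      ∫ ω, ∫ η, u (η c.toNNReal) ∂(Px W (ω t.toNNReal)) ∂(Px W x) := fun c hc0 => by
    have := (h.isFBM_Px x).strong_integral (Opt.const (t.toNNReal : ℝ≥0∞)) (Y := fun _ => ())
      measurable_const (Ψ := fun p => u (p.2 c.toNNReal)) ((hmu _).comp measurable_snd)
      (integrable_bdd ((hmu _).comp (measurable_shift _)) fun _ => hK1 _)
    simpa [Real.toNNReal_add ht hc0.le] using this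
  rw [hasDerivWithinAt_iff_tendsto_slope' (by simp)]
  have hsub : Tendsto (fun s : ℝ => s - t) (𝓝[>] t) (𝓝[>] 0) := by
    refine tendsto_nhdsWithin_iff.2 ⟨?_, ?_⟩
    · have : Continuous fun s : ℝ => s - t := by fun_prop
      have := this.tendsto t
      rw [sub_self] at this
      exact this.mono_left nhdsWithin_le_nhds
    · filter_upwards [self_mem_nhdsWithin] with c hc0
      exact sub_pos.2 (mem_Ioi.1 hc0)
  have := tendsto_integral_filter_of_dominated_convergence (μ := Px W x) (l := 𝓝[>] (0 : ℝ))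
    (F := fun c ω => c⁻¹ * (∫ η, u (η c.toNNReal) ∂(Px W (ω t.toNNReal)) - u (ω t.toNNReal)))
    (f := fun ω => (1 / 2 : ℝ) * Δ u (ω t.toNNReal)) (fun _ => C)
    (Eventually.of_forall fun c => (((hP _).sub (hmu _)).const_mul _).aestronglyMeasurable) ?_
    (integrable_const _) (Eventually.of_forall fun ω => hlim _)
  · refine (this.comp hsub).congr' ?_
    filter_upwards [self_mem_nhdsWithin] with s hst
    have h0 : 0 < s - t := sub_pos.2 hst
    have := hmk _ h0
    rw [add_sub_cancel] at this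
    have j1 : Integrable (fun ω : Path => ∫ η, u (η (s - t).toNNReal) ∂(Px W (ω t.toNNReal)))
        (Px W x) := integrable_bdd (hP _) (K := K) fun ω => by
      have := h.prob_Px (ω t.toNNReal)
      have := norm_integral_le_of_norm_le_const (μ := Px W (ω t.toNNReal))
        (f := fun η : Path => u (η (s - t).toNNReal)) (C := K) (Eventually.of_forall fun _ => hK1 _)
      simpa using this
    simp only [Function.comp_apply, slope_def_field]
    rw [integral_const_mul, integral_sub j1 (integrable_bdd (hmu _) fun _ => hK1 _), ← this,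
      div_eq_inv_mul]
  · filter_upwards [self_mem_nhdsWithin] with c hc0
    exact Eventually.of_forall fun ω => hC _ c hc0

theorem continuous_Pt (h : IsWiener W) {v : ℂ → ℝ} (hv : Continuous v) {K : ℝ}
    (hK : ∀ z, |v z| ≤ K) (x : ℂ) : Continuous fun s : ℝ => ∫ ω, v (ω s.toNNReal) ∂(Px W x) := by
  have := h.prob_Px x
  refine continuous_of_dominated (bound := fun _ => K)
    (fun s => (hv.measurable.comp (measurable_evalAt _)).aestronglyMeasurable)
    (fun s => Eventually.of_forall fun _ => hK _) (integrable_const _)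
    (Eventually.of_forall fun ω => ?_)
  exact hv.comp (ω.continuous.comp continuous_real_toNNReal)

/-- the discounted generator -/
def Lg (u : ℂ → ℝ) (a : ℝ) (z : ℂ) : ℝ := (1 / 2 : ℝ) * Δ u z - a * u z

theorem continuous_Lg {u : ℂ → ℝ} (hu : ContDiff ℝ 2 u) (a : ℝ) : Continuous (Lg u a) :=
  ((continuous_lap hu).const_mul _).sub (hu.continuous.const_mul a)

theorem Lg_bound {u : ℂ → ℝ} (hu : ContDiff ℝ 2 u) (hs : HasCompactSupport u) (a : ℝ) :
    ∃ K : ℝ, 0 ≤ K ∧ (∀ z, |u z| ≤ K) ∧ ∀ z, |Lg u a z| ≤ K := by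
  obtain ⟨K, hK0, hK1, hK2, -⟩ := exists_bound hu hs
  have := abs_nonneg a
  refine ⟨K + |a| * K, by positivity, fun z => (hK1 z).trans (le_add_of_nonneg_right
    (by positivity)), fun z => (abs_sub _ _).trans ?_⟩
  rw [abs_mul, abs_mul, abs_of_pos (by norm_num : (0 : ℝ) < 1 / 2)]
  have := mul_le_mul_of_nonneg_left (hK1 z) this
  linarith [hK2 z]

theorem fixed_ftc (h : IsWiener W) {u : ℂ → ℝ} (hu : ContDiff ℝ 2 u)
    (hs : HasCompactSupport u) (a : ℝ) (x : ℂ) {t : ℝ} (ht : 0 ≤ t) :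
    ∫ s in (0 : ℝ)..t, Real.exp (-a * s) * ∫ ω, Lg u a (ω s.toNNReal) ∂(Px W x) =
      Real.exp (-a * t) * ∫ ω, u (ω t.toNNReal) ∂(Px W x) - u x := by
  have := h.prob_Px x
  obtain ⟨K, hK0, hK1, hK2⟩ := Lg_bound hu hs a
  obtain ⟨K', -, -, hK3, -⟩ := exists_bound hu hs
  have c1 := continuous_Pt h hu.continuous hK1 x
  have c2 := continuous_Pt h (continuous_Lg hu a) hK2 x
  have := intervalIntegral.integral_eq_sub_of_hasDeriv_right_of_le ht
    (f := fun s => Real.exp (-a * s) * ∫ ω, u (ω s.toNNReal) ∂(Px W x))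
    (f' := fun s => Real.exp (-a * s) * ∫ ω, Lg u a (ω s.toNNReal) ∂(Px W x))
    (by fun_prop) (fun s hs' => ?_) (Continuous.intervalIntegrable (by fun_prop) _ _)
  · rw [this]
    have : ∫ ω, u (ω (0 : ℝ).toNNReal) ∂(Px W x) = ∫ _, u x ∂(Px W x) :=
      integral_congr_ae ((h.ae_Px_zero x).mono fun ω hω => by simp [hω])
    simp only [this]
    simp
  · have d1 : HasDerivAt (fun s : ℝ => Real.exp (-a * s)) (Real.exp (-a * s) * -a) s := by
      simpa using ((hasDerivAt_id s).const_mul (-a)).exp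
    have d2 := d1.hasDerivWithinAt.mul (hasDeriv_right h hu hs x hs'.1.le)
    refine d2.congr_deriv ?_
    unfold Lg
    have j1 : Integrable (fun ω : Path => Δ u (ω s.toNNReal)) (Px W x) :=
      integrable_bdd ((continuous_lap hu).measurable.comp (measurable_evalAt _)) fun _ => hK3 _
    have j2 : Integrable (fun ω : Path => u (ω s.toNNReal)) (Px W x) :=
      integrable_bdd (hu.continuous.measurable.comp (measurable_evalAt _)) fun _ => hK1 _
    rw [integral_sub (j1.const_mul _) (j2.const_mul _), integral_const_mul a]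
    ring

/-- the Dynkin martingale -/
def Mg (u : ℂ → ℝ) (a : ℝ) (t : ℝ≥0) (η : Path) : ℝ :=
  Real.exp (-a * t) * u (η t) - u (η 0) -
    ∫ s in (0 : ℝ)..t, Real.exp (-a * s) * Lg u a (η s.toNNReal)

theorem continuous_integrand {v : ℂ → ℝ} (hv : Continuous v) (a : ℝ) :
    Continuous fun p : Path × ℝ => Real.exp (-a * p.2) * v (p.1 p.2.toNNReal) := by
  have : Continuous fun p : Path × ℝ => p.1 p.2.toNNReal :=
    continuous_evalPath.comp (continuous_fst.prodMk (continuous_real_toNNReal.comp continuous_snd))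
  fun_prop

theorem continuous_prim {v : ℂ → ℝ} (hv : Continuous v) (a : ℝ) :
    Continuous fun p : ℝ≥0 × Path =>
      ∫ s in (0 : ℝ)..p.1, Real.exp (-a * s) * v (p.2 s.toNNReal) := by
  have := intervalIntegral.continuous_parametric_primitive_of_continuous (μ := volume) (a₀ := 0)
    (f := fun (η : Path) (s : ℝ) => Real.exp (-a * s) * v (η s.toNNReal))
    (continuous_integrand hv a)
  exact this.comp (continuous_snd.prodMk (NNReal.continuous_coe.comp continuous_fst))

theorem continuous_Mg {u : ℂ → ℝ} (hu : ContDiff ℝ 2 u) (a : ℝ) :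
    Continuous fun p : ℝ≥0 × Path => Mg u a p.1 p.2 := by
  have h1 := continuous_prim (continuous_Lg hu a) a
  have h2 := hu.continuous
  have h3 : Continuous fun p : ℝ≥0 × Path => p.2 p.1 := continuous_evalPath.comp continuous_swap
  unfold Mg
  exact (((by fun_prop : Continuous fun p : ℝ≥0 × Path => Real.exp (-a * p.1)).mul
    (h2.comp h3)).sub (by fun_prop)).sub h1

theorem prim_bound {v : ℂ → ℝ} {K : ℝ} (hK : ∀ z, |v z| ≤ K) {a : ℝ} (ha : 0 ≤ a) {t : ℝ}
    (ht : 0 ≤ t) (η : Path) :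
    |∫ s in (0 : ℝ)..t, Real.exp (-a * s) * v (η s.toNNReal)| ≤ K * t := by
  have := intervalIntegral.norm_integral_le_of_norm_le_const (a := 0) (b := t) (C := K)
    (f := fun s => Real.exp (-a * s) * v (η s.toNNReal)) fun s hs => by
      rw [uIoc_of_le ht] at hs
      have h1 : Real.exp (-a * s) ≤ 1 := Real.exp_le_one_iff.2 (by nlinarith [hs.1])
      rw [Real.norm_eq_abs, abs_mul, abs_of_pos (Real.exp_pos _)]
      nlinarith [hK (η s.toNNReal), abs_nonneg (v (η s.toNNReal)), Real.exp_pos (-a * s)]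
  simpa [abs_of_nonneg ht] using this

theorem exp_bound {v : ℂ → ℝ} {K : ℝ} (hK : ∀ z, |v z| ≤ K) {a : ℝ} (ha : 0 ≤ a) {t : ℝ}
    (ht : 0 ≤ t) (z : ℂ) : |Real.exp (-a * t) * v z| ≤ K := by
  have h1 : Real.exp (-a * t) ≤ 1 := Real.exp_le_one_iff.2 (by nlinarith)
  rw [abs_mul, abs_of_pos (Real.exp_pos _)]
  nlinarith [hK z, abs_nonneg (v z), Real.exp_pos (-a * t)]

theorem Mg_bound {u : ℂ → ℝ} {a K : ℝ} (ha : 0 ≤ a) (h1 : ∀ z, |u z| ≤ K)
    (h2 : ∀ z, |Lg u a z| ≤ K) (t : ℝ≥0) (η : Path) : |Mg u a t η| ≤ 2 * K + K * t := by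
  unfold Mg
  refine (abs_sub _ _).trans (add_le_add ((abs_sub _ _).trans ?_) (prim_bound h2 ha t.coe_nonneg η))
  linarith [exp_bound h1 ha t.coe_nonneg (η t), h1 (η 0)]

theorem Mg_add {u : ℂ → ℝ} (hu : ContDiff ℝ 2 u) (a : ℝ) (s t : ℝ≥0) (η : Path) :
    Mg u a (s + t) η = Mg u a s η + Real.exp (-a * s) * Mg u a t (shift s η) := by
  have hc : Continuous fun r : ℝ => Real.exp (-a * r) * Lg u a (η r.toNNReal) :=
    (continuous_integrand (continuous_Lg hu a) a).comp (continuous_const.prodMk continuous_id)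
  have h1 := intervalIntegral.integral_add_adjacent_intervals (μ := volume)
    (hc.intervalIntegrable 0 s) (hc.intervalIntegrable s (s + t))
  have h2 : ∫ r in (s : ℝ)..(s + t), Real.exp (-a * r) * Lg u a (η r.toNNReal) =
      Real.exp (-a * s) * ∫ r in (0 : ℝ)..t, Real.exp (-a * r) * Lg u a (shift s η r.toNNReal) := by
    have := intervalIntegral.integral_comp_add_left (a := 0) (b := t)
      (fun r : ℝ => Real.exp (-a * r) * Lg u a (η r.toNNReal)) (s : ℝ)
    rw [add_zero] at this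
    rw [← this, ← intervalIntegral.integral_const_mul]
    refine intervalIntegral.integral_congr fun r hr => ?_
    rw [uIcc_of_le t.coe_nonneg] at hr
    simp only [shift_apply]
    rw [Real.toNNReal_add s.coe_nonneg hr.1, Real.toNNReal_coe, mul_add, Real.exp_add, mul_assoc]
  unfold Mg
  rw [NNReal.coe_add, ← h1, h2, mul_add (-a), Real.exp_add]
  simp only [shift_apply, add_zero]
  ring

theorem integral_prim_swap (h : IsWiener W) {v : ℂ → ℝ} (hv : Continuous v) {K : ℝ}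
    (hK : ∀ z, |v z| ≤ K) {a : ℝ} (ha : 0 ≤ a) (x : ℂ) {t : ℝ} (ht : 0 ≤ t) :
    ∫ ω, (∫ s in (0 : ℝ)..t, Real.exp (-a * s) * v (ω s.toNNReal)) ∂(Px W x) =
      ∫ s in (0 : ℝ)..t, Real.exp (-a * s) * ∫ ω, v (ω s.toNNReal) ∂(Px W x) := by
  have := h.prob_Px x
  simp only [intervalIntegral.integral_of_le ht]
  rw [integral_integral_swap]
  · simp only [integral_const_mul]
  · refine Integrable.of_bound (continuous_integrand hv a).aestronglyMeasurable K ?_
    have : ∀ᵐ p : Path × ℝ ∂((Px W x).prod (volume.restrict (Ioc 0 t))), p.2 ∈ Ioc 0 t :=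
      Measure.quasiMeasurePreserving_snd.ae (ae_restrict_mem measurableSet_Ioc)
    exact this.mono fun p hp => exp_bound hK ha hp.1.le _

theorem integral_Mg (h : IsWiener W) {u : ℂ → ℝ} (hu : ContDiff ℝ 2 u) (hs : HasCompactSupport u)
    {a : ℝ} (ha : 0 ≤ a) (x : ℂ) (t : ℝ≥0) : ∫ ω, Mg u a t ω ∂(Px W x) = 0 := by
  have := h.prob_Px x
  obtain ⟨K, hK0, hK1, hK2⟩ := Lg_bound hu hs a
  have i1 : ∀ s, Integrable (fun ω : Path => u (ω s)) (Px W x) := fun s =>
    integrable_bdd (hu.continuous.measurable.comp (measurable_evalAt _)) fun _ => hK1 _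
  have i2 : Integrable (fun ω : Path => Real.exp (-a * t) * u (ω t) - u (ω 0)) (Px W x) :=
    ((i1 t).const_mul _).sub (i1 0)
  have i3 : Integrable (fun ω : Path =>
      ∫ s in (0 : ℝ)..t, Real.exp (-a * s) * Lg u a (ω s.toNNReal)) (Px W x) :=
    integrable_bdd ((continuous_prim (continuous_Lg hu a) a).comp
      (continuous_const.prodMk continuous_id)).measurable (prim_bound hK2 ha t.coe_nonneg)
  have e0 : ∫ ω, u (ω 0) ∂(Px W x) = ∫ _, u x ∂(Px W x) :=
    integral_congr_ae ((h.ae_Px_zero x).mono fun ω hω => by simp [hω])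
  unfold Mg
  rw [integral_sub i2 i3, integral_sub ((i1 t).const_mul _) (i1 0), e0,
    integral_prim_swap h (continuous_Lg hu a) hK2 ha x t.coe_nonneg,
    fixed_ftc h hu hs a x t.coe_nonneg, integral_const_mul]
  simp

theorem integral_Mg_bdd (h : IsFBM W 𝓕 B P) {u : ℂ → ℝ} (hu : ContDiff ℝ 2 u)
    (hs : HasCompactSupport u) {a : ℝ} (ha : 0 ≤ a) (T : ℝ≥0) (hτ : Opt 𝓕 τ) (hT : ∀ ω, τ ω ≤ T) :
    ∫ ω, Mg u a T (B ω) ∂P = ∫ ω, Mg u a (τ ω).toNNReal (B ω) ∂P := by
  have := h.prob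
  obtain ⟨K, hK0, hK1, hK2⟩ := Lg_bound hu hs a
  have hm := (continuous_Mg hu a).measurable
  have hτm : Measurable fun ω => (τ ω).toNNReal := hτ.measurable.ennreal_toNNReal
  have hle : ∀ ω, (τ ω).toNNReal ≤ T := fun ω => by
    have := ENNReal.toNNReal_mono ENNReal.coe_ne_top (hT ω)
    simpa using this
  have huniv : {ω | τ ω < ∞} = univ :=
    eq_univ_of_forall fun ω => (hT ω).trans_lt ENNReal.coe_lt_top
  have hΨ : Measurable fun p : ℝ≥0 × Path => Real.exp (-a * p.1) * Mg u a (T - p.1) p.2 :=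
    (by fun_prop : Measurable fun p : ℝ≥0 × Path => Real.exp (-a * p.1)).mul
      (hm.comp ((measurable_const.sub measurable_fst).prodMk measurable_snd))
  have hb : ∀ (s : ℝ≥0) (η : Path), s ≤ T → |Mg u a s η| ≤ 2 * K + K * T := fun s η hs =>
    (Mg_bound ha hK1 hK2 s η).trans (by gcongr)
  have i2 : Integrable (fun ω => Real.exp (-a * (τ ω).toNNReal) *
      Mg u a (T - (τ ω).toNNReal) (shift (τ ω).toNNReal (B ω))) P :=
    integrable_bdd (hΨ.comp (hτm.prodMk (hτm.path_shift h.measurable))) fun ω =>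
      exp_bound (v := fun _ => Mg u a (T - (τ ω).toNNReal) (shift (τ ω).toNNReal (B ω)))
        (fun _ => hb _ _ tsub_le_self) ha (NNReal.coe_nonneg _) 0
  have h1 := h.strong_integral hτ (Y := fun ω => (τ ω).toNNReal)
    hτ.measurable_ms.ennreal_toNNReal hΨ i2.integrableOn
  simp only [huniv, Measure.restrict_univ, integral_const_mul, integral_Mg h.wiener hu hs ha,
    mul_zero, integral_zero] at h1
  have e : ∀ ω, Mg u a T (B ω) = Mg u a (τ ω).toNNReal (B ω) + Real.exp (-a * (τ ω).toNNReal) *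
      Mg u a (T - (τ ω).toNNReal) (shift (τ ω).toNNReal (B ω)) := fun ω => by
    rw [← Mg_add hu, add_tsub_cancel_of_le (hle ω)]
  simp_rw [e]
  have i1 : Integrable (fun ω => Mg u a (τ ω).toNNReal (B ω)) P :=
    integrable_bdd (hm.comp (hτm.prodMk h.measurable)) fun ω => hb _ _ (hle ω)
  rw [integral_add i1 i2, h1, add_zero]

theorem integral_Mg_opt (h : IsFBM W 𝓕 B P) {u : ℂ → ℝ} (hu : ContDiff ℝ 2 u)
    (hs : HasCompactSupport u) {a : ℝ} (ha : 0 ≤ a) (hτ : Opt 𝓕 τ) (hfin : ∫⁻ ω, τ ω ∂P ≠ ∞) :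
    ∫ ω, Mg u a (τ ω).toNNReal (B ω) ∂P = 0 := by
  have := h.prob
  obtain ⟨K, hK0, hK1, hK2⟩ := Lg_bound hu hs a
  have hm := (continuous_Mg hu a).measurable
  have h0 : ∀ n : ℕ, ∫ ω, Mg u a (min (τ ω) ((n : ℝ≥0) : ℝ≥0∞)).toNNReal (B ω) ∂P = 0 := fun n => by
    rw [← integral_Mg_bdd h hu hs ha n (hτ.min (Opt.const _)) fun ω => min_le_right _ _,
      integral_Mg_bdd h hu hs ha n (Opt.const 0) fun ω => zero_le]
    simp [Mg]
  have hae := ae_lt_top hτ.measurable hfin
  have := tendsto_integral_of_dominated_convergence (μ := P)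
    (F := fun (n : ℕ) ω => Mg u a (min (τ ω) ((n : ℝ≥0) : ℝ≥0∞)).toNNReal (B ω))
    (f := fun ω => Mg u a (τ ω).toNNReal (B ω)) (fun ω => 2 * K + K * (τ ω).toReal)
    (fun n => (hm.comp ((hτ.min (Opt.const _)).measurable.ennreal_toNNReal.prodMk
      h.measurable)).aestronglyMeasurable)
    ((integrable_const _).add
      ((integrable_toReal_of_lintegral_ne_top hτ.measurable.aemeasurable hfin).const_mul K))
    (fun n => hae.mono fun ω hω => (Mg_bound ha hK1 hK2 _ _).trans (by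
      have : ((min (τ ω) ((n : ℝ≥0) : ℝ≥0∞)).toNNReal : ℝ) ≤ (τ ω).toReal :=
        ENNReal.toReal_mono hω.ne (min_le_left _ _)
      gcongr))
    (hae.mono fun ω hω => tendsto_const_nhds.congr' (by
      obtain ⟨N, hN⟩ := ENNReal.exists_nat_gt hω.ne
      filter_upwards [eventually_ge_atTop N] with n hn
      rw [min_eq_left]
      exact hN.le.trans (by exact_mod_cast hn)))
  simp only [h0] at this
  exact tendsto_nhds_unique this tendsto_const_nhds

end DynAux

open DynAux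

/-- Dynkin formula with discount `a ≥ 0` at an optional time with finite mean -/
theorem IsFBM.dynkin (h : IsFBM W 𝓕 B P) (hτ : Opt 𝓕 τ) (hfin : ∫⁻ ω, τ ω ∂P ≠ ∞) {u : ℂ → ℝ}
    (hu : ContDiff ℝ 2 u) (hs : HasCompactSupport u) {a : ℝ} (ha : 0 ≤ a) :
    ∫ ω, Real.exp (-a * (τ ω).toReal) * u (B ω (τ ω).toNNReal) ∂P = ∫ ω, u (B ω 0) ∂P +
      ∫ ω, (∫ s in (0 : ℝ)..(τ ω).toReal, Real.exp (-a * s) *
        ((1 / 2 : ℝ) * Δ u (B ω s.toNNReal) - a * u (B ω s.toNNReal))) ∂P := by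
  have := h.prob
  obtain ⟨K, hK0, hK1, hK2⟩ := Lg_bound hu hs a
  have h0 := integral_Mg_opt h hu hs ha hτ hfin
  have hτm : Measurable fun ω => (τ ω).toNNReal := hτ.measurable.ennreal_toNNReal
  have i1 : Integrable (fun ω => Real.exp (-a * (τ ω).toNNReal) * u (B ω (τ ω).toNNReal)) P :=
    integrable_bdd ((by fun_prop : Measurable fun ω => Real.exp (-a * (τ ω).toNNReal)).mul
      (hu.continuous.measurable.comp (h.measurable.path_ev hτm))) fun ω =>
      exp_bound hK1 ha (NNReal.coe_nonneg _) _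
  have i2 : Integrable (fun ω => u (B ω 0)) P :=
    integrable_bdd (hu.continuous.measurable.comp (h.measurable.path_ev measurable_const))
      fun ω => hK1 _
  have i3 : Integrable (fun ω => ∫ s in (0 : ℝ)..(τ ω).toNNReal,
      Real.exp (-a * s) * Lg u a (B ω s.toNNReal)) P :=
    ((integrable_toReal_of_lintegral_ne_top hτ.measurable.aemeasurable hfin).const_mul K).mono'
      ((continuous_prim (continuous_Lg hu a) a).measurable.comp
        (hτm.prodMk h.measurable)).aestronglyMeasurable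
      (Eventually.of_forall fun ω => prim_bound hK2 ha (NNReal.coe_nonneg _) _)
  have i4 : Integrable (fun ω => Real.exp (-a * (τ ω).toNNReal) * u (B ω (τ ω).toNNReal) -
      u (B ω 0)) P := i1.sub i2
  unfold Mg at h0
  rw [integral_sub i4 i3, integral_sub i1 i2] at h0
  change ∫ ω, Real.exp (-a * (τ ω).toNNReal) * u (B ω (τ ω).toNNReal) ∂P = ∫ ω, u (B ω 0) ∂P +
    ∫ ω, (∫ s in (0 : ℝ)..(τ ω).toNNReal, Real.exp (-a * s) * Lg u a (B ω s.toNNReal)) ∂P
  linarith

/-- Dynkin formula at a fixed time -/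
theorem IsWiener.dynkin_fixed (h : IsWiener W) {u : ℂ → ℝ} (hu : ContDiff ℝ 2 u)
    (hs : HasCompactSupport u) (x : ℂ) (t : ℝ≥0) :
    ∫ ω, u (ω t) ∂(Px W x) =
      u x + ∫ ω, (∫ s in (0 : ℝ)..t, (1 / 2 : ℝ) * Δ u (ω s.toNNReal)) ∂(Px W x) := by
  have := h.prob_Px x
  have h1 := (h.isFBM_Px x).dynkin (Opt.const (t : ℝ≥0∞)) (by simp) hu hs le_rfl
  have e0 : ∫ ω, u (ω 0) ∂(Px W x) = ∫ _, u x ∂(Px W x) :=
    integral_congr_ae ((h.ae_Px_zero x).mono fun ω hω => by simp [hω])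
  simpa [e0] using h1

/-- the resolvent inverts `a - Δ / 2` -/
theorem IsWiener.resolvent (h : IsWiener W) {u : ℂ → ℝ} (hu : ContDiff ℝ 2 u)
    (hs : HasCompactSupport u) {a : ℝ} (ha : 0 < a) (x : ℂ) :
    ∫ s in Ioi (0 : ℝ), Real.exp (-a * s) *
      ∫ ω, (a * u (ω s.toNNReal) - (1 / 2 : ℝ) * Δ u (ω s.toNNReal)) ∂(Px W x) = u x := by
  have := h.prob_Px x
  obtain ⟨K, hK0, hK1, hK2⟩ := Lg_bound hu hs a
  have c2 := continuous_Pt h (continuous_Lg hu a) hK2 x
  have bd : ∀ {v : ℂ → ℝ}, (∀ z, |v z| ≤ K) → ∀ s : ℝ≥0, |∫ ω, v (ω s) ∂(Px W x)| ≤ K :=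
    fun {v} hv s => by
      simpa using norm_integral_le_of_norm_le_const (μ := Px W x)
        (f := fun η : Path => v (η s)) (C := K) (Eventually.of_forall fun _ => hv _)
  have i1 : IntegrableOn (fun s : ℝ => Real.exp (-a * s) * ∫ ω, Lg u a (ω s.toNNReal) ∂(Px W x))
      (Ioi 0) := by
    refine ((exp_neg_integrableOn_Ioi 0 ha).mul_const K).mono'
      (Continuous.aestronglyMeasurable (by fun_prop)) (Eventually.of_forall fun s => ?_)
    rw [Real.norm_eq_abs, abs_mul, abs_of_pos (Real.exp_pos _)]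
    exact mul_le_mul_of_nonneg_left (bd hK2 _) (Real.exp_pos _).le
  have t1 := intervalIntegral_tendsto_integral_Ioi 0 i1 tendsto_id
  have t2 : Tendsto (fun t : ℝ => Real.exp (-a * t) * ∫ ω, u (ω t.toNNReal) ∂(Px W x) - u x) atTop
      (𝓝 (0 - u x)) := by
    refine Tendsto.sub_const ?_ _
    have : Tendsto (fun t : ℝ => Real.exp (-a * t)) atTop (𝓝 0) :=
      Real.tendsto_exp_atBot.comp (tendsto_id.const_mul_atTop_of_neg (by linarith))
    exact this.zero_mul_isBoundedUnder_le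
      (isBoundedUnder_of_eventually_le (Eventually.of_forall fun t => bd hK1 _))
  have t3 := tendsto_nhds_unique t1 (t2.congr' (by
    filter_upwards [eventually_ge_atTop (0 : ℝ)] with t ht
    exact (fixed_ftc h hu hs a x ht).symm))
  have : ∀ s : ℝ, Real.exp (-a * s) *
      ∫ ω, (a * u (ω s.toNNReal) - (1 / 2 : ℝ) * Δ u (ω s.toNNReal)) ∂(Px W x) =
      -(Real.exp (-a * s) * ∫ ω, Lg u a (ω s.toNNReal) ∂(Px W x)) := fun s => by
    rw [← mul_neg, ← integral_neg]
    simp only [Lg, neg_sub]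
  simp_rw [this]
  rw [integral_neg, t3]
  ring

theorem DynAux.lap_sq (c z : ℂ) : Δ (fun w : ℂ => ‖w - c‖ ^ 2) z = 4 := by
  have h1 : fderiv ℝ (fun w : ℂ => ‖w - c‖ ^ 2) = fun w => (2 : ℕ) • innerSL ℝ (w - c) := by
    funext w
    have := ((hasFDerivAt_id (𝕜 := ℝ) w).sub_const c).norm_sq.fderiv
    simpa using this
  have h2 : HasFDerivAt (fun w : ℂ => (2 : ℕ) • innerSL ℝ (w - c))
      ((2 : ℕ) • (innerSL ℝ : ℂ →L[ℝ] ℂ →L[ℝ] ℝ)) z := by
    have := ((innerSL ℝ : ℂ →L[ℝ] ℂ →L[ℝ] ℝ).hasFDerivAt.comp z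
      ((hasFDerivAt_id (𝕜 := ℝ) z).sub_const c)).const_smul (2 : ℕ)
    rw [ContinuousLinearMap.comp_id] at this
    exact this
  have e : ∀ v : ℂ, ‖v‖ = 1 → innerSL ℝ v v = (1 : ℝ) := fun v hv => by
    rw [innerSL_apply_apply, real_inner_self_eq_norm_sq, hv, one_pow]
  rw [lap_eq, h1, h2.fderiv]
  change (2 : ℕ) • innerSL ℝ (1 : ℂ) 1 + (2 : ℕ) • innerSL ℝ Complex.I Complex.I = (4 : ℝ)
  rw [e 1 norm_one, e _ Complex.norm_I]
  norm_num

/-- mean exit time of a disc, from any point -/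
theorem IsWiener.lintegral_exitT_le (h : IsWiener W) (c x : ℂ) (r : ℝ) :
    ∫⁻ ω, exitT (ball c r) ω ∂(Px W x) ≤ ENNReal.ofReal (r ^ 2 / 2) := by
  have := h.prob_Px x
  by_cases hx : x ∈ ball c r
  swap
  · have : ∀ᵐ ω ∂(Px W x), exitT (ball c r) ω = 0 := (h.ae_Px_zero x).mono fun ω hω =>
      le_antisymm (by simpa using exitT_le_of_notMem (U := ball c r) (ω := ω) (t := 0) (hω ▸ hx))
        zero_le
    rw [lintegral_congr_ae this]
    simp
  have hr : 0 < r := pos_of_mem_ball hx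
  let χ : ContDiffBump c := ⟨r + 1, r + 2, by linarith, by linarith⟩
  have hu : ContDiff ℝ 2 fun w => χ w * ‖w - c‖ ^ 2 :=
    χ.contDiff.mul ((contDiff_id.sub contDiff_const).norm_sq ℝ)
  have hs : HasCompactSupport fun w => χ w * ‖w - c‖ ^ 2 := χ.hasCompactSupport.mul_right
  have hone : ∀ w ∈ closedBall c r, ∀ᶠ z in 𝓝 w, χ z * ‖z - c‖ ^ 2 = ‖z - c‖ ^ 2 := fun w hw => by
    have : ball c (r + 1) ∈ 𝓝 w := isOpen_ball.mem_nhds (closedBall_subset_ball (by linarith) hw)
    filter_upwards [this] with z hz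
    rw [χ.one_of_mem_closedBall (ball_subset_closedBall hz), one_mul]
  have hlap : ∀ w ∈ closedBall c r, Δ (fun w => χ w * ‖w - c‖ ^ 2) w = 4 := fun w hw => by
    rw [(InnerProductSpace.laplacian_congr_nhds (hone w hw)).eq_of_nhds, lap_sq]
  have hopt : Opt filt (exitT (ball c r)) := opt_exitT (h.isFBM_Px x).adapted isOpen_ball
  have hn : ∀ n : ℕ, ∫⁻ ω, min (exitT (ball c r) ω) ((n : ℝ≥0) : ℝ≥0∞) ∂(Px W x) ≤
      ENNReal.ofReal (r ^ 2 / 2) := fun n => by
    have ho := hopt.min (Opt.const ((n : ℝ≥0) : ℝ≥0∞))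
    have hfin : ∫⁻ ω, min (exitT (ball c r) ω) ((n : ℝ≥0) : ℝ≥0∞) ∂(Px W x) ≠ ∞ :=
      ne_top_of_le_ne_top (by simp) (lintegral_mono fun ω => min_le_right _ _)
    have h1 := (h.isFBM_Px x).dynkin ho hfin hu hs le_rfl
    have hlt : ∀ ω, min (exitT (ball c r) ω) ((n : ℝ≥0) : ℝ≥0∞) ≠ ∞ := fun ω =>
      ne_top_of_le_ne_top ENNReal.coe_ne_top (min_le_right _ _)
    have hin : ∀ᵐ ω ∂(Px W x), ∀ s : ℝ≥0, s ≤ (min (exitT (ball c r) ω) ((n : ℝ≥0) : ℝ≥0∞)).toNNReal →
        ω s ∈ closedBall c r := (h.ae_Px_zero x).mono fun ω hω s hs => by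
      refine closure_ball_subset_closedBall (mem_closure_of_le_exitT (hω ▸ subset_closure hx) ?_)
      exact ((ENNReal.coe_le_coe.2 hs).trans_eq (ENNReal.coe_toNNReal (hlt ω))).trans
        (min_le_left _ _)
    have e1 : ∫ ω, (∫ s in (0 : ℝ)..(min (exitT (ball c r) ω) ((n : ℝ≥0) : ℝ≥0∞)).toReal,
        Real.exp (-0 * s) * ((1 / 2 : ℝ) * Δ (fun w => χ w * ‖w - c‖ ^ 2) (id ω s.toNNReal) -
          0 * (χ (id ω s.toNNReal) * ‖id ω s.toNNReal - c‖ ^ 2))) ∂(Px W x) =
        ∫ ω, 2 * (min (exitT (ball c r) ω) ((n : ℝ≥0) : ℝ≥0∞)).toReal ∂(Px W x) := by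
      refine integral_congr_ae (hin.mono fun ω hω => ?_)
      simp only
      rw [intervalIntegral.integral_congr (g := fun _ => (2 : ℝ))]
      · simp [mul_comm]
      · intro s hs
        rw [uIcc_of_le ENNReal.toReal_nonneg] at hs
        simp only [id]
        rw [hlap _ (hω _ (Real.toNNReal_le_iff_le_coe.2 hs.2))]
        norm_num
    have e2 : ∫ ω, Real.exp (-0 * (min (exitT (ball c r) ω) ((n : ℝ≥0) : ℝ≥0∞)).toReal) *
        (χ (id ω (min (exitT (ball c r) ω) ((n : ℝ≥0) : ℝ≥0∞)).toNNReal) *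
          ‖id ω (min (exitT (ball c r) ω) ((n : ℝ≥0) : ℝ≥0∞)).toNNReal - c‖ ^ 2) ∂(Px W x) ≤
        r ^ 2 := by
      refine (le_abs_self _).trans ?_
      rw [← Real.norm_eq_abs]
      refine (norm_integral_le_of_norm_le_const (C := r ^ 2) (hin.mono fun ω hω => ?_)).trans
        (by simp)
      have := hω _ le_rfl
      simp only [id, neg_zero, zero_mul, Real.exp_zero, one_mul]
      rw [(hone _ this).self_of_nhds, Real.norm_eq_abs, abs_of_nonneg (sq_nonneg _)]
      have := mem_closedBall_iff_norm.1 this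
      gcongr
    have e3 : 0 ≤ ∫ ω, χ (id ω 0) * ‖id ω 0 - c‖ ^ 2 ∂(Px W x) :=
      integral_nonneg fun ω => mul_nonneg χ.nonneg (sq_nonneg _)
    rw [e1, integral_const_mul, integral_toReal ho.measurable.aemeasurable
      (Eventually.of_forall fun ω => (hlt ω).lt_top)] at h1
    rw [ENNReal.le_ofReal_iff_toReal_le hfin (by positivity)]
    linarith
  have : ∀ ω, exitT (ball c r) ω = ⨆ n : ℕ, min (exitT (ball c r) ω) ((n : ℝ≥0) : ℝ≥0∞) := fun ω => by
    rw [← inf_iSup_eq]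
    simp [ENNReal.iSup_natCast]
  rw [lintegral_congr this, lintegral_iSup (fun n => (hopt.min (Opt.const _)).measurable)
    fun a b hab ω => min_le_min le_rfl (ENNReal.coe_le_coe.2 (Nat.cast_le.2 hab))]
  exact iSup_le hn

theorem IsWiener.ae_exitT_lt_top (h : IsWiener W) {U : Set ℂ} (hU : Bornology.IsBounded U) (x : ℂ) :
    ∀ᵐ ω ∂(Px W x), exitT U ω < ∞ := by
  obtain ⟨r, hr⟩ := hU.subset_ball 0
  have := ae_lt_top (measurable_exitT (U := ball 0 r) isOpen_ball)
    (ne_top_of_le_ne_top ENNReal.ofReal_ne_top (h.lintegral_exitT_le 0 x r))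
  exact this.mono fun ω hω => (exitT_mono hr ω).trans_lt hω

end Pool.Agent.Lib.MP_0d9445_pr.BM
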