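import Pool.Agent.Lib.MP_0d9445_pr.Su.Cone
import Pool.Agent.Lib.MP_0d9445_pr.Lay.Final

/-! Planar Brownian motion exists: the circle averages of a whole-plane GFF about the origin, over
small and over large circles, are two independent real Brownian motions. -/

open MeasureTheory ProbabilityTheory Set
open scoped NNReal

noncomputable section

namespace Pool.Agent.Lib.MP_0d9445_pr.BM

open Su.ConeAux

variable {Ω : Type} [MeasurableSpace Ω] {P : Measure Ω} {h : Ω → Field}

theorem ExW_cov (H : IsGFF h P) (s t : ℝ) :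
    cov[fun ω => h ω (s, 0) - h ω 0, fun ω => h ω (t, 0) - h ω 0; P] = kap s t := by
  rw [covariance, H.mean, H.mean, ← gffCov_rad, ← H.cov]
  simp only [sub_zero]

theorem ExW_pre (H : IsGFF h P) {σ : ℝ} (hσ : σ = 1 ∨ σ = -1) :
    IsPreBrownianReal (fun (t : ℝ≥0) ω => h ω (σ * t, 0) - h ω 0) P :=
  (H.gauss.comp_right fun t : ℝ≥0 => (σ * t, 0)).isPreBrownianReal_of_covariance
    (fun _ => H.mean _) fun s t hst =>
      (ExW_cov H _ _).trans ((kap_sign hσ s.2 t.2).trans (min_eq_left hst))

theorem ExW_indep (H : IsGFF h P) :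
    IndepFun (fun ω (t : ℝ≥0) => h ω (1 * t, 0) - h ω 0)
      (fun ω (t : ℝ≥0) => h ω (-1 * t, 0) - h ω 0) P := by
  refine IsGaussianProcess.indepFun_of_covariance_eq_zero ?_
    (fun _ => H.gauss.aemeasurable _) (fun _ => H.gauss.aemeasurable _) fun s t => ?_
  · exact (H.gauss.comp_right (Sum.elim (fun t : ℝ≥0 => ((1 * t : ℝ), (0 : ℂ)))
      fun t : ℝ≥0 => ((-1 * t : ℝ), (0 : ℂ)))).congr fun x => by cases x <;> rfl
  · have hs := s.coe_nonneg
    have ht := t.coe_nonneg
    rw [ExW_cov H, kap, one_mul, neg_one_mul, neg_neg, max_eq_right (neg_nonpos.2 hs),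
      max_eq_left ht, max_eq_right (by linarith), zero_add, sub_self]

theorem ExW_map {φ : Ω → Path} (hφ : Measurable φ) {f : ℂ → ℝ} (hf : Continuous f)
    (hB : IsPreBrownianReal (fun t ω => f (φ ω t)) P) :
    IsBrownianReal (fun t (ω : Path) => f (ω t)) (P.map φ) := by
  refine ⟨⟨fun I => ?_⟩, ae_of_all _ fun ω => hf.comp ω.continuous⟩
  have hm : Measurable fun ω : Path => I.restrict fun t => f (ω t) :=
    measurable_pi_lambda _ fun t => hf.measurable.comp (measurable_evalAt _)
  exact ⟨hm.aemeasurable, (Measure.map_map hm hφ).trans (hB.hasLaw I).map_eq⟩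

/-- planar Brownian motion exists -/
theorem exists_wiener : ∃ W, IsWiener W := by
  obtain ⟨L⟩ := exists_layers
  have H := L.gff
  set h := fun ω => addFn (L.H 0 ω) (L.ginf ω)
  let φ : L.Ω → Path := fun ω => ⟨fun t => ((h ω (1 * t, 0) - h ω 0 : ℝ) : ℂ) +
    ((h ω (-1 * t, 0) - h ω 0 : ℝ) : ℂ) * Complex.I, by fun_prop⟩
  have hm : ∀ p, Measurable fun ω => h ω p - h ω 0 := fun p =>
    ((Mu.measurable_eval p).comp H.meas).sub ((Mu.measurable_eval 0).comp H.meas)
  have hφ : Measurable φ := measurable_path_iff.2 fun t =>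
    (Complex.measurable_ofReal.comp (hm _)).add
      ((Complex.measurable_ofReal.comp (hm _)).mul_const _)
  have e1 : ∀ ω t, (φ ω t).re = h ω (1 * t, 0) - h ω 0 := fun ω t => by simp [φ]
  have e2 : ∀ ω t, (φ ω t).im = h ω (-1 * t, 0) - h ω 0 := fun ω t => by simp [φ]
  refine ⟨L.P.map φ, ExW_map hφ Complex.continuous_re ?_, ExW_map hφ Complex.continuous_im ?_, ?_⟩
  · simpa only [e1] using ExW_pre H (.inl rfl)
  · simpa only [e2] using ExW_pre H (.inr rfl)
  · have m1 : Measurable fun (ω : Path) (t : ℝ≥0) => (ω t).re :=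
      measurable_pi_lambda _ fun t => Complex.measurable_re.comp (measurable_evalAt t)
    have m2 : Measurable fun (ω : Path) (t : ℝ≥0) => (ω t).im :=
      measurable_pi_lambda _ fun t => Complex.measurable_im.comp (measurable_evalAt t)
    have := ExW_indep H
    simp only [← e1, ← e2] at this
    rw [indepFun_iff_measure_inter_preimage_eq_mul] at this ⊢
    intro s t hs ht
    rw [Measure.map_apply hφ (m1 hs), Measure.map_apply hφ (m2 ht),
      Measure.map_apply hφ ((m1 hs).inter (m2 ht))]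
    exact this s t hs ht

end Pool.Agent.Lib.MP_0d9445_pr.BM
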