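import Pool.Agent.Lib.MP_0d9445_pr.BM.ExistA

/-! The Revuz identity from the mean of the functional. -/

open MeasureTheory ProbabilityTheory Set Filter Topology
open scoped NNReal ENNReal

noncomputable section

namespace Pool.Agent.Lib.MP_0d9445_pr.BM.Ex

variable {W : Measure Path} {ν : Measure ℂ} {a : Path → C(ℝ≥0, ℝ)}

namespace RAux

open RevuzAux

theorem near {p : ℝ≥0 → Prop} (h : ∀ᶠ s in 𝓝 0, p s) :
    ∀ᶠ n in atTop, ∀ s ∈ Ioc (0 : ℝ) (msh n), p s.toNNReal := by
  obtain ⟨δ, hδ, hp⟩ := NNReal.nhds_zero_basis.eventually_iff.1 h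
  filter_upwards [tendsto_msh.eventually (gt_mem_nhds hδ)] with n hn s hs
  exact hp ((Real.toNNReal_le_iff_le_coe.2 hs.2).trans_lt hn)

theorem avg_const (n : ℕ) (b : ℝ≥0∞) :
    ((n : ℝ≥0∞) + 1) * ∫⁻ _ in Ioc (0 : ℝ) (msh n), b = b := by
  rw [setLIntegral_const, Real.volume_Ioc, sub_zero, mul_left_comm, succ_mul_msh, mul_one]

theorem avg {φ : ℝ≥0 → ℝ≥0∞} {c : ℝ≥0∞} (h : Tendsto φ (𝓝 0) (𝓝 c)) :
    Tendsto (fun n : ℕ => ((n : ℝ≥0∞) + 1) * ∫⁻ s in Ioc (0 : ℝ) (msh n), φ s.toNNReal) atTop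
      (𝓝 c) := by
  refine tendsto_order.2 ⟨fun b hb => ?_, fun b hb => ?_⟩
  · obtain ⟨d, h1, h2⟩ := exists_between hb
    filter_upwards [near (h.eventually (lt_mem_nhds h2))] with n hn
    refine h1.trans_le ((avg_const n d).ge.trans (mul_le_mul_right ?_ _))
    exact setLIntegral_mono' measurableSet_Ioc fun s hs => (hn s hs).le
  · obtain ⟨d, h1, h2⟩ := exists_between hb
    filter_upwards [near (h.eventually (gt_mem_nhds h1))] with n hn
    refine lt_of_le_of_lt (le_trans (mul_le_mul_right ?_ _) (avg_const n d).le) h2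
    exact setLIntegral_mono' measurableSet_Ioc fun s hs => (hn s hs).le

theorem no_atom (h : CAF W a) (ω : Path) (r : ℝ≥0) : (dm (a ω)).measure {r} = 0 := by
  have hc : Continuous (dm (a ω)) := by
    rw [dm_coe (h.mono ω)]
    exact (a ω).continuous
  rw [StieltjesFunction.measure_singleton, hc.continuousWithinAt.leftLim_eq, sub_self,
    ENNReal.ofReal_zero]

theorem ini_one (h : CAF W a) (r : ℝ≥0) (ω : Path) :
    ini (fun ω => dm (a ω)) (fun _ => 1) r ω = ENNReal.ofReal (a ω r) := by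
  rw [ini, setLIntegral_one, measure_congr (Iio_ae_eq_Iic' (no_atom h ω r)), ClockAux.measure_Iic,
    dm_coe (h.mono ω), h.zero, sub_zero]

theorem measurable_sum {g : ℂ → ℝ≥0∞} (hg : Measurable g) (s : ℝ≥0) :
    Measurable fun p : ℂ × Path => g (p.1 + p.2 s) :=
  hg.comp (measurable_fst.add ((measurable_evalAt s).comp measurable_snd))

theorem mean [IsFiniteMeasure ν] (h : CAF W a) (hW : IsWiener W)
    (hm : ∀ (x : ℂ) (r : ℝ≥0), ∫⁻ ω, ENNReal.ofReal (a ω r) ∂Px W x =
      ∫⁻ s in Ioc (0 : ℝ) r, ∫⁻ y, ENNReal.ofReal (heat s (y - x)) ∂ν)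
    {g : ℂ → ℝ≥0∞} (hg : Measurable g) (r : ℝ≥0) :
    ∫⁻ ω, g (ω 0) * ini (fun ω => dm (a ω)) (fun _ => 1) r ω ∂Pm W =
      ∫⁻ s in Ioc (0 : ℝ) r, ∫⁻ p, g (p.1 + p.2 s.toNNReal) ∂ν.prod W := by
  have := hW.prob
  have ha : Measurable fun ω => ENNReal.ofReal (a ω r) := (h.meas r).ennreal_ofReal
  have hk : Measurable fun q : (ℂ × ℝ) × ℂ =>
      g q.1.1 * ENNReal.ofReal (heat q.1.2 (q.2 - q.1.1)) :=
    (hg.comp measurable_fst.fst).mul (measurable_heat.comp
      (measurable_fst.snd.prodMk (measurable_snd.sub measurable_fst.fst))).ennreal_ofReal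
  simp only [ini_one h]
  calc _ = ∫⁻ x, ∫⁻ ω, g (ω 0) * ENNReal.ofReal (a ω r) ∂Px W x :=
        lintegral_Pm hW ((hg.comp (measurable_evalAt 0)).mul ha)
    _ = ∫⁻ x, ∫⁻ s in Ioc (0 : ℝ) r, ∫⁻ y, g x * ENNReal.ofReal (heat s (y - x)) ∂ν := by
        refine lintegral_congr fun x => ?_
        have hx : Measurable fun q : ℝ × ℂ => ENNReal.ofReal (heat q.1 (q.2 - x)) :=
          (measurable_heat.comp
            (measurable_fst.prodMk (measurable_snd.sub_const x))).ennreal_ofReal
        simp only [lintegral_const_mul _ (measurable_dens _ x)]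
        rw [lintegral_const_mul _ hx.lintegral_prod_right', ← hm, ← lintegral_const_mul _ ha]
        refine lintegral_congr_ae ?_
        filter_upwards [hW.ae_Px_zero x] with ω hω
        rw [hω]
    _ = ∫⁻ s in Ioc (0 : ℝ) r, ∫⁻ x, ∫⁻ y, g x * ENNReal.ofReal (heat s (y - x)) ∂ν :=
        lintegral_lintegral_swap hk.lintegral_prod_right'.aemeasurable
    _ = _ := by
        refine setLIntegral_congr_fun measurableSet_Ioc fun s hs => ?_
        have hs' : s.toNNReal ≠ 0 := (Real.toNNReal_pos.2 hs.1).ne'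
        have hk' : Measurable fun q : ℂ × ℂ => g q.1 * ENNReal.ofReal (heat s (q.2 - q.1)) :=
          hk.comp ((measurable_fst.prodMk measurable_const).prodMk measurable_snd)
        rw [lintegral_lintegral_swap hk'.aemeasurable,
          lintegral_prod _ (measurable_sum hg _).aemeasurable]
        refine lintegral_congr fun y => ?_
        refine Eq.trans ?_ (lintegral_Px W y (hg.comp (measurable_evalAt s.toNNReal)))
        refine Eq.trans ?_ (hW.lintegral_Px_eval hs' y hg).symm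
        refine lintegral_congr fun x => ?_
        rw [mul_comm, Real.coe_toNNReal s hs.1.le, heat, heat, norm_sub_rev]

theorem tendsto_zero [IsFiniteMeasure ν] (hW : IsWiener W) {g : ℂ → ℝ≥0∞} (hg : Continuous g)
    {C : ℝ≥0∞} (hC : C ≠ ∞) (hgC : ∀ y, g y ≤ C) :
    Tendsto (fun s : ℝ≥0 => ∫⁻ p, g (p.1 + p.2 s) ∂ν.prod W) (𝓝 0) (𝓝 (∫⁻ y, g y ∂ν)) := by
  have := hW.prob
  have e : ∫⁻ y, g y ∂ν = ∫⁻ p, g (p.1 + p.2 0) ∂ν.prod W := by
    rw [lintegral_prod _ (measurable_sum hg.measurable _).aemeasurable]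
    refine lintegral_congr fun y => ?_
    have h1 : (fun w : Path => g (y + w 0)) =ᵐ[W] fun _ => g y := by
      filter_upwards [hW.ae_zero] with w hw
      rw [hw, add_zero]
    simp only
    rw [lintegral_congr_ae h1, lintegral_const, measure_univ, mul_one]
  rw [e]
  refine tendsto_lintegral_filter_of_dominated_convergence (fun _ => C)
    (Eventually.of_forall fun s => measurable_sum hg.measurable s)
    (Eventually.of_forall fun s => Eventually.of_forall fun p => hgC _)
    (by rw [lintegral_const]; exact ENNReal.mul_ne_top hC (measure_ne_top _ _))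
    (Eventually.of_forall fun p => ?_)
  exact (hg.comp (continuous_const.add p.2.continuous)).tendsto 0

end RAux

open RevuzAux RAux in
theorem CAF.rev_of_mean [IsFiniteMeasure ν] (h : CAF W a) (hW : IsWiener W)
    (hm : ∀ (x : ℂ) (r : ℝ≥0), ∫⁻ ω, ENNReal.ofReal (a ω r) ∂Px W x =
      ∫⁻ s in Ioc (0 : ℝ) r, ∫⁻ y, ENNReal.ofReal (heat s (y - x)) ∂ν) : Rev W ν a := by
  obtain ⟨L, hLm, hL, ha⟩ := h.dm_add
  have lim : ∀ g : ℂ → ℝ≥0∞, Continuous g → ∀ C, C ≠ ∞ → (∀ y, g y ≤ C) →
      Tendsto (fun n => ∫⁻ p, g (p.1 (lo n p.2)) ∂Qm W fun ω => dm (a ω)) atTop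
        (𝓝 (∫⁻ y, g y ∂ν)) := fun g hg C hC hgC => by
    refine (RAux.avg (RAux.tendsto_zero hW hg hC hgC)).congr fun n => ?_
    rw [← RAux.mean h hW hm hg.measurable, grid_Qm hW h.dm_meas (ae_Pm hW hLm hL)
      (fun ω hω => (ha ω hω).2) measurable_const hg.measurable]
    simp only [mul_one]
  have hfin : IsFiniteMeasure (Qm W fun ω => dm (a ω)) := by
    have h1 := lim (fun _ => 1) continuous_const 1 ENNReal.one_ne_top fun _ => le_rfl
    simp only [lintegral_one] at h1
    exact ⟨(tendsto_nhds_unique tendsto_const_nhds h1).trans_lt (measure_lt_top _ _)⟩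
  have hev : Measurable fun p : Path × ℝ≥0 => p.1 p.2 := measurable_fst.path_ev measurable_snd
  have hρ : (Qm W fun ω => dm (a ω)).map (fun p => p.1 p.2) = ν := by
    refine ext_of_forall_lintegral_eq_of_IsFiniteMeasure fun g => ?_
    have hg : Continuous fun y => (g y : ℝ≥0∞) := ENNReal.continuous_coe.comp g.continuous
    have hb : ∀ y, (g y : ℝ≥0∞) ≤ nndist g 0 := fun y =>
      ENNReal.coe_le_coe.2 (BoundedContinuousFunction.NNReal.upper_bound g y)
    rw [lintegral_map hg.measurable hev]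
    refine tendsto_nhds_unique ?_ (lim _ hg _ ENNReal.coe_ne_top hb)
    refine tendsto_lintegral_of_dominated_convergence (fun _ => nndist g 0)
      (fun n => hg.measurable.comp
        (measurable_fst.path_ev ((measurable_lo n).comp measurable_snd)))
      (fun n => Eventually.of_forall fun p => hb _)
      (by rw [lintegral_const]; exact ENNReal.mul_ne_top ENNReal.coe_ne_top (measure_ne_top _ _))
      (Eventually.of_forall fun p => ?_)
    exact ((hg.comp p.1.continuous).tendsto p.2).comp (tendsto_lo p.2)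
  intro f hf
  rw [← hρ, lintegral_map hf hev, lintegral_Qm h.dm_meas (measurable_fev hf),
    ← lintegral_Pm hW (measurable_setInt h.dm_meas (measurable_fev hf) measurableSet_Iic)]
  exact lintegral_congr fun ω => (setLIntegral_congr (Iio_ae_eq_Iic' (no_atom h ω 1))).symm

end Pool.Agent.Lib.MP_0d9445_pr.BM.Ex
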