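import Pool.Agent.Lib.MP_0d9445_pr.BM.ExistA

/-! The sum of the functionals of the annular pieces of a measure. -/

open MeasureTheory ProbabilityTheory Set Filter Topology
open scoped NNReal ENNReal

noncomputable section

namespace Pool.Agent.Lib.MP_0d9445_pr.BM.Ex

variable {W : Measure Path} {μ : Measure ℂ}

namespace SAux

theorem caf_sum {a : ℕ → Path → C(ℝ≥0, ℝ)} (h : ∀ n, CAF W (a n)) (k : ℕ) :
    CAF W fun ω => ∑ n ∈ Finset.range k, a n ω := by
  choose L hL hL' hadd using fun n => (h n).additive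
  refine ⟨fun t => ?_, fun ω s t hst => ?_, fun ω => ?_, fun x t => ?_, ⋂ n, L n,
    MeasurableSet.iInter hL, fun x => ?_, fun ω hω s t => ?_⟩
  · simp only [ContinuousMap.sum_apply]
    exact Finset.measurable_sum _ fun n _ => (h n).meas t
  · simp only [ContinuousMap.sum_apply]
    exact Finset.sum_le_sum fun n _ => (h n).mono ω hst
  · simp only [ContinuousMap.sum_apply, (h _).zero, Finset.sum_const_zero]
  · simp only [ContinuousMap.sum_apply]
    induction k with
    | zero => simpa using aestronglyMeasurable_const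
    | succ k ih =>
      simp only [Finset.sum_range_succ]
      exact ih.add ((h k).adapted x t)
  · filter_upwards [ae_all_iff.2 fun n => hL' n x] with ω hω using mem_iInter.2 hω
  · simp only [ContinuousMap.sum_apply, ← Finset.sum_add_distrib]
    exact Finset.sum_congr rfl fun n _ => hadd n ω (mem_iInter.1 hω n) s t

theorem locality {a : Path → C(ℝ≥0, ℝ)} {S : Set ℂ} (hW : IsWiener W) (hS : MeasurableSet S)
    (hfin : μ S ≠ ∞) (h : CAF W a) (hR : Rev W (μ.restrict S) a) (x : ℂ) :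
    ∀ᵐ ω ∂Px W x, (dm (a ω)).measure {t | ω t ∉ S} = 0 := by
  have : IsFiniteMeasure (μ.restrict S) := isFiniteMeasure_restrict.2 hfin
  have hf : Measurable (Sᶜ.indicator (1 : ℂ → ℝ≥0∞)) := measurable_one.indicator hS.compl
  have h1 := (h.isPCAF hW hR).revuz x _ hf
  have h2 : ∫⁻ y, res x y * Sᶜ.indicator (1 : ℂ → ℝ≥0∞) y ∂μ.restrict S = 0 := by
    rw [setLIntegral_congr_fun hS (g := fun _ => 0) fun y hy => by
      simp only [indicator_of_notMem (notMem_compl_iff.2 hy), mul_zero], lintegral_zero]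
  have hF : Measurable fun p : Path × ℝ≥0 => ENNReal.ofReal (Real.exp (-(p.2 : ℝ))) *
      Sᶜ.indicator (1 : ℂ → ℝ≥0∞) (p.1 p.2) :=
    (measurable_snd.coe_nnreal_real.neg.exp.ennreal_ofReal).mul (RevuzAux.measurable_fev hf)
  rw [h2, lintegral_eq_zero_iff (measurable_lintegral_stieltjes h.dm_meas hF)] at h1
  filter_upwards [h1] with ω hω
  have h3 := (lintegral_eq_zero_iff (hF.comp measurable_prodMk_left)).1 hω
  refine measure_mono_null ?_ (ae_iff.1 h3)
  intro t ht h4
  have h5 : ω t ∈ Sᶜ := ht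
  simp [indicator_of_mem h5, (Real.exp_pos _).not_ge] at h4

theorem vanish {F : C(ℝ≥0, ℝ)} (hm : Monotone F) (h0 : F 0 = 0) {B : Set ℝ≥0}
    (hB : (dm F).measure B = 0) {t : ℝ≥0} (ht : Iic t ⊆ B) : F t = 0 := by
  have h1 := measure_mono_null ht hB
  rw [ClockAux.measure_Iic, dm_coe hm, h0, sub_zero, ENNReal.ofReal_eq_zero] at h1
  exact le_antisymm h1 (h0 ▸ hm zero_le)

theorem cauchy {G : ℕ → C(ℝ≥0, ℝ)} (h : ∀ T, ∃ N, ∀ n ≥ N, ∀ t ≤ T, G n t = 0) :
    CauchySeq fun k => ∑ n ∈ Finset.range k, G n := by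
  refine ContinuousMap.hasBasis_compactConvergenceUniformity.cauchySeq_iff.2 fun p hp => ?_
  obtain ⟨T, hT⟩ := hp.1.bddAbove
  obtain ⟨N, hN⟩ := h T
  have e : ∀ k ≥ N, ∀ t ∈ p.1, (∑ n ∈ Finset.range k, G n) t = (∑ n ∈ Finset.range N, G n) t :=
    fun k hk t ht => by
      simp only [ContinuousMap.sum_apply]
      exact (Finset.sum_subset (Finset.range_subset_range.2 hk) fun n _ hn =>
        hN n (by simpa using hn) t (hT ht)).symm
  refine ⟨N, fun m hm n hn t ht => ?_⟩
  simp only [e m hm t ht, e n hn t ht]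
  exact refl_mem_uniformity hp.2

theorem measure_sum {G : ℕ → C(ℝ≥0, ℝ)} {F : C(ℝ≥0, ℝ)} (hG : ∀ n, Monotone (G n))
    (hF : Monotone F) (h : Tendsto (fun k => ∑ n ∈ Finset.range k, G n) atTop (𝓝 F)) :
    (dm F).measure = Measure.sum fun n => (dm (G n)).measure := by
  have hI : ∀ {H : C(ℝ≥0, ℝ)}, Monotone H → ∀ l u,
      (dm H).measure (Ico l u) = ENNReal.ofReal (H u - H l) := fun {H} hH l u => by
    rw [StieltjesFunction.measure_Ico, dm_coe hH, H.continuous.continuousWithinAt.leftLim_eq,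
      H.continuous.continuousWithinAt.leftLim_eq]
  have ht : ∀ t, Tendsto (fun k => ∑ n ∈ Finset.range k, G n t) atTop (𝓝 (F t)) := fun t => by
    simpa only [Function.comp_def, ContinuousMap.sum_apply] using
      ((continuous_eval_const t).tendsto _).comp h
  refine Measure.ext_of_Ico _ _ fun l u hlu => ?_
  have h0 : ∀ n, 0 ≤ G n u - G n l := fun n => sub_nonneg.2 (hG n hlu.le)
  have h1 : HasSum (fun n => G n u - G n l) (F u - F l) :=
    (hasSum_iff_tendsto_nat_of_nonneg h0 _).2 (by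
      simpa only [Finset.sum_sub_distrib] using (ht u).sub (ht l))
  rw [Measure.sum_apply _ measurableSet_Ico, hI hF, ← h1.tsum_eq,
    ENNReal.ofReal_tsum_of_nonneg h0 h1.summable]
  exact tsum_congr fun n => (hI (hG n) l u).symm

end SAux

open SAux in
theorem exists_of_pieces (hW : IsWiener W) (hfin : ∀ n : ℕ, μ {y | ⌊‖y‖⌋₊ = n} ≠ ∞)
    (hμ : ∀ n : ℕ, ∃ a, CAF W a ∧ Rev W (μ.restrict {y | ⌊‖y‖⌋₊ = n}) a) :
    ∃ a, CAF W a ∧ Rev W μ a := by
  choose a h hR using hμ
  have hS : ∀ n : ℕ, MeasurableSet {y : ℂ | ⌊‖y‖⌋₊ = n} := fun n =>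
    (Nat.measurable_floor.comp measurable_norm) (measurableSet_singleton n)
  obtain ⟨A, hA, hlim⟩ := CAF.limit (caf_sum h) fun x => by
    filter_upwards [ae_all_iff.2 fun n => locality hW (hS n) (hfin n) (h n) (hR n) x] with ω hω
    refine cauchy fun T => ?_
    obtain ⟨C, hC⟩ := (isCompact_Icc (a := 0) (b := T)).exists_bound_of_continuousOn
      ω.continuous.continuousOn
    refine ⟨⌊C⌋₊ + 1, fun n hn t ht => vanish ((h n).mono ω) ((h n).zero ω) (hω n)
      fun s hs (h1 : ⌊‖ω s‖⌋₊ = n) => ?_⟩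
    have := Nat.floor_le_floor (hC s ⟨zero_le, le_trans hs ht⟩)
    omega
  refine ⟨A, hA, fun f hf => ?_⟩
  have hm : ∀ n, Measurable fun ω : Path => ∫⁻ t in Iic 1, f (ω t) ∂(dm (a n ω)).measure :=
    fun n => RevuzAux.measurable_setInt (h n).dm_meas (RevuzAux.measurable_fev hf)
      measurableSet_Iic
  have h1 : ∀ x, ∫⁻ ω, ∫⁻ t in Iic 1, f (ω t) ∂(dm (A ω)).measure ∂Px W x =
      ∑' n, ∫⁻ ω, ∫⁻ t in Iic 1, f (ω t) ∂(dm (a n ω)).measure ∂Px W x := fun x => by
    rw [← lintegral_tsum fun n => (hm n).aemeasurable]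
    refine lintegral_congr_ae ?_
    filter_upwards [hlim x] with ω hω
    rw [measure_sum (fun n => (h n).mono ω) (hA.mono ω) hω,
      Measure.restrict_sum _ measurableSet_Iic, lintegral_sum_measure]
  have hu : ⋃ n : ℕ, {y : ℂ | ⌊‖y‖⌋₊ = n} = univ := iUnion_eq_univ_iff.2 fun y => ⟨_, rfl⟩
  simp only [h1]
  rw [lintegral_tsum fun n => (RevuzAux.measurable_lintegral_Px hW (hm n)).aemeasurable,
    tsum_congr fun n => hR n f hf, ← lintegral_iUnion hS fun i j hij =>
      disjoint_left.2 fun y (h1 : _ = i) (h2 : _ = j) => hij (h1.symm.trans h2),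
    hu, Measure.restrict_univ]

end Pool.Agent.Lib.MP_0d9445_pr.BM.Ex
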