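import Pool.Agent.Lib.MP_0d9445_pr.BM.ExistC
import Pool.Agent.Lib.MP_0d9445_pr.BM.ExistR
import Pool.Agent.Lib.MP_0d9445_pr.BM.ExistS
import Pool.Agent.Lib.MP_0d9445_pr.Walk.Hyp

/-! Existence of the additive functional of a measure with a power bound on discs. -/

open MeasureTheory ProbabilityTheory Set Filter Topology
open scoped NNReal ENNReal

noncomputable section

namespace Pool.Agent.Lib.MP_0d9445_pr.BM.Ex

open RevuzAux (msh lo)

variable {W : Measure Path} {ν : Measure ℂ} {C α : ℝ}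

theorem heat_symm (t : ℝ) (x y : ℂ) : heat t (x - y) = heat t (y - x) := by
  simp only [heat, norm_sub_rev]

theorem ofReal_heat [IsFiniteMeasure ν] {t : ℝ} (ht : 0 < t) (x : ℂ) :
    ENNReal.ofReal (∫ y, heat t (y - x) ∂ν) = ∫⁻ y, ENNReal.ofReal (heat t (y - x)) ∂ν :=
  ofReal_integral_eq_lintegral_ofReal (integrable_heat ht x)
    (.of_forall fun _ => (heat_pos ht _).le)

/-- the semigroup property -/
theorem heat_conv (hW : IsWiener W) (x : ℂ) (s : ℝ≥0) {ε : ℝ} (hε : 0 < ε) (y : ℂ) :
    ∫⁻ ω, ENNReal.ofReal (heat ε (y - ω s)) ∂Px W x = ENNReal.ofReal (heat (s + ε) (y - x)) := by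
  lift ε to ℝ≥0 using hε.le
  have hε' : ε ≠ 0 := (NNReal.coe_pos.1 hε).ne'
  have := hW.prob_Px x
  have := Measure.isProbabilityMeasure_map (μ := Px W x) (measurable_evalAt s).aemeasurable
  have e : ∀ y, ∫⁻ ω, ENNReal.ofReal (heat ε (y - ω s)) ∂Px W x =
      ENNReal.ofReal (∫ w, heat ε (w - y) ∂(Px W x).map fun ω => ω s) := fun y => by
    rw [ofReal_heat hε, lintegral_map (HeatAux.measurable_dens _ y) (measurable_evalAt s)]
    simp only [heat_symm ε y]
  have hc : Continuous fun y => ∫⁻ ω, ENNReal.ofReal (heat ε (y - ω s)) ∂Px W x := by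
    simp only [e]
    exact ENNReal.continuous_ofReal.comp (continuous_heat_integral hε)
  refine congrFun ((hc.ae_eq_iff_eq volume (RevuzAux.continuous_dens _ x)).1
    (ae_eq_of_forall_setLIntegral_eq_of_sigmaFinite hc.measurable (HeatAux.measurable_dens _ x)
      fun S hS _ => ?_)) y
  have hf : Measurable (S.indicator (1 : ℂ → ℝ≥0∞)) := measurable_one.indicator hS
  have h1 := RevuzAux.markov hW x s (hf.comp (measurable_evalAt ε))
  have h2 := hW.lintegral_Px_eval (t := s + ε) (by positivity) x hf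
  simp only [Function.comp_apply, hW.lintegral_Px_eval hε' _ hf] at h1
  have h3 : ∀ F : ℂ → ℝ≥0∞, ∫⁻ y, F y * S.indicator 1 y = ∫⁻ y in S, F y := fun F => by
    rw [← lintegral_indicator hS]
    exact lintegral_congr fun y => by by_cases hy : y ∈ S <;> simp [hy]
  simp only [h3] at h1 h2
  rw [lintegral_lintegral_swap (Measurable.aemeasurable ((measurable_heat.comp
    (measurable_const.prodMk (measurable_fst.sub ((measurable_evalAt s).comp
      measurable_snd)))).ennreal_ofReal)), ← h1]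
  exact h2

theorem exists_finite (hW : IsWiener W) (h : Pow ν C α) : ∃ a, CAF W a ∧ Rev W ν a := by
  have := h.fin
  have := hW.prob_Px
  let G : ℝ → ℂ → ℝ := fun t x => ∫ y, heat t (y - x) ∂ν
  have G0 : ∀ t, 0 < t → ∀ x, 0 ≤ G t x := fun t ht x => integral_nonneg fun _ => (heat_pos ht _).le
  have Gm : ∀ x, Measurable fun t => G t x := fun x => ((measurable_heat.comp (measurable_fst.prodMk
    (measurable_snd.sub_const x))).stronglyMeasurable.integral_prod_right').measurable
  let β : ℝ → ℝ := fun t => C * t ^ (α / 4 - 1) + ν.real univ * t ^ ((1 / 2 : ℝ) - 1)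
  have hβ : ∀ a b, IntervalIntegrable β volume a b := fun a b =>
    ((intervalIntegral.intervalIntegrable_rpow' (by linarith [h.pos])).const_mul C).add
      ((intervalIntegral.intervalIntegrable_rpow' (by norm_num)).const_mul _)
  have Gβ : ∀ t, 0 < t → ∀ x, G t x ≤ β t := fun t ht x => h.heat_bound ht x
  have CK : ∀ t, 0 < t → ∀ x (s : ℝ≥0), ∫ ω : Path, G t (ω s) ∂Px W x = G (s + t) x :=
    fun t ht x s => by
      rw [integral_eq_lintegral_of_nonneg_ae (.of_forall fun _ => G0 t ht _)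
        ((continuous_heat_integral ht).measurable.comp (measurable_evalAt s)).aestronglyMeasurable,
        ← ENNReal.toReal_ofReal (G0 (s + t) (by positivity) x), ofReal_heat (by positivity)]
      simp only [G, ofReal_heat ht, ← heat_conv hW x s ht]
      rw [lintegral_lintegral_swap (Measurable.aemeasurable ((measurable_heat.comp
        (measurable_const.prodMk (measurable_snd.sub ((measurable_evalAt s).comp
          measurable_fst)))).ennreal_ofReal))]
  have Gs : ∀ a, 0 ≤ a → ∀ t, 0 < t → ∀ x, G (a + t) x ≤ β t := fun a ha t ht x => by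
    lift a to ℝ≥0 using ha
    rw [← CK t ht x a]
    simpa using (le_abs_self _).trans (norm_integral_le_of_norm_le_const (μ := Px W x) (C := β t)
      (f := fun ω : Path => G t (ω a)) (.of_forall fun ω =>
        (Real.norm_of_nonneg (G0 t ht _)).le.trans (Gβ t ht _)))
  have Gi0 : ∀ x b, 0 ≤ b → IntervalIntegrable (G · x) volume 0 b := fun x b hb =>
    (hβ 0 b).mono_fun' (Gm x).aestronglyMeasurable ((ae_restrict_mem measurableSet_uIoc).mono
      fun t ht => by
        rw [uIoc_of_le hb] at ht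
        exact (Real.norm_of_nonneg (G0 t ht.1 x)).le.trans (Gβ t ht.1 x))
  let H : ℂ → ℝ → ℝ := fun x r => ∫ s in (0 : ℝ)..r, G s x
  let η : ℝ → ℝ := fun r => ∫ s in (0 : ℝ)..r, β s
  have Hs : ∀ x a δ, 0 ≤ a → 0 ≤ δ → H x (a + δ) - H x a = ∫ s in (0 : ℝ)..δ, G (a + s) x :=
    fun x a δ ha hδ => by
      rw [intervalIntegral.integral_comp_add_left (G · x), add_zero]
      exact intervalIntegral.integral_interval_sub_left (Gi0 x _ (by positivity)) (Gi0 x _ ha)
  have Hb : ∀ x a δ, 0 ≤ a → 0 ≤ δ → |H x (a + δ) - H x a| ≤ η δ := fun x a δ ha hδ => by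
    rw [Hs x a δ ha hδ]
    exact intervalIntegral.norm_integral_le_of_norm_le (f := fun s => G (a + s) x) hδ
      (.of_forall fun t ht => (Real.norm_of_nonneg (G0 _ (by linarith [ht.1]) x)).le.trans
        (Gs a ha t ht.1 x)) (hβ _ _)
  have ηc : Tendsto (fun m => η (msh m)) atTop (𝓝 0) := by
    have := ((intervalIntegral.continuous_primitive hβ 0).tendsto _).comp
      (NNReal.tendsto_coe.2 RevuzAux.tendsto_msh)
    rwa [NNReal.coe_zero, intervalIntegral.integral_same] at this
  have ηm : Monotone fun r : ℝ≥0 => η r := fun a b hab => by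
    have := intervalIntegral.integral_interval_sub_left (hβ 0 b) (hβ 0 a)
    refine sub_nonneg.1 (this ▸ intervalIntegral.integral_nonneg hab fun t ht => ?_)
    have := a.coe_nonneg.trans ht.1
    have := h.nn
    positivity
  obtain ⟨φ, hφ, hφ'⟩ := extraction_forall_of_eventually (P := fun k n => η (msh n) ≤ 4⁻¹ ^ k / 4)
    fun k => ηc.eventually_le_const (by positivity)
  have hε : ∀ k, (0 : ℝ) < msh (φ k) := fun k => RevuzAux.msh_pos _
  let g : ℕ → C(ℂ, ℝ) := fun k => ⟨G (msh (φ k)), continuous_heat_integral (hε k)⟩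
  have hM : ∀ k z, |g k z| ≤ β (msh (φ k)) := fun k z =>
    (abs_of_nonneg (G0 _ (hε k) z)).le.trans (Gβ _ (hε k) z)
  have hU : ∀ k y (r : ℝ≥0), ∫ ω, occ (g k) ω r ∂Px W y = H y (msh (φ k) + r) - H y (msh (φ k)) :=
    fun k y r => by
      rw [mean_occ (hM k), Hs y _ _ (hε k).le r.coe_nonneg]
      refine intervalIntegral.integral_congr fun s hs => ?_
      rw [uIcc_of_le r.coe_nonneg] at hs
      refine (CK _ (hε k) y _).trans ?_
      rw [Real.coe_toNNReal _ hs.1, add_comm]
  have hU' : ∀ k y (r : ℝ≥0), |∫ ω, occ (g k) ω r ∂Px W y - H y r| ≤ 4⁻¹ ^ k / 2 := fun k y r => by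
    have h1 := abs_le.1 (Hb y r _ r.coe_nonneg (hε k).le)
    have h2 := abs_le.1 (Hb y 0 _ le_rfl (hε k).le)
    have h3 : H y 0 = 0 := intervalIntegral.integral_same
    rw [zero_add, h3] at h2
    rw [hU, add_comm]
    exact abs_le.2 ⟨by linarith [hφ' k], by linarith [hφ' k]⟩
  obtain ⟨a, ha, hl⟩ := exists_caf hW (g := g) (fun k z => G0 _ (hε k) z) hM ηm ηc
    (fun k y r => (hU k y r).trans_le ((le_abs_self _).trans (Hb y _ _ (hε k).le r.coe_nonneg)))
    fun k y r => by
      have h1 := abs_le.1 (hU' k y r)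
      have h2 := abs_le.1 (hU' (k + 1) y r)
      have h3 : (0 : ℝ) < 4⁻¹ ^ k := by positivity
      rw [pow_succ] at h2
      exact abs_le.2 ⟨by linarith, by linarith⟩
  refine ⟨a, ha, ha.rev_of_mean hW fun x r => ?_⟩
  have h1 : Tendsto (fun k => ∫ ω, occ (g k) ω r ∂Px W x) atTop (𝓝 (H x r)) := by
    refine tendsto_iff_norm_sub_tendsto_zero.2 (squeeze_zero (fun _ => norm_nonneg _)
      (fun k => hU' k x r) ?_)
    simpa using (tendsto_pow_atTop_nhds_zero_of_lt_one (r := (4⁻¹ : ℝ)) (by norm_num)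
      (by norm_num)).div_const 2
  rw [tendsto_nhds_unique (hl x r) (ENNReal.tendsto_ofReal h1)]
  simp only [H]
  rw [intervalIntegral.integral_of_le r.coe_nonneg, ofReal_integral_eq_lintegral_ofReal
    (Gi0 x r r.coe_nonneg).1 ((ae_restrict_mem measurableSet_Ioc).mono fun t ht => G0 t ht.1 x)]
  exact setLIntegral_congr_fun measurableSet_Ioc fun t ht => ofReal_heat ht.1 x

end Ex

open Ex in
/-- existence of the clock -/
theorem exists_PCAF {W : Measure Path} (hW : IsWiener W) {μ : Measure ℂ}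
    (hF : ∀ K, IsCompact K → Walk.Frost μ K) : ∃ A, PCAF W μ A := by
  have hS : ∀ n : ℕ, {y : ℂ | ⌊‖y‖⌋₊ = n} ⊆ Metric.closedBall 0 (n + 1) := fun n y hy => by
    rw [mem_closedBall_zero_iff, ← show ⌊‖y‖⌋₊ = n from hy]
    exact (Nat.lt_floor_add_one _).le
  obtain ⟨a, h1, h2⟩ := exists_of_pieces (μ := μ) hW (fun n => ((measure_mono (hS n)).trans_lt
    (hF _ (isCompact_closedBall _ _)).1).ne) fun n => by
      obtain ⟨h1, C, α, r₀, h2, h3, h4⟩ := hF _ (isCompact_closedBall 0 ((n : ℝ) + 1))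
      obtain ⟨C', h⟩ := exists_pow Metric.isClosed_closedBall.measurableSet h1.ne h2 h3 h4
        (f := {y : ℂ | ⌊‖y‖⌋₊ = n}.indicator 1) (M := 1)
        (fun z => indicator_le_self' (fun _ _ => zero_le) z)
        fun z hz => indicator_of_notMem (fun hh => hz (hS n hh)) _
      rw [withDensity_indicator_one (s := {y : ℂ | ⌊‖y‖⌋₊ = n}) (measurableSet_eq_fun
        (Nat.measurable_floor.comp measurable_norm) measurable_const)] at h
      exact exists_finite hW h
  exact ⟨_, h1.pcaf h2⟩

end Pool.Agent.Lib.MP_0d9445_pr.BM
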