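import Pool.Agent.Lib.MP_0d9445_pr.BM.Clock
import Pool.Agent.Lib.MP_0d9445_pr.BM.Heat
import Pool.Agent.Lib.MP_0d9445_pr.BM.Weak

/-!
The 1-potential of a finite measure with a power bound on discs.
-/

open MeasureTheory ProbabilityTheory Set Filter Topology Metric
open scoped NNReal ENNReal Laplacian

noncomputable section

namespace Pool.Agent.Lib.MP_0d9445_pr.BM

/-- the 1-potential of a measure -/
def potE (ν : Measure ℂ) (x : ℂ) : ℝ≥0∞ := ∫⁻ y, res x y ∂ν

/-- the 1-potential as a real number -/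
def pot (ν : Measure ℂ) (x : ℂ) : ℝ := (potE ν x).toReal

/-- a finite measure with a power bound on all discs -/
structure Pow (ν : Measure ℂ) (C α : ℝ) : Prop where
  fin : IsFiniteMeasure ν
  nn : 0 ≤ C
  pos : 0 < α
  le : ∀ x r, 0 < r → ν (ball x r) ≤ ENNReal.ofReal (C * r ^ α)

variable {W : Measure Path} {ν : Measure ℂ} {C α : ℝ}

theorem measurable_resK : Measurable fun p : (ℂ × ℂ) × ℝ =>
    ENNReal.ofReal (Real.exp (-p.2) * heat p.2 (p.1.2 - p.1.1)) := by
  unfold heat
  fun_prop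

theorem measurable_res_pair : Measurable fun p : ℂ × ℂ => res p.1 p.2 :=
  measurable_resK.lintegral_prod_right' (ν := volume.restrict (Ioi (0 : ℝ)))

theorem measurable_res_right (x : ℂ) : Measurable (res x) :=
  measurable_res_pair.of_uncurry_left

theorem res_symm (x y : ℂ) : res x y = res y x := by
  simp only [res, heat, norm_sub_rev]

theorem measurable_potE [SFinite ν] : Measurable (potE ν) :=
  measurable_res_pair.lintegral_prod_right' (ν := ν)

theorem heat_le {t : ℝ} (ht : 0 < t) (z : ℂ) : heat t z ≤ t⁻¹ := by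
  have hπ := Real.pi_gt_three
  have h1 : Real.exp (-‖z‖ ^ 2 / (2 * t)) ≤ 1 :=
    Real.exp_le_one_iff.mpr (div_nonpos_of_nonpos_of_nonneg (by simp) (by positivity))
  have h2 : (2 * Real.pi * t)⁻¹ ≤ t⁻¹ := inv_anti₀ ht (by nlinarith)
  calc heat t z ≤ (2 * Real.pi * t)⁻¹ * 1 := by unfold heat; gcongr
    _ ≤ t⁻¹ := by simpa using h2

theorem heat_le_far {t : ℝ} (ht : 0 < t) {z : ℂ} (hz : t ^ (1 / 4 : ℝ) ≤ ‖z‖) :
    heat t z ≤ t ^ (-(1 / 2) : ℝ) := by
  have hπ := Real.pi_gt_three
  have h4 : 0 < t ^ (1 / 4 : ℝ) := Real.rpow_pos_of_pos ht _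
  have hz0 : 0 < ‖z‖ := h4.trans_le hz
  have h0 : t ^ (1 / 2 : ℝ) ≤ ‖z‖ ^ 2 := by
    have : t ^ (1 / 2 : ℝ) = (t ^ (1 / 4 : ℝ)) ^ 2 := by
      rw [← Real.rpow_natCast, ← Real.rpow_mul ht.le]; norm_num
    rw [this]
    gcongr
  have hs : 0 < ‖z‖ ^ 2 / (2 * t) := by positivity
  have h1 : Real.exp (-‖z‖ ^ 2 / (2 * t)) ≤ (‖z‖ ^ 2 / (2 * t))⁻¹ := by
    rw [neg_div, Real.exp_neg]
    exact inv_anti₀ hs (by linarith [Real.add_one_le_exp (‖z‖ ^ 2 / (2 * t))])
  have h2 : 0 < t ^ (1 / 2 : ℝ) := Real.rpow_pos_of_pos ht _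
  calc heat t z ≤ (2 * Real.pi * t)⁻¹ * (‖z‖ ^ 2 / (2 * t))⁻¹ := by unfold heat; gcongr
    _ = (Real.pi * ‖z‖ ^ 2)⁻¹ := by field_simp
    _ ≤ (t ^ (1 / 2 : ℝ))⁻¹ := inv_anti₀ h2 (by nlinarith)
    _ = t ^ (-(1 / 2) : ℝ) := (Real.rpow_neg ht.le _).symm

theorem integrable_heat [IsFiniteMeasure ν] {t : ℝ} (ht : 0 < t) (x : ℂ) :
    Integrable (fun y => heat t (y - x)) ν := by
  refine Integrable.of_bound (C := t⁻¹) (by unfold heat; fun_prop) (Eventually.of_forall fun y => ?_)
  rw [Real.norm_of_nonneg (heat_pos ht _).le]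
  exact heat_le ht _

theorem continuous_heat_integral [IsFiniteMeasure ν] {t : ℝ} (ht : 0 < t) :
    Continuous fun x => ∫ y, heat t (y - x) ∂ν := by
  refine continuous_of_dominated (bound := fun _ => t⁻¹)
    (fun x => (integrable_heat ht x).aestronglyMeasurable)
    (fun x => Eventually.of_forall fun y => ?_) (integrable_const _)
    (Eventually.of_forall fun y => by unfold heat; fun_prop)
  rw [Real.norm_of_nonneg (heat_pos ht _).le]
  exact heat_le ht _

theorem Pow.heat_bound (h : Pow ν C α) {t : ℝ} (ht : 0 < t) (x : ℂ) :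
    ∫ y, heat t (y - x) ∂ν ≤ C * t ^ (α / 4 - 1) + ν.real univ * t ^ ((1 / 2 : ℝ) - 1) := by
  have := h.fin
  have h4 : 0 < t ^ (1 / 4 : ℝ) := Real.rpow_pos_of_pos ht _
  have h1 : ∫ y, heat t (y - x) ∂ν ≤
      ∫ y, ((ball x (t ^ (1 / 4 : ℝ))).indicator (fun _ => t⁻¹) y + t ^ (-(1 / 2) : ℝ)) ∂ν := by
    refine integral_mono (integrable_heat ht x)
      (((integrable_const _).indicator measurableSet_ball).add (integrable_const _)) fun y => ?_
    have h5 : 0 < t ^ (-(1 / 2) : ℝ) := Real.rpow_pos_of_pos ht _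
    by_cases hy : y ∈ ball x (t ^ (1 / 4 : ℝ))
    · simp only [indicator_of_mem hy]
      linarith [heat_le ht (y - x)]
    · simp only [indicator_of_notMem hy, zero_add]
      exact heat_le_far ht (by rwa [mem_ball, dist_eq_norm, not_lt] at hy)
  rw [integral_add ((integrable_const _).indicator measurableSet_ball) (integrable_const _),
    integral_indicator measurableSet_ball, setIntegral_const, integral_const, smul_eq_mul,
    smul_eq_mul] at h1
  have h2 : ν.real (ball x (t ^ (1 / 4 : ℝ))) ≤ C * (t ^ (1 / 4 : ℝ)) ^ α :=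
    ENNReal.toReal_le_of_le_ofReal (mul_nonneg h.nn (Real.rpow_nonneg h4.le _)) (h.le _ _ h4)
  have h3 : (t ^ (1 / 4 : ℝ)) ^ α * t⁻¹ = t ^ (α / 4 - 1) := by
    rw [← Real.rpow_mul ht.le, Real.rpow_sub_one ht.ne', div_eq_mul_inv _ t]
    congr 2
    ring
  have h6 : (-(1 / 2) : ℝ) = 1 / 2 - 1 := by norm_num
  rw [h6] at h1
  refine h1.trans (add_le_add_left ?_ _)
  rw [← h3, ← mul_assoc]
  gcongr

theorem Pow.integrable_bound (h : Pow ν C α) : IntegrableOn (fun t : ℝ =>
    Real.exp (-t) * (C * t ^ (α / 4 - 1) + ν.real univ * t ^ ((1 / 2 : ℝ) - 1))) (Ioi 0) := by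
  have h1 := (Real.GammaIntegral_convergent (s := α / 4) (by linarith [h.pos])).const_mul C
  have h2 := (Real.GammaIntegral_convergent (s := 1 / 2) (by norm_num)).const_mul (ν.real univ)
  refine (h1.add h2).congr (Eventually.of_forall fun t => ?_)
  simp only [Pi.add_apply]
  ring

theorem potE_eq [IsFiniteMeasure ν] (x : ℂ) :
    potE ν x = ∫⁻ t in Ioi (0 : ℝ), ENNReal.ofReal (Real.exp (-t) * ∫ y, heat t (y - x) ∂ν) := by
  unfold potE res
  rw [lintegral_lintegral_swap (Measurable.aemeasurable (by unfold heat Function.uncurry; fun_prop))]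
  refine setLIntegral_congr_fun measurableSet_Ioi fun t ht => ?_
  rw [← integral_const_mul, ofReal_integral_eq_lintegral_ofReal
    ((integrable_heat ht x).const_mul _)
    (Eventually.of_forall fun y => (mul_pos (Real.exp_pos _) (heat_pos ht _)).le)]

theorem Pow.potE_le (h : Pow ν C α) : ∃ M : ℝ≥0, ∀ x, potE ν x ≤ M := by
  have := h.fin
  refine ⟨(∫⁻ t in Ioi (0 : ℝ), ‖Real.exp (-t) *
    (C * t ^ (α / 4 - 1) + ν.real univ * t ^ ((1 / 2 : ℝ) - 1))‖ₑ).toNNReal, fun x => ?_⟩
  rw [ENNReal.coe_toNNReal h.integrable_bound.2.ne, potE_eq]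
  refine setLIntegral_mono' measurableSet_Ioi fun t ht => ?_
  refine le_trans (ENNReal.ofReal_le_ofReal ?_) (Real.ofReal_le_enorm _)
  exact mul_le_mul_of_nonneg_left (h.heat_bound ht x) (Real.exp_pos _).le

theorem Pow.potE_lt_top (h : Pow ν C α) (x : ℂ) : potE ν x < ∞ := by
  obtain ⟨M, hM⟩ := h.potE_le
  exact (hM x).trans_lt ENNReal.coe_lt_top

theorem Pow.pot_le (h : Pow ν C α) : ∃ M : ℝ, ∀ x, |pot ν x| ≤ M := by
  obtain ⟨M, hM⟩ := h.potE_le
  refine ⟨M, fun x => ?_⟩
  rw [pot, abs_of_nonneg ENNReal.toReal_nonneg]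
  exact ENNReal.toReal_le_coe_of_le_coe (hM x)

theorem Pow.continuous_pot (h : Pow ν C α) : Continuous (pot ν) := by
  have := h.fin
  have hm : ∀ x, Measurable fun t : ℝ => Real.exp (-t) * ∫ y, heat t (y - x) ∂ν := by
    intro x
    have h1 : Measurable fun p : ℝ × ℂ => heat p.1 (p.2 - x) := by unfold heat; fun_prop
    exact (by fun_prop : Measurable fun t : ℝ => Real.exp (-t)).mul
      (h1.stronglyMeasurable.integral_prod_right' (ν := ν)).measurable
  have hnn : ∀ x, ∀ t ∈ Ioi (0 : ℝ), 0 ≤ Real.exp (-t) * ∫ y, heat t (y - x) ∂ν := fun x t ht =>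
    mul_nonneg (Real.exp_pos _).le (integral_nonneg fun y => (heat_pos ht _).le)
  have e : pot ν = fun x => ∫ t in Ioi (0 : ℝ), Real.exp (-t) * ∫ y, heat t (y - x) ∂ν := by
    funext x
    rw [pot, potE_eq, integral_eq_lintegral_of_nonneg_ae
      ((ae_restrict_iff' measurableSet_Ioi).mpr (Eventually.of_forall (hnn x)))
      (hm x).aestronglyMeasurable]
  rw [e]
  refine continuous_of_dominated (fun x => (hm x).aestronglyMeasurable) (fun x => ?_)
    h.integrable_bound ?_
  · refine (ae_restrict_iff' measurableSet_Ioi).mpr (Eventually.of_forall fun t ht => ?_)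
    rw [Real.norm_of_nonneg (hnn x t ht)]
    exact mul_le_mul_of_nonneg_left (h.heat_bound ht x) (Real.exp_pos _).le
  · exact (ae_restrict_iff' measurableSet_Ioi).mpr (Eventually.of_forall fun t ht =>
      continuous_const.mul (continuous_heat_integral ht))

theorem IsWiener.lintegral_heat (hW : IsWiener W) {t : ℝ} (ht : 0 < t) (x : ℂ) :
    ∫⁻ y, ENNReal.ofReal (heat t (y - x)) = 1 := by
  have := hW.prob_Px x
  have h1 := hW.lintegral_Px_eval (t := t.toNNReal) (by simpa using ht) x (f := fun _ => 1)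
    measurable_const
  simpa [Real.coe_toNNReal _ ht.le] using h1.symm

theorem IsWiener.lintegral_res_one (hW : IsWiener W) (x : ℂ) : ∫⁻ y, res x y = 1 := by
  unfold res
  rw [lintegral_lintegral_swap (Measurable.aemeasurable (by unfold heat Function.uncurry; fun_prop))]
  have h1 : ∀ t ∈ Ioi (0 : ℝ), ∫⁻ y, ENNReal.ofReal (Real.exp (-t) * heat t (y - x)) =
      ENNReal.ofReal (Real.exp (-t)) := by
    intro t ht
    simp only [ENNReal.ofReal_mul (Real.exp_pos _).le]
    rw [lintegral_const_mul _ (by unfold heat; fun_prop), hW.lintegral_heat ht, mul_one]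
  rw [setLIntegral_congr_fun measurableSet_Ioi h1, ← ofReal_integral_eq_lintegral_ofReal
    (integrableOn_exp_neg_Ioi 0) (Eventually.of_forall fun t => (Real.exp_pos _).le),
    integral_exp_neg_Ioi_zero, ENNReal.ofReal_one]

theorem continuous_lap {η : ℂ → ℝ} (hη : ContDiff ℝ 2 η) : Continuous (Δ η) := by
  have h1 : Continuous (iteratedFDeriv ℝ 2 η) := hη.continuous_iteratedFDeriv le_rfl
  rw [InnerProductSpace.laplacian_eq_iteratedFDeriv_complexPlane]
  fun_prop

theorem exists_bound_test {η : ℂ → ℝ} (hη : ContDiff ℝ 2 η) (hs : HasCompactSupport η) :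
    ∃ M : ℝ, ∀ z, |η z - (1 / 2 : ℝ) * Δ η z| ≤ M := by
  have hc : Continuous fun z => η z - (1 / 2 : ℝ) * Δ η z :=
    hη.continuous.sub (continuous_const.mul (continuous_lap hη))
  have hs' : HasCompactSupport fun z => η z - (1 / 2 : ℝ) * Δ η z :=
    HasCompactSupport.intro hs fun z hz => by
      rw [WeakAux.lap_zero hz, image_eq_zero_of_notMem_tsupport hz]; simp
  exact hc.bounded_above_of_compact_support hs'

theorem IsWiener.integral_res (hW : IsWiener W) {η : ℂ → ℝ} (hη : ContDiff ℝ 2 η)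
    (hs : HasCompactSupport η) (y : ℂ) :
    ∫ z, (res y z).toReal * (η z - (1 / 2 : ℝ) * Δ η z) = η y := by
  obtain ⟨M, hM⟩ := exists_bound_test hη hs
  set g : ℂ → ℝ := fun z => η z - (1 / 2 : ℝ) * Δ η z with hg
  have hc : Continuous g := hη.continuous.sub (continuous_const.mul (continuous_lap hη))
  have hk : Measurable fun p : ℝ × ℂ => Real.exp (-p.1) * heat p.1 (p.2 - y) := by
    unfold heat; fun_prop
  have hi0 : Integrable (fun p : ℝ × ℂ => Real.exp (-p.1) * heat p.1 (p.2 - y))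
      ((volume.restrict (Ioi (0 : ℝ))).prod volume) := by
    refine ⟨hk.aestronglyMeasurable, ?_⟩
    have h1 := hW.lintegral_res_one y
    unfold res at h1
    rw [lintegral_lintegral_swap
      (Measurable.aemeasurable (by unfold heat Function.uncurry; fun_prop))] at h1
    rw [hasFiniteIntegral_iff_enorm, lintegral_prod _ hk.enorm.aemeasurable,
      setLIntegral_congr_fun measurableSet_Ioi (g := fun t =>
        ∫⁻ z, ENNReal.ofReal (Real.exp (-t) * heat t (z - y))) fun t ht => ?_, h1]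
    · exact ENNReal.one_lt_top
    · exact lintegral_congr fun z =>
        Real.enorm_eq_ofReal (mul_pos (Real.exp_pos _) (heat_pos ht _)).le
  have hi : Integrable (Function.uncurry fun (t : ℝ) (z : ℂ) => Real.exp (-t) * heat t (z - y) * g z)
      ((volume.restrict (Ioi (0 : ℝ))).prod volume) :=
    hi0.mul_bdd (hc.comp continuous_snd).aestronglyMeasurable
      (Eventually.of_forall fun p => hM p.2)
  rw [← hW.resolvent hη hs one_pos y]
  have h2 : ∀ t ∈ Ioi (0 : ℝ), Real.exp (-1 * t) *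
      ∫ ω, (1 * η (ω t.toNNReal) - (1 / 2 : ℝ) * Δ η (ω t.toNNReal)) ∂(Px W y) =
      ∫ z, Real.exp (-t) * heat t (z - y) * g z := by
    intro t ht
    have h3 := hW.integral_Px_eval (t := t.toNNReal) (by simpa using ht) y hc.aestronglyMeasurable
    simp only [one_mul, neg_mul, mul_assoc]
    rw [integral_const_mul, h3, Real.coe_toNNReal _ (le_of_lt ht)]
  rw [setIntegral_congr_fun measurableSet_Ioi h2, integral_integral_swap hi]
  refine integral_congr_ae (Eventually.of_forall fun z => ?_)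
  simp only
  rw [integral_mul_const, res, integral_eq_lintegral_of_nonneg_ae
    ((ae_restrict_iff' measurableSet_Ioi).mpr (Eventually.of_forall fun t ht =>
      (mul_pos (Real.exp_pos _) (heat_pos ht _)).le))
    (hk.comp measurable_prodMk_right).aestronglyMeasurable]

/-- the weak equation of the potential -/
theorem Pow.pot_weak (h : Pow ν C α) (hW : IsWiener W) {η : ℂ → ℝ} (hη : ContDiff ℝ 2 η)
    (hs : HasCompactSupport η) :
    ∫ z, pot ν z * (η z - (1 / 2 : ℝ) * Δ η z) = ∫ y, η y ∂ν := by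
  have := h.fin
  obtain ⟨M, hM⟩ := exists_bound_test hη hs
  set g : ℂ → ℝ := fun z => η z - (1 / 2 : ℝ) * Δ η z with hg
  have hc : Continuous g := hη.continuous.sub (continuous_const.mul (continuous_lap hη))
  have hi0 : Integrable (fun p : ℂ × ℂ => (res p.1 p.2).toReal) (ν.prod volume) := by
    refine integrable_toReal_of_lintegral_ne_top measurable_res_pair.aemeasurable ?_
    rw [lintegral_prod _ measurable_res_pair.aemeasurable]
    simp [hW.lintegral_res_one]
  have hi : Integrable (Function.uncurry fun y z : ℂ => (res y z).toReal * g z) (ν.prod volume) :=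
    hi0.mul_bdd (hc.comp continuous_snd).aestronglyMeasurable
      (Eventually.of_forall fun p => hM p.2)
  have e : ∫ y, η y ∂ν = ∫ y, (∫ z, (res y z).toReal * g z) ∂ν :=
    integral_congr_ae (Eventually.of_forall fun y => (hW.integral_res hη hs y).symm)
  rw [e, integral_integral_swap hi]
  refine integral_congr_ae (Eventually.of_forall fun z => ?_)
  simp only
  rw [integral_mul_const]
  simp only [res_symm _ z]
  rw [integral_toReal (measurable_res_right z).aemeasurable
    (ae_lt_top (measurable_res_right z) (h.potE_lt_top z).ne)]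
  rfl

/-- the power bound passes to a bounded density on a bounded set -/
theorem exists_pow {μ : Measure ℂ} {K : Set ℂ} (hK : MeasurableSet K) (hfin : μ K ≠ ∞)
    {C α r₀ : ℝ} (hα : 0 < α) (hr₀ : 0 < r₀)
    (hμ : ∀ x ∈ K, ∀ r, 0 < r → r ≤ r₀ → μ (ball x r ∩ K) ≤ ENNReal.ofReal (C * r ^ α))
    {f : ℂ → ℝ≥0∞} {M : ℝ≥0} (hM : ∀ z, f z ≤ M) (h0 : ∀ z ∉ K, f z = 0) :
    ∃ C', Pow (μ.withDensity f) C' α := by
  have hle : μ.withDensity f ≤ (M : ℝ≥0∞) • μ.restrict K := by
    rw [← withDensity_const, ← withDensity_indicator hK]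
    refine withDensity_mono (Eventually.of_forall fun z => ?_)
    by_cases hz : z ∈ K
    · simpa [hz] using hM z
    · simp [h0 z hz]
  have hp : 0 < (r₀ / 2) ^ α := Real.rpow_pos_of_pos (by linarith) _
  refine ⟨M * (max C 0 * 2 ^ α + μ.real K / (r₀ / 2) ^ α), ⟨⟨?_⟩, by positivity, hα,
    fun x r hr => ?_⟩⟩
  · refine (hle univ).trans_lt ?_
    simp only [Measure.smul_apply, Measure.restrict_apply_univ, smul_eq_mul]
    exact ENNReal.mul_lt_top ENNReal.coe_lt_top hfin.lt_top
  refine (hle _).trans ?_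
  have hrα : 0 < r ^ α := Real.rpow_pos_of_pos hr _
  rw [Measure.smul_apply, Measure.restrict_apply measurableSet_ball, smul_eq_mul, mul_assoc,
    ENNReal.ofReal_mul NNReal.zero_le_coe, ENNReal.ofReal_coe_nnreal]
  gcongr
  rcases (ball x r ∩ K).eq_empty_or_nonempty with he | ⟨y, hy⟩
  · simp [he]
  rcases le_or_gt (2 * r) r₀ with h2 | h2
  · have hsub : ball x r ∩ K ⊆ ball y (2 * r) ∩ K := fun z hz => by
      refine ⟨?_, hz.2⟩
      have h3 := dist_triangle_right z y x
      have h4 := mem_ball.mp hz.1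
      have h5 := mem_ball.mp hy.1
      rw [mem_ball]
      linarith
    refine (measure_mono hsub).trans ((hμ y hy.2 _ (by linarith) h2).trans
      (ENNReal.ofReal_le_ofReal ?_))
    rw [Real.mul_rpow zero_le_two hr.le, add_mul, ← mul_assoc]
    have h6 : C * 2 ^ α * r ^ α ≤ max C 0 * 2 ^ α * r ^ α := by gcongr; exact le_max_left _ _
    have h7 : 0 ≤ μ.real K / (r₀ / 2) ^ α * r ^ α := by positivity
    linarith
  · refine (measure_mono inter_subset_right).trans ?_
    rw [← ENNReal.ofReal_toReal hfin]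
    refine ENNReal.ofReal_le_ofReal ?_
    have h6 : (r₀ / 2) ^ α ≤ r ^ α := Real.rpow_le_rpow (by linarith) (by linarith) hα.le
    have h7 : μ.real K ≤ μ.real K / (r₀ / 2) ^ α * r ^ α := by
      rw [div_mul_eq_mul_div, le_div_iff₀ hp]
      gcongr
    have h8 : 0 ≤ max C 0 * 2 ^ α * r ^ α := by positivity
    rw [add_mul]
    exact le_add_of_nonneg_of_le h8 h7

end Pool.Agent.Lib.MP_0d9445_pr.BM
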