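import Pool.Agent.Lib.MP_0d9445_pr.BM.RevuzA

/-!
From the Revuz correspondence with respect to Lebesgue measure to the potential of an additive
functional from every starting point.
-/

open MeasureTheory ProbabilityTheory Set Filter Topology Metric
open scoped NNReal ENNReal

noncomputable section

namespace Pool.Agent.Lib.MP_0d9445_pr.BM

namespace RevuzAux

variable {W : Measure Path} {μ : Measure ℂ} {A : Path → StieltjesFunction ℝ≥0} {L : Set Path}

theorem seg_Px (hW : IsWiener W) (hA : ∀ t, Measurable fun ω => A ω t) (x : ℂ)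
    (hL : ∀ᵐ ω ∂Px W x, ω ∈ L)
    (ha : ∀ ω ∈ L, Continuous (A ω) ∧ ∀ s t, A ω (s + t) = A ω s + A (shift s ω) t)
    {f : ℂ → ℝ≥0∞} (hf : Measurable f) {u : ℝ≥0} (hu : u ≠ 0) (h : ℝ≥0) :
    ∫⁻ ω, ∫⁻ t in Ico u (u + h), f (ω t) ∂(A ω).measure ∂Px W x =
      ∫⁻ ω, ENNReal.ofReal (heat u (ω 0 - x)) * ini A f h ω ∂Pm W := by
  rw [← markov_heat hW x hu (measurable_ini hA hf h)]
  refine lintegral_congr_ae ?_
  filter_upwards [hL] with ω hω
  exact piece (ha ω hω).1 ((ha ω hω).2 u) f h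

theorem heat_le {s u : ℝ} (hs : 0 < s) (hu : s ≤ u) (y : ℂ) : heat u y ≤ s⁻¹ := by
  have hu0 : 0 < u := hs.trans_le hu
  have h1 : Real.exp (-‖y‖ ^ 2 / (2 * u)) ≤ 1 :=
    Real.exp_le_one_iff.2 (div_nonpos_of_nonpos_of_nonneg (neg_nonpos.2 (by positivity))
      (by positivity))
  have h2 : (2 * Real.pi * u)⁻¹ ≤ s⁻¹ :=
    inv_anti₀ hs (by nlinarith [Real.pi_gt_three])
  calc heat u y ≤ (2 * Real.pi * u)⁻¹ * 1 := mul_le_mul_of_nonneg_left h1 (by positivity)
    _ ≤ s⁻¹ := by rwa [mul_one]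

theorem continuous_dens (u : ℝ) (x : ℂ) :
    Continuous fun y : ℂ => ENNReal.ofReal (heat u (y - x)) := by
  refine ENNReal.continuous_ofReal.comp ?_
  unfold heat
  fun_prop

/-- the averaging weight -/
def wgt (n : ℕ) (u : ℝ) (t : ℝ≥0) : ℝ≥0∞ :=
  (Ico u.toNNReal (u.toNNReal + msh n)).indicator
    (fun _ => ENNReal.ofReal (Real.exp (-u)) * ((n : ℝ≥0∞) + 1)) t

theorem measurable_wgt (n : ℕ) : Measurable fun p : ℝ × ℝ≥0 => wgt n p.1 p.2 := by
  have hS : MeasurableSet {p : ℝ × ℝ≥0 | p.1.toNNReal ≤ p.2 ∧ p.2 < p.1.toNNReal + msh n} :=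
    (measurableSet_le measurable_fst.real_toNNReal measurable_snd).inter
      (measurableSet_lt (f := fun p : ℝ × ℝ≥0 => p.2) (g := fun p => p.1.toNNReal + msh n)
        measurable_snd (measurable_fst.real_toNNReal.add_const _))
  have hF : Measurable fun p : ℝ × ℝ≥0 => ENNReal.ofReal (Real.exp (-p.1)) * ((n : ℝ≥0∞) + 1) :=
    (measurable_fst.neg.exp.ennreal_ofReal).mul_const _
  exact hF.indicator hS

theorem lintegral_wgt (hA : ∀ t, Measurable fun ω => A ω t) (P : Measure Path) {f : ℂ → ℝ≥0∞}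
    (hf : Measurable f) (n : ℕ) (u : ℝ) :
    ∫⁻ ω, ∫⁻ t, wgt n u t * f (ω t) ∂(A ω).measure ∂P = ENNReal.ofReal (Real.exp (-u)) *
      (((n : ℝ≥0∞) + 1) *
        ∫⁻ ω, ∫⁻ t in Ico u.toNNReal (u.toNNReal + msh n), f (ω t) ∂(A ω).measure ∂P) := by
  rw [← mul_assoc,
    ← lintegral_const_mul _ (measurable_setInt hA (measurable_fev hf) measurableSet_Ico)]
  refine lintegral_congr fun ω => ?_
  rw [← lintegral_const_mul (f := fun t => f (ω t)) _ (hf.comp ω.continuous.measurable),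
    ← lintegral_indicator measurableSet_Ico]
  refine lintegral_congr fun t => ?_
  by_cases h : t ∈ Ico u.toNNReal (u.toNNReal + msh n)
  · rw [wgt, indicator_of_mem h, indicator_of_mem h]
  · rw [wgt, indicator_of_notMem h, indicator_of_notMem h, zero_mul]

theorem measurable_wgt_int (hA : ∀ t, Measurable fun ω => A ω t) {f : ℂ → ℝ≥0∞}
    (hf : Measurable f) (n : ℕ) :
    Measurable fun p : ℝ × Path => ∫⁻ t, wgt n p.1 t * f (p.2 t) ∂(A p.2).measure :=
  measurable_lintegral_stieltjes (A := fun p : ℝ × Path => A p.2)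
    (fun t => (hA t).comp measurable_snd)
    (F := fun q : (ℝ × Path) × ℝ≥0 => wgt n q.1.1 q.2 * f (q.1.2 q.2))
    (((measurable_wgt n).comp (measurable_fst.fst.prodMk measurable_snd)).mul
      (hf.comp (measurable_fst.snd.path_ev measurable_snd)))

theorem swap_wgt (hA : ∀ t, Measurable fun ω => A ω t) (P : Measure Path) [SFinite P]
    {f : ℂ → ℝ≥0∞} (hf : Measurable f) (n : ℕ) (s : ℝ) :
    ∫⁻ u in Ioi s, ∫⁻ ω, ∫⁻ t, wgt n u t * f (ω t) ∂(A ω).measure ∂P =
      ∫⁻ ω, ∫⁻ t, (∫⁻ u in Ioi s, wgt n u t) * f (ω t) ∂(A ω).measure ∂P := by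
  rw [lintegral_lintegral_swap (measurable_wgt_int hA hf n).aemeasurable]
  refine lintegral_congr fun ω => ?_
  have hm : Measurable fun p : ℝ × ℝ≥0 => wgt n p.1 p.2 * f (ω p.2) :=
    (measurable_wgt n).mul (hf.comp (ω.continuous.measurable.comp measurable_snd))
  rw [lintegral_lintegral_swap hm.aemeasurable]
  refine lintegral_congr fun t => ?_
  exact lintegral_mul_const _ ((measurable_wgt n).comp (measurable_id.prodMk measurable_const))

theorem succ_mul_msh (n : ℕ) : ((n : ℝ≥0∞) + 1) * ENNReal.ofReal (msh n) = 1 := by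
  rw [ENNReal.ofReal_coe_nnreal]
  exact_mod_cast msh_mul n

theorem mem_wgt_iff {n : ℕ} {u : ℝ} (hu : 0 ≤ u) {t : ℝ≥0} :
    t ∈ Ico u.toNNReal (u.toNNReal + msh n) ↔ u ∈ Ioc ((t : ℝ) - msh n) t := by
  rw [mem_Ico, mem_Ioc, ← NNReal.coe_le_coe, ← NNReal.coe_lt_coe, NNReal.coe_add,
    Real.coe_toNNReal u hu, sub_lt_iff_lt_add, and_comm]

theorem wgt_upper (n : ℕ) {s : ℝ} (hs : 0 ≤ s) (t : ℝ≥0) :
    ∫⁻ u in Ioi s, wgt n u t ≤
      ENNReal.ofReal (Real.exp (msh n)) * ENNReal.ofReal (Real.exp (-(t : ℝ))) := by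
  set c := ENNReal.ofReal (Real.exp (msh n)) * ENNReal.ofReal (Real.exp (-(t : ℝ))) with hc
  calc ∫⁻ u in Ioi s, wgt n u t
      ≤ ∫⁻ u in Ioi s, (Ioc ((t : ℝ) - msh n) t).indicator
          (fun _ => c * ((n : ℝ≥0∞) + 1)) u := by
        refine setLIntegral_mono' measurableSet_Ioi fun u hu => ?_
        have hu0 : 0 ≤ u := hs.trans (le_of_lt hu)
        by_cases h : t ∈ Ico u.toNNReal (u.toNNReal + msh n)
        · have h' := (mem_wgt_iff hu0).1 h
          rw [wgt, indicator_of_mem h, indicator_of_mem h', hc,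
            ← ENNReal.ofReal_mul (by positivity), ← Real.exp_add]
          exact mul_le_mul_left
            (ENNReal.ofReal_le_ofReal (Real.exp_le_exp.2 (by linarith [h'.1]))) _
        · rw [wgt, indicator_of_notMem h]
          exact zero_le
    _ ≤ ∫⁻ u, (Ioc ((t : ℝ) - msh n) t).indicator (fun _ => c * ((n : ℝ≥0∞) + 1)) u :=
        setLIntegral_le_lintegral _ _
    _ = c := by
        rw [lintegral_indicator_const measurableSet_Ioc, Real.volume_Ioc, sub_sub_cancel,
          mul_assoc, succ_mul_msh, mul_one]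

theorem wgt_lower (n : ℕ) {s : ℝ} (hs : 0 ≤ s) {t : ℝ≥0} (ht : s + msh n ≤ t) :
    ENNReal.ofReal (Real.exp (-(t : ℝ))) ≤ ∫⁻ u in Ioi s, wgt n u t := by
  have hsub : Ioc ((t : ℝ) - msh n) t ⊆ Ioi s := fun u hu =>
    lt_of_le_of_lt (by linarith) hu.1
  calc ENNReal.ofReal (Real.exp (-(t : ℝ)))
      = ∫⁻ _ in Ioc ((t : ℝ) - msh n) t,
          ENNReal.ofReal (Real.exp (-(t : ℝ))) * ((n : ℝ≥0∞) + 1) := by
        rw [setLIntegral_const, Real.volume_Ioc, sub_sub_cancel, mul_assoc, succ_mul_msh, mul_one]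
    _ ≤ ∫⁻ u in Ioc ((t : ℝ) - msh n) t, wgt n u t := by
        refine setLIntegral_mono' measurableSet_Ioc fun u hu => ?_
        have hu0 : 0 ≤ u := hs.trans (le_of_lt (hsub hu))
        rw [wgt, indicator_of_mem ((mem_wgt_iff hu0).2 hu)]
        exact mul_le_mul_left
          (ENNReal.ofReal_le_ofReal (Real.exp_le_exp.2 (neg_le_neg hu.2))) _
    _ ≤ ∫⁻ u in Ioi s, wgt n u t := lintegral_mono_set hsub

theorem tendsto_wgt (hW : IsWiener W) (hA : ∀ t, Measurable fun ω => A ω t)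
    (hLm : MeasurableSet L) (hL : ∀ x, ∀ᵐ ω ∂Px W x, ω ∈ L)
    (ha : ∀ ω ∈ L, Continuous (A ω) ∧ ∀ s t, A ω (s + t) = A ω s + A (shift s ω) t)
    (hR : ∀ f : ℂ → ℝ≥0∞, Measurable f →
      ∫⁻ x, ∫⁻ ω, ∫⁻ t in Iic 1, f (ω t) ∂(A ω).measure ∂Px W x = ∫⁻ y, f y ∂μ)
    (x : ℂ) {f : ℂ → ℝ≥0∞} (hf : Measurable f) (hfin : ∫⁻ y, f y ∂μ ≠ ∞) {s : ℝ} (hs : 0 < s) :
    Tendsto (fun n => ∫⁻ u in Ioi s, ∫⁻ ω, ∫⁻ t, wgt n u t * f (ω t) ∂(A ω).measure ∂Px W x) atTop
      (𝓝 (∫⁻ u in Ioi s, ENNReal.ofReal (Real.exp (-u)) *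
        ∫⁻ y, ENNReal.ofReal (heat u (y - x)) * f y ∂μ)) := by
  have := hW.prob_Px x
  have key : ∀ u ∈ Ioi s,
      (∀ n, ∫⁻ ω, ∫⁻ t, wgt n u t * f (ω t) ∂(A ω).measure ∂Px W x ≤
        ENNReal.ofReal (Real.exp (-u)) * (ENNReal.ofReal s⁻¹ * ∫⁻ y, f y ∂μ)) ∧
      Tendsto (fun n => ∫⁻ ω, ∫⁻ t, wgt n u t * f (ω t) ∂(A ω).measure ∂Px W x) atTop
        (𝓝 (ENNReal.ofReal (Real.exp (-u)) *
          ∫⁻ y, ENNReal.ofReal (heat u (y - x)) * f y ∂μ)) := by
    intro u hu
    have hu0 : 0 < u := hs.trans hu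
    have hne : u.toNNReal ≠ 0 := (Real.toNNReal_pos.2 hu0).ne'
    have h := short_time hW hA (ae_Pm hW hLm hL) ha hR hf hfin (continuous_dens u x)
      (C := ENNReal.ofReal s⁻¹) ENNReal.ofReal_ne_top
      (fun y => ENNReal.ofReal_le_ofReal (heat_le hs (le_of_lt hu) _))
    simp only [lintegral_wgt hA (Px W x) hf, seg_Px hW hA x (hL x) ha hf hne,
      Real.coe_toNNReal u hu0.le]
    exact ⟨fun n => mul_le_mul_right (h.1 n) _,
      ENNReal.Tendsto.const_mul h.2 (Or.inr ENNReal.ofReal_ne_top)⟩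
  refine tendsto_lintegral_of_dominated_convergence
    (fun u => ENNReal.ofReal (Real.exp (-u)) * (ENNReal.ofReal s⁻¹ * ∫⁻ y, f y ∂μ))
    (fun n => (measurable_wgt_int hA hf n).lintegral_prod_right')
    (fun n => (ae_restrict_mem measurableSet_Ioi).mono fun u hu => (key u hu).1 n) ?_
    ((ae_restrict_mem measurableSet_Ioi).mono fun u hu => (key u hu).2)
  rw [lintegral_mul_const _ measurable_neg.exp.ennreal_ofReal]
  exact ENNReal.mul_ne_top (integrableOn_exp_neg_Ioi s).lintegral_lt_top.ne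
    (ENNReal.mul_ne_top ENNReal.ofReal_ne_top hfin)

theorem msh_anti : Antitone msh := fun i j hij =>
  inv_anti₀ (by positivity) (add_le_add_left (Nat.cast_le.2 hij) _)

theorem measurable_pot {f : ℂ → ℝ≥0∞} (hf : Measurable f) :
    Measurable fun p : Path × ℝ≥0 => ENNReal.ofReal (Real.exp (-(p.2 : ℝ))) * f (p.1 p.2) :=
  (measurable_snd.coe_nnreal_real.neg.exp.ennreal_ofReal).mul (measurable_fev hf)

theorem res_swap [SFinite μ] (x : ℂ) {f : ℂ → ℝ≥0∞} (hf : Measurable f) :
    ∫⁻ u in Ioi (0 : ℝ), ENNReal.ofReal (Real.exp (-u)) *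
        ∫⁻ y, ENNReal.ofReal (heat u (y - x)) * f y ∂μ = ∫⁻ y, res x y * f y ∂μ := by
  have hk : Measurable fun p : ℝ × ℂ => ENNReal.ofReal (Real.exp (-p.1) * heat p.1 (p.2 - x)) :=
    (measurable_fst.neg.exp.mul (measurable_heat.comp
      (measurable_fst.prodMk (measurable_snd.sub_const x)))).ennreal_ofReal
  have hm : Measurable fun p : ℝ × ℂ =>
      ENNReal.ofReal (Real.exp (-p.1) * heat p.1 (p.2 - x)) * f p.2 :=
    hk.mul (hf.comp measurable_snd)
  calc _ = ∫⁻ u in Ioi (0 : ℝ), ∫⁻ y,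
        ENNReal.ofReal (Real.exp (-u) * heat u (y - x)) * f y ∂μ := by
        refine lintegral_congr fun u => ?_
        rw [← lintegral_const_mul (f := fun y => ENNReal.ofReal (heat u (y - x)) * f y) _
          ((measurable_dens u x).mul hf)]
        refine lintegral_congr fun y => ?_
        rw [ENNReal.ofReal_mul (Real.exp_pos _).le, mul_assoc]
    _ = ∫⁻ y, (∫⁻ u in Ioi (0 : ℝ),
        ENNReal.ofReal (Real.exp (-u) * heat u (y - x)) * f y) ∂μ :=
        lintegral_lintegral_swap hm.aemeasurable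
    _ = ∫⁻ y, res x y * f y ∂μ := lintegral_congr fun y =>
        lintegral_mul_const _ (hk.comp (measurable_id.prodMk measurable_const))

theorem pot_finite [SFinite μ] (hW : IsWiener W) (hA : ∀ t, Measurable fun ω => A ω t)
    (hLm : MeasurableSet L) (hL : ∀ x, ∀ᵐ ω ∂Px W x, ω ∈ L)
    (ha : ∀ ω ∈ L, Continuous (A ω) ∧ ∀ s t, A ω (s + t) = A ω s + A (shift s ω) t)
    (hR : ∀ f : ℂ → ℝ≥0∞, Measurable f →
      ∫⁻ x, ∫⁻ ω, ∫⁻ t in Iic 1, f (ω t) ∂(A ω).measure ∂Px W x = ∫⁻ y, f y ∂μ)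
    (x : ℂ) {f : ℂ → ℝ≥0∞} (hf : Measurable f) (hfin : ∫⁻ y, f y ∂μ ≠ ∞) :
    ∫⁻ ω, ∫⁻ t, ENNReal.ofReal (Real.exp (-(t : ℝ))) * f (ω t) ∂(A ω).measure ∂Px W x =
      ∫⁻ y, res x y * f y ∂μ := by
  have := hW.prob_Px x
  have hlim := fun (s : ℝ) (hs : 0 < s) => tendsto_wgt hW hA hLm hL ha hR x hf hfin hs
  simp only [swap_wgt hA (Px W x) hf] at hlim
  have hJ := measurable_lintegral_stieltjes hA (measurable_pot hf)
  rw [← res_swap x hf]
  apply le_antisymm
  · have hanti : ∀ {i j : ℕ}, i ≤ j → Ici (msh i + msh i) ⊆ Ici (msh j + msh j) := fun hij =>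
      Ici_subset_Ici.2 (add_le_add (msh_anti hij) (msh_anti hij))
    have h1 : ∀ ω : Path,
        ∫⁻ t, ENNReal.ofReal (Real.exp (-(t : ℝ))) * f (ω t) ∂(A ω).measure =
        ⨆ k, ∫⁻ t in Ici (msh k + msh k),
          ENNReal.ofReal (Real.exp (-(t : ℝ))) * f (ω t) ∂(A ω).measure := fun ω => by
      have hu : ⋃ k, Ici (msh k + msh k) = ({0} : Set ℝ≥0)ᶜ := by
        ext t
        simp only [mem_iUnion, mem_Ici, mem_compl_iff, mem_singleton_iff]
        constructor
        · rintro ⟨k, hk⟩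
          exact ((add_pos (msh_pos k) (msh_pos k)).trans_le hk).ne'
        · intro ht
          have h := tendsto_msh.add tendsto_msh
          rw [add_zero] at h
          exact (h.eventually (ge_mem_nhds (pos_iff_ne_zero.2 ht))).exists
      rw [← setLIntegral_iUnion_of_directed _ (Monotone.directed_le fun i j hij => hanti hij), hu,
        Measure.restrict_eq_self_of_ae_mem (s := ({0} : Set ℝ≥0)ᶜ)
          (compl_mem_ae_iff.2 (ClockAux.measure_zero _))]
    simp only [h1]
    rw [lintegral_iSup (fun k => measurable_setInt hA (measurable_pot hf) measurableSet_Ici)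
      fun i j hij ω => lintegral_mono_set (hanti hij)]
    refine iSup_le fun k => ?_
    have hk : (0 : ℝ) < msh k := msh_pos k
    refine le_trans (ge_of_tendsto (hlim _ hk) ?_) (lintegral_mono_set (Ioi_subset_Ioi hk.le))
    filter_upwards [eventually_ge_atTop k] with n hn
    refine lintegral_mono fun ω => ?_
    refine le_trans (setLIntegral_mono' measurableSet_Ici fun t ht => ?_)
      (setLIntegral_le_lintegral _ _)
    refine mul_le_mul_left (wgt_lower n hk.le ?_) _
    exact_mod_cast (add_le_add_right (msh_anti hn) _).trans ht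
  · have hu : ⋃ k, Ioi (msh k : ℝ) = Ioi 0 := by
      ext u
      simp only [mem_iUnion, mem_Ioi]
      constructor
      · rintro ⟨k, hk⟩
        exact lt_trans (msh_pos k) hk
      · intro hu
        exact ((NNReal.tendsto_coe.2 tendsto_msh).eventually (gt_mem_nhds hu)).exists
    rw [← hu, setLIntegral_iUnion_of_directed _ (Monotone.directed_le fun i j hij =>
      Ioi_subset_Ioi (NNReal.coe_le_coe.2 (msh_anti hij)))]
    refine iSup_le fun k => ?_
    have hk : (0 : ℝ) < msh k := msh_pos k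
    have he : Tendsto (fun n => ENNReal.ofReal (Real.exp (msh n))) atTop (𝓝 1) := by
      have h := ENNReal.tendsto_ofReal
        ((Real.continuous_exp.tendsto _).comp (NNReal.tendsto_coe.2 tendsto_msh))
      simpa using h
    have h2 := ENNReal.Tendsto.mul_const (b := ∫⁻ ω, ∫⁻ t,
      ENNReal.ofReal (Real.exp (-(t : ℝ))) * f (ω t) ∂(A ω).measure ∂Px W x) he
      (Or.inl one_ne_zero)
    rw [one_mul] at h2
    refine le_of_tendsto_of_tendsto' (hlim _ hk) h2 fun n => ?_
    rw [← lintegral_const_mul _ hJ]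
    refine lintegral_mono fun ω => ?_
    rw [← lintegral_const_mul' _ _ ENNReal.ofReal_ne_top]
    refine lintegral_mono fun t => ?_
    rw [← mul_assoc]
    exact mul_le_mul_left (wgt_upper n hk.le t) _

theorem measurable_res (x : ℂ) : Measurable (res x) :=
  Measurable.lintegral_prod_left' (f := fun p : ℝ × ℂ =>
      ENNReal.ofReal (Real.exp (-p.1) * heat p.1 (p.2 - x)))
    (measurable_fst.neg.exp.mul (measurable_heat.comp
      (measurable_fst.prodMk (measurable_snd.sub_const x)))).ennreal_ofReal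

/-- a path up to time `t` continued by the increments of a second path -/
def glue (t : ℝ≥0) (p : Path × Path) : Path :=
  ⟨fun s => p.1 (min s t) + (p.2 (s - t) - p.2 0), by fun_prop⟩

theorem measurable_glue (t : ℝ≥0) : Measurable (glue t) :=
  measurable_path_iff.2 fun s =>
    ((measurable_evalAt (min s t)).comp measurable_fst).add
      (((measurable_evalAt (s - t)).comp measurable_snd).sub
        ((measurable_evalAt 0).comp measurable_snd))

theorem glue_self (t : ℝ≥0) (ω : Path) : glue t (stop t ω, incr t ω) = ω := by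
  ext1 s
  change ω (min (min s t) t) + (ω (t + (s - t)) - ω t - (ω (t + 0) - ω t)) = ω s
  rcases le_total s t with h | h
  · rw [min_eq_left h, min_eq_left h, tsub_eq_zero_of_le h]
    ring
  · rw [min_eq_right h, min_self, add_tsub_cancel_of_le h, add_zero]
    ring

theorem stop_glue (t : ℝ≥0) (ω η : Path) : stop t (glue t (stop t ω, η)) = stop t ω := by
  ext1 s
  change ω (min (min (min s t) t) t) + (η (min s t - t) - η 0) = ω (min s t)
  rw [tsub_eq_zero_of_le (min_le_right s t), sub_self, add_zero, min_assoc, min_assoc, min_self,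
    min_self]

end RevuzAux

open RevuzAux

variable {W : Measure Path} {μ : Measure ℂ} {A : Path → StieltjesFunction ℝ≥0}

/-- one version that is adapted for all the starting points -/
theorem exists_past_version (hW : IsWiener W) {t : ℝ≥0} {X : Path → ℝ} (hX : Measurable X)
    (h : ∀ x, AEStronglyMeasurable[past t] X (Px W x)) :
    ∃ G : Path → ℝ, Measurable[past t] G ∧ ∀ x, ∀ᵐ ω ∂Px W x, X ω = G ω := by
  have := hW.prob
  have hXg : Measurable fun p : Path × Path => X (glue t p) := hX.comp (measurable_glue t)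
  have h0 : Measurable fun ζ : Path => ∫ η, X (glue t (ζ, η)) ∂W :=
    hXg.stronglyMeasurable.integral_prod_right'.measurable
  refine ⟨fun ω => ∫ η, X (glue t (stop t ω, η)) ∂W, h0.comp (measurable_past_stop t), fun x => ?_⟩
  have := hW.prob_Px x
  obtain ⟨g, hg, hXg'⟩ := h x
  have hgm : Measurable g := hg.measurable.mono (past_le t) le_rfl
  have hfac : g.FactorsThrough (stop t) := by
    have h1 := hg.measurable
    rw [past_eq_comap] at h1
    exact h1.factorsThrough
  have hlaw := (hW.isFBM_Px x).strong_map (Opt.const (t : ℝ≥0∞))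
    ((hW.isFBM_Px x).measurable_ms_stop (Opt.const (t : ℝ≥0∞)))
  simp only [ENNReal.coe_lt_top, ofPred_true, Measure.restrict_univ, ENNReal.toNNReal_coe,
    id] at hlaw
  have h2 : ∀ᵐ p ∂((Px W x).map (stop t)).prod W, X (glue t p) = g (glue t p) := by
    rw [← hlaw, ae_map_iff ((measurable_stop t).prodMk (measurable_incr t)).aemeasurable
      (measurableSet_eq_fun (g := fun p => g (glue t p)) hXg (hgm.comp (measurable_glue t)))]
    filter_upwards [hXg'] with ω hω
    rwa [glue_self]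
  have h3 := ae_of_ae_map (measurable_stop t).aemeasurable (Measure.ae_ae_of_ae_prod h2)
  filter_upwards [hXg', h3] with ω h4 h5
  have h6 : ∀ᵐ η ∂W, X (glue t (stop t ω, η)) = g ω := by
    filter_upwards [h5] with η hη
    rw [hη]
    exact hfac (stop_glue t ω η)
  rw [integral_congr_ae h6, integral_const, probReal_univ, one_smul, h4]

/-- the potential of an additive functional with Revuz measure `μ` -/
theorem revuz_potential [SigmaFinite μ] (hW : IsWiener W) (hA : ∀ t, Measurable fun ω => A ω t)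
    (hadd : ∃ L : Set Path, MeasurableSet L ∧ (∀ x, ∀ᵐ ω ∂Px W x, ω ∈ L) ∧ ∀ ω ∈ L,
      A ω 0 = 0 ∧ Continuous (A ω) ∧ ∀ s t, A ω (s + t) = A ω s + A (shift s ω) t)
    (hR : ∀ f : ℂ → ℝ≥0∞, Measurable f →
      ∫⁻ x, ∫⁻ ω, ∫⁻ t in Iic 1, f (ω t) ∂(A ω).measure ∂Px W x = ∫⁻ y, f y ∂μ)
    (x : ℂ) (f : ℂ → ℝ≥0∞) (hf : Measurable f) :
    ∫⁻ ω, ∫⁻ t, ENNReal.ofReal (Real.exp (-(t : ℝ))) * f (ω t) ∂(A ω).measure ∂Px W x =
      ∫⁻ y, res x y * f y ∂μ := by
  obtain ⟨L, hLm, hL, ha⟩ := hadd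
  set F : ℕ → ℂ → ℝ≥0∞ := fun m => (spanningSets μ m).indicator fun y => min (f y) m with hF
  have hFm : ∀ m, Measurable (F m) := fun m =>
    (hf.min measurable_const).indicator (measurableSet_spanningSets μ m)
  have hmono : Monotone F := fun i j hij y => by
    by_cases hy : y ∈ spanningSets μ i
    · simp only [hF, indicator_of_mem hy, indicator_of_mem (monotone_spanningSets μ hij hy)]
      exact min_le_min_left _ (Nat.cast_le.2 hij)
    · simp only [hF, indicator_of_notMem hy]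
      exact zero_le
  have hsup : ∀ y, f y = ⨆ m, F m y := fun y => by
    refine le_antisymm ?_ (iSup_le fun m => (indicator_le_self _ _ y).trans (min_le_left _ _))
    calc f y = ⨆ m : ℕ, min (f y) m := by
          rw [← inf_iSup_eq, ENNReal.iSup_natCast, inf_top_eq]
      _ ≤ ⨆ m, F m y := iSup_le fun m => by
          refine le_iSup_of_le (max m (spanningSetsIndex μ y)) ?_
          rw [hF]
          simp only
          rw [indicator_of_mem (mem_spanningSets_of_index_le μ y (le_max_right _ _))]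
          exact min_le_min_left _ (Nat.cast_le.2 (le_max_left _ _))
  have hfin : ∀ m, ∫⁻ y, F m y ∂μ ≠ ∞ := fun m => by
    refine ne_top_of_le_ne_top
      (ENNReal.mul_ne_top (ENNReal.natCast_ne_top m) (measure_spanningSets_lt_top μ m).ne) ?_
    rw [← lintegral_indicator_const (measurableSet_spanningSets μ m)]
    exact lintegral_mono fun y => indicator_le_indicator (min_le_right _ _)
  have h := fun m => pot_finite hW hA hLm hL (fun ω hω => (ha ω hω).2) hR x (hFm m) (hfin m)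
  have h1 : ∀ ω : Path, ∫⁻ t, ENNReal.ofReal (Real.exp (-(t : ℝ))) * f (ω t) ∂(A ω).measure =
      ⨆ m, ∫⁻ t, ENNReal.ofReal (Real.exp (-(t : ℝ))) * F m (ω t) ∂(A ω).measure := fun ω => by
    rw [← lintegral_iSup
      (f := fun m (t : ℝ≥0) => ENNReal.ofReal (Real.exp (-(t : ℝ))) * F m (ω t))
      (fun m => (measurable_pot (hFm m)).comp (measurable_prodMk_left (x := ω)))
      fun i j hij t => mul_le_mul_right (hmono hij _) _]
    refine lintegral_congr fun t => ?_
    rw [hsup (ω t), ENNReal.mul_iSup]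
  simp only [h1]
  rw [lintegral_iSup (fun m => measurable_lintegral_stieltjes hA (measurable_pot (hFm m)))
    fun i j hij ω => lintegral_mono fun t => mul_le_mul_right (hmono hij _) _]
  simp only [h]
  rw [← lintegral_iSup (fun m => (measurable_res x).fun_mul (hFm m))
    fun i j hij y => mul_le_mul_right (hmono hij _) _]
  refine lintegral_congr fun y => ?_
  rw [hsup y, ENNReal.mul_iSup]

/-- the Revuz correspondence for Lebesgue measure gives the one for every starting point -/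
theorem isPCAF_of_revuz [SigmaFinite μ] (hW : IsWiener W) (hA : ∀ t, Measurable fun ω => A ω t)
    (had : ∀ x t, AEStronglyMeasurable[past t] (fun ω => A ω t) (Px W x))
    (hadd : ∃ L : Set Path, MeasurableSet L ∧ (∀ x, ∀ᵐ ω ∂Px W x, ω ∈ L) ∧ ∀ ω ∈ L,
      A ω 0 = 0 ∧ Continuous (A ω) ∧ ∀ s t, A ω (s + t) = A ω s + A (shift s ω) t)
    (hR : ∀ f : ℂ → ℝ≥0∞, Measurable f →
      ∫⁻ x, ∫⁻ ω, ∫⁻ t in Iic 1, f (ω t) ∂(A ω).measure ∂Px W x = ∫⁻ y, f y ∂μ) :
    IsPCAF W μ A :=
  ⟨hA, had, hadd, revuz_potential hW hA hadd hR⟩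

end Pool.Agent.Lib.MP_0d9445_pr.BM
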