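import Pool.Agent.Lib.MP_0d9445_pr.Stmt
import Pool.Agent.Lib.MP_0d9445_pr.BM.Revuz
import Pool.Agent.Lib.MP_0d9445_pr.BM.Pot
import Pool.Agent.Lib.MP_0d9445_pr.Met.CMap

/-! Continuous additive functionals as random continuous functions, and their limits. -/

open MeasureTheory ProbabilityTheory Set Filter Topology
open scoped NNReal ENNReal

noncomputable section

namespace Pool.Agent.Lib.MP_0d9445_pr.BM.Ex

open Classical in
/-- the Stieltjes function of a monotone continuous function -/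
def dm (F : C(ℝ≥0, ℝ)) : StieltjesFunction ℝ≥0 :=
  if h : Monotone F then ⟨F, h, fun _ => F.continuous.continuousWithinAt⟩ else 0

theorem dm_coe {F : C(ℝ≥0, ℝ)} (h : Monotone F) : ⇑(dm F) = F := by
  rw [dm, dif_pos h]

/-- a continuous additive functional -/
structure CAF (W : Measure Path) (a : Path → C(ℝ≥0, ℝ)) : Prop where
  meas : ∀ t, Measurable fun ω => a ω t
  mono : ∀ ω, Monotone (a ω)
  zero : ∀ ω, a ω 0 = 0
  adapted : ∀ x t, AEStronglyMeasurable[past t] (fun ω => a ω t) (Px W x)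
  additive : ∃ L : Set Path, MeasurableSet L ∧ (∀ x, ∀ᵐ ω ∂Px W x, ω ∈ L) ∧
    ∀ ω ∈ L, ∀ s t, a ω (s + t) = a ω s + a (shift s ω) t

/-- the Revuz identity -/
def Rev (W : Measure Path) (μ : Measure ℂ) (a : Path → C(ℝ≥0, ℝ)) : Prop :=
  ∀ f : ℂ → ℝ≥0∞, Measurable f →
    ∫⁻ x, ∫⁻ ω, ∫⁻ t in Iic 1, f (ω t) ∂(dm (a ω)).measure ∂Px W x = ∫⁻ y, f y ∂μ

variable {W : Measure Path} {μ : Measure ℂ} {a : Path → C(ℝ≥0, ℝ)}

theorem CAF.dm_meas (h : CAF W a) (t : ℝ≥0) : Measurable fun ω => dm (a ω) t := by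
  simpa only [dm_coe (h.mono _)] using h.meas t

theorem CAF.dm_add (h : CAF W a) : ∃ L : Set Path, MeasurableSet L ∧
    (∀ x, ∀ᵐ ω ∂Px W x, ω ∈ L) ∧ ∀ ω ∈ L, dm (a ω) 0 = 0 ∧ Continuous (dm (a ω)) ∧
      ∀ s t, dm (a ω) (s + t) = dm (a ω) s + dm (a (shift s ω)) t := by
  obtain ⟨L, h1, h2, h3⟩ := h.additive
  simp only [dm_coe (h.mono _)]
  exact ⟨L, h1, h2, fun ω hω => ⟨h.zero ω, (a ω).continuous, h3 ω hω⟩⟩

theorem CAF.pcaf (h : CAF W a) (hR : Rev W μ a) : PCAF W μ fun ω => dm (a ω) :=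
  ⟨h.dm_meas, fun x t => by simpa only [dm_coe (h.mono _)] using h.adapted x t, h.dm_add, hR⟩

theorem CAF.isPCAF [SigmaFinite μ] (h : CAF W a) (hW : IsWiener W) (hR : Rev W μ a) :
    IsPCAF W μ fun ω => dm (a ω) :=
  isPCAF_of_revuz hW h.dm_meas (h.pcaf hR).adapted h.dm_add hR

/-- limits of additive functionals -/
theorem CAF.limit {b : ℕ → Path → C(ℝ≥0, ℝ)} (h : ∀ k, CAF W (b k))
    (hc : ∀ x, ∀ᵐ ω ∂Px W x, CauchySeq fun k => b k ω) :
    ∃ a, CAF W a ∧ ∀ x, ∀ᵐ ω ∂Px W x, Tendsto (fun k => b k ω) atTop (𝓝 (a ω)) := by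
  classical
  have hm : ∀ k, Measurable (b k) := fun k => LQ.Met.measurable_iff_eval.2 (h k).meas
  set E := {ω | ∃ c, Tendsto (fun k => b k ω) atTop (𝓝 c)}
  have hE : MeasurableSet E := measurableSet_exists_tendsto hm
  have hE' : ∀ x, ∀ᵐ ω ∂Px W x, ω ∈ E := fun x => (hc x).mono fun ω hω =>
    cauchySeq_tendsto_of_complete hω
  let a : Path → C(ℝ≥0, ℝ) := fun ω => if ω ∈ E then limUnder atTop fun k => b k ω else 0
  have ha : ∀ ω ∈ E, Tendsto (fun k => b k ω) atTop (𝓝 (a ω)) := fun ω hω => by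
    simp only [a, if_pos hω]
    exact tendsto_nhds_limUnder hω
  have hat : ∀ ω ∈ E, ∀ t, Tendsto (fun k => b k ω t) atTop (𝓝 (a ω t)) := fun ω hω t =>
    ((continuous_eval_const t).tendsto _).comp (ha ω hω)
  have ham : Measurable a := Measurable.ite hE
    (StronglyMeasurable.limUnder fun k => (hm k).stronglyMeasurable).measurable measurable_const
  choose L hL hL' hadd using fun k => (h k).additive
  refine ⟨a, ⟨fun t => (LQ.Met.measurable_eval t).comp ham, fun ω s t hst => ?_, fun ω => ?_,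
    fun x t => ?_, E ∩ ⋂ k, L k, hE.inter (MeasurableSet.iInter hL), fun x => ?_,
    fun ω hω s t => ?_⟩, fun x => (hE' x).mono ha⟩
  · by_cases hω : ω ∈ E
    · exact le_of_tendsto_of_tendsto' (hat ω hω s) (hat ω hω t) fun k => (h k).mono ω hst
    · simp [a, if_neg hω]
  · by_cases hω : ω ∈ E
    · have := hat ω hω 0
      simp only [(h _).zero] at this
      exact tendsto_nhds_unique this tendsto_const_nhds
    · simp [a, if_neg hω]
  · refine ⟨fun ω => limUnder atTop fun k => ((h k).adapted x t).mk _ ω,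
      (letI := past t; StronglyMeasurable.limUnder
        fun k => ((h k).adapted x t).stronglyMeasurable_mk), ?_⟩
    filter_upwards [hE' x, ae_all_iff.2 fun k => ((h k).adapted x t).ae_eq_mk] with ω h1 h2
    rw [← funext h2, (hat ω h1 t).limUnder_eq]
  · filter_upwards [hE' x, ae_all_iff.2 fun k => hL' k x] with ω h1 h2
    exact ⟨h1, mem_iInter.2 h2⟩
  · let T : C(ℝ≥0, ℝ) → C(ℝ≥0, ℝ) := fun F =>
      F.comp ⟨fun u => s + u, by fun_prop⟩ - ContinuousMap.const _ (F s)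
    have hT : Continuous T := by fun_prop
    have e : ∀ k, b k (shift s ω) = T (b k ω) := fun k => ContinuousMap.ext fun u => by
      simp [T, hadd k ω (mem_iInter.1 hω.2 k) s u]
    have h1 := (hT.tendsto _).comp (ha ω hω.1)
    simp only [Function.comp_def, ← e] at h1
    rw [tendsto_nhds_unique (ha _ ⟨_, h1⟩) h1]
    simp [T]

end Pool.Agent.Lib.MP_0d9445_pr.BM.Ex
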