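import Pool.Agent.Lib.MP_0d9445_pr.BM.ExistA

/-! Occupation integrals of bounded continuous functions and their second moments. -/

open MeasureTheory ProbabilityTheory Set Filter Topology
open scoped NNReal ENNReal

noncomputable section

namespace Pool.Agent.Lib.MP_0d9445_pr.BM.Ex

open RevuzAux (msh lo)

theorem cont_pv (g : C(ℂ, ℝ)) : Continuous fun p : Path × ℝ => g (p.1 p.2.toNNReal) :=
  g.continuous.comp (continuous_evalPath.comp
    (continuous_fst.prodMk (continuous_real_toNNReal.comp continuous_snd)))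

theorem cont_pv' (g : C(ℂ, ℝ)) (ω : Path) : Continuous fun s : ℝ => g (ω s.toNNReal) :=
  (cont_pv g).comp (continuous_const.prodMk continuous_id)

theorem cont_prim (g : C(ℂ, ℝ)) :
    Continuous fun p : Path × ℝ => ∫ s in (0 : ℝ)..p.2, g (p.1 s.toNNReal) :=
  intervalIntegral.continuous_parametric_primitive_of_continuous
    (f := fun (ω : Path) (s : ℝ) => g (ω s.toNNReal)) (cont_pv g)

/-- the occupation integral -/
def occ (g : C(ℂ, ℝ)) (ω : Path) : C(ℝ≥0, ℝ) :=
  ⟨fun t => ∫ s in (0 : ℝ)..t, g (ω s.toNNReal),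
    (cont_prim g).comp (continuous_const.prodMk NNReal.continuous_coe)⟩

variable {W : Measure Path} {g : C(ℂ, ℝ)} {M : ℝ}

theorem occ_apply (ω : Path) (t : ℝ≥0) : occ g ω t = ∫ s in (0 : ℝ)..t, g (ω s.toNNReal) := rfl

theorem measurable_occ (t : ℝ≥0) : Measurable fun ω => occ g ω t :=
  ((cont_prim g).comp (continuous_id.prodMk continuous_const)).measurable

theorem occ_sub (ω : Path) (a b : ℝ≥0) :
    occ g ω b - occ g ω a = ∫ s in (a : ℝ)..b, g (ω s.toNNReal) :=
  intervalIntegral.integral_interval_sub_left ((cont_pv' g ω).intervalIntegrable _ _)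
    ((cont_pv' g ω).intervalIntegrable _ _)

theorem occ_shift (ω : Path) (s t : ℝ≥0) : occ g ω (s + t) = occ g ω s + occ g (shift s ω) t := by
  rw [← sub_eq_iff_eq_add', occ_sub, occ_apply, NNReal.coe_add]
  have := intervalIntegral.integral_comp_add_left (a := 0) (b := t)
    (fun u : ℝ => g (ω u.toNNReal)) (s : ℝ)
  rw [add_zero] at this
  rw [← this]
  refine intervalIntegral.integral_congr fun u hu => ?_
  rw [uIcc_of_le t.coe_nonneg] at hu
  simp only [Real.toNNReal_add s.coe_nonneg hu.1, Real.toNNReal_coe]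
  rfl

theorem abs_occ_sub (hM : ∀ z, |g z| ≤ M) (ω : Path) (a b : ℝ≥0) :
    |occ g ω b - occ g ω a| ≤ M * |(b : ℝ) - a| := by
  rw [occ_sub]
  exact intervalIntegral.norm_integral_le_of_norm_le_const (f := fun s : ℝ => g (ω s.toNNReal))
    fun _ _ => hM _

theorem occ_zero (ω : Path) : occ g ω 0 = 0 := intervalIntegral.integral_same

theorem abs_occ (hM : ∀ z, |g z| ≤ M) (ω : Path) (b : ℝ≥0) : |occ g ω b| ≤ M * b := by
  simpa [occ_zero] using abs_occ_sub hM ω 0 b

theorem occ_mono (h0 : ∀ z, 0 ≤ g z) (ω : Path) : Monotone (occ g ω) := fun a b hab => by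
  rw [← sub_nonneg, occ_sub]
  exact intervalIntegral.integral_nonneg hab fun _ _ => h0 _

theorem occ_caf (h0 : ∀ z, 0 ≤ g z) : CAF W (occ g) := by
  refine ⟨measurable_occ, occ_mono h0, occ_zero, fun x t => ?_, univ, .univ, fun x => .of_forall
    fun _ => trivial, fun ω _ => occ_shift ω⟩
  have : (fun ω => occ g ω t) = fun ω => occ g (stop t ω) t := funext fun ω =>
    intervalIntegral.integral_congr fun u hu => by
      rw [uIcc_of_le t.coe_nonneg] at hu
      change _ = g (ω (min u.toNNReal t))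
      rw [min_eq_left (Real.toNNReal_le_iff_le_coe.2 hu.2)]
  rw [this]
  exact ((measurable_occ t).comp (measurable_past_stop t)).stronglyMeasurable.aestronglyMeasurable

theorem swap {P : Measure Path} [IsFiniteMeasure P] {F : ℝ → Path → ℝ}
    (hF : Continuous fun p : Path × ℝ => F p.2 p.1) {a b : ℝ}
    (hb : ∀ s ∈ uIoc a b, ∀ ω, |F s ω| ≤ M) :
    ∫ s in a..b, ∫ ω, F s ω ∂P = ∫ ω, (∫ s in a..b, F s ω) ∂P :=
  haveI : IsFiniteMeasure (volume.restrict (uIoc a b)) := Real.isFiniteMeasure_restrict_Ioc _ _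
  intervalIntegral_integral_swap (Integrable.of_bound
    (hF.comp continuous_swap).measurable.aestronglyMeasurable M
    ((Measure.quasiMeasurePreserving_fst.ae (ae_restrict_mem measurableSet_uIoc)).mono
      fun p hp => hb p.1 hp p.2))

theorem int_pv {P : Measure Path} [IsFiniteMeasure P] (hM : ∀ z, |g z| ≤ M) (s : ℝ≥0) :
    Integrable (fun ω : Path => g (ω s)) P :=
  Integrable.of_bound (g.continuous.measurable.comp (measurable_evalAt s)).aestronglyMeasurable M
    (.of_forall fun _ => hM _)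

theorem cont_mean {P : Measure Path} [IsFiniteMeasure P] (hM : ∀ z, |g z| ≤ M) :
    Continuous fun s : ℝ => ∫ ω : Path, g (ω s.toNNReal) ∂P :=
  continuous_of_dominated (fun _ => (int_pv hM _).1) (fun _ => .of_forall fun _ => hM _)
    (integrable_const M) (.of_forall fun ω => cont_pv' g ω)

theorem int_occ {P : Measure Path} [IsFiniteMeasure P] (hM : ∀ z, |g z| ≤ M) (t : ℝ≥0) :
    Integrable (fun ω => occ g ω t) P :=
  Integrable.of_bound (measurable_occ t).aestronglyMeasurable _ (.of_forall fun ω => abs_occ hM ω t)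

theorem int_sq {P : Measure Path} [IsFiniteMeasure P] (hM : ∀ z, |g z| ≤ M) (a b : ℝ≥0) :
    Integrable (fun ω => (occ g ω b - occ g ω a) ^ 2) P :=
  Integrable.of_bound
    (((measurable_occ b).sub (measurable_occ a)).pow_const 2).aestronglyMeasurable
    ((M * |(b : ℝ) - a|) ^ 2) (.of_forall fun ω => by
      rw [norm_pow]
      exact pow_le_pow_left₀ (norm_nonneg _) (abs_occ_sub hM ω a b) 2)

theorem mean_occ {P : Measure Path} [IsFiniteMeasure P] (hM : ∀ z, |g z| ≤ M) (t : ℝ≥0) :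
    ∫ ω, occ g ω t ∂P = ∫ s in (0 : ℝ)..t, ∫ ω : Path, g (ω s.toNNReal) ∂P :=
  (swap (cont_pv g) fun _ _ _ => hM _).symm

theorem markov_real (hW : IsWiener W) (x : ℂ) (s : ℝ≥0) {G : Path → ℝ} (hG : Measurable G)
    (hM : ∀ η, |G η| ≤ M) :
    ∫ ω, G (shift s ω) ∂Px W x = ∫ ω, ∫ η, G η ∂Px W (ω s) ∂Px W x := by
  have := hW.prob_Px x
  have h := (hW.isFBM_Px x).strong_integral (Opt.const (s : ℝ≥0∞)) (Y := fun _ => ())
    measurable_const (Ψ := fun p => G p.2) (hG.comp measurable_snd)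
    (Integrable.of_bound (hG.comp (measurable_shift _)).aestronglyMeasurable M
      (.of_forall fun _ => hM _))
  simpa using h

/-- the second moment of an occupation integral -/
theorem sq_le (hW : IsWiener W) (x : ℂ) (hM : ∀ z, |g z| ≤ M) {a b : ℝ≥0} (hab : a ≤ b) {e : ℝ}
    (he : ∀ y, ∀ r ≤ b - a, |∫ ω, occ g ω r ∂Px W y| ≤ e) :
    ∫ ω, (occ g ω b - occ g ω a) ^ 2 ∂Px W x ≤
      2 * e * ∫ s in (a : ℝ)..b, ∫ ω : Path, |g (ω s.toNNReal)| ∂Px W x := by
  have := hW.prob_Px x
  have hM0 : 0 ≤ M := (abs_nonneg _).trans (hM 0)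
  have hM' : ∀ z, |(|g| : C(ℂ, ℝ)) z| ≤ M := fun z => by simpa using hM z
  let F : ℝ → Path → ℝ := fun s ω =>
    2 * (g (ω s.toNNReal) * (occ g ω b - ∫ u in (0 : ℝ)..s, g (ω u.toNNReal)))
  have hF : Continuous fun p : Path × ℝ => F p.2 p.1 := continuous_const.mul ((cont_pv g).mul
    (((cont_prim g).comp (continuous_fst.prodMk continuous_const)).sub (cont_prim g)))
  have h1 : ∀ ω, (occ g ω b - occ g ω a) ^ 2 = ∫ s in (a : ℝ)..b, F s ω := fun ω => by
    rw [intervalIntegral.integral_eq_sub_of_hasDerivAt (f' := fun s => F s ω)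
      (f := fun s => -(occ g ω b - ∫ u in (0 : ℝ)..s, g (ω u.toNNReal)) ^ 2) (fun s _ => ?_)
      ((hF.comp (continuous_const.prodMk continuous_id)).intervalIntegrable _ _)]
    · simp [occ_apply]
    · convert ((((cont_pv' g ω).integral_hasStrictDerivAt 0 s).hasDerivAt.const_sub
        (occ g ω b)).fun_pow 2).fun_neg using 1
      simp only [F]
      ring
  have h2 : ∀ s ∈ Ioc (a : ℝ) b, ∀ ω, F s ω = 2 * (g (shift s.toNNReal ω 0) *
      occ g (shift s.toNNReal ω) (b - s.toNNReal)) := fun s hs ω => by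
    have h3 := occ_shift (g := g) ω s.toNNReal (b - s.toNNReal)
    rw [add_tsub_cancel_of_le (Real.toNNReal_le_iff_le_coe.2 hs.2), occ_apply ω s.toNNReal,
      Real.coe_toNNReal _ (a.coe_nonneg.trans hs.1.le)] at h3
    simp only [F, h3, add_sub_cancel_left]
    simp [shift]
  have h3 : ∀ (r : ℝ≥0) (η : Path), |g (η 0) * occ g η r| ≤ M * (M * r) := fun r η => by
    rw [abs_mul]
    exact mul_le_mul (hM _) (abs_occ hM _ _) (abs_nonneg _) hM0
  simp only [h1]
  rw [← swap hF (M := 2 * (M * (M * b))) fun s hs ω => ?_, ← intervalIntegral.integral_const_mul]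
  · refine (le_abs_self _).trans (intervalIntegral.norm_integral_le_of_norm_le
      (f := fun s => ∫ ω, F s ω ∂Px W x)
      (g := fun s => 2 * e * ∫ ω : Path, |g (ω s.toNNReal)| ∂Px W x) hab
      (.of_forall fun s hs => ?_) ((continuous_const.mul (cont_mean hM')).intervalIntegrable _ _))
    simp only [h2 s hs]
    rw [integral_const_mul, markov_real hW x _ (G := fun η => g (η 0) * occ g η (b - s.toNNReal))
      ((g.continuous.measurable.comp (measurable_evalAt 0)).mul (measurable_occ _)) (h3 _),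
      norm_mul, Real.norm_two, mul_assoc, ← integral_const_mul]
    refine mul_le_mul_of_nonneg_left (norm_integral_le_of_norm_le
      ((int_pv hM' _).const_mul e) (.of_forall fun ω => ?_)) zero_le_two
    rw [integral_congr_ae ((hW.ae_Px_zero _).mono fun η hη => by rw [hη]), integral_const_mul,
      norm_mul, mul_comm]
    exact mul_le_mul_of_nonneg_right (he _ _ (tsub_le_tsub_left
      (Real.le_toNNReal_iff_coe_le (a.coe_nonneg.trans hs.1.le) |>.2 hs.1.le) _)) (abs_nonneg _)
  · rw [uIoc_of_le (NNReal.coe_le_coe.2 hab)] at hs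
    rw [h2 s hs, abs_mul, abs_two]
    refine mul_le_mul_of_nonneg_left ((h3 _ _).trans ?_) zero_le_two
    gcongr
    exact tsub_le_self

/-- monotone functions that converge on grids and have small increments converge uniformly -/
theorem cauchy_of_grid {a : ℕ → C(ℝ≥0, ℝ)} (hm : ∀ k, Monotone (a k))
    (h1 : ∀ m i : ℕ, CauchySeq fun k => a k (i * msh m))
    (h2 : ∀ T : ℕ, ∀ δ > 0, ∃ m, ∃ᶠ k in atTop, ∀ i < T * (m + 1),
      a k ((i + 1 : ℕ) * msh m) - a k (i * msh m) < δ) : CauchySeq a := by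
  refine (Metric.uniformity_basis_dist.compactConvergenceUniformity).cauchySeq_iff.2 ?_
  rintro ⟨K, ε⟩ ⟨hK, hε : 0 < ε⟩
  obtain ⟨T, hT⟩ : ∃ T : ℕ, ∀ t ∈ K, t < T := by
    obtain ⟨c, hc⟩ := hK.bddAbove
    obtain ⟨T, hT⟩ := exists_nat_gt c
    exact ⟨T, fun t ht => (hc ht).trans_lt hT⟩
  obtain ⟨m, hm2⟩ := h2 T (ε / 4) (by positivity)
  choose N hN using fun i => Metric.cauchySeq_iff.1 (h1 m i) (ε / 4) (by positivity)
  obtain ⟨k₀, hk₀, hk⟩ := frequently_atTop.1 hm2 ((Finset.range (T * (m + 1) + 1)).sup N)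
  have key : ∀ k ≥ k₀, ∀ t ∈ K, ∃ i, a k₀ (i * msh m) - ε / 4 < a k t ∧
      a k t < a k₀ (i * msh m) + ε / 2 ∧ i = ⌊((m : ℝ≥0) + 1) * t⌋₊ := fun k hk' t ht => by
    set i := ⌊((m : ℝ≥0) + 1) * t⌋₊
    have hi : i < T * (m + 1) := by
      rw [Nat.floor_lt zero_le, mul_comm]
      push_cast
      exact mul_lt_mul_of_pos_right (hT t ht) (by positivity)
    have h3 := fun j (hj : j ≤ T * (m + 1)) => (Finset.le_sup (f := N)
      (Finset.mem_range.2 (Nat.lt_succ_of_le hj))).trans hk₀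
    have h4 := abs_lt.1 (hN i k ((h3 i hi.le).trans hk') k₀ (h3 i hi.le))
    have h5 := abs_lt.1 (hN (i + 1) k ((h3 _ hi).trans hk') k₀ (h3 _ hi))
    have h6 := hm k (RevuzAux.lo_le m t)
    have h7 : a k t ≤ a k ((i + 1 : ℕ) * msh m) := hm k ((RevuzAux.le_lo m t).trans (by
      rw [Nat.cast_succ, add_mul, one_mul]
      rfl))
    have h8 := hk i hi
    refine ⟨i, ?_, by linarith, rfl⟩
    change a k (i * msh m) ≤ _ at h6
    linarith
  refine ⟨k₀, fun k hk' l hl t ht => ?_⟩
  obtain ⟨i, h3, h4, rfl⟩ := key k hk' t ht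
  obtain ⟨j, h5, h6, rfl⟩ := key l hl t ht
  change |a k t - a l t| < ε
  exact abs_lt.2 ⟨by linarith, by linarith⟩

end Pool.Agent.Lib.MP_0d9445_pr.BM.Ex
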