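import Pool.Agent.Lib.MP_0d9445_pr.BM.ExistB

/-! Convergence of occupation integrals whose potentials converge uniformly. -/

open MeasureTheory ProbabilityTheory Set Filter Topology
open scoped NNReal ENNReal

noncomputable section

namespace Pool.Agent.Lib.MP_0d9445_pr.BM.Ex

open RevuzAux (msh lo)

variable {W : Measure Path} {g : ℕ → C(ℂ, ℝ)} {M : ℕ → ℝ} {η : ℝ≥0 → ℝ}

theorem occ_sub_fn (f f' : C(ℂ, ℝ)) (ω : Path) (t : ℝ≥0) :
    occ (f - f') ω t = occ f ω t - occ f' ω t :=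
  intervalIntegral.integral_sub ((cont_pv' f ω).intervalIntegrable _ _)
    ((cont_pv' f' ω).intervalIntegrable _ _)

theorem occ_nonneg {f : C(ℂ, ℝ)} (h0 : ∀ z, 0 ≤ f z) (ω : Path) (t : ℝ≥0) : 0 ≤ occ f ω t :=
  (occ_zero ω).ge.trans (occ_mono h0 ω zero_le)

theorem tsum_ne_top (hW : IsWiener W) (h0 : ∀ k z, 0 ≤ g k z) (hM : ∀ k z, |g k z| ≤ M k)
    (h1 : ∀ k y r, ∫ ω, occ (g k) ω r ∂Px W y ≤ η r)
    (h2 : ∀ k y r, |∫ ω, occ (g k) ω r ∂Px W y - ∫ ω, occ (g (k + 1)) ω r ∂Px W y| ≤ 4⁻¹ ^ k)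
    (x : ℂ) (r : ℝ≥0) :
    ∫⁻ ω, ∑' k, edist (occ (g k) ω r) (occ (g (k + 1)) ω r) ∂Px W x ≠ ∞ := by
  have := hW.prob_Px
  rw [lintegral_tsum fun k => ((measurable_occ r).edist (measurable_occ r)).aemeasurable]
  refine ne_top_of_le_ne_top (Summable.tsum_ofReal_ne_top
    (summable_geometric_two.mul_left (1 + 4 * η r))) (ENNReal.tsum_le_tsum fun k => ?_)
  have hd : ∀ z, |(g k - g (k + 1)) z| ≤ M k + M (k + 1) := fun z =>
    (abs_sub _ _).trans (add_le_add (hM k z) (hM _ z))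
  have hd' : ∀ z, |(|g k - g (k + 1)| : C(ℂ, ℝ)) z| ≤ M k + M (k + 1) := fun z => by
    simpa using hd z
  have h3 := sq_le hW x hd (zero_le (a := r)) (e := 4⁻¹ ^ k) fun y r _ => by
    simpa only [occ_sub_fn, integral_sub (int_occ (hM _) r) (int_occ (hM _) r)] using h2 k y r
  have h4 : ∫ ω, occ |g k - g (k + 1)| ω r ∂Px W x ≤ 2 * η r := by
    refine (integral_mono (int_occ hd' r) ((int_occ (hM k) r).add (int_occ (hM (k + 1)) r))
      fun ω => ?_).trans ?_
    · have := occ_nonneg (f := g k - (|g k - g (k + 1)| - g (k + 1))) (fun z => by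
        have : |g k z - g (k + 1) z| ≤ g k z + g (k + 1) z :=
          abs_le.2 ⟨by linarith [h0 k z], by linarith [h0 (k + 1) z]⟩
        simpa using this) ω r
      simp only [occ_sub_fn, Pi.add_apply] at this ⊢
      linarith
    · rw [integral_add' (int_occ (hM k) r) (int_occ (hM (k + 1)) r)]
      linarith [h1 k x r, h1 (k + 1) x r]
  rw [mean_occ hd'] at h4
  have h5 := h3.trans (mul_le_mul_of_nonneg_left h4 (by positivity))
  have hi : Integrable (fun ω => (1 / 2 : ℝ) ^ k +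
      2 ^ k * (occ (g k - g (k + 1)) ω r - occ (g k - g (k + 1)) ω 0) ^ 2) (Px W x) :=
    (integrable_const _).add ((int_sq hd 0 r).const_mul _)
  have e : (2 : ℝ) ^ k * (1 / 2) ^ k = 1 := by rw [← mul_pow]; norm_num
  have e' : (4⁻¹ : ℝ) ^ k = (1 / 2) ^ k * (1 / 2) ^ k := by rw [← mul_pow]; norm_num
  calc _ ≤ ∫⁻ ω, ENNReal.ofReal ((1 / 2 : ℝ) ^ k +
        2 ^ k * (occ (g k - g (k + 1)) ω r - occ (g k - g (k + 1)) ω 0) ^ 2) ∂Px W x := by
        refine lintegral_mono fun ω => ?_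
        rw [edist_dist, Real.dist_eq, ← occ_sub_fn, occ_zero, sub_zero, ← sq_abs]
        refine ENNReal.ofReal_le_ofReal ?_
        have h6 : (0 : ℝ) < 2 ^ k := by positivity
        have h7 := mul_nonneg h6.le (sq_nonneg (|occ (g k - g (k + 1)) ω r| - (1 / 2) ^ k))
        have h8 := abs_nonneg (occ (g k - g (k + 1)) ω r)
        generalize |occ (g k - g (k + 1)) ω r| = u at *
        have : (2 : ℝ) ^ k * (u - (1 / 2) ^ k) ^ 2 = 2 ^ k * u ^ 2 - 2 * u * (2 ^ k * (1 / 2) ^ k) +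
            2 ^ k * (1 / 2) ^ k * (1 / 2) ^ k := by ring
        rw [this, e] at h7
        linarith
    _ ≤ _ := by
        rw [← ofReal_integral_eq_lintegral_ofReal hi (.of_forall fun ω => by
          simp only [Pi.zero_apply]; positivity), integral_add (integrable_const _)
          ((int_sq hd 0 r).const_mul _), integral_const_mul, integral_const, probReal_univ, one_smul]
        refine ENNReal.ofReal_le_ofReal ?_
        have := mul_le_mul_of_nonneg_left h5 (show (0 : ℝ) ≤ 2 ^ k by positivity)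
        have e2 : (2 : ℝ) ^ k * (2 * 4⁻¹ ^ k * (2 * η r)) =
            2 ^ k * (1 / 2) ^ k * (4 * η r * (1 / 2) ^ k) := by rw [e']; ring
        rw [e2, e] at this
        linarith

theorem small_incr (hW : IsWiener W) (h0 : ∀ k z, 0 ≤ g k z) (hM : ∀ k z, |g k z| ≤ M k)
    (hη : Monotone η) (hη0 : Tendsto (fun m => η (msh m)) atTop (𝓝 0))
    (h1 : ∀ k y r, ∫ ω, occ (g k) ω r ∂Px W y ≤ η r) (x : ℂ) (T : ℕ) :
    ∀ᵐ ω ∂Px W x, ∀ δ > 0, ∃ m, ∃ᶠ k in atTop, ∀ i < T * (m + 1),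
      occ (g k) ω ((i + 1 : ℕ) * msh m) - occ (g k) ω (i * msh m) < δ := by
  have := hW.prob_Px
  let Q : ℕ → ℕ → Path → ℝ := fun m k ω => ∑ i ∈ Finset.range (T * (m + 1)),
    (occ (g k) ω ((i + 1 : ℕ) * msh m) - occ (g k) ω (i * msh m)) ^ 2
  have hQi : ∀ m k, Integrable (Q m k) (Px W x) := fun m k =>
    integrable_finsetSum _ fun i _ => int_sq (hM k) _ _
  have hQm : ∀ m k, Measurable fun ω => ENNReal.ofReal (Q m k ω) := fun m k =>
    (Finset.measurable_sum _ fun i _ =>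
      ((measurable_occ _).sub (measurable_occ _)).pow_const 2).ennreal_ofReal
  have hn : ∀ k y r, 0 ≤ ∫ ω, occ (g k) ω r ∂Px W y := fun k y r =>
    integral_nonneg fun ω => occ_nonneg (h0 k) ω r
  have hQ : ∀ m k, ∫ ω, Q m k ω ∂Px W x ≤ 2 * η (msh m) * η T := fun m k => by
    rw [integral_finsetSum _ fun i _ => int_sq (hM k) _ _]
    refine (Finset.sum_le_sum fun i _ => sq_le hW x (hM k) (by gcongr; omega) (e := η (msh m))
      fun y r hr => ?_).trans ?_
    · rw [abs_of_nonneg (hn k y r)]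
      refine (h1 k y r).trans (hη (hr.trans_eq ?_))
      rw [Nat.cast_succ, add_mul, one_mul, add_tsub_cancel_left]
    simp only [abs_of_nonneg (h0 k _)]
    rw [← Finset.mul_sum, intervalIntegral.sum_integral_adjacent_intervals
      (a := fun i : ℕ => (((i : ℝ≥0) * msh m : ℝ≥0) : ℝ))
      fun i _ => (cont_mean (hM k)).intervalIntegrable _ _]
    refine mul_le_mul_of_nonneg_left ?_
      (mul_nonneg zero_le_two ((hn 0 0 _).trans (h1 0 0 (msh m))))
    have := h1 k x T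
    rw [mean_occ (hM k)] at this
    simpa [mul_assoc, RevuzAux.msh_mul] using this
  have hZ : ∫⁻ ω, ⨅ m, liminf (fun k => ENNReal.ofReal (Q m k ω)) atTop ∂Px W x = 0 := by
    have h3 := ENNReal.tendsto_ofReal ((hη0.const_mul 2).mul_const (η T))
    rw [mul_zero, zero_mul, ENNReal.ofReal_zero] at h3
    refine le_zero_iff.1 (ge_of_tendsto' h3 fun m => ?_)
    refine (lintegral_mono fun ω => iInf_le _ m).trans ((lintegral_liminf_le (hQm m)).trans
      (liminf_le_of_frequently_le' (.of_forall fun k => ?_)))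
    rw [← ofReal_integral_eq_lintegral_ofReal (hQi m k)
      (.of_forall fun ω => Finset.sum_nonneg fun _ _ => sq_nonneg _)]
    exact ENNReal.ofReal_le_ofReal (hQ m k)
  filter_upwards [(lintegral_eq_zero_iff (Measurable.iInf fun m =>
    Measurable.liminf (hQm m))).1 hZ] with ω hω δ hδ
  obtain ⟨m, hm⟩ := iInf_lt_iff.1 (hω.trans_lt (ENNReal.ofReal_pos.2 (pow_pos hδ 2)))
  refine ⟨m, (frequently_lt_of_liminf_lt (h := hm)).mono fun k hk i hi => ?_⟩
  exact lt_of_pow_lt_pow_left₀ 2 hδ.le ((Finset.single_le_sum (f := fun i : ℕ =>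
    (occ (g k) ω ((i + 1 : ℕ) * msh m) - occ (g k) ω (i * msh m)) ^ 2) (fun _ _ => sq_nonneg _)
    (Finset.mem_range.2 hi)).trans_lt ((ENNReal.ofReal_lt_ofReal_iff (pow_pos hδ 2)).1 hk))

theorem exists_caf (hW : IsWiener W) (h0 : ∀ k z, 0 ≤ g k z) (hM : ∀ k z, |g k z| ≤ M k)
    (hη : Monotone η) (hη0 : Tendsto (fun m => η (msh m)) atTop (𝓝 0))
    (h1 : ∀ k y r, ∫ ω, occ (g k) ω r ∂Px W y ≤ η r)
    (h2 : ∀ k y r, |∫ ω, occ (g k) ω r ∂Px W y - ∫ ω, occ (g (k + 1)) ω r ∂Px W y| ≤ 4⁻¹ ^ k) :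
    ∃ a, CAF W a ∧ ∀ x r, Tendsto (fun k => ENNReal.ofReal (∫ ω, occ (g k) ω r ∂Px W x)) atTop
      (𝓝 (∫⁻ ω, ENNReal.ofReal (a ω r) ∂Px W x)) := by
  have := hW.prob_Px
  have hm : ∀ r, Measurable fun ω => ∑' k, edist (occ (g k) ω r) (occ (g (k + 1)) ω r) := fun r =>
    Measurable.tsum fun k => (measurable_occ r).edist (measurable_occ r)
  have hZ := tsum_ne_top hW h0 hM h1 h2
  obtain ⟨a, ha, hl⟩ := CAF.limit (fun k => occ_caf (W := W) (h0 k)) fun x => by
    filter_upwards [ae_all_iff.2 (small_incr hW h0 hM hη hη0 h1 x), ae_all_iff.2 fun m : ℕ =>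
      ae_all_iff.2 fun i : ℕ => ae_lt_top (hm (i * msh m)) (hZ x _)] with ω h3 h4
    exact cauchy_of_grid (fun k => occ_mono (h0 k) ω)
      (fun m i => cauchySeq_of_edist_le_of_tsum_ne_top _ (fun _ => le_rfl) (h4 m i).ne) h3
  refine ⟨a, ha, fun x r => ?_⟩
  simp only [fun k => ofReal_integral_eq_lintegral_ofReal (int_occ (P := Px W x) (hM k) r)
    (.of_forall fun ω => occ_nonneg (h0 k) ω r)]
  refine tendsto_lintegral_of_dominated_convergence (fun ω => ENNReal.ofReal (M 0 * r) +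
    ∑' k, edist (occ (g k) ω r) (occ (g (k + 1)) ω r))
    (fun k => (measurable_occ r).ennreal_ofReal) (fun k => .of_forall fun ω => ?_) ?_
    ((hl x).mono fun ω hω => ENNReal.tendsto_ofReal (((continuous_eval_const r).tendsto _).comp hω))
  · refine le_trans ?_ (add_le_add le_rfl ((edist_le_range_sum_edist
      (fun k => occ (g k) ω r) k).trans (ENNReal.sum_le_tsum _)))
    rw [edist_dist, Real.dist_eq]
    refine (ENNReal.ofReal_le_ofReal ?_).trans ENNReal.ofReal_add_le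
    linarith [(abs_le.1 (abs_occ (hM 0) ω r)).2, neg_abs_le (occ (g 0) ω r - occ (g k) ω r)]
  · rw [lintegral_add_left measurable_const, lintegral_const, measure_univ, mul_one]
    exact ENNReal.add_ne_top.2 ⟨ENNReal.ofReal_ne_top, hZ x r⟩

end Pool.Agent.Lib.MP_0d9445_pr.BM.Ex
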