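import Pool.Agent.Lib.MP_0d9445_pr.BM.Exist

/-! Existence of the additive functional of a measure carried by an open set. -/

open MeasureTheory ProbabilityTheory Set Filter Topology
open scoped NNReal ENNReal

noncomputable section

namespace Pool.Agent.Lib.MP_0d9445_pr.BM

variable {W : Measure Path}

namespace ExistPAux

theorem exp_le {u a : ℝ} (hu : 0 < u) (h0 : 0 < a) (h1 : a ≤ 1) : Real.exp (-u) ≤ u ^ (-a) := by
  rcases le_total u 1 with h | h
  · exact (Real.exp_le_one_iff.2 (by linarith)).trans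
      (Real.one_le_rpow_of_pos_of_le_one_of_nonpos hu h (by linarith))
  · refine le_trans ?_ (Real.rpow_le_rpow_of_exponent_le h (neg_le_neg h1))
    rw [Real.rpow_neg_one, Real.exp_neg]
    exact inv_anti₀ hu (by linarith [Real.add_one_le_exp u])

theorem heat_le_pow {t α : ℝ} (ht : 0 < t) (h0 : 0 < α) (h2 : α ≤ 2) {z : ℂ} (hz : 0 < ‖z‖) :
    heat t z ≤ t ^ (α / 2 - 1) * ‖z‖ ^ (-α) := by
  have hπ := Real.pi_gt_three
  have h1 := exp_le (u := ‖z‖ ^ 2 / (2 * t)) (a := α / 2) (by positivity) (by linarith)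
    (by linarith)
  have h3 : (‖z‖ ^ 2 / (2 * t)) ^ (-(α / 2)) = 2 ^ (α / 2) * t ^ (α / 2) * ‖z‖ ^ (-α) := by
    rw [Real.div_rpow (by positivity) (by positivity), Real.rpow_neg (x := 2 * t) (by positivity),
      div_inv_eq_mul, Real.mul_rpow zero_le_two ht.le, ← Real.rpow_natCast,
      ← Real.rpow_mul hz.le, mul_comm]
    congr 2
    push_cast
    ring
  have h4 : (2 : ℝ) ^ (α / 2) ≤ 2 := by
    simpa using Real.rpow_le_rpow_of_exponent_le (x := 2) one_le_two (show α / 2 ≤ 1 by linarith)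
  have h5 : 0 < t ^ (α / 2) := Real.rpow_pos_of_pos ht _
  have h6 : 0 < ‖z‖ ^ (-α) := Real.rpow_pos_of_pos hz _
  rw [h3] at h1
  calc heat t z ≤ (2 * t)⁻¹ * (2 * t ^ (α / 2) * ‖z‖ ^ (-α)) := by
        unfold heat
        rw [neg_div]
        refine mul_le_mul (inv_anti₀ (by positivity) (by nlinarith)) (h1.trans ?_)
          (Real.exp_pos _).le (by positivity)
        gcongr
    _ = t ^ (α / 2 - 1) * ‖z‖ ^ (-α) := by
        rw [Real.rpow_sub_one ht.ne']
        field_simp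

theorem cauchy {G : ℕ → C(ℝ≥0, ℝ)} (hm : ∀ n, Monotone (G n)) (h0 : ∀ n, G n 0 = 0)
    (h : ∀ T, Summable fun n => G n T) : CauchySeq fun k => ∑ n ∈ Finset.range k, G n := by
  refine (ContinuousMap.summable_of_locally_summable_norm fun K => ?_).hasSum.tendsto_sum_nat.cauchySeq
  obtain ⟨T, hT⟩ := K.isCompact.bddAbove
  have hn : ∀ n t, 0 ≤ G n t := fun n t => h0 n ▸ hm n zero_le
  refine Summable.of_nonneg_of_le (fun _ => norm_nonneg _) (fun n => ?_) (h T)
  refine (ContinuousMap.norm_le _ (hn n T)).2 fun t => ?_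
  rw [ContinuousMap.restrict_apply, Real.norm_of_nonneg (hn n _)]
  exact hm n (hT t.2)

theorem pow_restrict {μ : Measure ℂ} {K S : Set ℂ} (hK : MeasurableSet K) (h : Walk.Frost μ K)
    (hS : MeasurableSet S) (hSK : S ⊆ K) : ∃ C α, Pow (μ.restrict S) C α := by
  obtain ⟨h1, C, α, r₀, h2, h3, h4⟩ := h
  obtain ⟨C', h⟩ := exists_pow hK h1.ne h2 h3 h4 (f := S.indicator 1) (M := 1)
    (fun z => indicator_le_self' (fun _ _ => zero_le) z)
    fun z hz => indicator_of_notMem (fun hh => hz (hSK hh)) _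
  rw [withDensity_indicator_one hS] at h
  exact ⟨C', α, h⟩

end ExistPAux

open ExistPAux

namespace Ex

theorem res_le {α : ℝ} (h0 : 0 < α) (h2 : α ≤ 2) : ∃ C : ℝ≥0, ∀ x y : ℂ, x ≠ y →
    res x y ≤ C * ENNReal.ofReal (‖x - y‖ ^ (-α)) := by
  have hi := Real.GammaIntegral_convergent (s := α / 2) (by linarith)
  refine ⟨(∫⁻ t in Ioi (0 : ℝ), ‖Real.exp (-t) * t ^ (α / 2 - 1)‖ₑ).toNNReal, fun x y hxy => ?_⟩
  rw [ENNReal.coe_toNNReal hi.2.ne, ← lintegral_mul_const' _ _ ENNReal.ofReal_ne_top, res]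
  refine setLIntegral_mono' measurableSet_Ioi fun t ht => ?_
  have hz : 0 < ‖y - x‖ := norm_pos_iff.2 (sub_ne_zero.2 hxy.symm)
  have h1 : 0 ≤ Real.exp (-t) * t ^ (α / 2 - 1) :=
    mul_nonneg (Real.exp_pos _).le (Real.rpow_nonneg (le_of_lt ht) _)
  rw [Real.enorm_eq_ofReal h1, ← ENNReal.ofReal_mul h1, norm_sub_rev x y, mul_assoc]
  exact ENNReal.ofReal_le_ofReal
    (mul_le_mul_of_nonneg_left (heat_le_pow ht h0 h2 hz) (Real.exp_pos _).le)

theorem exists_of_res (hW : IsWiener W) {ν : ℕ → Measure ℂ} (hfin : ∀ n, IsFiniteMeasure (ν n))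
    (hν : ∀ n, ∃ a, CAF W a ∧ Rev W (ν n) a) (hres : ∀ x, potE (Measure.sum ν) x ≠ ∞) :
    ∃ a, CAF W a ∧ Rev W (Measure.sum ν) a := by
  choose a h hR using hν
  obtain ⟨A, hA, hlim⟩ := CAF.limit (SAux.caf_sum h) fun x => by
    let F : ℕ → Path → ℝ≥0∞ := fun n ω =>
      ∫⁻ t, ENNReal.ofReal (Real.exp (-(t : ℝ))) * 1 ∂(dm (a n ω)).measure
    have hF : ∀ n, Measurable (F n) := fun n => measurable_lintegral_stieltjes (h n).dm_meas
      (F := fun p : Path × ℝ≥0 => ENNReal.ofReal (Real.exp (-(p.2 : ℝ))) * 1)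
      ((measurable_snd.coe_nnreal_real.neg.exp.ennreal_ofReal).mul measurable_const)
    have h1 : ∫⁻ ω, ∑' n, F n ω ∂Px W x ≠ ∞ := by
      rw [lintegral_tsum fun n => (hF n).aemeasurable,
        tsum_congr fun n => ((h n).isPCAF hW (hR n)).revuz x (fun _ => 1) measurable_const]
      simpa only [mul_one, potE, lintegral_sum_measure] using hres x
    filter_upwards [ae_lt_top (Measurable.tsum hF) h1] with ω hω
    refine cauchy (fun n => (h n).mono ω) (fun n => (h n).zero ω) fun T => ?_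
    have hn : ∀ n, 0 ≤ a n ω T := fun n => (h n).zero ω ▸ (h n).mono ω zero_le
    have h2 : ∀ n, ENNReal.ofReal (Real.exp (-(T : ℝ)) * a n ω T) ≤ F n ω := fun n => by
      refine le_trans ?_ (setLIntegral_le_lintegral (Iic T) _)
      refine le_trans ?_ (setLIntegral_mono' (f := fun _ => ENNReal.ofReal (Real.exp (-(T : ℝ))))
        measurableSet_Iic fun t ht => ?_)
      · rw [setLIntegral_const, ClockAux.measure_Iic, dm_coe ((h n).mono ω), (h n).zero, sub_zero,
          ENNReal.ofReal_mul (Real.exp_pos _).le]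
      · rw [mul_one]
        exact ENNReal.ofReal_le_ofReal (Real.exp_le_exp.2 (neg_le_neg (NNReal.coe_le_coe.2 ht)))
    refine (summable_mul_left_iff (Real.exp_pos (-(T : ℝ))).ne').1
      (Summable.of_nonneg_of_le (fun n => mul_nonneg (Real.exp_pos _).le (hn n)) (fun n => ?_)
        (ENNReal.summable_toReal hω.ne))
    exact (ENNReal.ofReal_le_iff_le_toReal (ENNReal.ne_top_of_tsum_ne_top hω.ne n)).1 (h2 n)
  refine ⟨A, hA, fun f hf => ?_⟩
  have hm : ∀ n, Measurable fun ω : Path => ∫⁻ t in Iic 1, f (ω t) ∂(dm (a n ω)).measure :=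
    fun n => RevuzAux.measurable_setInt (h n).dm_meas (RevuzAux.measurable_fev hf)
      measurableSet_Iic
  have h1 : ∀ x, ∫⁻ ω, ∫⁻ t in Iic 1, f (ω t) ∂(dm (A ω)).measure ∂Px W x =
      ∑' n, ∫⁻ ω, ∫⁻ t in Iic 1, f (ω t) ∂(dm (a n ω)).measure ∂Px W x := fun x => by
    rw [← lintegral_tsum fun n => (hm n).aemeasurable]
    refine lintegral_congr_ae ?_
    filter_upwards [hlim x] with ω hω
    rw [SAux.measure_sum (fun n => (h n).mono ω) (hA.mono ω) hω,
      Measure.restrict_sum _ measurableSet_Iic, lintegral_sum_measure]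
  simp only [h1]
  rw [lintegral_tsum fun n => (RevuzAux.measurable_lintegral_Px hW (hm n)).aemeasurable,
    tsum_congr fun n => hR n f hf, lintegral_sum_measure]

end Ex

open Ex in
/-- existence of the clock of a measure carried by an open set -/
theorem exists_PCAF_of_loc (hW : IsWiener W) {μ : Measure ℂ} {O : Set ℂ} (hO : IsOpen O)
    (h0 : μ Oᶜ = 0) (hF : ∀ K, IsCompact K → K ⊆ O → Walk.Frost μ K)
    (hb : ∀ x ∉ O, ∃ α ρ : ℝ, 0 < α ∧ α ≤ 2 ∧ 0 < ρ ∧
      ∫⁻ y in Metric.ball x ρ, ENNReal.ofReal (‖x - y‖ ^ (-α)) ∂μ < ∞) :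
    ∃ A, PCAF W μ A := by
  have hae : ∀ᵐ y ∂μ, y ∈ O := h0
  have hloc : ∀ x, ∃ ρ, 0 < ρ ∧ μ (Metric.ball x ρ) < ∞ ∧
      ∫⁻ y in Metric.ball x ρ, res x y ∂μ < ∞ := fun x => by
    by_cases hx : x ∈ O
    · obtain ⟨ρ, hρ, h1⟩ := Metric.nhds_basis_closedBall.mem_iff.1 (hO.mem_nhds hx)
      have h2 := hF _ (isCompact_closedBall x ρ) h1
      obtain ⟨C, α, h3⟩ := pow_restrict Metric.isClosed_closedBall.measurableSet h2
        Metric.isOpen_ball.measurableSet Metric.ball_subset_closedBall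
      exact ⟨ρ, hρ, (measure_mono Metric.ball_subset_closedBall).trans_lt h2.1, h3.potE_lt_top x⟩
    · obtain ⟨α, ρ, h1, h2, h3, h4⟩ := hb x hx
      obtain ⟨C, hC⟩ := res_le h1 h2
      have h5 := (lintegral_mono_set (Metric.ball_subset_ball (min_le_left ρ 1))).trans_lt h4
      have h6 : ∀ᵐ y ∂μ.restrict (Metric.ball x (min ρ 1)), x ≠ y :=
        ae_restrict_of_ae (hae.mono fun y hy e => hx (e ▸ hy))
      refine ⟨min ρ 1, lt_min h3 one_pos, lt_of_le_of_lt ?_ h5, lt_of_le_of_lt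
        (lintegral_mono_ae (h6.mono (hC x))) ?_⟩
      · rw [← setLIntegral_one]
        refine lintegral_mono_ae ?_
        filter_upwards [h6, ae_restrict_mem Metric.isOpen_ball.measurableSet] with y h7 h8
        rw [Metric.mem_ball', dist_eq_norm] at h8
        exact ENNReal.one_le_ofReal.2 (Real.one_le_rpow_of_pos_of_le_one_of_nonpos
          (norm_pos_iff.2 (sub_ne_zero.2 h7)) (h8.le.trans (min_le_right _ _)) (by linarith))
      · rw [lintegral_const_mul' _ _ ENNReal.coe_ne_top]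
        exact ENNReal.mul_lt_top ENNReal.coe_lt_top h5
  have : IsLocallyFiniteMeasure μ := ⟨fun x => by
    obtain ⟨ρ, h1, h2, -⟩ := hloc x
    exact ⟨_, Metric.ball_mem_nhds x h1, h2⟩⟩
  have hS : ∀ n : ℕ, {y : ℂ | ⌊‖y‖⌋₊ = n} ⊆ Metric.closedBall 0 (n + 1) := fun n y hy => by
    rw [mem_closedBall_zero_iff, ← show ⌊‖y‖⌋₊ = n from hy]
    exact (Nat.lt_floor_add_one _).le
  have hfin : ∀ n : ℕ, μ {y : ℂ | ⌊‖y‖⌋₊ = n} ≠ ∞ := fun n =>
    ((measure_mono (hS n)).trans_lt (isCompact_closedBall _ _).measure_lt_top).ne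
  obtain ⟨F, hF1, hF2, hF3, -⟩ := hO.exists_iUnion_isClosed
  have hD : ∀ k, MeasurableSet (disjointed F k) :=
    MeasurableSet.disjointed fun k => (hF1 k).measurableSet
  obtain ⟨C, hC⟩ := res_le one_pos one_le_two
  obtain ⟨a, h1, h2⟩ := exists_of_pieces (μ := μ) hW hfin fun n => by
    have hSm : MeasurableSet {y : ℂ | ⌊‖y‖⌋₊ = n} :=
      (Nat.measurable_floor.comp measurable_norm) (measurableSet_singleton n)
    have hSn := hS n
    have hSf := hfin n
    generalize {y : ℂ | ⌊‖y‖⌋₊ = n} = S at hSm hSn hSf ⊢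
    have hP : ∀ k, ∃ C α, Pow (μ.restrict (S ∩ disjointed F k)) C α := fun k =>
      pow_restrict (K := Metric.closedBall 0 (n + 1) ∩ F k)
        (Metric.isClosed_closedBall.inter (hF1 k)).measurableSet
        (hF _ ((isCompact_closedBall _ _).inter_right (hF1 k)) (inter_subset_right.trans (hF2 k)))
        (hSm.inter (hD k)) (inter_subset_inter hSn (disjointed_subset F k))
    have e : μ.restrict S = Measure.sum fun k => μ.restrict (S ∩ disjointed F k) := by
      rw [← Measure.restrict_iUnion ((disjoint_disjointed F).mono fun _ _ h =>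
        h.mono inter_subset_right inter_subset_right) fun k => hSm.inter (hD k),
        ← inter_iUnion, iUnion_disjointed, hF3]
      exact Measure.restrict_congr_set (inter_ae_eq_left_of_ae_eq_univ (ae_eq_univ.2 h0)).symm
    rw [e]
    refine exists_of_res hW (fun k => (hP k).choose_spec.choose_spec.fin)
      (fun k => exists_finite hW (hP k).choose_spec.choose_spec) fun x => ?_
    obtain ⟨ρ, h1, -, h2⟩ := hloc x
    rw [← e, potE, ← lintegral_add_compl _ (Metric.isOpen_ball (x := x) (ε := ρ)).measurableSet]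
    refine (ENNReal.add_lt_top.2 ⟨lt_of_le_of_lt (lintegral_mono' (Measure.restrict_mono
      subset_rfl Measure.restrict_le_self) le_rfl) h2, lt_of_le_of_lt (setLIntegral_mono'
        (g := fun _ => C * ENNReal.ofReal (ρ ^ (-1 : ℝ)))
        Metric.isOpen_ball.measurableSet.compl fun y hy => ?_) ?_⟩).ne
    · rw [mem_compl_iff, Metric.mem_ball', dist_eq_norm, not_lt] at hy
      refine (hC x y (sub_ne_zero.1 (norm_pos_iff.1 (h1.trans_le hy)))).trans ?_
      exact mul_le_mul_right (ENNReal.ofReal_le_ofReal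
        (Real.rpow_le_rpow_of_nonpos h1 hy (by norm_num))) _
    · rw [setLIntegral_const]
      refine ENNReal.mul_lt_top (ENNReal.mul_lt_top ENNReal.coe_lt_top ENNReal.ofReal_lt_top)
        ((measure_mono (subset_univ _)).trans_lt ?_)
      rw [Measure.restrict_apply_univ]
      exact hSf.lt_top
  exact ⟨_, h1.pcaf h2⟩

end Pool.Agent.Lib.MP_0d9445_pr.BM
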