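import Pool.Agent.Lib.MP_0d9445_pr.BM.Strong

open MeasureTheory ProbabilityTheory Set Filter Topology Metric
open scoped NNReal ENNReal Laplacian

noncomputable section

namespace Pool.Agent.Lib.MP_0d9445_pr.BM

variable {U V : Set ℂ} {ω : Path}

theorem exitT_le_of_notMem {t : ℝ≥0} (h : ω t ∉ U) : exitT U ω ≤ t := by
  unfold exitT
  exact iInf₂_le t h

theorem mem_of_lt_exitT {t : ℝ≥0} (h : (t : ℝ≥0∞) < exitT U ω) : ω t ∈ U := by
  by_contra hc
  exact absurd h (not_lt.2 (exitT_le_of_notMem hc))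

theorem exitT_mono (h : U ⊆ V) (ω : Path) : exitT U ω ≤ exitT V ω := by
  refine le_iInf₂ fun t ht => ?_
  exact exitT_le_of_notMem fun hU => ht (h hU)

theorem notMem_exitT (hU : IsOpen U) (h : exitT U ω < ∞) : ω (exitT U ω).toNNReal ∉ U := by
  have hcl : IsClosed {t : ℝ≥0 | ω t ∉ U} := (hU.preimage ω.continuous).isClosed_compl
  have hne : {t : ℝ≥0 | ω t ∉ U}.Nonempty := by
    unfold exitT at h
    obtain ⟨t, ht⟩ := iInf_lt_iff.1 h
    obtain ⟨ht', -⟩ := iInf_lt_iff.1 ht
    exact ⟨t, ht'⟩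
  have hmem := hcl.csInf_mem hne (OrderBot.bddBelow _)
  have heq : exitT U ω = ((sInf {t : ℝ≥0 | ω t ∉ U} : ℝ≥0) : ℝ≥0∞) := by
    refine le_antisymm (exitT_le_of_notMem hmem) (le_iInf₂ fun t ht => ?_)
    exact ENNReal.coe_le_coe.2 (csInf_le (OrderBot.bddBelow _) ht)
  rw [heq, ENNReal.toNNReal_coe]
  exact hmem

theorem exitT_le_iff (hU : IsOpen U) {t : ℝ≥0} : exitT U ω ≤ t ↔ ∃ s ≤ t, ω s ∉ U := by
  constructor
  · intro h
    have hfin : exitT U ω < ∞ := h.trans_lt ENNReal.coe_lt_top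
    refine ⟨(exitT U ω).toNNReal, ?_, notMem_exitT hU hfin⟩
    rw [← ENNReal.coe_le_coe, ENNReal.coe_toNNReal hfin.ne]
    exact h
  · rintro ⟨s, hs, h⟩
    exact (exitT_le_of_notMem h).trans (ENNReal.coe_le_coe.2 hs)

theorem exitT_pos (hU : IsOpen U) (h : ω 0 ∈ U) : 0 < exitT U ω := by
  by_contra hc
  have h1 : exitT U ω ≤ ((0 : ℝ≥0) : ℝ≥0∞) := by simpa using hc
  obtain ⟨s, hs, hs'⟩ := (exitT_le_iff hU).1 h1
  have : s = 0 := le_antisymm hs zero_le
  exact hs' (this ▸ h)

theorem mem_closure_of_le_exitT (h0 : ω 0 ∈ closure U) {t : ℝ≥0} (h : (t : ℝ≥0∞) ≤ exitT U ω) :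
    ω t ∈ closure U := by
  rcases eq_or_lt_of_le (zero_le : (0 : ℝ≥0) ≤ t) with h1 | h1
  · exact h1 ▸ h0
  · have h2 : t ∈ closure (Iio t) := by
      rw [closure_Iio' (a := t) ⟨0, h1⟩]
      exact self_mem_Iic
    refine map_mem_closure ω.continuous h2 fun s hs => ?_
    exact mem_of_lt_exitT ((ENNReal.coe_lt_coe.2 hs).trans_le h)

theorem exitT_shift {t : ℝ≥0} (h : (t : ℝ≥0∞) ≤ exitT U ω) :
    exitT U ω = t + exitT U (shift t ω) := by
  refine le_antisymm ?_ (le_iInf₂ fun s hs => ?_)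
  · have h1 : (t : ℝ≥0∞) + exitT U (shift t ω) =
        ⨅ (s : ℝ≥0) (_ : shift t ω s ∉ U), ((t : ℝ≥0∞) + s) := by
      unfold exitT
      simp only [ENNReal.add_iInf]
    rw [h1]
    refine le_iInf₂ fun s hs => ?_
    rw [← ENNReal.coe_add]
    exact exitT_le_of_notMem hs
  · have h1 : t ≤ s := ENNReal.coe_le_coe.1 (h.trans (exitT_le_of_notMem hs))
    obtain ⟨u, rfl⟩ := exists_add_of_le h1
    rw [ENNReal.coe_add]
    exact add_le_add le_rfl (exitT_le_of_notMem (ω := shift t ω) hs)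

theorem exitT_start (x : ℂ) : exitT U (start x ω) = exitT ((fun z => x + z) ⁻¹' U) ω := rfl

theorem lowerSemicontinuous_exitT (hU : IsOpen U) : LowerSemicontinuous (exitT U) := by
  rw [lowerSemicontinuous_iff_isOpen_preimage]
  intro y
  induction y using ENNReal.recTopCoe with
  | top => simp
  | coe t =>
    have h1 : exitT U ⁻¹' Ioi (t : ℝ≥0∞) = {η : Path | MapsTo η (Icc 0 t) U} := by
      ext η
      simp only [mem_preimage, mem_Ioi, mem_ofPred_eq]
      rw [← not_le, exitT_le_iff hU]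
      constructor
      · intro h s hs
        by_contra hc
        exact h ⟨s, hs.2, hc⟩
      · rintro h ⟨s, hs, hc⟩
        exact hc (h ⟨zero_le, hs⟩)
    rw [h1]
    exact ContinuousMap.isOpen_setOfPred_mapsTo isCompact_Icc hU

theorem measurable_exitT (hU : IsOpen U) : Measurable (exitT U) := by
  exact (lowerSemicontinuous_exitT hU).measurable

/-- joint measurability for discs with moving centre and radius -/
theorem measurable_exitT_ball : Measurable fun p : (ℂ × ℝ) × Path => exitT (ball p.1.1 p.1.2) p.2 := by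
  let G : (ℂ × ℝ) × Path → Path := fun p =>
    ⟨fun s => ((dist (p.2 s) p.1.1 - p.1.2 : ℝ) : ℂ), by fun_prop⟩
  have hG : Measurable G := by
    refine measurable_path_iff.2 fun s => ?_
    have h1 : Measurable fun p : (ℂ × ℝ) × Path => p.2 s := (measurable_evalAt s).comp measurable_snd
    exact Complex.measurable_ofReal.comp
      ((h1.dist (measurable_fst.comp measurable_fst)).sub (measurable_snd.comp measurable_fst))
  have hO : IsOpen {z : ℂ | z.re < 0} := isOpen_lt Complex.continuous_re continuous_const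
  have h2 : (fun p : (ℂ × ℝ) × Path => exitT (ball p.1.1 p.1.2) p.2) =
      fun p => exitT {z : ℂ | z.re < 0} (G p) := by
    funext p
    unfold exitT
    refine iInf_congr fun s => ?_
    have h3 : p.2 s ∉ ball p.1.1 p.1.2 ↔ G p s ∉ {z : ℂ | z.re < 0} := by
      simp [G, mem_ball]
    simp only [h3]
  rw [h2]
  exact (measurable_exitT hO).comp hG

/-- exit times of increasing open sets increase to the exit time of the union -/
theorem iSup_exitT {Un : ℕ → Set ℂ} (hm : Monotone Un) (ho : ∀ n, IsOpen (Un n)) (ω : Path) :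
    ⨆ n, exitT (Un n) ω = exitT (⋃ n, Un n) ω := by
  refine le_antisymm (iSup_le fun n => exitT_mono (subset_iUnion Un n) ω) ?_
  refine le_of_forall_lt fun c hc => ?_
  induction c using ENNReal.recTopCoe with
  | top => exact absurd hc (by simp)
  | coe t =>
    have hK : IsCompact (ω '' Icc 0 t) := isCompact_Icc.image ω.continuous
    have hsub : ω '' Icc 0 t ⊆ ⋃ n, Un n := by
      rintro _ ⟨s, hs, rfl⟩
      exact mem_of_lt_exitT ((ENNReal.coe_le_coe.2 hs.2).trans_lt hc)
    obtain ⟨n, hn⟩ := hK.elim_directed_cover Un ho hsub hm.directed_le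
    refine lt_of_lt_of_le ?_ (le_iSup (fun n => exitT (Un n) ω) n)
    rw [← not_le, exitT_le_iff (ho n)]
    rintro ⟨s, hs, hs'⟩
    exact hs' (hn ⟨s, ⟨zero_le, hs⟩, rfl⟩)

variable {Ω : Type*} {m : MeasurableSpace Ω} {W : Measure Path} {𝓕 : Filtration ℝ≥0 m}
  {B : Ω → Path} {P : Measure Ω} {τ : Ω → ℝ≥0∞}

namespace ExitAux

theorem measurable_stop (ha : ∀ t, Measurable[𝓕 t] fun ω => B ω t) (t : ℝ≥0) :
    Measurable[𝓕 t] fun ω => stop t (B ω) := by
  refine (measurable_path_iff (mα := 𝓕 t)).2 fun s => ?_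
  exact (ha (min s t)).mono (𝓕.mono (min_le_right s t)) le_rfl

theorem add_exitT_lt_iff {a c : ℝ≥0∞} {η : Path} :
    a + exitT U η < c ↔ ∃ s : ℝ≥0, η s ∉ U ∧ a + s < c := by
  unfold exitT
  simp only [ENNReal.add_iInf, iInf_lt_iff, exists_prop]

theorem measurable_min (hτ : Opt 𝓕 τ) (t : ℝ≥0) :
    Measurable[𝓕 t] fun ω => min (τ ω) (t : ℝ≥0∞) := by
  refine @measurable_of_Iio _ _ _ _ _ (𝓕 t) _ _ _ _ fun c => ?_
  rcases lt_or_ge (t : ℝ≥0∞) c with h | h
  · have h1 : (fun ω => min (τ ω) (t : ℝ≥0∞)) ⁻¹' Iio c = univ := by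
      ext ω
      simp [h]
    rw [h1]
    exact MeasurableSet.univ
  · lift c to ℝ≥0 using (h.trans_lt ENNReal.coe_lt_top).ne
    have h1 : (fun ω => min (τ ω) (t : ℝ≥0∞)) ⁻¹' Iio (c : ℝ≥0∞) = {ω | τ ω < c} := by
      ext ω
      simp only [mem_preimage, mem_Iio, min_lt_iff, mem_ofPred_eq, not_lt.2 h, or_false]
    rw [h1]
    exact 𝓕.mono (ENNReal.coe_le_coe.1 h) _ (hτ c)

theorem measurable_exit_after {α : Type*} {mα : MeasurableSpace α} {a : α → ℝ≥0} {F : α → Path}
    (ha : Measurable a) (hF : Measurable F) (δ : ℝ) :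
    Measurable fun x => exitT (ball (F x (a x)) δ) (shift (a x) (F x)) := by
  have h1 : Measurable fun p : Path × ℝ≥0 => p.1 p.2 := continuous_evalPath.measurable
  have h2 : Measurable fun p : ℝ≥0 × Path => shift p.1 p.2 := continuous_shift.measurable
  have hv : Measurable fun x => F x (a x) := by
    have := h1.comp (hF.prodMk ha)
    simpa only [Function.comp_def] using this
  have hs : Measurable fun x => shift (a x) (F x) := by
    have := h2.comp (ha.prodMk hF)
    simpa only [Function.comp_def] using this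
  have := measurable_exitT_ball.comp ((hv.prodMk (measurable_const (a := δ))).prodMk hs)
  simpa only [Function.comp_def] using this

end ExitAux

theorem opt_exitT (ha : ∀ t, Measurable[𝓕 t] fun ω => B ω t) (hU : IsOpen U) :
    Opt 𝓕 fun ω => exitT U (B ω) := by
  refine Opt.of_le fun t => ?_
  have h1 : {ω | exitT U (B ω) ≤ t} =
      (fun ω => exitT U (stop t (B ω))) ⁻¹' Iic (t : ℝ≥0∞) := by
    ext ω
    simp only [mem_ofPred_eq, mem_preimage, mem_Iic, exitT_le_iff hU, stop_apply]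
    constructor
    · rintro ⟨s, hs, h⟩
      exact ⟨s, hs, by rwa [min_eq_left hs]⟩
    · rintro ⟨s, hs, h⟩
      exact ⟨s, hs, by rwa [min_eq_left hs] at h⟩
  rw [h1]
  exact ((measurable_exitT hU).comp (ExitAux.measurable_stop ha t)) measurableSet_Iic

/-- the first exit after `τ` from the disc of radius `δ` about the position at time `τ` -/
theorem opt_add_exitT (ha : ∀ t, Measurable[𝓕 t] fun ω => B ω t) (hτ : Opt 𝓕 τ) (δ : ℝ) :
    Opt 𝓕 fun ω => τ ω + exitT (ball (B ω (τ ω).toNNReal) δ) (shift (τ ω).toNNReal (B ω)) := by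
  intro t
  have hB := ExitAux.measurable_stop ha t
  have hm := ExitAux.measurable_min hτ t
  have ha' : Measurable[𝓕 t] fun ω => (min (τ ω) (t : ℝ≥0∞)).toNNReal := hm.ennreal_toNNReal
  have he := ExitAux.measurable_exit_after ha' hB δ
  have h1 : {ω | τ ω + exitT (ball (B ω (τ ω).toNNReal) δ) (shift (τ ω).toNNReal (B ω)) < t} =
      (fun ω => min (τ ω) (t : ℝ≥0∞) +
        exitT (ball (stop t (B ω) (min (τ ω) (t : ℝ≥0∞)).toNNReal) δ)
          (shift (min (τ ω) (t : ℝ≥0∞)).toNNReal (stop t (B ω)))) ⁻¹' Iio (t : ℝ≥0∞) := by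
    ext ω
    simp only [mem_ofPred_eq, mem_preimage, mem_Iio]
    rcases lt_or_ge (τ ω) (t : ℝ≥0∞) with h | h
    · rw [min_eq_left h.le]
      obtain ⟨a, ha⟩ : ∃ a : ℝ≥0, τ ω = a :=
        ⟨(τ ω).toNNReal, (ENNReal.coe_toNNReal (h.trans ENNReal.coe_lt_top).ne).symm⟩
      rw [ha] at h ⊢
      have hat : a ≤ t := (ENNReal.coe_lt_coe.1 h).le
      simp only [ENNReal.toNNReal_coe, ExitAux.add_exitT_lt_iff, shift_apply, stop_apply,
        min_eq_left hat]
      refine exists_congr fun s => and_congr_left fun hs => ?_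
      have h2 : a + s ≤ t := by
        rw [← ENNReal.coe_add] at hs
        exact (ENNReal.coe_lt_coe.1 hs).le
      rw [min_eq_left h2]
    · rw [min_eq_right h]
      exact iff_of_false (not_lt.2 (h.trans le_self_add)) (not_lt.2 le_self_add)
  rw [h1]
  exact (hm.add he) measurableSet_Iio

end Pool.Agent.Lib.MP_0d9445_pr.BM
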