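import Mathlib

/-! Brownian motion grows sublinearly. -/

open MeasureTheory ProbabilityTheory Set Filter Topology
open scoped NNReal ENNReal

namespace Pool.Agent.Lib.MP_0d9445_pr.BM

namespace GrowthAux

variable {Ω : Type} [MeasurableSpace Ω] {P : Measure Ω} {b c : ℝ≥0 → Ω → ℝ}

theorem aem (hb : IsPreBrownianReal b P) (τ : ℕ → ℝ≥0) :
    AEMeasurable (fun ω j => b (τ j) ω) P :=
  aemeasurable_pi_lambda _ fun j => hb.aemeasurable (τ j)

/-- two pre-Brownian motions have the same law along a sequence of times -/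
theorem law_eq (hb : IsPreBrownianReal b P) (hc : IsPreBrownianReal c P) (τ : ℕ → ℝ≥0) :
    P.map (fun ω j => b (τ j) ω) = P.map fun ω j => c (τ j) ω := by
  classical
  have := hb.isGaussianProcess.isProbabilityMeasure
  refine (map_eq_iff_forall_finset_map_restrict_eq (X := fun j => b (τ j)) (Y := fun j => c (τ j))
    (aem hb τ) (aem hc τ)).2 fun I => ?_
  let r : (I.image τ → ℝ) → (I → ℝ) := fun x i => x ⟨τ i, Finset.mem_image_of_mem τ i.2⟩
  have hr : Measurable r := measurable_pi_lambda _ fun i => measurable_pi_apply _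
  have h1 := AEMeasurable.map_map_of_aemeasurable hr.aemeasurable
    (hb.hasLaw (I.image τ)).aemeasurable
  have h2 := AEMeasurable.map_map_of_aemeasurable hr.aemeasurable
    (hc.hasLaw (I.image τ)).aemeasurable
  rw [(hb.hasLaw _).map_eq] at h1
  rw [(hc.hasLaw _).map_eq] at h2
  exact h1.symm.trans h2

theorem far (hb : IsBrownianReal b P) (u : ℕ → ℝ≥0) : ∀ᵐ ω ∂P, ∀ n : ℕ, ∃ k : ℕ, ∀ j,
    (k + 1 : ℝ≥0) < u j → |((1 / u j : ℝ≥0) : ℝ) * b (1 / (1 / u j)) ω| ≤ 1 / (n + 1 : ℝ) := by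
  have hE : MeasurableSet {w : ℕ → ℝ | ∀ n : ℕ, ∃ k : ℕ, ∀ j,
      (k + 1 : ℝ≥0) < u j → |w j| ≤ 1 / (n + 1 : ℝ)} := by
    simp only [ofPred_forall, ofPred_exists]
    refine MeasurableSet.iInter fun n => MeasurableSet.iUnion fun k =>
      MeasurableSet.iInter fun j => MeasurableSet.iInter fun _ => ?_
    exact measurableSet_le (measurable_pi_apply j).abs measurable_const
  have h1 : ∀ᵐ w ∂P.map (fun ω j => b (1 / u j) ω), ∀ n : ℕ, ∃ k : ℕ, ∀ j,
      (k + 1 : ℝ≥0) < u j → |w j| ≤ 1 / (n + 1 : ℝ) := by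
    refine (ae_map_iff (aem hb.toIsPreBrownianReal fun j => 1 / u j) hE).2 ?_
    filter_upwards [hb.tendsto_nhds_zero] with ω hω n
    obtain ⟨η, hη, h⟩ := Metric.tendsto_nhds_nhds.1 hω (1 / (n + 1 : ℝ)) (by positivity)
    obtain ⟨k, hk⟩ := exists_nat_one_div_lt hη
    refine ⟨k, fun j hj => ?_⟩
    have h2 : (k + 1 : ℝ) < u j := by exact_mod_cast hj
    have h3 : dist (1 / u j) 0 < η := by
      rw [NNReal.dist_eq, NNReal.coe_zero, sub_zero, abs_of_nonneg (NNReal.coe_nonneg _),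
        NNReal.coe_div, NNReal.coe_one]
      exact (one_div_lt_one_div_of_lt (by positivity) h2).trans hk
    have h4 := h h3
    rw [Real.dist_eq, sub_zero] at h4
    exact h4.le
  rw [law_eq hb.toIsPreBrownianReal hb.toIsPreBrownianReal.inv fun j => 1 / u j] at h1
  exact ae_of_ae_map (aem hb.toIsPreBrownianReal.inv fun j => 1 / u j) h1

end GrowthAux

theorem growth {Ω : Type} [MeasurableSpace Ω] {P : Measure Ω} {b : ℝ≥0 → Ω → ℝ}
    (hb : IsBrownianReal b P) :
    ∀ᵐ ω ∂P, ∀ δ : ℝ, 0 < δ → ∃ C : ℝ, ∀ s : ℝ≥0, |b s ω| ≤ δ * s + C := by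
  filter_upwards [GrowthAux.far hb (TopologicalSpace.denseSeq ℝ≥0), hb.cont] with ω h1 h2 δ hδ
  obtain ⟨n, hn⟩ := exists_nat_one_div_lt hδ
  obtain ⟨k, hk⟩ := h1 n
  obtain ⟨C, hC⟩ := (isCompact_Icc (a := (0 : ℝ≥0)) (b := k + 1)).exists_bound_of_continuousOn
    h2.continuousOn
  have hC0 : 0 ≤ C := (norm_nonneg _).trans (hC 0 ⟨le_rfl, zero_le⟩)
  refine ⟨C, fun s => ?_⟩
  rcases le_or_gt s (k + 1) with hs | hs
  · have h3 : 0 ≤ δ * s := by positivity
    exact (hC s ⟨zero_le, hs⟩).trans (by linarith)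
  · have hcl : IsClosed {s : ℝ≥0 | |b s ω| ≤ δ * s} :=
      isClosed_le h2.abs (continuous_const.mul NNReal.continuous_coe)
    have h3 := (TopologicalSpace.denseRange_denseSeq ℝ≥0).open_subset_closure_inter
      (isOpen_Ioi (a := (k + 1 : ℝ≥0))) hs
    refine le_trans (hcl.closure_subset_iff.2 ?_ h3) (by linarith)
    rintro _ ⟨hj, j, rfl⟩
    have h4 := hk j hj
    set t := TopologicalSpace.denseSeq ℝ≥0 j
    have h5 : (0 : ℝ) < t := by
      have : (k + 1 : ℝ) < t := by exact_mod_cast hj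
      exact lt_trans (by positivity) this
    rw [one_div_one_div, abs_mul, abs_of_nonneg (NNReal.coe_nonneg _), NNReal.coe_div,
      NNReal.coe_one, one_div_mul_eq_div, div_le_iff₀ h5] at h4
    exact h4.trans (mul_le_mul_of_nonneg_right hn.le h5.le)

end Pool.Agent.Lib.MP_0d9445_pr.BM
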