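import Pool.Agent.Lib.MP_0d9445_pr.BM.Clock

/-!
Deterministic time change: a Stieltjes measure on the half line is the image of Lebesgue measure
under the generalised inverse.
-/

open MeasureTheory ProbabilityTheory Set Filter Topology Metric
open scoped NNReal ENNReal

noncomputable section

namespace Pool.Agent.Lib.MP_0d9445_pr.BM

/-- the first time at which `a` exceeds `r` -/
def ginv (a : ℝ≥0 → ℝ) (r : ℝ) : ℝ≥0∞ := ⨅ (s : ℝ≥0) (_ : r < a s), (s : ℝ≥0∞)

theorem ginv_lt_iff {a : ℝ≥0 → ℝ} {r : ℝ} {c : ℝ≥0∞} :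
    ginv a r < c ↔ ∃ s : ℝ≥0, (s : ℝ≥0∞) < c ∧ r < a s := by
  simp only [ginv, iInf_lt_iff]
  exact ⟨fun ⟨s, h1, h2⟩ => ⟨s, h2, h1⟩, fun ⟨s, h1, h2⟩ => ⟨s, h2, h1⟩⟩

theorem ginv_le {a : ℝ≥0 → ℝ} {r : ℝ} {s : ℝ≥0} (h : r < a s) : ginv a r ≤ s := iInf₂_le s h

theorem ginv_mono (a : ℝ≥0 → ℝ) : Monotone (ginv a) := fun _ _ h =>
  le_iInf₂ fun _ hs => ginv_le (h.trans_lt hs)

theorem le_of_lt_ginv {a : ℝ≥0 → ℝ} {r : ℝ} {s : ℝ≥0} (h : (s : ℝ≥0∞) < ginv a r) : a s ≤ r :=
  not_lt.mp fun h' => not_le.mpr h (ginv_le h')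

variable {a b : StieltjesFunction ℝ≥0}

theorem ginv_lt_iff_rat {r : ℝ} {c : ℝ≥0∞} :
    ginv a r < c ↔ ∃ q : ℚ, (Real.toNNReal q : ℝ≥0∞) < c ∧ r < a (Real.toNNReal q) := by
  rw [ginv_lt_iff]
  refine ⟨fun ⟨s, h1, h2⟩ => ?_, fun ⟨q, h1, h2⟩ => ⟨_, h1, h2⟩⟩
  obtain ⟨q, -, hq1, hq2⟩ := ENNReal.lt_iff_exists_rat_btwn.mp h1
  exact ⟨q, hq2, h2.trans_le (a.mono (ENNReal.coe_lt_coe.mp hq1).le)⟩

theorem le_of_ginv_le {r : ℝ} {s : ℝ≥0} (h : ginv a r ≤ s) : r ≤ a s := by
  have h1 : Tendsto a (𝓝[>] s) (𝓝 (a s)) :=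
    (a.right_continuous s).tendsto.mono_left (nhdsWithin_mono _ Ioi_subset_Ici_self)
  refine ge_of_tendsto h1 (eventually_nhdsWithin_of_forall fun u hu => ?_)
  obtain ⟨v, hv1, hv2⟩ := ginv_lt_iff.mp (h.trans_lt (ENNReal.coe_lt_coe.mpr hu))
  exact hv2.le.trans (a.mono (ENNReal.coe_lt_coe.mp hv1).le)

/-- a continuous clock takes the value `r` at the inverse time -/
theorem apply_ginv (hc : Continuous a) {r : ℝ} (h0 : a 0 ≤ r) (hf : ginv a r < ∞) :
    a (ginv a r).toNNReal = r := by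
  lift ginv a r to ℝ≥0 using hf.ne with s hs
  rw [ENNReal.toNNReal_coe]
  refine le_antisymm ?_ (le_of_ginv_le hs.ge)
  rcases eq_or_ne s 0 with rfl | hs0
  · exact h0
  · have h1 : Tendsto a (𝓝[<] s) (𝓝 (a s)) := hc.continuousAt.tendsto.mono_left nhdsWithin_le_nhds
    have : (𝓝[<] s).NeBot := nhdsLT_neBot_of_exists_lt ⟨0, pos_of_ne_zero hs0⟩
    refine le_of_tendsto h1 (eventually_nhdsWithin_of_forall fun u hu => le_of_lt_ginv ?_)
    rw [← hs]
    exact ENNReal.coe_lt_coe.mpr hu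

theorem ginv_lt_of_lt (hc : Continuous a) {r : ℝ} (h0 : a 0 ≤ r) {s : ℝ≥0} (h : r < a s) :
    ginv a r < s := by
  refine lt_of_le_of_ne (ginv_le h) fun e => ?_
  have := apply_ginv hc h0 (e ▸ ENNReal.coe_lt_top)
  rw [e, ENNReal.toNNReal_coe] at this
  exact h.ne' this

theorem ginv_strict (hc : Continuous a) {r r' : ℝ} (h0 : a 0 ≤ r) (h : r < r')
    (hf : ginv a r < ∞) : ginv a r < ginv a r' := by
  refine lt_of_le_of_ne (ginv_mono a h.le) fun e => ?_
  have h1 := apply_ginv hc h0 hf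
  have h2 := apply_ginv hc (h0.trans h.le) (e ▸ hf)
  rw [← e, h1] at h2
  exact h.ne h2

theorem ext_of_Iic_nnreal {μ ν : Measure ℝ≥0} (hμ : ∀ s, μ (Iic s) ≠ ∞)
    (h : ∀ s, μ (Iic s) = ν (Iic s)) : μ = ν := by
  refine Measure.ext_of_iUnion_eq_univ (s := fun n : ℕ => Iic (n : ℝ≥0)) ?_ fun n => ?_
  · exact eq_univ_of_forall fun s => mem_iUnion.mpr (exists_nat_ge s)
  · have : IsFiniteMeasure (μ.restrict (Iic (n : ℝ≥0))) := ⟨by simpa using (hμ n).lt_top⟩
    refine Measure.ext_of_Iic _ _ fun s => ?_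
    rw [Measure.restrict_apply measurableSet_Iic, Measure.restrict_apply measurableSet_Iic,
      Iic_inter_Iic, h]

theorem measure_Iic_nnreal (a : StieltjesFunction ℝ≥0) (s : ℝ≥0) :
    a.measure (Iic s) = ENNReal.ofReal (a s - a 0) := by
  refine a.measure_Iic ?_ s
  rw [OrderBot.atBot_eq]
  exact tendsto_pure_nhds _ _

theorem measurable_ginv_pair {α : Type*} {mα : MeasurableSpace α} {A : α → StieltjesFunction ℝ≥0}
    (hA : ∀ t, Measurable fun x => A x t) : Measurable fun p : α × ℝ => ginv (A p.1) p.2 := by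
  refine measurable_of_Iio fun c => ?_
  have : (fun p : α × ℝ => ginv (A p.1) p.2) ⁻¹' Iio c = ⋃ q : ℚ,
      ⋃ _ : (Real.toNNReal q : ℝ≥0∞) < c, {p : α × ℝ | p.2 < A p.1 (Real.toNNReal q)} := by
    ext p
    simp only [mem_preimage, mem_Iio, mem_iUnion, mem_ofPred_eq, exists_prop, ginv_lt_iff_rat]
  rw [this]
  exact .iUnion fun q => .iUnion fun _ =>
    measurableSet_lt measurable_snd ((hA _).comp measurable_fst)

theorem measurable_ginv (a : StieltjesFunction ℝ≥0) : Measurable (ginv a) :=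
  (ginv_mono a).measurable

/-- the range of the clock -/
def rng (a : ℝ≥0 → ℝ) : Set ℝ := {r | a 0 < r ∧ ginv a r < ∞}

theorem measurableSet_rng (a : StieltjesFunction ℝ≥0) : MeasurableSet (rng a) :=
  measurableSet_Ioi.inter (measurable_ginv a measurableSet_Iio)

theorem measure_eq_map (a : StieltjesFunction ℝ≥0) :
    a.measure = (volume.restrict (rng a)).map fun r => (ginv a r).toNNReal := by
  refine ext_of_Iic_nnreal (fun s => by simp [measure_Iic_nnreal]) fun s => ?_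
  have hm := (measurable_ginv a).ennreal_toNNReal
  rw [measure_Iic_nnreal, Measure.map_apply hm measurableSet_Iic,
    Measure.restrict_apply (hm measurableSet_Iic)]
  apply le_antisymm
  · rw [← Real.volume_Ioo]
    refine measure_mono fun r hr => ⟨?_, hr.1, (ginv_le hr.2).trans_lt ENNReal.coe_lt_top⟩
    simpa using ENNReal.toNNReal_mono ENNReal.coe_ne_top (ginv_le hr.2)
  · rw [← Real.volume_Ioc]
    refine measure_mono fun r hr => ⟨hr.2.1, le_of_ginv_le ?_⟩
    rw [← ENNReal.coe_toNNReal hr.2.2.ne]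
    exact ENNReal.coe_le_coe.mpr hr.1

theorem lintegral_stieltjes (a : StieltjesFunction ℝ≥0) {f : ℝ≥0 → ℝ≥0∞} (hf : Measurable f) :
    ∫⁻ t, f t ∂a.measure = ∫⁻ r in rng a, f (ginv a r).toNNReal := by
  rw [measure_eq_map, lintegral_map hf (measurable_ginv a).ennreal_toNNReal]

theorem integral_stieltjes (a : StieltjesFunction ℝ≥0) {f : ℝ≥0 → ℝ} (hf : Measurable f) :
    ∫ t, f t ∂a.measure = ∫ r in rng a, f (ginv a r).toNNReal := by
  rw [measure_eq_map, integral_map (measurable_ginv a).ennreal_toNNReal.aemeasurable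
    hf.aestronglyMeasurable]

theorem meas_lintegral_stj {α : Type*} {mα : MeasurableSpace α}
    {A : α → StieltjesFunction ℝ≥0} (hA : ∀ t, Measurable fun x => A x t) {F : α × ℝ≥0 → ℝ≥0∞}
    (hF : Measurable F) : Measurable fun x => ∫⁻ t, F (x, t) ∂(A x).measure := by
  have hg := measurable_ginv_pair hA
  have hS : MeasurableSet {p : α × ℝ | p.2 ∈ rng (A p.1)} :=
    (measurableSet_lt ((hA 0).comp measurable_fst) measurable_snd).inter (hg measurableSet_Iio)
  have h1 : Measurable ({p : α × ℝ | p.2 ∈ rng (A p.1)}.indicator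
      fun p => F (p.1, (ginv (A p.1) p.2).toNNReal)) :=
    (hF.comp (measurable_fst.prodMk hg.ennreal_toNNReal)).indicator hS
  have h2 := h1.lintegral_prod_right' (ν := (volume : Measure ℝ))
  convert h2 using 2 with x
  rw [lintegral_stieltjes _ (f := fun t => F (x, t)) (hF.comp measurable_prodMk_left),
    ← lintegral_indicator (measurableSet_rng _)]
  rfl

theorem meas_integral_stj {α : Type*} {mα : MeasurableSpace α}
    {A : α → StieltjesFunction ℝ≥0} (hA : ∀ t, Measurable fun x => A x t) {F : α × ℝ≥0 → ℝ}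
    (hF : Measurable F) : Measurable fun x => ∫ t, F (x, t) ∂(A x).measure := by
  have hg := measurable_ginv_pair hA
  have hS : MeasurableSet {p : α × ℝ | p.2 ∈ rng (A p.1)} :=
    (measurableSet_lt ((hA 0).comp measurable_fst) measurable_snd).inter (hg measurableSet_Iio)
  have h1 : Measurable ({p : α × ℝ | p.2 ∈ rng (A p.1)}.indicator
      fun p => F (p.1, (ginv (A p.1) p.2).toNNReal)) :=
    (hF.comp (measurable_fst.prodMk hg.ennreal_toNNReal)).indicator hS
  have h2 := (h1.stronglyMeasurable.integral_prod_right' (ν := (volume : Measure ℝ))).measurable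
  convert h2 using 2 with x
  rw [integral_stieltjes _ (f := fun t => F (x, t)) (hF.comp measurable_prodMk_left),
    ← integral_indicator (measurableSet_rng _)]
  rfl

/-- additivity at the level of measures -/
theorem restrict_Ioi_eq_map {s : ℝ≥0} (h : ∀ t, a (s + t) = a s + b t) :
    a.measure.restrict (Ioi s) = b.measure.map fun t => s + t := by
  have hb : b 0 = 0 := by simpa using h 0
  have hm : Measurable fun t : ℝ≥0 => s + t := measurable_const_add s
  refine ext_of_Iic_nnreal (fun c => ?_) fun c => ?_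
  · rw [Measure.restrict_apply measurableSet_Iic]
    exact ne_top_of_le_ne_top (by simp [measure_Iic_nnreal]) (measure_mono inter_subset_left)
  rw [Measure.restrict_apply measurableSet_Iic, Measure.map_apply hm measurableSet_Iic,
    Iic_inter_Ioi, a.measure_Ioc]
  rcases le_or_gt s c with hsc | hsc
  · obtain ⟨d, rfl⟩ := exists_add_of_le hsc
    have : (fun t : ℝ≥0 => s + t) ⁻¹' Iic (s + d) = Iic d := by ext t; simp
    rw [this, measure_Iic_nnreal, h, hb]
    simp
  · have : (fun t : ℝ≥0 => s + t) ⁻¹' Iic c = ∅ := by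
      ext t
      simpa using hsc.trans_le le_self_add
    rw [this, measure_empty, ENNReal.ofReal_of_nonpos (sub_nonpos.mpr (a.mono hsc.le))]

theorem lintegral_Ioi_shift {s : ℝ≥0} (h : ∀ t, a (s + t) = a s + b t) {f : ℝ≥0 → ℝ≥0∞}
    (hf : Measurable f) : ∫⁻ t in Ioi s, f t ∂a.measure = ∫⁻ t, f (s + t) ∂b.measure := by
  rw [restrict_Ioi_eq_map h, lintegral_map hf (measurable_const_add s)]

theorem integral_Ioi_shift {s : ℝ≥0} (h : ∀ t, a (s + t) = a s + b t) {f : ℝ≥0 → ℝ}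
    (hf : Measurable f) : ∫ t in Ioi s, f t ∂a.measure = ∫ t, f (s + t) ∂b.measure := by
  rw [restrict_Ioi_eq_map h, integral_map (measurable_const_add s).aemeasurable
    hf.aestronglyMeasurable]

/-- the stopped inverse clock -/
theorem inv_eq (a : ℝ≥0 → ℝ) (O : Set ℂ) (ω : Path) (t : ℝ≥0) :
    inv a O ω t = (min (ginv a t) (exitT O ω)).toNNReal := by
  have h1 : min (ginv a t) (exitT O ω) =
      ⨅ (s : ℝ≥0) (_ : s ∈ {s | (t : ℝ) < a s ∨ ω s ∉ O}), (s : ℝ≥0∞) := by
    simp only [ginv, exitT, mem_ofPred_eq, iInf_or, iInf_inf_eq]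
  rw [h1, inv]
  rcases ({s | (t : ℝ) < a s ∨ ω s ∉ O} : Set ℝ≥0).eq_empty_or_nonempty with h | h
  · rw [h]; simp
  · rw [← ENNReal.coe_sInf h, ENNReal.toNNReal_coe]

end Pool.Agent.Lib.MP_0d9445_pr.BM
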