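import Pool.Agent.Lib.MP_0d9445_pr.BM.Pot
import Pool.Agent.Lib.MP_0d9445_pr.BM.TimeChange

/-!
The potential of the Revuz measure along the motion up to an optional time.
-/

open MeasureTheory ProbabilityTheory Set Filter Topology Metric
open scoped NNReal ENNReal Laplacian

noncomputable section

namespace Pool.Agent.Lib.MP_0d9445_pr.BM

variable {W : Measure Path} {μ : Measure ℂ} {A : Path → StieltjesFunction ℝ≥0}

theorem lintegral_exp_Ioc {c : ℝ} (hc : 0 ≤ c) (t : ℝ) :
    ∫⁻ r in Ioc 0 c, ENNReal.ofReal (Real.exp (r - t)) =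
      ENNReal.ofReal (Real.exp (c - t) - Real.exp (-t)) := by
  have h1 : Continuous fun r : ℝ => Real.exp (r - t) := by fun_prop
  rw [← ofReal_integral_eq_lintegral_ofReal (h1.intervalIntegrable 0 c).1
    (Eventually.of_forall fun r => (Real.exp_pos _).le), ← intervalIntegral.integral_of_le hc,
    intervalIntegral.integral_comp_sub_right Real.exp t, integral_exp, zero_sub]

theorem path_fubini (N : Measure ℝ≥0) [SFinite N] {g : ℝ≥0 → ℝ≥0∞} (hg : Measurable g) (T : ℝ≥0) :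
    ∫⁻ t in Iic T, g t ∂N + ∫⁻ t in Ioi T, ENNReal.ofReal (Real.exp (T - t)) * g t ∂N =
      ∫⁻ t, ENNReal.ofReal (Real.exp (-(t : ℝ))) * g t ∂N +
        ∫⁻ r in Ioc (0 : ℝ) T, ∫⁻ t in Ioi r.toNNReal,
          ENNReal.ofReal (Real.exp (r - t)) * g t ∂N := by
  have hS : MeasurableSet {p : ℝ × ℝ≥0 | p.1.toNNReal < p.2} :=
    measurableSet_lt (by fun_prop) measurable_snd
  have hF : Measurable ({p : ℝ × ℝ≥0 | p.1.toNNReal < p.2}.indicator
      fun p => ENNReal.ofReal (Real.exp (p.1 - p.2)) * g p.2) :=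
    Measurable.indicator (by fun_prop) hS
  have h1 : ∀ r : ℝ, ∫⁻ t in Ioi r.toNNReal, ENNReal.ofReal (Real.exp (r - t)) * g t ∂N =
      ∫⁻ t, {p : ℝ × ℝ≥0 | p.1.toNNReal < p.2}.indicator
        (fun p => ENNReal.ofReal (Real.exp (p.1 - p.2)) * g p.2) (r, t) ∂N := by
    intro r
    rw [← lintegral_indicator measurableSet_Ioi]
    rfl
  have h2 : ∀ t : ℝ≥0, ∫⁻ r in Ioc (0 : ℝ) T, {p : ℝ × ℝ≥0 | p.1.toNNReal < p.2}.indicator
      (fun p => ENNReal.ofReal (Real.exp (p.1 - p.2)) * g p.2) (r, t) =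
      ENNReal.ofReal (Real.exp ((min t T : ℝ≥0) - t) - Real.exp (-t)) * g t := by
    intro t
    rw [← lintegral_exp_Ioc (min t T).coe_nonneg, ← lintegral_mul_const _ (by fun_prop),
      ← lintegral_indicator measurableSet_Ioc, ← lintegral_indicator measurableSet_Ioc]
    refine lintegral_congr_ae ?_
    filter_upwards [compl_mem_ae_iff.mpr (Real.volume_singleton (a := (t : ℝ)))] with r hr
    have hr' : r ≠ t := hr
    by_cases h : r ∈ Ioc (0 : ℝ) (min t T : ℝ≥0)
    · have h3 := h.2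
      rw [NNReal.coe_min, le_min_iff] at h3
      rw [indicator_of_mem h, indicator_of_mem (show r ∈ Ioc (0 : ℝ) T from ⟨h.1, h3.2⟩),
        indicator_of_mem]
      exact (Real.toNNReal_lt_iff_lt_coe h.1.le).mpr (lt_of_le_of_ne h3.1 hr')
    · rw [indicator_of_notMem h]
      by_cases h' : r ∈ Ioc (0 : ℝ) T
      · rw [indicator_of_mem h', indicator_of_notMem]
        intro h4
        refine h ⟨h'.1, ?_⟩
        rw [NNReal.coe_min]
        exact le_min ((Real.toNNReal_lt_iff_lt_coe h'.1.le).mp h4).le h'.2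
      · rw [indicator_of_notMem h']
  simp only [h1]
  rw [lintegral_lintegral_swap (f := fun r t => {p : ℝ × ℝ≥0 | p.1.toNNReal < p.2}.indicator
    (fun p => ENNReal.ofReal (Real.exp (p.1 - p.2)) * g p.2) (r, t)) hF.aemeasurable]
  simp only [h2]
  rw [← lintegral_add_left (by fun_prop)]
  have h3 : ∀ t : ℝ≥0, ENNReal.ofReal (Real.exp (-(t : ℝ))) * g t +
      ENNReal.ofReal (Real.exp ((min t T : ℝ≥0) - t) - Real.exp (-t)) * g t =
      ENNReal.ofReal (Real.exp ((min t T : ℝ≥0) - t)) * g t := by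
    intro t
    rw [← add_mul, ← ENNReal.ofReal_add (Real.exp_pos _).le
      (sub_nonneg.mpr (Real.exp_le_exp.mpr (by linarith [(min t T).coe_nonneg]))), add_sub_cancel]
  simp only [h3]
  rw [← lintegral_add_compl (μ := N) (fun t => ENNReal.ofReal (Real.exp ((min t T : ℝ≥0) - t)) * g t)
    (measurableSet_Iic (a := T)), compl_Iic]
  congr 1
  · refine setLIntegral_congr_fun measurableSet_Iic fun t ht => ?_
    simp [min_eq_left (mem_Iic.mp ht)]
  · refine setLIntegral_congr_fun measurableSet_Ioi fun t ht => ?_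
    simp only [min_eq_right (mem_Ioi.mp ht).le]

/-- the discounted integral along the path -/
def GE (A : Path → StieltjesFunction ℝ≥0) (f : ℂ → ℝ≥0∞) (ω : Path) : ℝ≥0∞ :=
  ∫⁻ t, ENNReal.ofReal (Real.exp (-(t : ℝ))) * f (ω t) ∂(A ω).measure

theorem IsPCAF.measurable_GE (hA : IsPCAF W μ A) {f : ℂ → ℝ≥0∞} (hf : Measurable f) :
    Measurable (GE A f) :=
  meas_lintegral_stj hA.meas
    (F := fun p => ENNReal.ofReal (Real.exp (-(p.2 : ℝ))) * f (p.1 p.2))
    ((by fun_prop : Measurable fun p : Path × ℝ≥0 => ENNReal.ofReal (Real.exp (-(p.2 : ℝ)))).mul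
      (hf.comp continuous_evalPath.measurable))

theorem IsPCAF.lintegral_GE (hA : IsPCAF W μ A) {f : ℂ → ℝ≥0∞} (hf : Measurable f) (x : ℂ) :
    ∫⁻ ω, GE A f ω ∂Px W x = potE (μ.withDensity f) x := by
  rw [potE, lintegral_withDensity_eq_lintegral_mul _ hf (measurable_res_right x)]
  simp only [Pi.mul_apply, mul_comm (f _)]
  exact hA.revuz x f hf

theorem GE_shift {ω : Path} {s : ℝ≥0} (h : ∀ t, A ω (s + t) = A ω s + A (shift s ω) t)
    {f : ℂ → ℝ≥0∞} (hf : Measurable f) :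
    ∫⁻ t in Ioi s, ENNReal.ofReal (Real.exp (s - t)) * f (ω t) ∂(A ω).measure =
      GE A f (shift s ω) := by
  refine (lintegral_Ioi_shift h ((by fun_prop : Measurable fun t : ℝ≥0 =>
    ENNReal.ofReal (Real.exp (s - t))).mul (hf.comp ω.continuous.measurable))).trans ?_
  simp [GE]

theorem lintegral_Ioc_eq {c : ℝ≥0∞} (hc : c ≠ ∞) (F : ℝ → ℝ≥0∞) :
    ∫⁻ r in Ioc (0 : ℝ) c.toReal, F r =
      ∫⁻ r in Ioi (0 : ℝ), (if ENNReal.ofReal r ≤ c then 1 else 0) * F r := by
  rw [← lintegral_indicator measurableSet_Ioc, ← lintegral_indicator measurableSet_Ioi]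
  refine lintegral_congr fun r => ?_
  simp only [indicator, mem_Ioc, mem_Ioi, ENNReal.ofReal_le_iff_le_toReal hc]
  by_cases h1 : 0 < r <;> by_cases h2 : r ≤ c.toReal <;> simp [h1, h2]

/-- Markov property under a time integral up to an optional time -/
theorem IsWiener.markov_run (hW : IsWiener W) (x : ℂ) {τ : Path → ℝ≥0∞} (hτ : Opt filt τ)
    (hfin : ∀ᵐ ω ∂Px W x, τ ω < ∞) {H : Path → ℝ≥0∞} (hH : Measurable H) :
    ∫⁻ ω, (∫⁻ r in Ioc (0 : ℝ) (τ ω).toReal, H (shift r.toNNReal ω)) ∂Px W x =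
      ∫⁻ ω, (∫⁻ r in Ioc (0 : ℝ) (τ ω).toReal, ∫⁻ η, H η ∂Px W (ω r.toNNReal)) ∂Px W x := by
  have := hW.prob_Px x
  have hV : Measurable fun y => ∫⁻ η, H η ∂Px W y :=
    (Measure.measurable_lintegral hH).comp hW.measurable_Px
  have hI : Measurable fun p : Path × ℝ => (if ENNReal.ofReal p.2 ≤ τ p.1 then 1 else 0 : ℝ≥0∞) :=
    Measurable.ite (measurableSet_le (by fun_prop) (hτ.measurable.comp measurable_fst))
      measurable_const measurable_const
  have hr : Measurable fun p : Path × ℝ => p.2.toNNReal := by fun_prop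
  have e1 := lintegral_congr_ae (hfin.mono fun ω hω =>
    lintegral_Ioc_eq hω.ne fun r => H (shift r.toNNReal ω))
  have e2 := lintegral_congr_ae (hfin.mono fun ω hω =>
    lintegral_Ioc_eq hω.ne fun r => ∫⁻ η, H η ∂Px W (ω r.toNNReal))
  have e3 := lintegral_lintegral_swap (μ := Px W x) (ν := volume.restrict (Ioi (0 : ℝ)))
    (f := fun ω r => (if ENNReal.ofReal r ≤ τ ω then 1 else 0 : ℝ≥0∞) * H (shift r.toNNReal ω))
    (hI.mul (hH.comp (hr.path_shift measurable_fst))).aemeasurable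
  have e4 := lintegral_lintegral_swap (μ := Px W x) (ν := volume.restrict (Ioi (0 : ℝ)))
    (f := fun ω r => (if ENNReal.ofReal r ≤ τ ω then 1 else 0 : ℝ≥0∞) *
      ∫⁻ η, H η ∂Px W (ω r.toNNReal))
    (hI.mul (hV.comp (measurable_fst.path_ev hr))).aemeasurable
  rw [e1, e2, e3, e4]
  refine lintegral_congr fun r => ?_
  have hc : Opt filt fun _ : Path => ((r.toNNReal : ℝ≥0) : ℝ≥0∞) := Opt.const _
  have hY : Measurable[hc.ms] fun ω => (if ENNReal.ofReal r ≤ τ ω then 1 else 0 : ℝ≥0∞) := by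
    refine Measurable.ite ⟨measurableSet_le measurable_const hτ.measurable, fun t => ?_⟩
      measurable_const measurable_const
    by_cases h : r.toNNReal < t
    · have : {ω | ENNReal.ofReal r ≤ τ ω} ∩ {_ω | ((r.toNNReal : ℝ≥0) : ℝ≥0∞) < t} =
          {ω | τ ω < r.toNNReal}ᶜ := by
        ext ω
        simp [h, ENNReal.ofReal]
      rw [this]
      exact (filt.mono h.le _ (hτ _)).compl
    · simp [h]
  have h1 := (hW.isFBM_Px x).strong_lintegral hc hY (Ψ := fun p => p.1 * H p.2)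
    (measurable_fst.mul (hH.comp measurable_snd))
  simp only [ENNReal.coe_lt_top, ofPred_true, Measure.restrict_univ, ENNReal.toNNReal_coe, id] at h1
  rw [h1]
  exact lintegral_congr fun ω => lintegral_const_mul _ hH

/-- the potential along the motion up to an optional time -/
theorem IsPCAF.lintegral_rep (hA : IsPCAF W μ A) (hW : IsWiener W) (x : ℂ) {τ : Path → ℝ≥0∞}
    (hτ : Opt filt τ) (hfin : ∀ᵐ ω ∂Px W x, τ ω < ∞) {f : ℂ → ℝ≥0∞} (hf : Measurable f) :
    ∫⁻ ω, (∫⁻ t in Iic (τ ω).toNNReal, f (ω t) ∂(A ω).measure) ∂Px W x +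
      ∫⁻ ω, potE (μ.withDensity f) (ω (τ ω).toNNReal) ∂Px W x =
    potE (μ.withDensity f) x + ∫⁻ ω, (∫⁻ r in Ioc (0 : ℝ) (τ ω).toReal,
      potE (μ.withDensity f) (ω r.toNNReal)) ∂Px W x := by
  obtain ⟨L, -, hL, hadd⟩ := hA.additive
  have hG := hA.measurable_GE hf
  have h1 := (hW.isFBM_Px x).strong_lintegral hτ (Y := fun _ => ()) measurable_const
    (Ψ := fun p => GE A f p.2) (hG.comp measurable_snd)
  have h2 := hW.markov_run x hτ hfin hG
  rw [Measure.restrict_eq_self_of_ae_mem (s := {ω | τ ω < ∞}) hfin] at h1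
  simp only [hA.lintegral_GE hf, id] at h1 h2
  have hS : Measurable fun ω => GE A f (shift (τ ω).toNNReal ω) :=
    hG.comp (hτ.measurable.ennreal_toNNReal.path_shift measurable_id)
  rw [← h1, ← h2, ← hA.lintegral_GE hf, ← lintegral_add_left hG, ← lintegral_add_right _ hS]
  refine lintegral_congr_ae ?_
  filter_upwards [hL x] with ω hω
  have h3 := path_fubini (A ω).measure (hf.comp ω.continuous.measurable) (τ ω).toNNReal
  simp only [Function.comp_apply] at h3
  rw [GE_shift ((hadd ω hω).2.2 _) hf] at h3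
  refine h3.trans ?_
  congr 1
  refine setLIntegral_congr_fun measurableSet_Ioc fun r hr => ?_
  have h4 := GE_shift ((hadd ω hω).2.2 r.toNNReal) hf
  rwa [Real.coe_toNNReal _ hr.1.le] at h4

end Pool.Agent.Lib.MP_0d9445_pr.BM
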