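import Pool.Agent.Lib.MP_0d9445_pr.BM.Wiener

open MeasureTheory ProbabilityTheory Set Filter Topology Metric
open scoped NNReal ENNReal Laplacian

noncomputable section

namespace Pool.Agent.Lib.MP_0d9445_pr.BM

namespace StrongAux

/-- the grid point to the right of `x` -/
def up (n : ℕ) (k : ℕ) : ℝ≥0 := ((k : ℝ≥0) + 1) / ((n : ℝ≥0) + 1)

/-- the index of the grid interval of `x` -/
def idx (n : ℕ) (x : ℝ≥0) : ℕ := ⌊((n : ℝ) + 1) * x⌋₊

theorem measurable_idx (n : ℕ) : Measurable (idx n) :=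
  Nat.measurable_floor.comp (by fun_prop)

theorem lt_up (n : ℕ) (x : ℝ≥0) : x < up n (idx n x) := by
  have h := Nat.lt_floor_add_one (((n : ℝ) + 1) * x)
  rw [← NNReal.coe_lt_coe]
  simp only [up, idx, NNReal.coe_div, NNReal.coe_add, NNReal.coe_natCast, NNReal.coe_one]
  rw [lt_div_iff₀ (by positivity)]
  linarith

theorem up_le (n : ℕ) (x : ℝ≥0) : (up n (idx n x) : ℝ) ≤ x + 1 / ((n : ℝ) + 1) := by
  have h : (⌊((n : ℝ) + 1) * x⌋₊ : ℝ) ≤ ((n : ℝ) + 1) * x := Nat.floor_le (by positivity)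
  simp only [up, idx, NNReal.coe_div, NNReal.coe_add, NNReal.coe_natCast, NNReal.coe_one]
  rw [div_le_iff₀ (by positivity), add_mul (x : ℝ), one_div_mul_cancel (by positivity)]
  linarith

theorem idx_eq_iff (n k : ℕ) (x : ℝ≥0) :
    idx n x = k ↔ x < up n k ∧ ¬ x < (k : ℝ≥0) / ((n : ℝ≥0) + 1) := by
  rw [idx, Nat.floor_eq_iff (by positivity), not_lt, ← NNReal.coe_lt_coe, ← NNReal.coe_le_coe]
  simp only [up, NNReal.coe_div, NNReal.coe_add, NNReal.coe_natCast, NNReal.coe_one]
  rw [lt_div_iff₀ (by positivity), div_le_iff₀ (by positivity)]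
  constructor <;> rintro ⟨h1, h2⟩ <;> constructor <;> linarith

theorem tendsto_up (x : ℝ≥0) : Tendsto (fun n => up n (idx n x)) atTop (𝓝[Ici x] x) := by
  refine tendsto_nhdsWithin_iff.2 ⟨?_, Eventually.of_forall fun n => (lt_up n x).le⟩
  rw [← NNReal.tendsto_coe]
  have h : Tendsto (fun n : ℕ => (x : ℝ) + 1 / ((n : ℝ) + 1)) atTop (𝓝 ((x : ℝ) + 0)) :=
    tendsto_const_nhds.add tendsto_one_div_add_atTop_nhds_zero_nat
  rw [add_zero] at h
  exact tendsto_of_tendsto_of_tendsto_of_le_of_le tendsto_const_nhds h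
    (fun n => NNReal.coe_le_coe.2 (lt_up n x).le) (fun n => up_le n x)

theorem measurable_value {Ω : Type*} {m : MeasurableSpace Ω} {E : Type*} [TopologicalSpace E]
    [TopologicalSpace.PseudoMetrizableSpace E] [MeasurableSpace E] [BorelSpace E]
    {Z : ℝ≥0 → Ω → E} (ha : ∀ t, Measurable (Z t))
    (hc : ∀ ω t, ContinuousWithinAt (fun s => Z s ω) (Ici t) t) {σ : Ω → ℝ≥0}
    (hσ : Measurable σ) : Measurable fun ω => Z (σ ω) ω := by
  refine measurable_of_tendsto_metrizable (f := fun n ω => Z (up n (idx n (σ ω))) ω) ?_ ?_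
  · intro n
    have h1 : Measurable fun p : Ω × ℕ => Z (up n p.2) p.1 :=
      measurable_from_prod_countable_left fun k => ha (up n k)
    have h2 : Measurable fun ω => (ω, idx n (σ ω)) :=
      measurable_id.prodMk ((measurable_idx n).comp hσ)
    simpa only [Function.comp_def] using h1.comp h2
  · exact tendsto_pi_nhds.2 fun ω => (hc ω (σ ω)).tendsto.comp (tendsto_up _)

end StrongAux

variable {Ω : Type*} {m : MeasurableSpace Ω} {W : Measure Path} {𝓕 : Filtration ℝ≥0 m}
  {B : Ω → Path} {P : Measure Ω} {τ σ : Ω → ℝ≥0∞}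

theorem IsFBM.measurable (h : IsFBM W 𝓕 B P) : Measurable B := by
  exact measurable_path_iff.2 fun t => (h.adapted t).mono (𝓕.le t) le_rfl

theorem Opt.of_isStoppingTime (h : IsStoppingTime 𝓕 τ) : Opt 𝓕 τ := by
  exact fun t => h.measurableSet_lt t

theorem Opt.of_le (h : ∀ t : ℝ≥0, MeasurableSet[𝓕 t] {ω | τ ω ≤ t}) : Opt 𝓕 τ := by
  exact Opt.of_isStoppingTime h

theorem Opt.const (c : ℝ≥0∞) : Opt 𝓕 fun _ => c := by
  exact fun t => MeasurableSet.const _

theorem Opt.min (hτ : Opt 𝓕 τ) (hσ : Opt 𝓕 σ) : Opt 𝓕 fun ω => min (τ ω) (σ ω) := by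
  intro t
  have : {ω | Min.min (τ ω) (σ ω) < t} = {ω | τ ω < t} ∪ {ω | σ ω < t} := by
    ext ω; simp
  rw [this]
  exact (hτ t).union (hσ t)

theorem Opt.ms_le (hτ : Opt 𝓕 τ) : hτ.ms ≤ m := fun _ hs => hs.1

theorem Opt.ms_mono (hτ : Opt 𝓕 τ) (hσ : Opt 𝓕 σ) (h : ∀ ω, τ ω ≤ σ ω) : hτ.ms ≤ hσ.ms := by
  intro s hs
  refine ⟨hs.1, fun t => ?_⟩
  have : s ∩ {ω | σ ω < t} = (s ∩ {ω | τ ω < t}) ∩ {ω | σ ω < t} := by
    ext ω
    exact ⟨fun ⟨h1, h2⟩ => ⟨⟨h1, (h ω).trans_lt h2⟩, h2⟩, fun ⟨h1, h2⟩ => ⟨h1.1, h2⟩⟩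
  rw [this]
  exact (hs.2 t).inter (hσ t)

theorem Opt.measurable_ms (hτ : Opt 𝓕 τ) : Measurable[hτ.ms] τ := by
  refine @measurable_of_Iio _ _ _ _ _ hτ.ms _ _ _ _ fun c => ?_
  induction c using ENNReal.recTopCoe with
  | top =>
    refine ⟨?_, fun t => ?_⟩
    · have : τ ⁻¹' Iio ∞ = ⋃ n : ℕ, {ω | τ ω < (n : ℝ≥0)} := by
        ext ω
        simp only [mem_preimage, mem_Iio, mem_iUnion, mem_ofPred_eq, ENNReal.coe_natCast]
        exact ⟨fun h => ENNReal.exists_nat_gt h.ne, fun ⟨n, h⟩ => h.trans (ENNReal.natCast_lt_top n)⟩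
      rw [this]
      exact MeasurableSet.iUnion fun n => 𝓕.le _ _ (hτ n)
    · have : τ ⁻¹' Iio ∞ ∩ {ω | τ ω < t} = {ω | τ ω < t} :=
        inter_eq_right.2 fun ω h => lt_trans h ENNReal.coe_lt_top
      rw [this]
      exact hτ t
  | coe c =>
    refine ⟨𝓕.le _ _ (hτ c), fun t => ?_⟩
    have : τ ⁻¹' Iio (c : ℝ≥0∞) ∩ {ω | τ ω < t} = {ω | τ ω < ((Min.min c t : ℝ≥0) : ℝ≥0∞)} := by
      ext ω; simp
    rw [this]
    exact 𝓕.mono (min_le_right c t) _ (hτ _)

theorem Opt.measurable (hτ : Opt 𝓕 τ) : Measurable τ := hτ.measurable_ms.mono hτ.ms_le le_rfl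

/-- an adapted process with right-continuous paths, read at the optional time -/
theorem Opt.measurable_ms_value (hτ : Opt 𝓕 τ) {E : Type*} [TopologicalSpace E]
    [TopologicalSpace.PseudoMetrizableSpace E] [MeasurableSpace E] [BorelSpace E]
    {Z : ℝ≥0 → Ω → E} (ha : ∀ t, Measurable[𝓕 t] (Z t))
    (hc : ∀ ω t, ContinuousWithinAt (fun s => Z s ω) (Ici t) t) :
    Measurable[hτ.ms] fun ω => Z (τ ω).toNNReal ω := by
  intro A hA
  refine ⟨StrongAux.measurable_value (fun t => (ha t).mono (𝓕.le t) le_rfl) hc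
    hτ.measurable.ennreal_toNNReal hA, fun t => ?_⟩
  have h1 : Measurable[𝓕 t] fun ω => Min.min (τ ω) t := by
    refine @measurable_of_Iio _ _ _ _ _ (𝓕 t) _ _ _ _ fun c => ?_
    by_cases hct : (t : ℝ≥0∞) < c
    · have : (fun ω => Min.min (τ ω) t) ⁻¹' Iio c = univ :=
        eq_univ_of_forall fun ω => (min_le_right _ _).trans_lt hct
      rw [this]
      exact MeasurableSet.univ
    · have hc' : c ≤ t := not_lt.1 hct
      lift c to ℝ≥0 using (hc'.trans_lt ENNReal.coe_lt_top).ne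
      have : (fun ω => Min.min (τ ω) t) ⁻¹' Iio (c : ℝ≥0∞) = {ω | τ ω < c} := by
        ext ω
        simp only [mem_preimage, mem_Iio, min_lt_iff, mem_ofPred_eq, hct, or_false]
      rw [this]
      exact 𝓕.mono (ENNReal.coe_le_coe.1 hc') _ (hτ c)
  have h2 : Measurable[𝓕 t] fun ω => Z (Min.min (Min.min (τ ω) t).toNNReal t) ω := by
    refine @StrongAux.measurable_value Ω (𝓕 t) E _ _ _ _ (fun s ω => Z (Min.min s t) ω)
      (fun s => (ha _).mono (𝓕.mono (min_le_right s t)) le_rfl) (fun ω s => ?_) _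
      h1.ennreal_toNNReal
    exact ContinuousWithinAt.comp (g := fun s => Z s ω) (f := fun s => Min.min s t)
      (hc ω (Min.min s t)) (continuous_id.min continuous_const).continuousWithinAt
      fun r hr => min_le_min_right t hr
  have h3 : (fun ω => Z (τ ω).toNNReal ω) ⁻¹' A ∩ {ω | τ ω < t} =
      (fun ω => Z (Min.min (Min.min (τ ω) t).toNNReal t) ω) ⁻¹' A ∩ {ω | τ ω < t} := by
    ext ω
    refine and_congr_left fun h => ?_
    have h' : τ ω < t := h
    have h4 : (τ ω).toNNReal ≤ t := by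
      rw [← ENNReal.coe_le_coe, ENNReal.coe_toNNReal (h'.trans ENNReal.coe_lt_top).ne]
      exact h'.le
    simp only [mem_preimage, min_eq_left h'.le, min_eq_left h4]
  rw [h3]
  exact (h2 hA).inter (hτ t)

theorem IsFBM.measurable_ms_eval (h : IsFBM W 𝓕 B P) (hτ : Opt 𝓕 τ) :
    Measurable[hτ.ms] fun ω => B ω (τ ω).toNNReal := by
  exact hτ.measurable_ms_value (Z := fun t ω => B ω t) h.adapted
    fun ω t => (B ω).continuous.continuousWithinAt

theorem IsFBM.measurable_ms_stop (h : IsFBM W 𝓕 B P) (hτ : Opt 𝓕 τ) :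
    Measurable[hτ.ms] fun ω => stop (τ ω).toNNReal (B ω) := by
  refine hτ.measurable_ms_value (Z := fun t ω => stop t (B ω)) (fun t => ?_) fun ω t => ?_
  · exact measurable_path_iff.2 fun s => (h.adapted _).mono (𝓕.mono (min_le_right s t)) le_rfl
  · exact (continuous_stop.comp (continuous_id.prodMk continuous_const)).continuousWithinAt

/-- strong Markov property, rectangles -/
theorem IsFBM.strong_rect (h : IsFBM W 𝓕 B P) (hτ : Opt 𝓕 τ) {s : Set Ω}
    (hs : MeasurableSet[hτ.ms] s) (hfin : ∀ ω ∈ s, τ ω < ∞) {E : Set Path} (hE : MeasurableSet E) :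
    P (s ∩ {ω | incr (τ ω).toNNReal (B ω) ∈ E}) = P s * W E := by
  have := h.prob
  have := h.wiener.prob
  have hτ' : Measurable fun ω => (τ ω).toNNReal := hτ.measurable.ennreal_toNNReal
  have hinc : ∀ {σ : Ω → ℝ≥0}, Measurable σ → Measurable fun ω => incr (σ ω) (B ω) :=
    fun hσ => continuous_incr.measurable.comp (hσ.prodMk h.measurable)
  have hidx : ∀ n, Measurable fun ω => StrongAux.idx n (τ ω).toNNReal :=
    fun n => (StrongAux.measurable_idx n).comp hτ'
  have hup : ∀ n, Measurable fun ω => StrongAux.up n (StrongAux.idx n (τ ω).toNNReal) :=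
    fun n => (measurable_of_countable (StrongAux.up n)).comp (hidx n)
  have hn : ∀ n, (P.restrict s).map
      (fun ω => incr (StrongAux.up n (StrongAux.idx n (τ ω).toNNReal)) (B ω)) = P s • W := by
    intro n
    ext E hE
    rw [Measure.map_apply (hinc (hup n)) hE, Measure.restrict_apply (hinc (hup n) hE),
      Measure.smul_apply, smul_eq_mul]
    let sk : ℕ → Set Ω := fun k => s ∩ {ω | StrongAux.idx n (τ ω).toNNReal = k}
    have hsk : ∀ k, MeasurableSet[𝓕 (StrongAux.up n k)] (sk k) := by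
      intro k
      have e : sk k = (s ∩ {ω | τ ω < StrongAux.up n k}) \
          (s ∩ {ω | τ ω < (((k : ℝ≥0) / ((n : ℝ≥0) + 1) : ℝ≥0) : ℝ≥0∞)}) := by
        ext ω
        simp only [sk, mem_inter_iff, mem_ofPred_eq, Set.mem_sdiff, StrongAux.idx_eq_iff]
        have hl : ω ∈ s → ∀ c : ℝ≥0, τ ω < c ↔ (τ ω).toNNReal < c := fun h1 c => by
          rw [← ENNReal.coe_lt_coe, ENNReal.coe_toNNReal (hfin ω h1).ne]
        constructor
        · rintro ⟨h1, h2, h3⟩
          exact ⟨⟨h1, (hl h1 _).2 h2⟩, fun h4 => h3 ((hl h1 _).1 h4.2)⟩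
        · rintro ⟨⟨h1, h2⟩, h3⟩
          exact ⟨h1, (hl h1 _).1 h2, fun h4 => h3 ⟨h1, (hl h1 _).2 h4⟩⟩
      rw [e]
      refine (hs.2 _).diff (𝓕.mono ?_ _ (hs.2 _))
      unfold StrongAux.up
      gcongr
      exact le_self_add
    have hsk' : ∀ k, MeasurableSet (sk k) := fun k => 𝓕.le _ _ (hsk k)
    have hdis : Pairwise (Function.onFun Disjoint sk) := by
      intro i j hij
      exact disjoint_left.2 fun ω h1 h2 => hij (h1.2.symm.trans h2.2)
    have e1 : s = ⋃ k, sk k := by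
      ext ω; simp [sk]
    have e2 : (fun ω => incr (StrongAux.up n (StrongAux.idx n (τ ω).toNNReal)) (B ω)) ⁻¹' E ∩ s =
        ⋃ k, sk k ∩ {ω | incr (StrongAux.up n k) (B ω) ∈ E} := by
      ext ω
      simp only [sk, mem_inter_iff, mem_preimage, mem_iUnion, mem_ofPred_eq]
      exact ⟨fun ⟨h1, h2⟩ => ⟨_, ⟨h2, rfl⟩, h1⟩, fun ⟨k, ⟨h1, h2⟩, h3⟩ => ⟨h2 ▸ h3, h1⟩⟩
    rw [e2, measure_iUnion (f := fun k => sk k ∩ {ω | incr (StrongAux.up n k) (B ω) ∈ E})
      (hdis.mono fun i j hij => hij.mono inter_subset_left inter_subset_left)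
      fun k => (hsk' k).inter (hinc measurable_const hE)]
    conv_rhs => rw [e1, measure_iUnion hdis hsk', ← ENNReal.tsum_mul_right]
    exact tsum_congr fun k => h.markov _ _ _ (hsk k) hE
  have hfinm : IsFiniteMeasure (P s • W) := Measure.smul_finite _ (measure_ne_top _ _)
  have key : (P.restrict s).map (fun ω => incr (τ ω).toNNReal (B ω)) = P s • W := by
    refine ext_of_forall_integral_eq_of_IsFiniteMeasure fun g => ?_
    have h1 : Tendsto (fun n => ∫ ω in s,
        g (incr (StrongAux.up n (StrongAux.idx n (τ ω).toNNReal)) (B ω)) ∂P) atTop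
        (𝓝 (∫ ω in s, g (incr (τ ω).toNNReal (B ω)) ∂P)) := by
      refine tendsto_integral_of_dominated_convergence (fun _ => ‖g‖) (fun n => ?_)
        (integrable_const _) (fun n => ae_of_all _ fun ω => g.norm_coe_le_norm _)
        (ae_of_all _ fun ω => ?_)
      · exact (g.continuous.measurable.comp (hinc (hup n))).aestronglyMeasurable
      · have hc : Continuous fun t : ℝ≥0 => g (incr t (B ω)) :=
          g.continuous.comp (continuous_incr.comp (continuous_id.prodMk continuous_const))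
        exact (hc.tendsto _).comp ((StrongAux.tendsto_up _).mono_right nhdsWithin_le_nhds)
    have h2 : ∀ n, ∫ ω in s, g (incr (StrongAux.up n (StrongAux.idx n (τ ω).toNNReal)) (B ω)) ∂P =
        ∫ η, g η ∂(P s • W) := fun n => by
      rw [← hn n, integral_map (hinc (hup n)).aemeasurable g.continuous.aestronglyMeasurable]
    rw [integral_map (hinc hτ').aemeasurable g.continuous.aestronglyMeasurable]
    simp_rw [h2] at h1
    exact tendsto_nhds_unique h1 tendsto_const_nhds
  have := congrArg (fun μ : Measure Path => μ E) key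
  simp only [Measure.map_apply (hinc hτ') hE, Measure.restrict_apply (hinc hτ' hE),
    Measure.smul_apply, smul_eq_mul] at this
  rw [← this, inter_comm]
  rfl

/-- strong Markov property, joint law -/
theorem IsFBM.strong_map (h : IsFBM W 𝓕 B P) (hτ : Opt 𝓕 τ) {E : Type*} [MeasurableSpace E]
    {Y : Ω → E} (hY : Measurable[hτ.ms] Y) :
    (P.restrict {ω | τ ω < ∞}).map (fun ω => (Y ω, incr (τ ω).toNNReal (B ω))) =
      ((P.restrict {ω | τ ω < ∞}).map Y).prod W := by
  have := h.prob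
  have := h.wiener.prob
  have hY' : Measurable Y := hY.mono hτ.ms_le le_rfl
  have hinc : Measurable fun ω => incr (τ ω).toNNReal (B ω) :=
    continuous_incr.measurable.comp (hτ.measurable.ennreal_toNNReal.prodMk h.measurable)
  have hT : MeasurableSet[hτ.ms] {ω | τ ω < ∞} := hτ.measurable_ms measurableSet_Iio
  refine (Measure.prod_eq fun A E hA hE => ?_).symm
  rw [Measure.map_apply (hY'.prodMk hinc) (hA.prod hE), Measure.map_apply hY' hA,
    Measure.restrict_apply ((hY'.prodMk hinc) (hA.prod hE)), Measure.restrict_apply (hY' hA),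
    ← h.strong_rect hτ ((hY hA).inter hT) (fun ω hω => hω.2) hE]
  congr 1
  ext ω
  simp only [mem_inter_iff, mem_preimage, mem_prod, mem_ofPred_eq]
  tauto

theorem IsFBM.strong_lintegral (h : IsFBM W 𝓕 B P) (hτ : Opt 𝓕 τ) {E : Type*} [MeasurableSpace E]
    {Y : Ω → E} (hY : Measurable[hτ.ms] Y) {Ψ : E × Path → ℝ≥0∞} (hΨ : Measurable Ψ) :
    ∫⁻ ω in {ω | τ ω < ∞}, Ψ (Y ω, shift (τ ω).toNNReal (B ω)) ∂P =
      ∫⁻ ω in {ω | τ ω < ∞}, ∫⁻ η, Ψ (Y ω, η) ∂(Px W (B ω (τ ω).toNNReal)) ∂P := by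
  have := h.wiener.prob
  have hY2 : Measurable[hτ.ms] fun ω => (Y ω, B ω (τ ω).toNNReal) :=
    hY.prodMk (h.measurable_ms_eval hτ)
  have hY2' : Measurable fun ω => (Y ω, B ω (τ ω).toNNReal) := hY2.mono hτ.ms_le le_rfl
  have hinc : Measurable fun ω => incr (τ ω).toNNReal (B ω) :=
    continuous_incr.measurable.comp (hτ.measurable.ennreal_toNNReal.prodMk h.measurable)
  have hΦ : Measurable fun p : (E × ℂ) × Path => Ψ (p.1.1, start p.1.2 p.2) :=
    hΨ.comp (measurable_fst.fst.prodMk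
      (continuous_start.measurable.comp (measurable_fst.snd.prodMk measurable_snd)))
  have h1 := lintegral_map (μ := P.restrict {ω | τ ω < ∞}) hΦ (hY2'.prodMk hinc)
  simp only [start_incr] at h1
  rw [← h1, h.strong_map hτ hY2, lintegral_prod _ hΦ.aemeasurable,
    lintegral_map hΦ.lintegral_prod_right' hY2']
  refine lintegral_congr fun ω => ?_
  have hst : Measurable (start (B ω (τ ω).toNNReal)) :=
    continuous_start.measurable.comp (measurable_const.prodMk measurable_id)
  exact (lintegral_map (f := fun η => Ψ (Y ω, η)) (hΨ.comp measurable_prodMk_left) hst).symm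

theorem IsFBM.strong_integral (h : IsFBM W 𝓕 B P) (hτ : Opt 𝓕 τ) {E : Type*} [MeasurableSpace E]
    {Y : Ω → E} (hY : Measurable[hτ.ms] Y) {Ψ : E × Path → ℝ} (hΨ : Measurable Ψ)
    (hi : IntegrableOn (fun ω => Ψ (Y ω, shift (τ ω).toNNReal (B ω))) {ω | τ ω < ∞} P) :
    ∫ ω in {ω | τ ω < ∞}, Ψ (Y ω, shift (τ ω).toNNReal (B ω)) ∂P =
      ∫ ω in {ω | τ ω < ∞}, ∫ η, Ψ (Y ω, η) ∂(Px W (B ω (τ ω).toNNReal)) ∂P := by
  have := h.wiener.prob
  have := h.prob
  have hY2 : Measurable[hτ.ms] fun ω => (Y ω, B ω (τ ω).toNNReal) :=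
    hY.prodMk (h.measurable_ms_eval hτ)
  have hY2' : Measurable fun ω => (Y ω, B ω (τ ω).toNNReal) := hY2.mono hτ.ms_le le_rfl
  have hinc : Measurable fun ω => incr (τ ω).toNNReal (B ω) :=
    continuous_incr.measurable.comp (hτ.measurable.ennreal_toNNReal.prodMk h.measurable)
  have hΦ : Measurable fun p : (E × ℂ) × Path => Ψ (p.1.1, start p.1.2 p.2) :=
    hΨ.comp (measurable_fst.fst.prodMk
      (continuous_start.measurable.comp (measurable_fst.snd.prodMk measurable_snd)))
  have h1 := integral_map (μ := P.restrict {ω | τ ω < ∞}) (hY2'.prodMk hinc).aemeasurable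
    hΦ.aestronglyMeasurable
  have h2 := integrable_map_measure (μ := P.restrict {ω | τ ω < ∞}) hΦ.aestronglyMeasurable
    (hY2'.prodMk hinc).aemeasurable
  simp only [start_incr, Function.comp_def] at h1 h2
  rw [h.strong_map hτ hY2] at h1 h2
  rw [← h1, integral_prod _ (h2.2 hi), integral_map hY2'.aemeasurable
    hΦ.stronglyMeasurable.integral_prod_right'.aestronglyMeasurable]
  refine integral_congr_ae (ae_of_all _ fun ω => ?_)
  have hst : Measurable (start (B ω (τ ω).toNNReal)) :=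
    continuous_start.measurable.comp (measurable_const.prodMk measurable_id)
  exact (integral_map (f := fun η => Ψ (Y ω, η)) hst.aemeasurable
    (hΨ.comp measurable_prodMk_left).aestronglyMeasurable).symm

/-- a property that holds almost surely from every starting point holds after `τ` -/
theorem IsFBM.strong_ae (h : IsFBM W 𝓕 B P) (hτ : Opt 𝓕 τ) {A : Set Path} (hA : MeasurableSet A)
    (hx : ∀ x, ∀ᵐ η ∂(Px W x), η ∈ A) :
    ∀ᵐ ω ∂P, τ ω < ∞ → shift (τ ω).toNNReal (B ω) ∈ A := by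
  have hsh : Measurable fun ω => shift (τ ω).toNNReal (B ω) :=
    continuous_shift.measurable.comp (hτ.measurable.ennreal_toNNReal.prodMk h.measurable)
  have hT : MeasurableSet {ω | τ ω < ∞} := hτ.measurable measurableSet_Iio
  have h1 := h.strong_lintegral hτ (Y := fun _ => ()) measurable_const
    (Ψ := fun p => Aᶜ.indicator 1 p.2) ((measurable_one.indicator hA.compl).comp measurable_snd)
  have h2 : ∀ x, ∫⁻ η, Aᶜ.indicator (1 : Path → ℝ≥0∞) η ∂(Px W x) = 0 := fun x => by
    rw [lintegral_indicator_one hA.compl]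
    exact hx x
  simp only [h2, lintegral_zero] at h1
  have h3 := (lintegral_eq_zero_iff ((measurable_one.indicator hA.compl).comp hsh)).1 h1
  filter_upwards [(ae_restrict_iff' hT).1 h3] with ω hω hlt
  by_contra hn
  have := hω hlt
  simp [indicator_of_mem (show shift (τ ω).toNNReal (B ω) ∈ Aᶜ from hn)] at this

/-- the law of a Brownian motion from `x` -/
theorem IsFBM.law (h : IsFBM W 𝓕 B P) {x : ℂ} (h0 : ∀ᵐ ω ∂P, B ω 0 = x) : P.map B = Px W x := by
  have := h.prob
  have hst : Measurable (start x) :=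
    continuous_start.measurable.comp (measurable_const.prodMk measurable_id)
  have hinc : Measurable fun ω => incr 0 (B ω) :=
    continuous_incr.measurable.comp (measurable_const.prodMk h.measurable)
  have h1 : P.map (fun ω => incr 0 (B ω)) = W := by
    ext E hE
    have := h.markov 0 univ E MeasurableSet.univ hE
    rw [univ_inter, measure_univ, one_mul] at this
    rw [Measure.map_apply hinc hE, ← this]
    rfl
  rw [Px, ← h1, Measure.map_map hst hinc]
  refine Measure.map_congr ?_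
  filter_upwards [h0] with ω hω
  rw [Function.comp_apply, ← hω, start_incr, shift_zero]

end Pool.Agent.Lib.MP_0d9445_pr.BM
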