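import Pool.Agent.Lib.MP_0d9445_pr.BM.ClockAux
import Pool.Agent.Lib.MP_0d9445_pr.BM.Heat
import Pool.Agent.Lib.MP_0d9445_pr.BM.Strong

/-!
Brownian motion started from Lebesgue measure, and the short-time form of the Revuz correspondence.
-/

open MeasureTheory ProbabilityTheory Set Filter Topology Metric
open scoped NNReal ENNReal

noncomputable section

namespace Pool.Agent.Lib.MP_0d9445_pr.BM

namespace RevuzAux

variable {W : Measure Path} {μ : Measure ℂ} {A : Path → StieltjesFunction ℝ≥0} {L : Set Path}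

/-- Brownian motion started from Lebesgue measure -/
def Pm (W : Measure Path) : Measure Path := (volume : Measure ℂ).bind (Px W)

theorem lintegral_Pm (hW : IsWiener W) {G : Path → ℝ≥0∞} (hG : Measurable G) :
    ∫⁻ ω, G ω ∂Pm W = ∫⁻ x, ∫⁻ ω, G ω ∂Px W x :=
  Measure.lintegral_bind hW.measurable_Px.aemeasurable hG.aemeasurable

theorem ae_Pm (hW : IsWiener W) (hL : MeasurableSet L) (h : ∀ x, ∀ᵐ ω ∂Px W x, ω ∈ L) :
    ∀ᵐ ω ∂Pm W, ω ∈ L := by
  have h0 : ∀ x, Px W x Lᶜ = 0 := fun x => ae_iff.1 (h x)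
  refine ae_iff.2 ?_
  change (volume : Measure ℂ).bind (Px W) Lᶜ = 0
  rw [Measure.bind_apply hL.compl hW.measurable_Px.aemeasurable]
  simp [h0]

theorem measurable_lintegral_Px (hW : IsWiener W) {G : Path → ℝ≥0∞} (hG : Measurable G) :
    Measurable fun y => ∫⁻ η, G η ∂Px W y :=
  (Measure.measurable_lintegral hG).comp hW.measurable_Px

theorem markov (hW : IsWiener W) (x : ℂ) (s : ℝ≥0) {G : Path → ℝ≥0∞} (hG : Measurable G) :
    ∫⁻ ω, G (shift s ω) ∂Px W x = ∫⁻ ω, ∫⁻ η, G η ∂Px W (ω s) ∂Px W x := by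
  have h := (hW.isFBM_Px x).strong_lintegral (Opt.const (s : ℝ≥0∞)) (Y := fun _ => ())
    measurable_const (Ψ := fun p => G p.2) (hG.comp measurable_snd)
  simpa using h

theorem shift_Pm (hW : IsWiener W) (s : ℝ≥0) {G : Path → ℝ≥0∞} (hG : Measurable G) :
    ∫⁻ ω, G (shift s ω) ∂Pm W = ∫⁻ ω, G ω ∂Pm W := by
  have := hW.prob
  have hφ := measurable_lintegral_Px hW hG
  set φ : ℂ → ℝ≥0∞ := fun y => ∫⁻ η, G η ∂Px W y with hφd
  rw [lintegral_Pm hW (G := fun ω => G (shift s ω)) (hG.comp (measurable_shift s)),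
    lintegral_Pm hW hG]
  have h1 : ∀ x, ∫⁻ ω, G (shift s ω) ∂Px W x = ∫⁻ w, φ (x + w s) ∂W := fun x => by
    rw [markov hW x s hG]
    exact lintegral_Px W x (hφ.comp (measurable_evalAt s))
  have hm : Measurable fun p : ℂ × Path => φ (p.1 + p.2 s) :=
    hφ.comp (measurable_fst.add ((measurable_evalAt s).comp measurable_snd))
  calc ∫⁻ x, ∫⁻ ω, G (shift s ω) ∂Px W x = ∫⁻ x, ∫⁻ w, φ (x + w s) ∂W := lintegral_congr h1
    _ = ∫⁻ w, (∫⁻ x, φ (x + w s)) ∂W := lintegral_lintegral_swap hm.aemeasurable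
    _ = ∫⁻ w, (∫⁻ x, φ x) ∂W := lintegral_congr fun w => lintegral_add_right_eq_self φ (w s)
    _ = ∫⁻ x, φ x := by rw [lintegral_const, measure_univ, mul_one]

theorem measurable_dens (t : ℝ) (x : ℂ) :
    Measurable fun y : ℂ => ENNReal.ofReal (heat t (y - x)) := HeatAux.measurable_dens t x

theorem markov_heat (hW : IsWiener W) (x : ℂ) {s : ℝ≥0} (hs : s ≠ 0) {G : Path → ℝ≥0∞}
    (hG : Measurable G) :
    ∫⁻ ω, G (shift s ω) ∂Px W x = ∫⁻ ω, ENNReal.ofReal (heat s (ω 0 - x)) * G ω ∂Pm W := by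
  have hd := measurable_dens s x
  rw [markov hW x s hG, hW.lintegral_Px_eval hs x (measurable_lintegral_Px hW hG),
    lintegral_Pm hW (G := fun ω => ENNReal.ofReal (heat s (ω 0 - x)) * G ω)
      ((hd.comp (measurable_evalAt 0)).mul hG)]
  refine lintegral_congr fun y => ?_
  rw [← lintegral_const_mul _ hG]
  refine lintegral_congr_ae ?_
  filter_upwards [hW.ae_Px_zero y] with ω hω
  simp [hω]

theorem measurable_setInt {α : Type*} [MeasurableSpace α] {B : α → StieltjesFunction ℝ≥0}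
    (hB : ∀ t, Measurable fun a => B a t) {F : α × ℝ≥0 → ℝ≥0∞} (hF : Measurable F)
    {S : Set ℝ≥0} (hS : MeasurableSet S) :
    Measurable fun a => ∫⁻ t in S, F (a, t) ∂(B a).measure := by
  have h := measurable_lintegral_stieltjes hB (hF.indicator (measurable_snd hS))
  have e : ∀ a, ∫⁻ t in S, F (a, t) ∂(B a).measure =
      ∫⁻ t, (Prod.snd ⁻¹' S).indicator F (a, t) ∂(B a).measure := fun a => by
    rw [← lintegral_indicator hS]
    rfl
  simp only [e]
  exact h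

theorem measurable_fev {f : ℂ → ℝ≥0∞} (hf : Measurable f) :
    Measurable fun p : Path × ℝ≥0 => f (p.1 p.2) :=
  hf.comp (measurable_fst.path_ev measurable_snd)

/-- the functional over `[0, h)` -/
def ini (A : Path → StieltjesFunction ℝ≥0) (f : ℂ → ℝ≥0∞) (h : ℝ≥0) (ω : Path) : ℝ≥0∞ :=
  ∫⁻ t in Iio h, f (ω t) ∂(A ω).measure

theorem measurable_ini (hA : ∀ t, Measurable fun ω => A ω t) {f : ℂ → ℝ≥0∞} (hf : Measurable f)
    (h : ℝ≥0) : Measurable (ini A f h) :=
  measurable_setInt hA (measurable_fev hf) measurableSet_Iio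

theorem piece {ω : Path} (hc : Continuous (A ω)) {s : ℝ≥0}
    (ha : ∀ t, A ω (s + t) = A ω s + A (shift s ω) t) (f : ℂ → ℝ≥0∞) (h : ℝ≥0) :
    ∫⁻ t in Ico s (s + h), f (ω t) ∂(A ω).measure = ini A f h (shift s ω) := by
  have h1 := lintegral_stieltjes_shift hc ha ((Iio (s + h)).indicator fun t => f (ω t))
  rw [lintegral_indicator measurableSet_Iio, Measure.restrict_restrict measurableSet_Iio,
    inter_comm, Ici_inter_Iio] at h1
  rw [h1, ini, ← lintegral_indicator measurableSet_Iio]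
  refine lintegral_congr fun t => ?_
  by_cases ht : t < h
  · rw [indicator_of_mem (show s + t ∈ Iio (s + h) from add_lt_add_right ht s),
      indicator_of_mem (show t ∈ Iio h from ht)]
    rfl
  · rw [indicator_of_notMem (show s + t ∉ Iio (s + h) from fun h' => ht (lt_of_add_lt_add_left h')),
      indicator_of_notMem (show t ∉ Iio h from ht)]

/-- mesh -/
def msh (n : ℕ) : ℝ≥0 := ((n : ℝ≥0) + 1)⁻¹

/-- the grid point below -/
def lo (n : ℕ) (t : ℝ≥0) : ℝ≥0 := (⌊((n : ℝ≥0) + 1) * t⌋₊ : ℝ≥0) * msh n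

theorem msh_mul (n : ℕ) : ((n : ℝ≥0) + 1) * msh n = 1 := mul_inv_cancel₀ (by positivity)

theorem msh_pos (n : ℕ) : 0 < msh n := inv_pos.2 (by positivity)

theorem measurable_lo (n : ℕ) : Measurable (lo n) :=
  ((measurable_from_top (f := fun k : ℕ => (k : ℝ≥0))).comp
    (Nat.measurable_floor.comp (measurable_const_mul _))).mul_const _

theorem lo_eq {n k : ℕ} {t : ℝ≥0} (ht : t ∈ Ico (k * msh n) (k * msh n + msh n)) :
    lo n t = k * msh n := by
  have hp : (0 : ℝ≥0) < (n : ℝ≥0) + 1 := by positivity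
  have h : ⌊((n : ℝ≥0) + 1) * t⌋₊ = k := by
    rw [Nat.floor_eq_iff zero_le]
    constructor
    · calc (k : ℝ≥0) = ((n : ℝ≥0) + 1) * (k * msh n) := by
            rw [mul_left_comm, msh_mul, mul_one]
        _ ≤ _ := mul_le_mul_right ht.1 _
    · calc ((n : ℝ≥0) + 1) * t < ((n : ℝ≥0) + 1) * (k * msh n + msh n) :=
            mul_lt_mul_of_pos_left ht.2 hp
        _ = k + 1 := by rw [mul_add, mul_left_comm, msh_mul, mul_one]
  rw [lo, h]

theorem tendsto_msh : Tendsto msh atTop (𝓝 0) := by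
  rw [← NNReal.tendsto_coe]
  simpa [msh] using tendsto_one_div_add_atTop_nhds_zero_nat (𝕜 := ℝ)

theorem lo_le (n : ℕ) (t : ℝ≥0) : lo n t ≤ t := by
  calc lo n t ≤ ((n : ℝ≥0) + 1) * t * msh n := mul_le_mul_left (Nat.floor_le zero_le) _
    _ = t := by rw [mul_right_comm, msh_mul, one_mul]

theorem le_lo (n : ℕ) (t : ℝ≥0) : t ≤ lo n t + msh n := by
  calc t = ((n : ℝ≥0) + 1) * t * msh n := by rw [mul_right_comm, msh_mul, one_mul]
    _ ≤ ((⌊((n : ℝ≥0) + 1) * t⌋₊ : ℝ≥0) + 1) * msh n :=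
        mul_le_mul_left (Nat.lt_floor_add_one _).le _
    _ = lo n t + msh n := by rw [add_mul, one_mul, lo]

theorem tendsto_lo (t : ℝ≥0) : Tendsto (fun n => lo n t) atTop (𝓝 t) := by
  have h : Tendsto (fun n => t - msh n) atTop (𝓝 (t - 0)) := tendsto_const_nhds.sub tendsto_msh
  rw [tsub_zero] at h
  exact tendsto_of_tendsto_of_tendsto_of_le_of_le h tendsto_const_nhds
    (fun n => tsub_le_iff_right.2 (le_lo n t)) fun n => lo_le n t

theorem measurable_grid {f g : ℂ → ℝ≥0∞} (hf : Measurable f) (hg : Measurable g) (n : ℕ) :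
    Measurable fun p : Path × ℝ≥0 => g (p.1 (lo n p.2)) * f (p.1 p.2) :=
  (hg.comp (measurable_fst.path_ev ((measurable_lo n).comp measurable_snd))).mul
    (measurable_fev hf)

/-- stationarity along the grid -/
theorem grid (hW : IsWiener W) (hA : ∀ t, Measurable fun ω => A ω t) (hL : ∀ᵐ ω ∂Pm W, ω ∈ L)
    (ha : ∀ ω ∈ L, Continuous (A ω) ∧ ∀ s t, A ω (s + t) = A ω s + A (shift s ω) t)
    {f g : ℂ → ℝ≥0∞} (hf : Measurable f) (hg : Measurable g) (n k : ℕ) :
    ∫⁻ ω, ∫⁻ t in Iio (k * msh n), g (ω (lo n t)) * f (ω t) ∂(A ω).measure ∂Pm W =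
      k * ∫⁻ ω, g (ω 0) * ini A f (msh n) ω ∂Pm W := by
  have hG : Measurable fun ω : Path => g (ω 0) * ini A f (msh n) ω :=
    (hg.comp (measurable_evalAt 0)).mul (measurable_ini hA hf _)
  induction k with
  | zero => simp
  | succ k ih =>
    have hu : Iio (((k + 1 : ℕ) : ℝ≥0) * msh n) =
        Iio (k * msh n) ∪ Ico (k * msh n) (k * msh n + msh n) := by
      rw [Iio_union_Ico_eq_Iio le_self_add, Nat.cast_succ, add_mul, one_mul]
    have hd : Disjoint (Iio (k * msh n)) (Ico (k * msh n) (k * msh n + msh n)) :=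
      disjoint_left.2 fun t h1 h2 => absurd h2.1 (not_le.2 h1)
    have h1 : ∀ᵐ ω ∂Pm W,
        ∫⁻ t in Iio (((k + 1 : ℕ) : ℝ≥0) * msh n), g (ω (lo n t)) * f (ω t) ∂(A ω).measure =
        ∫⁻ t in Iio (k * msh n), g (ω (lo n t)) * f (ω t) ∂(A ω).measure +
          g (shift (k * msh n) ω 0) * ini A f (msh n) (shift (k * msh n) ω) := by
      filter_upwards [hL] with ω hω
      rw [hu, lintegral_union measurableSet_Ico hd, ← piece (ha ω hω).1 ((ha ω hω).2 _),
        ← lintegral_const_mul (f := fun t => f (ω t)) _ (hf.comp ω.continuous.measurable)]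
      congr 1
      refine setLIntegral_congr_fun measurableSet_Ico fun t ht => ?_
      simp only [lo_eq ht]
      congr 2
      change ω (k * msh n) = ω (k * msh n + 0)
      rw [add_zero]
    rw [lintegral_congr_ae h1, lintegral_add_left
      (measurable_setInt hA (measurable_grid hf hg n) measurableSet_Iio), ih,
      shift_Pm hW (k * msh n) hG, Nat.cast_succ, add_mul, one_mul]

/-- the measure `P_m (dω) 1(t < 1) dA_t (ω)` -/
def Qm (W : Measure Path) (A : Path → StieltjesFunction ℝ≥0) : Measure (Path × ℝ≥0) :=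
  (Pm W).bind fun ω => ((A ω).measure.restrict (Iio 1)).map (Prod.mk ω)

theorem lintegral_Qm (hA : ∀ t, Measurable fun ω => A ω t) {F : Path × ℝ≥0 → ℝ≥0∞}
    (hF : Measurable F) :
    ∫⁻ p, F p ∂Qm W A = ∫⁻ ω, ∫⁻ t in Iio 1, F (ω, t) ∂(A ω).measure ∂Pm W := by
  have hκ : Measurable fun ω : Path => ((A ω).measure.restrict (Iio 1)).map (Prod.mk ω) := by
    refine Measure.measurable_of_measurable_coe _ fun s hs => ?_
    have e : ∀ ω : Path, ((A ω).measure.restrict (Iio 1)).map (Prod.mk ω) s =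
        ∫⁻ t in Iio 1, s.indicator (1 : Path × ℝ≥0 → ℝ≥0∞) (ω, t) ∂(A ω).measure := fun ω => by
      rw [← lintegral_indicator_one hs,
        lintegral_map (measurable_one.indicator hs) measurable_prodMk_left]
    simp only [e]
    exact measurable_setInt hA (measurable_one.indicator hs) measurableSet_Iio
  rw [Qm, Measure.lintegral_bind hκ.aemeasurable hF.aemeasurable]
  exact lintegral_congr fun ω => lintegral_map hF measurable_prodMk_left

theorem revuz_Qm (hW : IsWiener W) (hA : ∀ t, Measurable fun ω => A ω t)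
    (hL : ∀ᵐ ω ∂Pm W, ω ∈ L) (hc : ∀ ω ∈ L, Continuous (A ω))
    (hR : ∀ f : ℂ → ℝ≥0∞, Measurable f →
      ∫⁻ x, ∫⁻ ω, ∫⁻ t in Iic 1, f (ω t) ∂(A ω).measure ∂Px W x = ∫⁻ y, f y ∂μ)
    {f : ℂ → ℝ≥0∞} (hf : Measurable f) : ∫⁻ p, f (p.1 p.2) ∂Qm W A = ∫⁻ y, f y ∂μ := by
  rw [lintegral_Qm hA (measurable_fev hf), ← hR f hf,
    ← lintegral_Pm hW (measurable_setInt hA (measurable_fev hf) measurableSet_Iic)]
  refine lintegral_congr_ae ?_
  filter_upwards [hL] with ω hω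
  have h0 : (A ω).measure {1} = 0 := by
    rw [StieltjesFunction.measure_singleton, (hc ω hω).continuousWithinAt.leftLim_eq, sub_self,
      ENNReal.ofReal_zero]
  exact setLIntegral_congr (Iio_ae_eq_Iic' h0)

theorem grid_Qm (hW : IsWiener W) (hA : ∀ t, Measurable fun ω => A ω t) (hL : ∀ᵐ ω ∂Pm W, ω ∈ L)
    (ha : ∀ ω ∈ L, Continuous (A ω) ∧ ∀ s t, A ω (s + t) = A ω s + A (shift s ω) t)
    {f g : ℂ → ℝ≥0∞} (hf : Measurable f) (hg : Measurable g) (n : ℕ) :
    ((n : ℝ≥0∞) + 1) * ∫⁻ ω, g (ω 0) * ini A f (msh n) ω ∂Pm W =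
      ∫⁻ p, g (p.1 (lo n p.2)) * f (p.1 p.2) ∂Qm W A := by
  have h := grid hW hA hL ha hf hg n (n + 1)
  rw [Nat.cast_succ, msh_mul, Nat.cast_succ] at h
  rw [lintegral_Qm hA (measurable_grid hf hg n), h]

/-- the short-time form of the Revuz correspondence -/
theorem short_time (hW : IsWiener W) (hA : ∀ t, Measurable fun ω => A ω t)
    (hL : ∀ᵐ ω ∂Pm W, ω ∈ L)
    (ha : ∀ ω ∈ L, Continuous (A ω) ∧ ∀ s t, A ω (s + t) = A ω s + A (shift s ω) t)
    (hR : ∀ f : ℂ → ℝ≥0∞, Measurable f →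
      ∫⁻ x, ∫⁻ ω, ∫⁻ t in Iic 1, f (ω t) ∂(A ω).measure ∂Px W x = ∫⁻ y, f y ∂μ)
    {f g : ℂ → ℝ≥0∞} (hf : Measurable f) (hfin : ∫⁻ y, f y ∂μ ≠ ∞) (hg : Continuous g)
    {C : ℝ≥0∞} (hC : C ≠ ∞) (hgC : ∀ y, g y ≤ C) :
    (∀ n : ℕ, ((n : ℝ≥0∞) + 1) * ∫⁻ ω, g (ω 0) * ini A f (msh n) ω ∂Pm W ≤ C * ∫⁻ y, f y ∂μ) ∧
    Tendsto (fun n : ℕ => ((n : ℝ≥0∞) + 1) * ∫⁻ ω, g (ω 0) * ini A f (msh n) ω ∂Pm W) atTop
      (𝓝 (∫⁻ y, g y * f y ∂μ)) := by
  have hc : ∀ ω ∈ L, Continuous (A ω) := fun ω hω => (ha ω hω).1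
  have hQ := revuz_Qm hW hA hL hc hR hf
  have hb : ∫⁻ p, C * f (p.1 p.2) ∂Qm W A = C * ∫⁻ y, f y ∂μ := by
    rw [lintegral_const_mul _ (measurable_fev hf), hQ]
  simp only [grid_Qm hW hA hL ha hf hg.measurable]
  refine ⟨fun n => ?_, ?_⟩
  · rw [← hb]
    exact lintegral_mono fun p => mul_le_mul_left (hgC _) _
  · rw [← revuz_Qm hW hA hL hc hR (f := fun y => g y * f y) (hg.measurable.mul hf)]
    refine tendsto_lintegral_of_dominated_convergence (fun p => C * f (p.1 p.2))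
      (fun n => measurable_grid hf hg.measurable n)
      (fun n => Eventually.of_forall fun p => mul_le_mul_left (hgC _) _)
      (by rw [hb]; exact ENNReal.mul_ne_top hC hfin) ?_
    filter_upwards [ae_lt_top (measurable_fev hf) (by rw [hQ]; exact hfin)] with p hp
    exact ENNReal.Tendsto.mul_const
      (((hg.comp p.1.continuous).tendsto p.2).comp (tendsto_lo p.2)) (Or.inr hp.ne)

end RevuzAux

end Pool.Agent.Lib.MP_0d9445_pr.BM
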