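import Pool.Agent.Lib.MP_0d9445_pr.BM.Path

open MeasureTheory ProbabilityTheory Set Filter Topology Metric
open scoped NNReal ENNReal Laplacian

noncomputable section

namespace Pool.Agent.Lib.MP_0d9445_pr.BM

variable {W W' : Measure Path}

theorem IsWiener.prob (h : IsWiener W) : IsProbabilityMeasure W :=
  h.re.isGaussianProcess.isProbabilityMeasure

namespace WienerAux

/-- real and imaginary part of a path -/
def reim (w : Path) : (ℝ≥0 → ℝ) × (ℝ≥0 → ℝ) := (fun t => (w t).re, fun t => (w t).im)

theorem measurable_re : Measurable fun (w : Path) t => (w t).re :=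
  measurable_pi_lambda _ fun t => Complex.measurable_re.comp (measurable_evalAt t)

theorem measurable_im : Measurable fun (w : Path) t => (w t).im :=
  measurable_pi_lambda _ fun t => Complex.measurable_im.comp (measurable_evalAt t)

theorem measurable_reim : Measurable reim := measurable_re.prodMk measurable_im

theorem le_comap_reim : pathMeasurableSpace ≤ MeasurableSpace.comap reim inferInstance := by
  have : @Measurable Path Path (MeasurableSpace.comap reim inferInstance) _ id := by
    refine measurable_path_iff.mpr fun t => ?_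
    have h0 : @Measurable Path _ (MeasurableSpace.comap reim inferInstance) _ reim :=
      comap_measurable _
    have h1 : Measurable fun p : (ℝ≥0 → ℝ) × (ℝ≥0 → ℝ) => ((p.1 t : ℂ) + (p.2 t : ℂ) * Complex.I) := by
      fun_prop
    have h2 := h1.comp h0
    convert h2 using 2 with w
    exact (Complex.re_add_im (w t)).symm
  simpa using this.comap_le

theorem ext_reim {μ ν : Measure Path} (h : μ.map reim = ν.map reim) : μ = ν := by
  ext S hS
  obtain ⟨T, hT, rfl⟩ := le_comap_reim S hS
  rw [← Measure.map_apply measurable_reim hT, h, Measure.map_apply measurable_reim hT]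

theorem indep_swap {Ω α₁ α₂ β₁ β₂ : Type*} [MeasurableSpace Ω] [MeasurableSpace α₁]
    [MeasurableSpace α₂] [MeasurableSpace β₁] [MeasurableSpace β₂] {P : Measure Ω}
    [IsProbabilityMeasure P] {A₁ : Ω → α₁} {A₂ : Ω → α₂} {B₁ : Ω → β₁} {B₂ : Ω → β₂}
    (hA₁ : Measurable A₁) (hA₂ : Measurable A₂) (hB₁ : Measurable B₁) (hB₂ : Measurable B₂)
    (h : IndepFun (fun ω => (A₁ ω, A₂ ω)) (fun ω => (B₁ ω, B₂ ω)) P) (hA : IndepFun A₁ A₂ P)
    (hB : IndepFun B₁ B₂ P) : IndepFun (fun ω => (A₁ ω, B₁ ω)) (fun ω => (A₂ ω, B₂ ω)) P := by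
  rw [IndepFun_iff_Indep]
  refine IndepSets.indep (hA₁.prodMk hB₁).comap_le (hA₂.prodMk hB₂).comap_le
    (isPiSystem_prod.comap _) (isPiSystem_prod.comap _)
    (by rw [← generateFrom_prod, MeasurableSpace.comap_generateFrom]; rfl)
    (by rw [← generateFrom_prod, MeasurableSpace.comap_generateFrom]; rfl) ?_
  rw [IndepSets_iff]
  rintro _ _ ⟨_, ⟨a, ha, b, hb, rfl⟩, rfl⟩ ⟨_, ⟨c, hc, d, hd, rfl⟩, rfl⟩
  have h1 := h.measure_inter_preimage_eq_mul (a ×ˢ c) (b ×ˢ d) (MeasurableSet.prod ha hc)
    (MeasurableSet.prod hb hd)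
  have h2 := h.measure_inter_preimage_eq_mul (a ×ˢ univ) (b ×ˢ univ) (MeasurableSet.prod ha .univ)
    (MeasurableSet.prod hb .univ)
  have h3 := h.measure_inter_preimage_eq_mul (univ ×ˢ c) (univ ×ˢ d) (MeasurableSet.prod .univ hc)
    (MeasurableSet.prod .univ hd)
  have h4 := hA.measure_inter_preimage_eq_mul a c ha hc
  have h5 := hB.measure_inter_preimage_eq_mul b d hb hd
  simp only [mk_preimage_prod, preimage_univ, inter_univ, univ_inter] at h1 h2 h3 ⊢
  rw [h2, h3, show A₁ ⁻¹' a ∩ B₁ ⁻¹' b ∩ (A₂ ⁻¹' c ∩ B₂ ⁻¹' d) =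
    A₁ ⁻¹' a ∩ A₂ ⁻¹' c ∩ (B₁ ⁻¹' b ∩ B₂ ⁻¹' d) from inter_inter_inter_comm _ _ _ _, h1, h4, h5]
  ring

theorem law_unique {Ω Ω' : Type*} [MeasurableSpace Ω] [MeasurableSpace Ω'] {P : Measure Ω}
    {P' : Measure Ω'} {X : ℝ≥0 → Ω → ℝ} {X' : ℝ≥0 → Ω' → ℝ} (h : IsPreBrownianReal X P)
    (h' : IsPreBrownianReal X' P') (hX : Measurable fun ω t => X t ω)
    (hX' : Measurable fun ω t => X' t ω) :
    P.map (fun ω t => X t ω) = P'.map fun ω t => X' t ω := by
  have h1 := isProjectiveLimit_map (P := P) (X := X) hX.aemeasurable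
  have h2 := isProjectiveLimit_map (P := P') (X := X') hX'.aemeasurable
  simp only [fun I => (h.hasLaw I).map_eq] at h1
  simp only [fun I => (h'.hasLaw I).map_eq] at h2
  exact h1.unique h2

end WienerAux

open WienerAux

/-- the law of a continuous process whose coordinates are independent Brownian motions -/
theorem IsWiener.map_eq (h : IsWiener W) {Ω : Type*} [MeasurableSpace Ω] {P : Measure Ω}
    {B : Ω → Path} (hB : Measurable B) (h1 : IsPreBrownianReal (fun t ω => (B ω t).re) P)
    (h2 : IsPreBrownianReal (fun t ω => (B ω t).im) P)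
    (h3 : IndepFun (fun ω t => (B ω t).re) (fun ω t => (B ω t).im) P) : P.map B = W := by
  have := h.prob
  have := h1.isGaussianProcess.isProbabilityMeasure
  apply ext_reim
  have m1 : Measurable fun ω t => (B ω t).re := measurable_re.comp hB
  have m2 : Measurable fun ω t => (B ω t).im := measurable_im.comp hB
  rw [Measure.map_map measurable_reim hB]
  have e1 := h3.map_prod_eq_prod_map_map m1.aemeasurable m2.aemeasurable
  have e2 := h.indep.map_prod_eq_prod_map_map measurable_re.aemeasurable measurable_im.aemeasurable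
  rw [law_unique h1 h.re.toIsPreBrownianReal m1 measurable_re,
    law_unique h2 h.im.toIsPreBrownianReal m2 measurable_im, ← e2] at e1
  exact e1

theorem IsWiener.indep_incr (h : IsWiener W) (t : ℝ≥0) :
    Indep (MeasurableSpace.comap (incr t) pathMeasurableSpace) (past t) W := by
  have := h.prob
  have m : Measurable fun (f : ℝ≥0 → ℝ) =>
      ((fun s => f (t + s) - f t : ℝ≥0 → ℝ), (fun s : Iic t => f s)) := by fun_prop
  have h0 := h.indep.comp m m
  have h1 := h.re.toIsPreBrownianReal.indepFun_shift t
  have h2 := h.im.toIsPreBrownianReal.indepFun_shift t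
  have h3 := indep_swap (m.fst.comp measurable_re) (m.snd.comp measurable_re)
    (m.fst.comp measurable_im) (m.snd.comp measurable_im) h0 h1 h2
  rw [IndepFun_iff_Indep] at h3
  refine indep_of_indep_of_le_right (indep_of_indep_of_le_left h3 ?_) ?_
  · refine (MeasurableSpace.comap_mono le_comap_reim).trans (le_of_eq ?_)
    rw [MeasurableSpace.comap_comp]
    congr 1
  · refine iSup_le fun s => Measurable.comap_le ?_
    have h4 : Measurable fun p : (Iic t → ℝ) × (Iic t → ℝ) =>
        ((p.1 s : ℂ) + (p.2 s : ℂ) * Complex.I) := by fun_prop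
    have h5 := h4.comp (comap_measurable (fun w : Path =>
      ((fun s : Iic t => (w s).re), (fun s : Iic t => (w s).im))))
    have e : (fun w : Path => w s) = (fun p : (Iic t → ℝ) × (Iic t → ℝ) =>
        ((p.1 s : ℂ) + (p.2 s : ℂ) * Complex.I)) ∘ fun w : Path =>
          ((fun s : Iic t => (w s).re), (fun s : Iic t => (w s).im)) :=
      funext fun w => (Complex.re_add_im (w s)).symm
    rw [e]
    exact h5


theorem IsWiener.gauss (h : IsWiener W) : IsGaussianProcess
    (Sum.elim (fun t (ω : Path) => (ω t).re) (fun t (ω : Path) => (ω t).im)) W where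
  hasGaussianLaw I := by
    classical
    let J : Finset ℝ≥0 := I.image (Sum.elim id id)
    have hm : Measurable fun f : ℝ≥0 → ℝ => J.restrict f := Finset.measurable_restrict J
    have h1 := (h.indep.comp hm hm).hasGaussianLaw (h.re.isGaussianProcess.hasGaussianLaw J)
      (h.im.isGaussianProcess.hasGaussianLaw J)
    let L : ((J → ℝ) × (J → ℝ)) →L[ℝ] (I → ℝ) := ContinuousLinearMap.pi fun i =>
      match i with
      | ⟨Sum.inl t, ht⟩ => (ContinuousLinearMap.proj (R := ℝ) (φ := fun _ : J => ℝ)
          ⟨t, Finset.mem_image.mpr ⟨_, ht, rfl⟩⟩).comp (ContinuousLinearMap.fst ℝ _ _)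
      | ⟨Sum.inr t, ht⟩ => (ContinuousLinearMap.proj (R := ℝ) (φ := fun _ : J => ℝ)
          ⟨t, Finset.mem_image.mpr ⟨_, ht, rfl⟩⟩).comp (ContinuousLinearMap.snd ℝ _ _)
    have h2 := h1.map_of_measurable L L.continuous.measurable
    refine h2.congr (Eventually.of_forall fun ω => ?_)
    funext i
    rcases i with ⟨t | t, ht⟩ <;> rfl

theorem IsWiener.gauss_comb (h : IsWiener W) {S : Type*} (a b : S → ℝ) (t : S → ℝ≥0) :
    IsGaussianProcess (fun s (ω : Path) => a s * (ω (t s)).re + b s * (ω (t s)).im) W := by
  classical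
  refine h.gauss.of_isGaussianProcess fun s => ⟨{Sum.inl (t s), Sum.inr (t s)},
    { toFun x := a s * x ⟨Sum.inl (t s), by simp⟩ + b s * x ⟨Sum.inr (t s), by simp⟩
      map_add' x y := by simp; ring
      map_smul' c x := by simp; ring }, fun ω => rfl⟩

theorem IsWiener.cov_comb (h : IsWiener W) (a b c d : ℝ) (s t : ℝ≥0) :
    cov[fun ω : Path => a * (ω s).re + b * (ω s).im, fun ω : Path => c * (ω t).re + d * (ω t).im; W]
      = (a * c + b * d) * (min s t : ℝ≥0) := by
  have := h.prob
  have r : ∀ u, MemLp (fun ω : Path => (ω u).re) 2 W := fun u =>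
    (h.re.isGaussianProcess.hasGaussianLaw_eval u).memLp_two
  have i : ∀ u, MemLp (fun ω : Path => (ω u).im) 2 W := fun u =>
    (h.im.isGaussianProcess.hasGaussianLaw_eval u).memLp_two
  have z : ∀ u v, cov[fun ω : Path => (ω u).re, fun ω : Path => (ω v).im; W] = 0 := fun u v =>
    (h.indep.comp (measurable_pi_apply u) (measurable_pi_apply v)).covariance_eq_zero (r u) (i v)
  have e1 := covariance_add_left ((r s).const_mul a) ((i s).const_mul b)
    (((r t).const_mul c).add ((i t).const_mul d))
  rw [covariance_add_right ((r s).const_mul a) ((r t).const_mul c) ((i t).const_mul d),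
    covariance_add_right ((i s).const_mul b) ((r t).const_mul c) ((i t).const_mul d)] at e1
  simp only [covariance_const_mul_left, covariance_const_mul_right] at e1
  rw [h.re.covariance_fun_eval, h.im.covariance_fun_eval, z,
    covariance_comm (fun ω : Path => (ω s).im), z] at e1
  refine Eq.trans e1 ?_
  ring

theorem IsWiener.pre_comb (h : IsWiener W) {a b : ℝ} (hab : a * a + b * b = 1) :
    IsPreBrownianReal (fun t (ω : Path) => a * (ω t).re + b * (ω t).im) W := by
  refine (h.gauss_comb (fun _ => a) (fun _ => b) fun t => t).isPreBrownianReal_of_covariance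
    (fun t => ?_) fun s t hst => ?_
  · rw [integral_add ((h.re.integrable_eval t).const_mul a) ((h.im.integrable_eval t).const_mul b),
      integral_const_mul, integral_const_mul, h.re.integral_eval, h.im.integral_eval]
    simp
  · rw [h.cov_comb, hab, one_mul, min_eq_left hst]

theorem IsWiener.indep_comb (h : IsWiener W) {a b c d : ℝ} (h0 : a * c + b * d = 0) :
    IndepFun (fun (ω : Path) t => a * (ω t).re + b * (ω t).im)
      (fun (ω : Path) t => c * (ω t).re + d * (ω t).im) W := by
  refine IsGaussianProcess.indepFun_of_covariance_eq_zero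
    (X := fun t (ω : Path) => a * (ω t).re + b * (ω t).im)
    (Y := fun t (ω : Path) => c * (ω t).re + d * (ω t).im) ?_
    (fun t => (h.gauss_comb (fun _ => a) (fun _ => b) id).aemeasurable t)
    (fun t => (h.gauss_comb (fun _ => c) (fun _ => d) id).aemeasurable t) fun s t => ?_
  · have := h.gauss_comb (S := ℝ≥0 ⊕ ℝ≥0) (Sum.elim (fun _ => a) fun _ => c)
      (Sum.elim (fun _ => b) fun _ => d) (Sum.elim id id)
    convert this using 2 with s
    rcases s with s | s <;> rfl
  · rw [h.cov_comb, h0, zero_mul]

theorem IsWiener.unique (h : IsWiener W) (h' : IsWiener W') : W = W' := by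
  have := h'.map_eq measurable_id h.re.toIsPreBrownianReal h.im.toIsPreBrownianReal h.indep
  simpa using this

theorem IsWiener.ae_zero (h : IsWiener W) : ∀ᵐ ω ∂W, ω 0 = 0 := by
  filter_upwards [h.re.toIsPreBrownianReal.eval_zero_ae_eq_zero,
    h.im.toIsPreBrownianReal.eval_zero_ae_eq_zero] with w h1 h2
  exact Complex.ext h1 h2

/-- rotations and reflections: every linear isometry of the plane preserves the law -/
theorem IsWiener.map_isometry (h : IsWiener W) (L : ℂ ≃ₗᵢ[ℝ] ℂ) :
    W.map (fun ω : Path => (⟨fun t => L (ω t), by fun_prop⟩ : Path)) = W := by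
  have hL : ∀ z : ℂ, L z = z.re • L 1 + z.im • L Complex.I := by
    intro z
    rw [← map_smul, ← map_smul, ← map_add]
    congr 1
    apply Complex.ext <;> simp
  have n1 : (L 1).re * (L 1).re + (L 1).im * (L 1).im = 1 := by
    rw [← Complex.normSq_apply, Complex.normSq_eq_norm_sq, L.norm_map]; simp
  have n2 : (L Complex.I).re * (L Complex.I).re + (L Complex.I).im * (L Complex.I).im = 1 := by
    rw [← Complex.normSq_apply, Complex.normSq_eq_norm_sq, L.norm_map]; simp
  have n3 : (L 1).re * (L Complex.I).re + (L 1).im * (L Complex.I).im = 0 := by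
    have := L.inner_map_map 1 Complex.I
    simp only [Complex.inner, Complex.mul_re, Complex.conj_re, Complex.conj_im] at this
    simp only [Complex.I_re, Complex.I_im, Complex.one_re, Complex.one_im] at this
    linarith
  set a := (L 1).re
  set b := (L 1).im
  set c := (L Complex.I).re
  set d := (L Complex.I).im
  have hdet : (a * d - b * c) ^ 2 = 1 := by
    linear_combination (c * c + d * d) * n1 + n2 - (a * c + b * d) * n3
  have k1 : a = (a * d - b * c) * d := by linear_combination (-a) * n2 + c * n3
  have k2 : b = -((a * d - b * c) * c) := by linear_combination (-b) * n2 + d * n3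
  have m1 : a * a + c * c = 1 := by
    linear_combination (a + (a * d - b * c) * d) * k1 + d * d * hdet + n2
  have m2 : b * b + d * d = 1 := by linear_combination n1 + n2 - m1
  have m3 : a * b + c * d = 0 := by
    linear_combination b * k1 + (a * d - b * c) * d * k2 - c * d * hdet
  have er : ∀ z : ℂ, (L z).re = a * z.re + c * z.im := by
    intro z; rw [hL z]; simp [a, c]; ring
  have ei : ∀ z : ℂ, (L z).im = b * z.re + d * z.im := by
    intro z; rw [hL z]; simp [b, d]; ring
  refine h.map_eq (measurable_path_iff.mpr fun t =>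
    L.continuous.measurable.comp (measurable_evalAt t)) ?_ ?_ ?_
  · simpa only [ContinuousMap.coe_mk, er] using h.pre_comb m1
  · simpa only [ContinuousMap.coe_mk, ei] using h.pre_comb m2
  · simpa only [ContinuousMap.coe_mk, er, ei] using h.indep_comb m3

/-- Brownian scaling -/
theorem IsWiener.map_scale (h : IsWiener W) {c : ℝ≥0} (hc : c ≠ 0) :
    W.map (fun ω : Path => (⟨fun t => ((√c)⁻¹ : ℝ) • ω (c * t), by fun_prop⟩ : Path)) = W := by
  refine h.map_eq (measurable_path_iff.mpr fun t =>
    (measurable_evalAt (c * t)).const_smul ((√c)⁻¹ : ℝ)) ?_ ?_ ?_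
  · simpa only [ContinuousMap.coe_mk, Complex.smul_re, smul_eq_mul] using
      h.re.toIsPreBrownianReal.smul hc
  · simpa only [ContinuousMap.coe_mk, Complex.smul_im, smul_eq_mul] using
      h.im.toIsPreBrownianReal.smul hc
  · have m : Measurable fun (f : ℝ≥0 → ℝ) s => (√c)⁻¹ * f (c * s) := by fun_prop
    simpa only [Function.comp_def, ContinuousMap.coe_mk, Complex.smul_re, Complex.smul_im,
      smul_eq_mul] using h.indep.comp m m

theorem IsWiener.map_incr (h : IsWiener W) (t : ℝ≥0) : W.map (incr t) = W := by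
  refine h.map_eq (measurable_incr t) ?_ ?_ ?_
  · simpa using h.re.toIsPreBrownianReal.shift t
  · simpa using h.im.toIsPreBrownianReal.shift t
  · have m : Measurable fun (f : ℝ≥0 → ℝ) s => f (t + s) - f t := by fun_prop
    simpa [Function.comp_def] using h.indep.comp m m

/-- weak Markov property -/
theorem IsWiener.isFBM (h : IsWiener W) (x : ℂ) : IsFBM W filt (start x) W := by
  refine ⟨h, h.prob, fun t => (measurable_past_eval le_rfl).const_add x, fun t A S hA hS => ?_⟩
  have := h.prob
  simp only [incr_start]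
  have h1 := (Indep_iff _ _ _).mp (h.indep_incr t) _ _ ⟨S, hS, rfl⟩ hA
  rw [← Measure.map_apply (measurable_incr t) hS, h.map_incr, inter_comm, mul_comm] at h1
  exact h1

theorem IsWiener.prob_Px (h : IsWiener W) (x : ℂ) : IsProbabilityMeasure (Px W x) := by
  have := h.prob
  exact Measure.isProbabilityMeasure_map (measurable_start x).aemeasurable

theorem IsWiener.isFBM_Px (h : IsWiener W) (x : ℂ) : IsFBM W filt id (Px W x) := by
  refine ⟨h, h.prob_Px x, fun t => measurable_past_eval le_rfl, fun t A S hA hS => ?_⟩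
  have h1 := (h.isFBM x).markov t _ S (measurable_start_past x t hA) hS
  have hA' : MeasurableSet A := past_le t A hA
  rw [Px, Measure.map_apply (measurable_start x) hA']
  exact (Measure.map_apply (measurable_start x) (hA'.inter (measurable_incr t hS))).trans h1

theorem IsWiener.ae_Px_zero (h : IsWiener W) (x : ℂ) : ∀ᵐ ω ∂(Px W x), ω 0 = x := by
  rw [Px, ae_map_iff (measurable_start x).aemeasurable
    (measurableSet_eq_fun (measurable_evalAt 0) measurable_const)]
  filter_upwards [h.ae_zero] with w hw
  simp [hw]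

theorem IsWiener.measurable_Px (h : IsWiener W) : Measurable (Px W) := by
  have := h.prob
  refine Measure.measurable_of_measurable_coe _ fun S hS => ?_
  have h1 : Measurable fun p : ℂ × Path => start p.1 p.2 := continuous_start.measurable
  have h2 := measurable_measure_prodMk_left (ν := W) (h1 hS)
  convert h2 using 2 with x
  rw [Px, Measure.map_apply (measurable_start x) hS]
  rfl

/-- the one-dimensional law -/
theorem IsWiener.map_eval (h : IsWiener W) (t : ℝ≥0) : W.map (fun ω : Path => ω t) =
    ((gaussianReal 0 t).prod (gaussianReal 0 t)).map Complex.measurableEquivRealProd.symm := by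
  have := h.prob
  have m1 : Measurable fun ω : Path => (ω t).re := Complex.measurable_re.comp (measurable_evalAt t)
  have m2 : Measurable fun ω : Path => (ω t).im := Complex.measurable_im.comp (measurable_evalAt t)
  have h1 := (h.indep.comp (measurable_pi_apply t)
    (measurable_pi_apply t)).map_prod_eq_prod_map_map m1.aemeasurable m2.aemeasurable
  have h2 := (h.re.hasLaw_eval t).map_eq
  have h3 := (h.im.hasLaw_eval t).map_eq
  change W.map (fun ω : Path => ((ω t).re, (ω t).im)) =
    (W.map fun ω : Path => (ω t).re).prod (W.map fun ω : Path => (ω t).im) at h1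
  rw [h2, h3] at h1
  rw [← h1, Measure.map_map Complex.measurableEquivRealProd.symm.measurable (m1.prodMk m2)]
  rfl

theorem Px_zero (W : Measure Path) : Px W 0 = W := by
  have : start 0 = id := funext fun ω => by ext s; simp
  rw [Px, this, Measure.map_id]

theorem lintegral_Px (W : Measure Path) (x : ℂ) {f : Path → ℝ≥0∞} (hf : Measurable f) :
    ∫⁻ w, f w ∂Px W x = ∫⁻ w, f (start x w) ∂W := lintegral_map hf (measurable_start x)

theorem integral_Px {E : Type*} [NormedAddCommGroup E] [NormedSpace ℝ E] (W : Measure Path) (x : ℂ)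
    {f : Path → E} (hf : StronglyMeasurable f) : ∫ w, f w ∂Px W x = ∫ w, f (start x w) ∂W :=
  integral_map (measurable_start x).aemeasurable hf.aestronglyMeasurable

end Pool.Agent.Lib.MP_0d9445_pr.BM
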